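import Mathlib
import Pool.Agent.H604.LD.Stm
import Pool.Agent.H290.CT.Base

/-!
# Wilson primes of `F_q[t]`, `q` a power of three (helper6): statements of the parts

`K` is a finite field of characteristic three.  A monic irreducible polynomial `P` of degree `n` is a
Wilson prime (`P ^ 2` divides `1 + ∏ a`, `a ≠ 0` of degree `< n`) iff `P'' = 0`.  We count the primes in
the set `WA K n` of the monic `N` of degree `n` with `N'' = 0`.
`Mn K n`: the monic polynomials of degree `n`; `V K n`: the polynomials of degree `< n`; `mob`: the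
Moebius function; `Pz K z`, `BHW`, `bw`: sieve weights of `Pool/Agent/H604/LD/Stm.lean`.
-/

set_option autoImplicit false

namespace Pool.Agent.H6.W

open Polynomial
open scoped Classical
open Pool.Agent.H985.Chow (mob)
open Pool.Agent.H694.Typ (Mn PU Irn)
open Pool.Agent.H604.LD (BHW bw Pz S_bhw)
open Pool.Agent.H290.CT (V)

noncomputable section

/-- The exponent of the number of the monic `N` of degree `n` with `N'' = 0`. -/
def nu (n : ℕ) : ℕ := n - n / 3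

/-- The monic `N` of degree `n` with `N'' = 0`. -/
def WA (K : Type) [Field K] [Fintype K] (n : ℕ) : Finset K[X] :=
  (Mn K n).filter (fun N => derivative (derivative N) = 0)

/-- The number of the Wilson primes of degree `n`. -/
def Wn (K : Type) [Field K] [Fintype K] (n : ℕ) : ℕ :=
  ((Mn K n).filter (fun P => Irreducible P ∧
    P ^ 2 ∣ 1 + ∏ a ∈ (V K n).filter (fun a => a ≠ 0), a)).card

/-- The theorem. -/
def S_main : Prop :=
  ∀ (K : Type) [Field K] [Fintype K] [CharP K 3],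
    (∀ ε : ℝ, 0 < ε → ∃ n₀ : ℕ, ∀ n : ℕ, n₀ ≤ n → n % 3 ≠ 2 →
      |(n : ℝ) * (Wn K n : ℝ) / (Fintype.card K : ℝ) ^ nu n - 1| ≤ ε) ∧
    (∀ n : ℕ, n % 3 = 2 → Wn K n = 0)

/-- **WIL.**  The criterion of Thakur. -/
def S_wil : Prop :=
  ∀ (K : Type) [Field K] [Fintype K], (2 : K) ≠ 0 → ∀ (n : ℕ) (P : K[X]), P.Monic →
    P.natDegree = n → Irreducible P →
    (P ^ 2 ∣ 1 + ∏ a ∈ (V K n).filter (fun a => a ≠ 0), a ↔ derivative (derivative P) = 0)

/-! ### The lattice of the cofactors -/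

/-- The element of the lattice. -/
def dd {K : Type} [Field K] (F G : K[X] → K[X]) (M a b : K[X]) : K[X] := a ^ 3 * F M + b ^ 3 * G M

/-- `F M`, `G M` is a reduced basis over `K[X ^ 3]` of `{D : (M D)'' = 0}` for all squarefree monic
`M`. -/
def LB (K : Type) [Field K] (F G : K[X] → K[X]) : Prop :=
  ∀ M : K[X], M.Monic → Squarefree M →
    (F M).Monic ∧ (G M).Monic ∧ (M.natDegree + (F M).natDegree) % 3 = 0 ∧
    (M.natDegree + (G M).natDegree) % 3 = 1 ∧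
    (F M).natDegree + (G M).natDegree = M.natDegree + 1 ∧
    F M * derivative (G M) - derivative (F M) * G M = M ∧
    derivative (derivative (M * F M)) = 0 ∧ derivative (derivative (M * G M)) = 0 ∧
    (∀ D : K[X], derivative (derivative (M * D)) = 0 → ∃ a b : K[X], D = dd F G M a b)

/-- **LAT.**  There are reduced bases. -/
def S_lat : Prop :=
  ∀ (K : Type) [Field K] [Fintype K] [CharP K 3], ∃ F G : K[X] → K[X], LB K F G

/-- The squarefree monic `M` of degree `k` of type `(u, v)`. -/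
def Ty (K : Type) [Field K] [Fintype K] (F G : K[X] → K[X]) (k u v : ℕ) : Finset K[X] :=
  (Mn K k).filter (fun M => Squarefree M ∧ (F M).natDegree = u ∧ (G M).natDegree = v)

/-- The size of the box for `a`. -/
def bA (n k u : ℕ) : ℕ := if n % 3 = 0 then (n - k - u) / 3 else (n - k - u + 2) / 3

/-- The size of the box for `b`. -/
def bB (n k v : ℕ) : ℕ := if n % 3 = 0 then (n - k - v + 1) / 3 else (n - k - v) / 3

/-- The centre of the box for `a`. -/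
def cA (K : Type) [Field K] (n k u : ℕ) : K[X] := if n % 3 = 0 then X ^ bA n k u else 0

/-- The centre of the box for `b`. -/
def cB (K : Type) [Field K] (n k v : ℕ) : K[X] := if n % 3 = 0 then 0 else X ^ bB n k v

/-- **BOX.**  The monic `D` of degree `n - k` with `(M D)'' = 0`, `k = deg M`. -/
def S_box : Prop :=
  ∀ (K : Type) [Field K] [Fintype K] [CharP K 3] (F G : K[X] → K[X]), LB K F G →
    ∀ (n k u v : ℕ) (M : K[X]), M ∈ Ty K F G k u v → n % 3 ≠ 2 → k ≤ n → u ≤ n - k → v ≤ n - k →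
    (∀ Φ : K[X] → ℝ,
      ∑ D ∈ (Mn K (n - k)).filter (fun D => derivative (derivative (M * D)) = 0), Φ D =
        ∑ x ∈ V K (bA n k u), ∑ y ∈ V K (bB n k v),
          Φ (dd F G M (cA K n k u + x) (cB K n k v + y))) ∧
    bA n k u + bB n k v + k = nu n

/-- The quadratic residue symbol modulo an irreducible polynomial. -/
def leg {K : Type} [Field K] (f P : K[X]) : ℤ :=
  if P ∣ f then 0 else if ∃ y : K[X], P ∣ y ^ 2 - f then 1 else -1

/-- The Jacobi symbol `(f / g)`. -/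
def jac {K : Type} [Field K] (f g : K[X]) : ℤ :=
  ((UniqueFactorizationMonoid.normalizedFactors g).map (fun P => leg f P)).prod

/-- **MUF.**  The Moebius function on the lattice. -/
def S_muf : Prop :=
  ∀ (K : Type) [Field K] [Fintype K] [CharP K 3] (F G : K[X] → K[X]), LB K F G →
    ∀ (n k u v : ℕ), n % 3 ≠ 2 → k ≤ n →
    ∃ (θ : K[X] → K[X] → ℝ) (ξ κ : K[X] → ℝ),
      (∀ a b, |θ a b| ≤ 1) ∧ (∀ b, |ξ b| ≤ 1) ∧ (∀ M, |κ M| ≤ 1) ∧
      (∀ a b, b ≠ 0 → θ a b = ξ b * (jac a b : ℝ)) ∧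
      (∀ a b P, Irreducible P → P ∣ a → P ∣ b → θ a b = 0) ∧
      ∀ M ∈ Ty K F G k u v, ∀ a b : K[X], (dd F G M a b).Monic →
        (dd F G M a b).natDegree = n - k →
        (mob (dd F G M a b) : ℝ) = κ M * θ a b * (jac (dd F G M a b) M : ℝ)

/-- **PV.**  Polya-Vinogradov for additive subgroups, two squarefree moduli. -/
def S_pv : Prop :=
  ∀ (K : Type) [Field K] [Fintype K], (2 : K) ≠ 0 → ∀ (M₁ M₂ : K[X]), M₁.Monic → Squarefree M₁ →
    M₂.Monic → Squarefree M₂ → ∀ (H : Type) [AddCommGroup H] [Fintype H] (φ₁ φ₂ : H →+ K[X])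
      (c₁ c₂ : K[X]),
    |∑ h : H, (jac (c₁ + φ₁ h) M₁ : ℝ) * (jac (c₂ + φ₂ h) M₂ : ℝ)| ≤
      (((Finset.univ : Finset H).filter (fun h => M₁ ∣ φ₁ h ∧ M₂ ∣ φ₂ h)).card : ℝ) *
        (Fintype.card K : ℝ) ^ (((M₁.natDegree : ℝ) + M₂.natDegree) / 2)

/-- **PV1.**  Polya-Vinogradov for additive subgroups, arbitrary modulus `b ≠ 0`; `r` is the product
of the monic irreducible factors of `b`. -/
def S_pv1 : Prop :=
  ∀ (K : Type) [Field K] [Fintype K], (2 : K) ≠ 0 → ∀ b : K[X], b ≠ 0 →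
    ∀ (H : Type) [AddCommGroup H] [Fintype H] (φ : H →+ K[X]) (c : K[X]),
    |∑ h : H, (jac (c + φ h) b : ℝ)| ≤
      (((Finset.univ : Finset H).filter (fun h => ∀ P : K[X], Irreducible P → P ∣ b →
        P ∣ φ h)).card : ℝ) * (Fintype.card K : ℝ) ^ ((b.natDegree : ℝ) / 2)

/-! ### Counting -/

/-- **KER.**  The kernels. -/
def S_ker : Prop :=
  ∀ (K : Type) [Field K] [Fintype K] [CharP K 3] (F G : K[X] → K[X]), LB K F G →
    (∀ M D : K[X], M.Monic → Squarefree M → derivative (derivative (M * D)) = 0 → M ∣ D →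
      M ^ 2 ∣ D) ∧
    (∀ (k u v α β L : ℕ), 3 * α + u ≤ 2 * k + L + 2 → 3 * β + v ≤ 2 * k + L + 2 →
      (∀ M ∈ Ty K F G k u v,
        ((V K α ×ˢ V K β).filter (fun e => M ∣ dd F G M e.1 e.2)).card ≤ Fintype.card K ^ L) ∧
      (∀ x ∈ V K α, ∀ y ∈ V K β, (x ≠ 0 ∨ y ≠ 0) →
        ((Ty K F G k u v).filter (fun M => M ∣ dd F G M x y)).card ≤
          Fintype.card K ^ (max u v + L + k / 3 + 3)))

/-- **UNB.**  The unbalanced types are rare. -/
def S_unb : Prop :=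
  ∀ (K : Type) [Field K] [Fintype K] [CharP K 3] (F G : K[X] → K[X]), LB K F G →
    ∀ k u v : ℕ, (Ty K F G k u v).card * Fintype.card K ^ ((max u v - min u v) / 3) ≤
      Fintype.card K ^ (k + 1)

/-- **CLS.**  The types in a projective class modulo `P`. -/
def S_cls : Prop :=
  ∀ (K : Type) [Field K] [Fintype K] [CharP K 3] (F G : K[X] → K[X]), LB K F G →
    ∀ (k u v : ℕ) (P a b : K[X]), P.Monic → Irreducible P → P.natDegree ≤ u → P.natDegree ≤ v →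
      ¬ (P ∣ a ∧ P ∣ b) →
      ((Ty K F G k u v).filter (fun M => P ∣ dd F G M a b)).card ≤
        Fintype.card K ^ (k + 1 - P.natDegree)

/-- **BIL.**  The bilinear estimate. -/
def S_bil : Prop :=
  ∀ (K : Type) [Field K] [Fintype K] [CharP K 3] (F G : K[X] → K[X]), LB K F G →
    ∀ (k u v α β L : ℕ) (P a₀ b₀ : K[X]) (S : Finset K[X]) (Q : K[X] → K[X]) (c : K[X] → ℝ)
      (θ : K[X] → K[X] → ℝ), P.Monic →
      (P = 1 ∨ (Irreducible P ∧ ∀ a b, P ∣ a → P ∣ b → θ a b = 0)) →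
      P.natDegree ≤ u → P.natDegree ≤ v →
      3 * α + u ≤ 2 * k + L + 2 → 3 * β + v ≤ 2 * k + L + 2 → S ⊆ Ty K F G k u v →
      (∀ M, |c M| ≤ 1) → (∀ a b, |θ a b| ≤ 1) →
      (∑ M ∈ S, ∑ x ∈ V K α, ∑ y ∈ V K β,
        if P ∣ dd F G M (a₀ + x) (b₀ + y) ∧ Q M ∣ dd F G M (a₀ + x) (b₀ + y) then
          c M * θ (a₀ + x) (b₀ + y) * (jac (dd F G M (a₀ + x) (b₀ + y)) M : ℝ) else 0) ^ 2 ≤
        2 * (Fintype.card K : ℝ) ^ (α + β + k) *
          ((Fintype.card K : ℝ) ^ (2 * k + 1 - P.natDegree) +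
            (Fintype.card K : ℝ) ^ (k + 2 * L + max u v + k / 3 + 3))

/-! ### The sums over divisors -/

/-- The sum over the divisors of degree `l` of the squarefree members of `WA K n`. -/
def Nn (K : Type) [Field K] [Fintype K] (n l z : ℕ) (w : Finset K[X] → ℝ) : ℝ :=
  ∑ N ∈ (WA K n).filter (fun N => Squarefree N), bw z w N *
    ∑ D ∈ (Mn K l).filter (fun D => D ∣ N), (mob D : ℝ)

/-- **SWAP.**  The sum in terms of the cofactor. -/
def S_swap : Prop :=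
  ∀ (K : Type) [Field K] [Fintype K] [CharP K 3] (n l z : ℕ) (w : Finset K[X] → ℝ), l ≤ n →
    Nn K n l z w = ∑ M ∈ (Mn K (n - l)).filter (fun M => Squarefree M),
      ∑ D ∈ (Mn K l).filter (fun D => derivative (derivative (M * D)) = 0),
        (mob D : ℝ) * bw z w (M * D)

/-- **FAR2A.**  Very large divisors. -/
def S_far2a : Prop :=
  ∀ (K : Type) [Field K] [Fintype K] [CharP K 3] (A : ℕ) (C κ : ℝ), 0 < κ → κ ≤ 1 / 100000 →
    ∃ θ : ℝ, 0 < θ ∧ ∃ n₀ : ℕ, ∀ (n l z : ℕ) (w : Finset K[X] → ℝ), n₀ ≤ n → n % 3 ≠ 2 →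
      BHW K z A C w → 16 * ((A * z : ℕ) : ℝ) ≤ κ * n → l ≤ n → 15 * (n - l) ≤ n →
      |Nn K n l z w| ≤ (Fintype.card K : ℝ) ^ ((nu n : ℝ) - θ * n)

/-- **FAR2B.**  Large divisors. -/
def S_far2b : Prop :=
  ∀ (K : Type) [Field K] [Fintype K] [CharP K 3] (A : ℕ) (C κ : ℝ), 0 < κ → κ ≤ 1 / 100000 →
    ∃ θ : ℝ, 0 < θ ∧ ∃ n₀ : ℕ, ∀ (n l z : ℕ) (w : Finset K[X] → ℝ), n₀ ≤ n → n % 3 ≠ 2 →
      BHW K z A C w → 16 * ((A * z : ℕ) : ℝ) ≤ κ * n → l ≤ n → n < 15 * (n - l) →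
      (2 / 3 + κ) * n ≤ l →
      |Nn K n l z w| ≤ (Fintype.card K : ℝ) ^ ((nu n : ℝ) - θ * n)

/-- The primes of degree between `r₀` and `r₁`. -/
def PP (K : Type) [Field K] [Fintype K] (r₀ r₁ : ℕ) : Finset K[X] :=
  (Finset.Icc r₀ r₁).biUnion (fun r => Irn K r)

/-- **GOOD.**  Divisors near the critical degree: the cofactor `M` has a prime factor of suitable
degree. -/
def S_good : Prop :=
  ∀ (K : Type) [Field K] [Fintype K] [CharP K 3] (A : ℕ) (C δ : ℝ), 0 < δ →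
    ∃ θ : ℝ, 0 < θ ∧ ∃ n₀ : ℕ, ∀ (n k z r₀ r₁ : ℕ) (w : Finset K[X] → ℝ), n₀ ≤ n → n % 3 ≠ 2 →
      BHW K z A C w → ((A * z : ℕ) : ℝ) ≤ θ * n → |(k : ℝ) - n / 3| ≤ θ * n →
      δ * n ≤ r₀ → r₀ ≤ r₁ → 200 * r₁ ≤ n → z < r₀ →
      |∑ M ∈ (Mn K k).filter (fun M => Squarefree M ∧ ∃ P ∈ PP K r₀ r₁, P ∣ M),
        ∑ D ∈ (Mn K (n - k)).filter (fun D => derivative (derivative (M * D)) = 0),
          (mob D : ℝ) * bw z w (M * D)| ≤ (Fintype.card K : ℝ) ^ ((nu n : ℝ) - θ * n)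

/-- **BAD.**  The cofactors without such a prime factor. -/
def S_bad : Prop :=
  ∀ (K : Type) [Field K] [Fintype K] [CharP K 3] (A : ℕ) (C : ℝ), 0 < C →
    ∀ (n k z r₀ r₁ : ℕ) (w : Finset K[X] → ℝ), n % 3 ≠ 2 → BHW K z A C w → z < r₀ → 1 ≤ z →
      2 * k + 2 * (A * z) + 1 ≤ n → A * z + 2 * r₁ ≤ k →
      (∑ P ∈ PP K r₀ r₁, 1 / (Fintype.card K : ℝ) ^ P.natDegree) *
      ∑ M ∈ (Mn K k).filter (fun M => Squarefree M ∧ ¬ ∃ P ∈ PP K r₀ r₁, P ∣ M),
        ∑ D ∈ (Mn K (n - k)).filter (fun D => derivative (derivative (M * D)) = 0),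
          |(mob D : ℝ) * bw z w (M * D)| ≤
        C / (z : ℝ) ^ 2 * (Fintype.card K : ℝ) ^ nu n

/-- **NEAR.**  The near sums. -/
def S_near : Prop :=
  ∀ (K : Type) [Field K] [Fintype K] [CharP K 3] (A : ℕ) (C ε : ℝ), 0 < C → 0 < ε →
    ∃ κ₀ : ℝ, 0 < κ₀ ∧ ∃ n₀ : ℕ,
    ∀ (n l z : ℕ) (w : Finset K[X] → ℝ), n₀ ≤ n → n % 3 ≠ 2 → 1 ≤ z → BHW K z A C w →
      ((A * z : ℕ) : ℝ) ≤ κ₀ * n → (z : ℝ) ≤ κ₀ * n → |(l : ℝ) - 2 * n / 3| ≤ κ₀ * n →
      |Nn K n l z w| ≤ ε * (Fintype.card K : ℝ) ^ nu n / (z : ℝ) ^ 2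

/-! ### The main term -/

/-- **DIV.**  The divisor bound. -/
def S_div : Prop :=
  ∀ (K : Type) [Field K] [Fintype K] (ε : ℝ), 0 < ε → ∃ n₀ : ℕ, ∀ n : ℕ, n₀ ≤ n →
    ∀ N : K[X], N ≠ 0 → N.natDegree ≤ n →
      (({D : K[X] | D.Monic ∧ D ∣ N}.ncard : ℝ)) ≤ (Fintype.card K : ℝ) ^ (ε * n)

/-- The number of the multiples of `Q` in `WA K n`. -/
def cnt (K : Type) [Field K] [Fintype K] (n : ℕ) (Q : K[X]) : ℕ :=
  ((WA K n).filter (fun N => Q ∣ N)).card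

/-- **IRR.**  The multiples of the squarefree polynomials of degree `d`, on average. -/
def S_irr : Prop :=
  ∀ (K : Type) [Field K] [Fintype K] [CharP K 3] (n d : ℕ), n % 3 ≠ 2 → d ≤ n →
    ∑ Q ∈ (Mn K d).filter (fun Q => Squarefree Q),
      |(cnt K n Q : ℝ) - (Fintype.card K : ℝ) ^ ((nu n : ℝ) - d)| ≤
      16 * ((n : ℝ) + 1) * (Fintype.card K : ℝ) ^ (d + 4)

/-- **GEN.**  The generating function of the main term.  `T` and `E` are sets of monic irreducible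
polynomials. -/
def S_gen : Prop :=
  ∀ (K : Type) [Field K] [Fintype K] (T E : Finset K[X]) (r J : ℕ) (c : ℝ),
    (∀ P ∈ T ∪ E, P.Monic ∧ Irreducible P) → ∑ P ∈ T ∪ E, P.natDegree ≤ r →
    |∑ j ∈ Finset.range (J + 1), (c - j) * ∑ D ∈ Mn K j, (mob D : ℝ) *
        ((∏ P ∈ T \ E, (1 / (Fintype.card K : ℝ) ^ P.natDegree)) *
          ∏ᶠ P ∈ {P : K[X] | P.Monic ∧ Irreducible P ∧ P ∣ D ∧ P ∉ T ∪ E},
            (1 / (Fintype.card K : ℝ) ^ P.natDegree)) -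
      (if T = ∅ ∧ E = ∅ then 1 else 0)| ≤
      100 * (|c| + J + 1) * (Fintype.card K : ℝ) ^ (4 * (r : ℝ) - J / 2)

/-- **FAR1.**  The main term. -/
def S_far1 : Prop :=
  ∀ (K : Type) [Field K] [Fintype K] [CharP K 3] (A : ℕ) (C κ : ℝ), 0 < κ → κ ≤ 1 / 100000 →
    ∃ θ : ℝ, 0 < θ ∧ ∃ n₀ : ℕ, ∀ (n J z : ℕ) (w : Finset K[X] → ℝ) (c : ℝ), n₀ ≤ n → n % 3 ≠ 2 →
      BHW K z A C w → 16 * ((A * z : ℕ) : ℝ) ≤ κ * n → n ≤ 2 * J → (J : ℝ) ≤ (2 / 3 - κ) * n →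
      |c| ≤ n →
      |∑ j ∈ Finset.range (J + 1), (c - j) * Nn K n j z w - (Fintype.card K : ℝ) ^ nu n| ≤
        (Fintype.card K : ℝ) ^ ((nu n : ℝ) - θ * n)

/-- **HID.**  The identity for the primes. -/
def S_hid : Prop :=
  ∀ (K : Type) [Field K] [Fintype K] (n : ℕ) (c : ℝ) (f : K[X]), 1 ≤ n → f.Monic → Squarefree f →
    f.natDegree = n →
    ∑ j ∈ Finset.range (n + 1), (c - j) * ∑ D ∈ (Mn K j).filter (fun D => D ∣ f), (mob D : ℝ) =
      if Irreducible f then (n : ℝ) else 0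

/-- **FIN.**  The assembly. -/
def S_fin : Prop :=
  S_wil → S_far1 → S_far2a → S_far2b → S_near → S_hid → S_bhw → S_main

end

end Pool.Agent.H6.W
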