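import Pool.Agent.H6.W.Stm

/-!
# The cofactors without a prime factor of suitable degree (`S_bad`)
-/

set_option autoImplicit false

namespace Pool.Agent.H6.W

open Polynomial
open scoped Classical
open Pool.Agent.H985.Chow (mob)
open Pool.Agent.H694.Typ (Mn PU Irn mem_Mn card_Mn card_dvd mem_Irn mem_PU coprime_of_ne)
open Pool.Agent.H604.LD (BHW bw Pz S_bhw wm)
open Pool.Agent.H985.KP (PA)
open Pool.Agent.H290.CT (V card_V)

noncomputable section

namespace BadX

/-- positivity of the weighted sums -/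
lemma bad_pos {α : Type*} (g : α → ℝ) (hg0 : ∀ a, 0 ≤ g a) (hg1 : ∀ a, g a ≤ 1)
    (S : Finset α) : ∀ w : Finset α → ℝ, (∀ B ⊆ S, 0 ≤ ∑ T ∈ B.powerset, w T) →
    0 ≤ ∑ T ∈ S.powerset, w T * ∏ P ∈ T, g P := by
  induction S using Finset.induction_on with
  | empty =>
    intro w hw
    have := hw ∅ (Finset.Subset.refl _)
    simpa using this
  | insert a S ha ih =>
    intro w hw
    rw [Finset.sum_powerset_insert ha]
    have h1 := ih w (fun B hB => hw B (hB.trans (Finset.subset_insert a S)))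
    have h2 := ih (fun T => w T + w (insert a T)) (fun B hB => by
      have haB : a ∉ B := fun h => ha (hB h)
      have h3 := hw (insert a B) (Finset.insert_subset_insert a hB)
      rw [Finset.sum_powerset_insert haB] at h3
      rw [Finset.sum_add_distrib]
      exact h3)
    have e1 : ∑ T ∈ S.powerset, w (insert a T) * ∏ P ∈ insert a T, g P =
        g a * ∑ T ∈ S.powerset, w (insert a T) * ∏ P ∈ T, g P := by
      rw [Finset.mul_sum]
      refine Finset.sum_congr rfl fun T hT => ?_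
      have haT : a ∉ T := fun h => ha (Finset.mem_powerset.1 hT h)
      rw [Finset.prod_insert haT]
      ring
    have e2 : ∑ T ∈ S.powerset, (w T + w (insert a T)) * ∏ P ∈ T, g P =
        ∑ T ∈ S.powerset, w T * ∏ P ∈ T, g P +
          ∑ T ∈ S.powerset, w (insert a T) * ∏ P ∈ T, g P := by
      rw [← Finset.sum_add_distrib]
      exact Finset.sum_congr rfl fun T _ => by ring
    rw [e2] at h2
    rw [e1]
    have h4 := mul_nonneg (hg0 a) h2
    have h5 := mul_nonneg (sub_nonneg.2 (hg1 a)) h1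
    linarith

variable {K : Type} [Field K] [Fintype K]

/-- the indicator of divisibility -/
def bi (P M : K[X]) : ℝ := if P ∣ M then 1 else 0

/-- a finite set of monic irreducible polynomials -/
def Prm (T : Finset K[X]) : Prop := ∀ P ∈ T, P.Monic ∧ Irreducible P

lemma Prm.sub {T S : Finset K[X]} (h : Prm S) (hTS : T ⊆ S) : Prm T := fun P hP => h P (hTS hP)

lemma Prm.monic {T : Finset K[X]} (h : Prm T) : (∏ P ∈ T, P).Monic :=
  monic_prod_of_monic _ _ fun P hP => (h P hP).1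

lemma Prm.deg {T : Finset K[X]} (h : Prm T) : (∏ P ∈ T, P).natDegree = ∑ P ∈ T, P.natDegree :=
  natDegree_prod_of_monic _ _ fun P hP => (h P hP).1

lemma Prm.dvd {T : Finset K[X]} (h : Prm T) (M : K[X]) : (∏ P ∈ T, P) ∣ M ↔ ∀ P ∈ T, P ∣ M := by
  constructor
  · intro h1 P hP
    exact (Finset.dvd_prod_of_mem _ hP).trans h1
  · intro h1
    refine Finset.prod_dvd_of_coprime ?_ h1
    intro P hP Q hQ hPQ
    exact coprime_of_ne (h P hP).1 (h P hP).2 (h Q hQ).1 (h Q hQ).2 hPQ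

lemma bi_prod (T : Finset K[X]) (M : K[X]) :
    ∏ P ∈ T, bi P M = if ∀ P ∈ T, P ∣ M then 1 else 0 := by
  unfold bi
  rw [Finset.prod_ite_zero]
  simp

lemma wt_prod {T : Finset K[X]} : ∏ P ∈ T, (1 / (Fintype.card K : ℝ) ^ P.natDegree) =
    1 / (Fintype.card K : ℝ) ^ (∑ P ∈ T, P.natDegree) := by
  rw [Finset.prod_div_distrib, Finset.prod_const_one, Finset.prod_pow_eq_pow_sum]

lemma qpos : (0 : ℝ) < (Fintype.card K : ℝ) := by
  have := Fintype.card_pos (α := K)
  exact_mod_cast this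

/-- independence, indicator functions -/
lemma indep1 {k : ℕ} {R : Finset K[X]} (hR : Prm R) (hd : ∑ P ∈ R, P.natDegree ≤ k) :
    ∑ M ∈ Mn K k, ∏ P ∈ R, bi P M =
      (Fintype.card K : ℝ) ^ k * ∏ P ∈ R, (1 / (Fintype.card K : ℝ) ^ P.natDegree) := by
  have hq := qpos (K := K)
  have h1 : ∀ M ∈ Mn K k, ∏ P ∈ R, bi P M = if (∏ P ∈ R, P) ∣ M then (1 : ℝ) else 0 := by
    intro M _
    rw [bi_prod]
    congr 1
    exact propext (hR.dvd M).symm
  rw [Finset.sum_congr rfl h1, ← Finset.sum_filter, Finset.sum_const, nsmul_eq_mul, mul_one,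
    card_dvd hR.monic (by rw [hR.deg]; exact hd), hR.deg, wt_prod, Nat.cast_pow,
    pow_sub₀ _ hq.ne' hd, one_div]

/-- independence -/
lemma indep2 {k : ℕ} (a b : K[X] → ℝ) (T : Finset K[X]) : ∀ R : Finset K[X], Prm T → Prm R →
    Disjoint T R → ∑ P ∈ T, P.natDegree + ∑ P ∈ R, P.natDegree ≤ k →
    ∑ M ∈ Mn K k, (∏ P ∈ T, (a P + b P * bi P M)) * ∏ P ∈ R, bi P M =
      (Fintype.card K : ℝ) ^ k * (∏ P ∈ T, (a P + b P * (1 / (Fintype.card K : ℝ) ^ P.natDegree))) *
        ∏ P ∈ R, (1 / (Fintype.card K : ℝ) ^ P.natDegree) := by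
  induction T using Finset.induction_on with
  | empty =>
    intro R _ hR _ hd
    simp only [Finset.prod_empty, one_mul, mul_one, Finset.sum_empty, zero_add] at hd ⊢
    exact indep1 hR hd
  | insert Q T hQ ih =>
    intro R hT hR hdis hd
    rw [Finset.sum_insert hQ] at hd
    rw [Finset.disjoint_insert_left] at hdis
    have hT' : Prm T := hT.sub (Finset.subset_insert Q T)
    have h1 := ih R hT' hR hdis.2 (by omega)
    have hR' : Prm (insert Q R) := by
      intro P hP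
      rcases Finset.mem_insert.1 hP with rfl | h
      · exact hT P (Finset.mem_insert_self _ _)
      · exact hR P h
    have h2 := ih (insert Q R) hT' hR' (by
      rw [Finset.disjoint_insert_right]
      exact ⟨hQ, hdis.2⟩) (by
      rw [Finset.sum_insert hdis.1]
      omega)
    rw [Finset.prod_insert hdis.1] at h2
    have e : ∀ M ∈ Mn K k, (∏ P ∈ insert Q T, (a P + b P * bi P M)) * ∏ P ∈ R, bi P M =
        a Q * ((∏ P ∈ T, (a P + b P * bi P M)) * ∏ P ∈ R, bi P M) +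
          b Q * ((∏ P ∈ T, (a P + b P * bi P M)) * ∏ P ∈ insert Q R, bi P M) := by
      intro M _
      rw [Finset.prod_insert hQ, Finset.prod_insert hdis.1]
      ring
    rw [Finset.sum_congr rfl e, Finset.sum_add_distrib, ← Finset.mul_sum, ← Finset.mul_sum, h1, h2,
      Finset.prod_insert hQ]
    ring

/-- the variance -/
lemma bad_var {k : ℕ} (a b : K[X] → ℝ) (T S : Finset K[X]) (hT : Prm T) (hS : Prm S)
    (hdis : Disjoint T S) (r : ℕ) (hr : ∀ P ∈ S, P.natDegree ≤ r)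
    (hd : ∑ P ∈ T, P.natDegree + 2 * r ≤ k) :
    ∑ M ∈ Mn K k, (∑ P ∈ S, bi P M - ∑ P ∈ S, (1 / (Fintype.card K : ℝ) ^ P.natDegree)) ^ 2 *
        ∏ P ∈ T, (a P + b P * bi P M) =
      (Fintype.card K : ℝ) ^ k * (∏ P ∈ T, (a P + b P * (1 / (Fintype.card K : ℝ) ^ P.natDegree))) *
        (∑ P ∈ S, (1 / (Fintype.card K : ℝ) ^ P.natDegree) -
          ∑ P ∈ S, (1 / (Fintype.card K : ℝ) ^ P.natDegree) ^ 2) := by
  set q : ℝ := (Fintype.card K : ℝ) with hq
  set G : ℝ := ∏ P ∈ T, (a P + b P * (1 / q ^ P.natDegree)) with hG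
  set Λ : ℝ := ∑ P ∈ S, (1 / q ^ P.natDegree) with hΛ
  have hz : ∑ M ∈ Mn K k, ∏ P ∈ T, (a P + b P * bi P M) = q ^ k * G := by
    have h := indep2 (k := k) a b T ∅ hT (fun P hP => absurd hP (Finset.notMem_empty P))
      (Finset.disjoint_empty_right _) (by simp; omega)
    simp only [Finset.prod_empty, mul_one] at h
    exact h
  have h1 : ∀ P ∈ S, ∑ M ∈ Mn K k, (∏ P ∈ T, (a P + b P * bi P M)) * bi P M =
      q ^ k * G * (1 / q ^ P.natDegree) := by
    intro P hP
    have h := indep2 (k := k) a b T {P} hT (hS.sub (Finset.singleton_subset_iff.2 hP))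
      (Finset.disjoint_singleton_right.2 fun h => Finset.disjoint_left.1 hdis h hP) (by
        rw [Finset.sum_singleton]
        have := hr P hP
        omega)
    simp only [Finset.prod_singleton] at h
    exact h
  have h2 : ∀ P ∈ S, ∀ Q ∈ S, P ≠ Q →
      ∑ M ∈ Mn K k, (∏ P ∈ T, (a P + b P * bi P M)) * (bi P M * bi Q M) =
        q ^ k * G * ((1 / q ^ P.natDegree) * (1 / q ^ Q.natDegree)) := by
    intro P hP Q hQ hPQ
    have hPQ' : P ∉ ({Q} : Finset K[X]) := by simpa using hPQ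
    have h := indep2 (k := k) a b T {P, Q} hT (hS.sub (by
      intro R hR
      rcases Finset.mem_insert.1 hR with rfl | h
      · exact hP
      · rw [Finset.mem_singleton.1 h]; exact hQ))
      (by
        rw [Finset.disjoint_right]
        intro R hR h
        rcases Finset.mem_insert.1 hR with rfl | h'
        · exact Finset.disjoint_left.1 hdis h hP
        · rw [Finset.mem_singleton.1 h'] at h
          exact Finset.disjoint_left.1 hdis h hQ) (by
        rw [Finset.sum_insert hPQ', Finset.sum_singleton]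
        have := hr P hP
        have := hr Q hQ
        omega)
    simp only [Finset.prod_insert hPQ', Finset.prod_singleton] at h
    exact h
  have hbb : ∀ P M : K[X], bi P M * bi P M = bi P M := by
    intro P M
    unfold bi
    split_ifs <;> simp
  have hsq : ∑ M ∈ Mn K k, (∑ P ∈ S, bi P M) ^ 2 * ∏ P ∈ T, (a P + b P * bi P M) =
      q ^ k * G * (Λ ^ 2 + Λ - ∑ P ∈ S, (1 / q ^ P.natDegree) ^ 2) := by
    have e1 : ∀ M ∈ Mn K k, (∑ P ∈ S, bi P M) ^ 2 * ∏ P ∈ T, (a P + b P * bi P M) =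
        ∑ P ∈ S, ∑ Q ∈ S, (∏ P ∈ T, (a P + b P * bi P M)) * (bi P M * bi Q M) := by
      intro M _
      rw [pow_two, Finset.sum_mul_sum, Finset.sum_mul]
      refine Finset.sum_congr rfl fun P _ => ?_
      rw [Finset.sum_mul]
      exact Finset.sum_congr rfl fun Q _ => by ring
    rw [Finset.sum_congr rfl e1, Finset.sum_comm]
    have e2 : ∀ P ∈ S, ∑ M ∈ Mn K k, ∑ Q ∈ S, (∏ P ∈ T, (a P + b P * bi P M)) * (bi P M * bi Q M) =
        q ^ k * G * ((1 / q ^ P.natDegree) * Λ + 1 / q ^ P.natDegree - (1 / q ^ P.natDegree) ^ 2) := by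
      intro P hP
      rw [Finset.sum_comm, ← Finset.add_sum_erase _ _ hP]
      have e3 : ∑ M ∈ Mn K k, (∏ P ∈ T, (a P + b P * bi P M)) * (bi P M * bi P M) =
          q ^ k * G * (1 / q ^ P.natDegree) := by
        rw [← h1 P hP]
        exact Finset.sum_congr rfl fun M _ => by rw [hbb]
      have e4 : ∑ Q ∈ S.erase P, ∑ M ∈ Mn K k,
          (∏ P ∈ T, (a P + b P * bi P M)) * (bi P M * bi Q M) =
          q ^ k * G * ((1 / q ^ P.natDegree) * (Λ - 1 / q ^ P.natDegree)) := by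
        rw [Finset.sum_congr rfl fun Q hQ => h2 P hP Q (Finset.mem_of_mem_erase hQ)
          (Finset.ne_of_mem_erase hQ).symm, ← Finset.mul_sum, ← Finset.mul_sum]
        congr 2
        rw [hΛ, ← Finset.add_sum_erase _ _ hP]
        ring
      rw [e3, e4]
      ring
    rw [Finset.sum_congr rfl e2, ← Finset.mul_sum, Finset.sum_sub_distrib, Finset.sum_add_distrib,
      ← Finset.sum_mul]
    rw [← hΛ]
    ring
  have hlin : ∑ M ∈ Mn K k, (∑ P ∈ S, bi P M) * ∏ P ∈ T, (a P + b P * bi P M) =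
      q ^ k * G * Λ := by
    have e1 : ∀ M ∈ Mn K k, (∑ P ∈ S, bi P M) * ∏ P ∈ T, (a P + b P * bi P M) =
        ∑ P ∈ S, (∏ P ∈ T, (a P + b P * bi P M)) * bi P M := by
      intro M _
      rw [Finset.sum_mul]
      exact Finset.sum_congr rfl fun Q _ => by ring
    rw [Finset.sum_congr rfl e1, Finset.sum_comm, Finset.sum_congr rfl h1, ← Finset.mul_sum]
  have e : ∀ M ∈ Mn K k, (∑ P ∈ S, bi P M - Λ) ^ 2 * ∏ P ∈ T, (a P + b P * bi P M) =
      (∑ P ∈ S, bi P M) ^ 2 * ∏ P ∈ T, (a P + b P * bi P M) -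
        2 * Λ * ((∑ P ∈ S, bi P M) * ∏ P ∈ T, (a P + b P * bi P M)) +
        Λ ^ 2 * ∏ P ∈ T, (a P + b P * bi P M) := by
    intro M _
    ring
  rw [Finset.sum_congr rfl e, Finset.sum_add_distrib, Finset.sum_sub_distrib, ← Finset.mul_sum,
    ← Finset.mul_sum, hsq, hlin, hz]
  ring

/-- the sieve weight -/
lemma bad_bw (z : ℕ) (w : Finset K[X] → ℝ) (f : K[X]) :
    bw z w f = ∑ T ∈ (Pz K z).powerset, w T * ∏ P ∈ T, bi P f := by
  unfold bw
  have e : ((Pz K z).filter (fun P => P ∣ f)).powerset =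
      (Pz K z).powerset.filter (fun T => ∀ P ∈ T, P ∣ f) := by
    ext T
    simp only [Finset.mem_powerset, Finset.mem_filter, Finset.subset_iff]
    constructor
    · intro h
      exact ⟨fun P hP => (h hP).1, fun P hP => (h hP).2⟩
    · rintro ⟨h1, h2⟩ P hP
      exact ⟨h1 hP, h2 P hP⟩
  rw [e, Finset.sum_filter]
  refine Finset.sum_congr rfl fun T _ => ?_
  rw [bi_prod]
  split_ifs <;> simp

lemma bad_prm (z : ℕ) : Prm (Pz K z) := by
  intro P hP
  have h := mem_PU.1 (Finset.mem_of_mem_erase hP)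
  exact ⟨h.1, h.2.1⟩

/-- the number of the multiples of a product of primes in the lattice -/
lemma bad_cnt [CharP K 3] (hbox : S_box) {F G : K[X] → K[X]} (hFG : LB K F G) {n k : ℕ}
    (hn : n % 3 ≠ 2) {M : K[X]} (hM : M ∈ Mn K k) (hsq : Squarefree M) {R : Finset K[X]}
    (hR : Prm R) (hRM : ∀ P ∈ R, ¬ P ∣ M) (hd : 2 * (k + ∑ P ∈ R, P.natDegree) + 1 ≤ n) :
    (((Mn K (n - k)).filter (fun D => derivative (derivative (M * D)) = 0 ∧
      (∏ P ∈ R, P) ∣ D)).card : ℝ) =
      (Fintype.card K : ℝ) ^ nu n / (Fintype.card K : ℝ) ^ k *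
        ∏ P ∈ R, (1 / (Fintype.card K : ℝ) ^ P.natDegree) := by
  have hq := qpos (K := K)
  obtain ⟨hMm, hMd⟩ := mem_Mn.1 hM
  set Q : K[X] := ∏ P ∈ R, P with hQ
  set e : ℕ := ∑ P ∈ R, P.natDegree with he
  have hQm : Q.Monic := hR.monic
  have hQd : Q.natDegree = e := hR.deg
  have hcop : IsCoprime M Q := IsCoprime.prod_right fun P hP =>
    (((hR P hP).2.coprime_iff_not_dvd).2 (hRM P hP)).symm
  have hQs : Squarefree Q := by
    rw [hQ]
    refine Finset.squarefree_prod_of_pairwise_isCoprime ?_ fun P hP => (hR P hP).2.squarefree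
    intro P hP P' hP' hne
    exact (coprime_of_ne (hR P hP).1 (hR P hP).2 (hR P' hP').1 (hR P' hP').2 hne).isRelPrime
  have hMQs : Squarefree (M * Q) := squarefree_mul_iff.2 ⟨hcop.isRelPrime, hsq, hQs⟩
  have hMQm : (M * Q).Monic := hMm.mul hQm
  have hMQd : (M * Q).natDegree = k + e := by rw [hMm.natDegree_mul hQm, hMd, hQd]
  obtain ⟨-, -, -, -, huv, -⟩ := hFG (M * Q) hMQm hMQs
  rw [hMQd] at huv
  have hTy : M * Q ∈ Ty K F G (k + e) (F (M * Q)).natDegree (G (M * Q)).natDegree := by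
    unfold Ty
    rw [Finset.mem_filter, mem_Mn]
    exact ⟨⟨hMQm, hMQd⟩, hMQs, rfl, rfl⟩
  obtain ⟨hb1, hb2⟩ := hbox K F G hFG n (k + e) _ _ (M * Q) hTy hn (by omega) (by omega) (by omega)
  have hb3 := hb1 (fun _ => 1)
  rw [Finset.sum_const, nsmul_eq_mul, mul_one, Finset.sum_const, nsmul_eq_mul, Finset.sum_const,
    nsmul_eq_mul, mul_one, card_V, card_V] at hb3
  have hcard : ((Mn K (n - (k + e))).filter
      (fun D => derivative (derivative (M * Q * D)) = 0)).card =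
      ((Mn K (n - k)).filter (fun D => derivative (derivative (M * D)) = 0 ∧ Q ∣ D)).card := by
    refine Finset.card_bij (fun D _ => Q * D) ?_ ?_ ?_
    · intro D hD
      rw [Finset.mem_filter, mem_Mn] at hD ⊢
      refine ⟨⟨hQm.mul hD.1.1, ?_⟩, ?_, dvd_mul_right _ _⟩
      · rw [hQm.natDegree_mul hD.1.1, hQd, hD.1.2]
        omega
      · rw [← mul_assoc]
        exact hD.2
    · intro D _ D' _ h
      exact mul_left_cancel₀ hQm.ne_zero h
    · intro D hD
      rw [Finset.mem_filter, mem_Mn] at hD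
      obtain ⟨⟨hD1, hD2⟩, hD3, D', rfl⟩ := hD
      have hD' : D'.Monic := hQm.of_mul_monic_left hD1
      refine ⟨D', ?_, rfl⟩
      rw [Finset.mem_filter, mem_Mn]
      rw [hQm.natDegree_mul hD', hQd] at hD2
      refine ⟨⟨hD', by omega⟩, ?_⟩
      rw [mul_assoc]
      exact hD3
  rw [← hcard, hb3, wt_prod, ← he, ← hb2]
  push_cast
  rw [pow_add, pow_add, pow_add]
  field_simp

/-- the local factor -/
def gm (P M : K[X]) : ℝ := 1 / (Fintype.card K : ℝ) ^ P.natDegree +
  (1 - 1 / (Fintype.card K : ℝ) ^ P.natDegree) * bi P M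

lemma gm_dvd {P M : K[X]} (h : P ∣ M) : gm P M = 1 := by
  unfold gm bi
  rw [if_pos h]
  ring

lemma gm_not {P M : K[X]} (h : ¬ P ∣ M) : gm P M = 1 / (Fintype.card K : ℝ) ^ P.natDegree := by
  unfold gm bi
  rw [if_neg h]
  ring

lemma wt_le (d : ℕ) : 1 / (Fintype.card K : ℝ) ^ d ≤ 1 := by
  have hq := Fintype.card_pos (α := K)
  have hq' : (1 : ℝ) ≤ (Fintype.card K : ℝ) := by exact_mod_cast hq
  rw [div_le_one (by positivity)]
  exact one_le_pow₀ hq'

lemma gm_bd (P M : K[X]) : 0 ≤ gm P M ∧ gm P M ≤ 1 := by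
  have hq := qpos (K := K)
  by_cases h : P ∣ M
  · rw [gm_dvd h]
    norm_num
  · rw [gm_not h]
    exact ⟨by positivity, wt_le _⟩

/-- the sum of the sieve weight over the lattice -/
lemma bad_h [CharP K 3] (hbox : S_box) {F G : K[X] → K[X]} (hFG : LB K F G) {n k z A : ℕ} {C : ℝ}
    {w : Finset K[X] → ℝ} (hn : n % 3 ≠ 2) (hw : BHW K z A C w) (hd : 2 * k + 2 * (A * z) + 1 ≤ n)
    {M : K[X]} (hM : M ∈ Mn K k) (hsq : Squarefree M) :
    ∑ D ∈ (Mn K (n - k)).filter (fun D => derivative (derivative (M * D)) = 0), bw z w (M * D) =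
      (Fintype.card K : ℝ) ^ nu n / (Fintype.card K : ℝ) ^ k *
        ∑ T ∈ (Pz K z).powerset, w T * ∏ P ∈ T, gm P M := by
  obtain ⟨-, -, hw3, -, -⟩ := hw
  rw [Finset.sum_congr rfl fun D _ => bad_bw z w (M * D), Finset.sum_comm, Finset.mul_sum]
  refine Finset.sum_congr rfl fun T hT => ?_
  by_cases hwT : w T = 0
  · simp [hwT]
  obtain ⟨hT1, hT2⟩ := hw3 T hwT
  have hTp : Prm T := (bad_prm z).sub hT1
  set R : Finset K[X] := T.filter (fun P => ¬ P ∣ M) with hR
  have hRp : Prm R := hTp.sub (Finset.filter_subset _ _)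
  have hRd : ∑ P ∈ R, P.natDegree ≤ A * z :=
    (Finset.sum_le_sum_of_subset (Finset.filter_subset _ _)).trans hT2
  have hc := bad_cnt hbox hFG hn hM hsq hRp (fun P hP => (Finset.mem_filter.1 hP).2) (n := n)
    (by omega)
  have e1 : ∀ D ∈ (Mn K (n - k)).filter (fun D => derivative (derivative (M * D)) = 0),
      w T * ∏ P ∈ T, bi P (M * D) = w T * (if (∏ P ∈ R, P) ∣ D then 1 else 0) := by
    intro D _
    rw [bi_prod]
    congr 2
    rw [hRp.dvd]
    apply propext
    constructor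
    · intro h P hP
      rw [hR, Finset.mem_filter] at hP
      exact ((hTp P hP.1).2.prime.dvd_or_dvd (h P hP.1)).resolve_left hP.2
    · intro h P hP
      by_cases hPM : P ∣ M
      · exact hPM.mul_right D
      · exact (h P (Finset.mem_filter.2 ⟨hP, hPM⟩)).mul_left M
  have e2 : ∏ P ∈ T, gm P M = ∏ P ∈ R, (1 / (Fintype.card K : ℝ) ^ P.natDegree) := by
    rw [hR, Finset.prod_filter]
    refine Finset.prod_congr rfl fun P _ => ?_
    by_cases h : P ∣ M
    · rw [if_neg (not_not.2 h), gm_dvd h]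
    · rw [if_pos h, gm_not h]
  rw [Finset.sum_congr rfl e1, ← Finset.mul_sum, ← Finset.sum_filter, Finset.filter_filter,
    Finset.sum_const, nsmul_eq_mul, mul_one, hc, e2]
  ring

end BadX

open BadX in
/-- **BAD.** -/
theorem bad (hlat : S_lat) (hbox : S_box) : S_bad := by
  intro K _ _ _ A C hC n k z r₀ r₁ w hn hw hzr hz hd hA
  obtain ⟨F, G, hFG⟩ := hlat K
  have hq := qpos (K := K)
  have hw' := hw
  obtain ⟨-, -, hw3, hw4, hw5⟩ := hw'
  set S := PP K r₀ r₁ with hS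
  have hSp : Prm S ∧ ∀ P ∈ S, r₀ ≤ P.natDegree ∧ P.natDegree ≤ r₁ := by
    constructor
    · intro P hP
      rw [hS, PP, Finset.mem_biUnion] at hP
      obtain ⟨r, hr, hP⟩ := hP
      rw [mem_Irn] at hP
      exact ⟨hP.1, hP.2.2⟩
    · intro P hP
      rw [hS, PP, Finset.mem_biUnion] at hP
      obtain ⟨r, hr, hP⟩ := hP
      rw [mem_Irn] at hP
      rw [Finset.mem_Icc] at hr
      omega
  obtain ⟨hSp, hSd⟩ := hSp
  set Λ : ℝ := ∑ P ∈ S, 1 / (Fintype.card K : ℝ) ^ P.natDegree with hΛ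
  have hΛ0 : 0 ≤ Λ := Finset.sum_nonneg fun P _ => by positivity
  set q : ℝ := (Fintype.card K : ℝ) with hqd
  set hh : K[X] → ℝ := fun M => ∑ T ∈ (Pz K z).powerset, w T * ∏ P ∈ T, gm P M with hhh
  have hh0 : ∀ M, 0 ≤ hh M := fun M =>
    bad_pos (fun P => gm P M) (fun P => (gm_bd P M).1) (fun P => (gm_bd P M).2) (Pz K z) w hw4
  have hbw0 : ∀ f : K[X], 0 ≤ bw z w f := fun f => hw4 _ (Finset.filter_subset _ _)
  have hz0 : (0 : ℝ) < (z : ℝ) ^ 2 := by
    have : (0 : ℝ) < z := by exact_mod_cast hz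
    positivity
  have hCz : 0 < C / (z : ℝ) ^ 2 := by positivity
  -- the inner sums
  have hin : ∀ M ∈ (Mn K k).filter (fun M => Squarefree M ∧ ¬ ∃ P ∈ S, P ∣ M),
      ∑ D ∈ (Mn K (n - k)).filter (fun D => derivative (derivative (M * D)) = 0),
        |(mob D : ℝ) * bw z w (M * D)| ≤ q ^ nu n / q ^ k * hh M := by
    intro M hM
    rw [Finset.mem_filter] at hM
    rw [← bad_h hbox hFG hn hw hd hM.1 hM.2.1]
    refine Finset.sum_le_sum fun D _ => ?_
    rw [abs_mul, abs_of_nonneg (hbw0 _)]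
    have h1 : |(mob D : ℝ)| ≤ 1 := by
      unfold mob
      split_ifs
      · push_cast
        rw [abs_pow, abs_neg, abs_one, one_pow]
      · simp
    calc |(mob D : ℝ)| * bw z w (M * D) ≤ 1 * bw z w (M * D) :=
          mul_le_mul_of_nonneg_right h1 (hbw0 _)
      _ = _ := one_mul _
  -- the main inequality
  have hmain : Λ ^ 2 * ∑ M ∈ (Mn K k).filter (fun M => Squarefree M ∧ ¬ ∃ P ∈ S, P ∣ M), hh M ≤
      q ^ k * Λ * (C / (z : ℝ) ^ 2) := by
    have h1 : Λ ^ 2 * ∑ M ∈ (Mn K k).filter (fun M => Squarefree M ∧ ¬ ∃ P ∈ S, P ∣ M), hh M ≤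
        ∑ M ∈ Mn K k, (∑ P ∈ S, bi P M - Λ) ^ 2 * hh M := by
      rw [Finset.mul_sum]
      refine le_trans (le_of_eq (Finset.sum_congr rfl fun M hM => ?_))
        (Finset.sum_le_sum_of_subset_of_nonneg (Finset.filter_subset _ _)
          fun M _ _ => mul_nonneg (sq_nonneg _) (hh0 M))
      rw [Finset.mem_filter] at hM
      have h2 : ∑ P ∈ S, bi P M = 0 := Finset.sum_eq_zero fun P hP => by
        unfold bi
        rw [if_neg]
        exact fun h => hM.2.2 ⟨P, hP, h⟩
      rw [h2]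
      ring
    refine h1.trans ?_
    have h2 : ∑ M ∈ Mn K k, (∑ P ∈ S, bi P M - Λ) ^ 2 * hh M =
        q ^ k * (Λ - ∑ P ∈ S, (1 / q ^ P.natDegree) ^ 2) *
          ∑ T ∈ (Pz K z).powerset, w T * ∏ P ∈ T, wm 1 P := by
      have e1 : ∀ M ∈ Mn K k, (∑ P ∈ S, bi P M - Λ) ^ 2 * hh M =
          ∑ T ∈ (Pz K z).powerset, w T * ((∑ P ∈ S, bi P M - Λ) ^ 2 * ∏ P ∈ T, gm P M) := by
        intro M _
        rw [hhh, Finset.mul_sum]
        exact Finset.sum_congr rfl fun T _ => by ring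
      rw [Finset.sum_congr rfl e1, Finset.sum_comm, Finset.mul_sum]
      refine Finset.sum_congr rfl fun T _ => ?_
      by_cases hwT : w T = 0
      · simp [hwT]
      obtain ⟨hT1, hT2⟩ := hw3 T hwT
      have hTp : Prm T := (bad_prm z).sub hT1
      rw [← Finset.mul_sum]
      have h3 := bad_var (k := k) (fun P => 1 / (Fintype.card K : ℝ) ^ P.natDegree)
        (fun P => 1 - 1 / (Fintype.card K : ℝ) ^ P.natDegree) T S hTp hSp (by
          rw [Finset.disjoint_left]
          intro P hP hP'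
          have h4 := (mem_PU.1 (Finset.mem_of_mem_erase (hT1 hP))).2.2
          have h5 := (hSd P hP').1
          omega) r₁ (fun P hP => (hSd P hP).2) (by omega)
      have h4 : ∏ P ∈ T, (1 / (Fintype.card K : ℝ) ^ P.natDegree +
          (1 - 1 / (Fintype.card K : ℝ) ^ P.natDegree) * (1 / (Fintype.card K : ℝ) ^ P.natDegree)) =
          ∏ P ∈ T, wm 1 P := by
        refine Finset.prod_congr rfl fun P hP => ?_
        unfold wm
        rw [if_neg (fun h => (hTp P hP).2.not_isUnit (isUnit_of_dvd_one h)), two_mul, pow_add]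
        field_simp
        ring
      rw [h4] at h3
      have h5 : ∑ M ∈ Mn K k, (∑ P ∈ S, bi P M - Λ) ^ 2 * ∏ P ∈ T, gm P M =
          q ^ k * (∏ P ∈ T, wm 1 P) * (Λ - ∑ P ∈ S, (1 / q ^ P.natDegree) ^ 2) := h3
      rw [h5]
      ring
    rw [h2]
    have h3 : ∑ T ∈ (Pz K z).powerset, w T * ∏ P ∈ T, wm 1 P ≤ C / (z : ℝ) ^ 2 := by
      have h4 := hw5 1 monic_one
      have h5 : PA (1 : K[X]) = ∅ := by
        ext P
        simp only [PA, Set.mem_setOf_eq, Set.mem_empty_iff_false, iff_false, not_and]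
        intro _ h6 h7
        exact h6.not_isUnit (isUnit_of_dvd_one h7)
      rw [h5] at h4
      simpa using h4
    have h4 : 0 ≤ Λ - ∑ P ∈ S, (1 / q ^ P.natDegree) ^ 2 := by
      rw [sub_nonneg, hΛ]
      refine Finset.sum_le_sum fun P _ => ?_
      have h5 := wt_le (K := K) P.natDegree
      have h6 : 0 ≤ 1 / (Fintype.card K : ℝ) ^ P.natDegree := by positivity
      rw [pow_two]
      exact mul_le_of_le_one_left h6 h5
    have h5 : 0 ≤ ∑ P ∈ S, (1 / q ^ P.natDegree) ^ 2 := Finset.sum_nonneg fun P _ => by positivity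
    calc q ^ k * (Λ - ∑ P ∈ S, (1 / q ^ P.natDegree) ^ 2) *
          ∑ T ∈ (Pz K z).powerset, w T * ∏ P ∈ T, wm 1 P
        ≤ q ^ k * (Λ - ∑ P ∈ S, (1 / q ^ P.natDegree) ^ 2) * (C / (z : ℝ) ^ 2) :=
          mul_le_mul_of_nonneg_left h3 (by positivity)
      _ ≤ q ^ k * Λ * (C / (z : ℝ) ^ 2) := by
          apply mul_le_mul_of_nonneg_right _ hCz.le
          apply mul_le_mul_of_nonneg_left _ (by positivity)
          linarith
  rcases hΛ0.eq_or_lt with h0 | h0
  · rw [← h0, zero_mul]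
    positivity
  · have h1 : Λ * ∑ M ∈ (Mn K k).filter (fun M => Squarefree M ∧ ¬ ∃ P ∈ S, P ∣ M), hh M ≤
        q ^ k * (C / (z : ℝ) ^ 2) := by
      apply le_of_mul_le_mul_left _ h0
      calc Λ * (Λ * ∑ M ∈ (Mn K k).filter (fun M => Squarefree M ∧ ¬ ∃ P ∈ S, P ∣ M), hh M)
          = Λ ^ 2 * ∑ M ∈ (Mn K k).filter (fun M => Squarefree M ∧ ¬ ∃ P ∈ S, P ∣ M), hh M := by
            ring
        _ ≤ q ^ k * Λ * (C / (z : ℝ) ^ 2) := hmain
        _ = Λ * (q ^ k * (C / (z : ℝ) ^ 2)) := by ring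
    calc Λ * ∑ M ∈ (Mn K k).filter (fun M => Squarefree M ∧ ¬ ∃ P ∈ S, P ∣ M),
          ∑ D ∈ (Mn K (n - k)).filter (fun D => derivative (derivative (M * D)) = 0),
            |(mob D : ℝ) * bw z w (M * D)|
        ≤ Λ * ∑ M ∈ (Mn K k).filter (fun M => Squarefree M ∧ ¬ ∃ P ∈ S, P ∣ M),
            q ^ nu n / q ^ k * hh M :=
          mul_le_mul_of_nonneg_left (Finset.sum_le_sum hin) hΛ0
      _ = q ^ nu n / q ^ k *
          (Λ * ∑ M ∈ (Mn K k).filter (fun M => Squarefree M ∧ ¬ ∃ P ∈ S, P ∣ M), hh M) := by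
          rw [← Finset.mul_sum]
          ring
      _ ≤ q ^ nu n / q ^ k * (q ^ k * (C / (z : ℝ) ^ 2)) :=
          mul_le_mul_of_nonneg_left h1 (by positivity)
      _ = C / (z : ℝ) ^ 2 * q ^ nu n := by
          field_simp

end

end Pool.Agent.H6.W
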