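import Pool.Agent.H6.W.Stm
import Pool.Agent.H985.Chow.Typ

/-!
# The bilinear estimate
-/

set_option autoImplicit false
set_option linter.unusedSectionVars false

namespace Pool.Agent.H6.W

open Polynomial
open scoped Classical
open Pool.Agent.H694.Typ (Mn mem_Mn card_Mn)
open Pool.Agent.H290.CT (V mem_V card_V zero_mem_V add_mem_V sub_mem_V)

namespace Bil

section alg

variable {K : Type} [Field K] [CharP K 3]

theorem three : (3 : K[X]) = 0 := by
  have h := CharP.cast_eq_zero K[X] 3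
  exact_mod_cast h

theorem two_ne : (2 : K) ≠ 0 := by
  intro h
  have h3 : (3 : K) = 0 := by
    have h := CharP.cast_eq_zero K 3
    exact_mod_cast h
  have h1 : (1 : K) = 0 := by linear_combination h3 - h
  exact one_ne_zero h1

theorem dd_add (F G : K[X] → K[X]) (M a b x y : K[X]) :
    dd F G M (a + x) (b + y) = dd F G M a b + dd F G M x y := by
  unfold dd
  linear_combination (F M * a * x * (a + x) + G M * b * y * (b + y)) * (three (K := K))

theorem dd_sub (F G : K[X] → K[X]) (M a b x y : K[X]) :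
    dd F G M (a - x) (b - y) = dd F G M a b - dd F G M x y := by
  unfold dd
  linear_combination (-(F M * a * x * (a - x)) - G M * b * y * (b - y)) * (three (K := K))

theorem aff_dvd (F G : K[X] → K[X]) (M a₀ b₀ D : K[X]) (e e' e'' : K[X] × K[X])
    (h : D ∣ dd F G M (a₀ + e.1) (b₀ + e.2)) (h' : D ∣ dd F G M (a₀ + e'.1) (b₀ + e'.2))
    (h'' : D ∣ dd F G M (a₀ + e''.1) (b₀ + e''.2)) :
    D ∣ dd F G M (a₀ + (e - e' + e'').1) (b₀ + (e - e' + e'').2) := by
  have h1 : a₀ + (e - e' + e'').1 = (a₀ + e.1) - (a₀ + e'.1) + (a₀ + e''.1) := by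
    rw [Prod.fst_add, Prod.fst_sub]
    ring
  have h2 : b₀ + (e - e' + e'').2 = (b₀ + e.2) - (b₀ + e'.2) + (b₀ + e''.2) := by
    rw [Prod.snd_add, Prod.snd_sub]
    ring
  rw [h1, h2, dd_add, dd_sub]
  exact dvd_add (dvd_sub h h') h''

theorem aff_dvd1 (a₀ D : K[X]) (x x' x'' : K[X]) (h : D ∣ a₀ + x) (h' : D ∣ a₀ + x')
    (h'' : D ∣ a₀ + x'') : D ∣ a₀ + (x - x' + x'') := by
  have h1 : a₀ + (x - x' + x'') = (a₀ + x) - (a₀ + x') + (a₀ + x'') := by ring
  rw [h1]
  exact dvd_add (dvd_sub h h') h''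

/-- `F M` and `G M` are not both divisible by an irreducible polynomial -/
theorem not_both {F G : K[X] → K[X]} {M : K[X]} (hM : Squarefree M)
    (hW : F M * derivative (G M) - derivative (F M) * G M = M) {P : K[X]} (hP : Irreducible P) :
    ¬ (P ∣ F M ∧ P ∣ G M) := by
  rintro ⟨⟨f, hf⟩, g, hg⟩
  apply hP.not_isUnit
  apply hM P
  refine ⟨f * derivative g - derivative f * g, ?_⟩
  rw [← hW, hf, hg, derivative_mul, derivative_mul]
  ring

/-- proportional pairs -/
theorem prop_pair {F G : K[X] → K[X]} {M M₁ : K[X]} (hM : Squarefree M)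
    (hW : F M * derivative (G M) - derivative (F M) * G M = M) {P : K[X]} (hP : Irreducible P)
    {a b a' b' : K[X]} (hab : ¬ (P ∣ a' ∧ P ∣ b')) (h1 : P ∣ dd F G M a b)
    (h2 : P ∣ dd F G M a' b') (h3 : P ∣ dd F G M₁ a' b') : P ∣ dd F G M₁ a b := by
  have hp : Prime P := hP.prime
  have h3K := three (K := K)
  have hF : P ∣ (a * b' - a' * b) ^ 3 * F M := by
    have h4 : (a * b' - a' * b) ^ 3 * F M = dd F G M a b * b' ^ 3 - dd F G M a' b' * b ^ 3 := by
      unfold dd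
      linear_combination (-(a * b' * (a' * b) * (a * b' - a' * b) * F M)) * h3K
    rw [h4]
    exact dvd_sub (h1.mul_right _) (h2.mul_right _)
  have hG : P ∣ (a * b' - a' * b) ^ 3 * G M := by
    have h4 : (a * b' - a' * b) ^ 3 * G M = dd F G M a' b' * a ^ 3 - dd F G M a b * a' ^ 3 := by
      unfold dd
      linear_combination (-(a * b' * (a' * b) * (a * b' - a' * b) * G M)) * h3K
    rw [h4]
    exact dvd_sub (h2.mul_right _) (h1.mul_right _)
  have hw : P ∣ (a * b' - a' * b) ^ 3 := by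
    by_contra hcon
    exact not_both hM hW hP ⟨(hp.dvd_or_dvd hF).resolve_left hcon,
      (hp.dvd_or_dvd hG).resolve_left hcon⟩
  have ha : P ∣ a' ^ 3 * dd F G M₁ a b := by
    have h4 : a' ^ 3 * dd F G M₁ a b = a ^ 3 * dd F G M₁ a' b' -
        (a * b' - a' * b) ^ 3 * G M₁ := by
      unfold dd
      linear_combination (-(a * b' * (a' * b) * (a * b' - a' * b) * G M₁)) * h3K
    rw [h4]
    exact dvd_sub (h3.mul_left _) (hw.mul_right _)
  have hb : P ∣ b' ^ 3 * dd F G M₁ a b := by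
    have h4 : b' ^ 3 * dd F G M₁ a b = b ^ 3 * dd F G M₁ a' b' +
        (a * b' - a' * b) ^ 3 * F M₁ := by
      unfold dd
      linear_combination (a * b' * (a' * b) * (a * b' - a' * b) * F M₁) * h3K
    rw [h4]
    exact dvd_add (h3.mul_left _) (hw.mul_right _)
  by_contra hcon
  exact hab ⟨hp.dvd_of_dvd_pow ((hp.dvd_or_dvd ha).resolve_right hcon),
    hp.dvd_of_dvd_pow ((hp.dvd_or_dvd hb).resolve_right hcon)⟩

end alg

section coset

variable {K : Type} [Field K] [Fintype K] [CharP K 3]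

/-- the pairs in the kernels of two types -/
noncomputable def NN (F G : K[X] → K[X]) (α β : ℕ) (M M₁ : K[X]) : Finset (K[X] × K[X]) :=
  (V K α ×ˢ V K β).filter (fun e => M ∣ dd F G M e.1 e.2 ∧ M₁ ∣ dd F G M₁ e.1 e.2)

theorem mem_Ty {F G : K[X] → K[X]} {k u v : ℕ} {M : K[X]} (hM : M ∈ Ty K F G k u v) :
    M.Monic ∧ M.natDegree = k ∧ Squarefree M ∧ (F M).natDegree = u ∧ (G M).natDegree = v := by
  unfold Ty at hM
  rw [Finset.mem_filter, mem_Mn] at hM
  exact ⟨hM.1.1, hM.1.2, hM.2⟩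

theorem card_Ty_le (F G : K[X] → K[X]) (k u v : ℕ) :
    (Ty K F G k u v).card ≤ Fintype.card K ^ k := by
  rw [← card_Mn (k := K) k]
  exact Finset.card_le_card (Finset.filter_subset _ _)

/-- a product of two symbols over a coset -/
theorem coset_bound (hpv : S_pv) (F G : K[X] → K[X]) {k u v α β : ℕ} {M M₁ : K[X]}
    (hM : M ∈ Ty K F G k u v) (hM₁ : M₁ ∈ Ty K F G k u v) (a₀ b₀ : K[X])
    (C : Finset (K[X] × K[X])) (haff : ∀ e ∈ C, ∀ e' ∈ C, ∀ e'' ∈ C, e - e' + e'' ∈ C)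
    (hX : C ⊆ V K α ×ˢ V K β) :
    |∑ e ∈ C, (jac (dd F G M (a₀ + e.1) (b₀ + e.2)) M : ℝ) *
        (jac (dd F G M₁ (a₀ + e.1) (b₀ + e.2)) M₁ : ℝ)| ≤
      ((NN F G α β M M₁).card : ℝ) * (Fintype.card K : ℝ) ^ k := by
  rcases C.eq_empty_or_nonempty with rfl | ⟨e₀, he₀⟩
  · rw [Finset.sum_empty, abs_zero]
    positivity
  let H : AddSubgroup (K[X] × K[X]) :=
    { carrier := {h | e₀ + h ∈ C}
      zero_mem' := by
        show e₀ + 0 ∈ C
        rwa [add_zero]
      add_mem' := by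
        intro h h' hh hh'
        show e₀ + (h + h') ∈ C
        have h1 := haff _ hh _ he₀ _ hh'
        have e : e₀ + h - e₀ + (e₀ + h') = e₀ + (h + h') := by abel
        rwa [e] at h1
      neg_mem' := by
        intro h hh
        show e₀ + -h ∈ C
        have h1 := haff _ he₀ _ hh _ he₀
        have e : e₀ - (e₀ + h) + e₀ = e₀ + -h := by abel
        rwa [e] at h1 }
  have hHm : ∀ h : H, e₀ + (h : K[X] × K[X]) ∈ C := fun h => h.2
  have hHfin : Finite H := Finite.of_injective (fun h : H => (⟨e₀ + h, h.2⟩ : C)) (by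
    intro h h' hh
    have h1 := congrArg Subtype.val hh
    exact Subtype.ext (add_left_cancel h1))
  let _ : Fintype H := Fintype.ofFinite H
  have hsum : ∀ f : K[X] × K[X] → ℝ, ∑ e ∈ C, f e = ∑ h : H, f (e₀ + h) := by
    intro f
    refine Finset.sum_bij' (fun e he => (⟨e - e₀, by
      show e₀ + (e - e₀) ∈ C
      rwa [add_sub_cancel]⟩ : H)) (fun h _ => e₀ + (h : K[X] × K[X]))
      (fun _ _ => Finset.mem_univ _) (fun h _ => h.2) (fun e _ => add_sub_cancel _ _)
      (fun h _ => Subtype.ext (add_sub_cancel_left _ _)) (fun e _ => ?_)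
    show f e = f (e₀ + (e - e₀))
    rw [add_sub_cancel]
  let φ : ∀ N : K[X], H →+ K[X] := fun N => AddMonoidHom.mk' (fun h => dd F G N h.1.1 h.1.2) (by
    intro h h'
    exact dd_add F G N _ _ _ _)
  obtain ⟨hm, hk, hs, _⟩ := mem_Ty hM
  obtain ⟨hm₁, hk₁, hs₁, _⟩ := mem_Ty hM₁
  have h1 := hpv K two_ne M M₁ hm hs hm₁ hs₁ H (φ M) (φ M₁)
    (dd F G M (a₀ + e₀.1) (b₀ + e₀.2)) (dd F G M₁ (a₀ + e₀.1) (b₀ + e₀.2))
  rw [hk, hk₁, add_self_div_two, Real.rpow_natCast] at h1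
  have h2 : ∀ (N : K[X]) (h : H), dd F G N (a₀ + (e₀ + (h : K[X] × K[X])).1)
      (b₀ + (e₀ + (h : K[X] × K[X])).2) = dd F G N (a₀ + e₀.1) (b₀ + e₀.2) + φ N h := by
    intro N h
    rw [Prod.fst_add, Prod.snd_add, ← add_assoc, ← add_assoc, dd_add]
    rfl
  rw [hsum]
  simp only [h2]
  refine h1.trans (mul_le_mul_of_nonneg_right ?_ (by positivity))
  rw [Nat.cast_le]
  refine Finset.card_le_card_of_injOn (fun h : H => (h : K[X] × K[X])) ?_
    (fun h _ h' _ hh => Subtype.ext hh)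
  intro h hh
  have hh' := (Finset.mem_filter.1 hh).2
  have h3 := Finset.mem_product.1 (hX (hHm h))
  have h4 := Finset.mem_product.1 (hX he₀)
  refine Finset.mem_filter.2 ⟨Finset.mem_product.2 ⟨?_, ?_⟩, hh'⟩
  · have h5 := sub_mem_V h3.1 h4.1
    rwa [Prod.fst_add, add_sub_cancel_left] at h5
  · have h5 := sub_mem_V h3.2 h4.2
    rwa [Prod.snd_add, add_sub_cancel_left] at h5

/-- the inner sums -/
theorem T_bound (hpv : S_pv) (F G : K[X] → K[X]) {k u v α β : ℕ} {M M₁ : K[X]}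
    (hM : M ∈ Ty K F G k u v) (hM₁ : M₁ ∈ Ty K F G k u v) (a₀ b₀ P R R₁ : K[X]) :
    |∑ e ∈ (V K α ×ˢ V K β).filter (fun e => P = 1 ∨ ¬ (P ∣ a₀ + e.1 ∧ P ∣ b₀ + e.2)),
      if (P ∣ dd F G M (a₀ + e.1) (b₀ + e.2) ∧ R ∣ dd F G M (a₀ + e.1) (b₀ + e.2)) ∧
          (P ∣ dd F G M₁ (a₀ + e.1) (b₀ + e.2) ∧ R₁ ∣ dd F G M₁ (a₀ + e.1) (b₀ + e.2)) then
        (jac (dd F G M (a₀ + e.1) (b₀ + e.2)) M : ℝ) *
          (jac (dd F G M₁ (a₀ + e.1) (b₀ + e.2)) M₁ : ℝ) else 0| ≤
      2 * (((NN F G α β M M₁).card : ℝ) * (Fintype.card K : ℝ) ^ k) := by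
  rw [← Finset.sum_filter, Finset.filter_filter]
  set CC : K[X] × K[X] → Prop := fun e =>
    (P ∣ dd F G M (a₀ + e.1) (b₀ + e.2) ∧ R ∣ dd F G M (a₀ + e.1) (b₀ + e.2)) ∧
      (P ∣ dd F G M₁ (a₀ + e.1) (b₀ + e.2) ∧ R₁ ∣ dd F G M₁ (a₀ + e.1) (b₀ + e.2)) with hCC
  set B : K[X] × K[X] → Prop := fun e => P = 1 ∨ ¬ (P ∣ a₀ + e.1 ∧ P ∣ b₀ + e.2) with hB
  set f : K[X] × K[X] → ℝ := fun e => (jac (dd F G M (a₀ + e.1) (b₀ + e.2)) M : ℝ) *
    (jac (dd F G M₁ (a₀ + e.1) (b₀ + e.2)) M₁ : ℝ) with hf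
  have h1 : ∑ e ∈ (V K α ×ˢ V K β).filter (fun e => B e ∧ CC e), f e =
      ∑ e ∈ (V K α ×ˢ V K β).filter CC, f e -
        ∑ e ∈ (V K α ×ˢ V K β).filter (fun e => CC e ∧ ¬ B e), f e := by
    have h2 := Finset.sum_filter_add_sum_filter_not ((V K α ×ˢ V K β).filter CC) B f
    rw [Finset.filter_filter, Finset.filter_filter] at h2
    rw [← h2, add_sub_cancel_right]
    refine Finset.sum_congr (Finset.filter_congr fun e _ => and_comm) fun _ _ => rfl
  have hCCaff : ∀ e e' e'', CC e → CC e' → CC e'' → CC (e - e' + e'') := by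
    intro e e' e'' h h' h''
    exact ⟨⟨aff_dvd F G M a₀ b₀ P e e' e'' h.1.1 h'.1.1 h''.1.1,
      aff_dvd F G M a₀ b₀ R e e' e'' h.1.2 h'.1.2 h''.1.2⟩,
      aff_dvd F G M₁ a₀ b₀ P e e' e'' h.2.1 h'.2.1 h''.2.1,
      aff_dvd F G M₁ a₀ b₀ R₁ e e' e'' h.2.2 h'.2.2 h''.2.2⟩
  have hXaff : ∀ e e' e'', e ∈ V K α ×ˢ V K β → e' ∈ V K α ×ˢ V K β → e'' ∈ V K α ×ˢ V K β →
      e - e' + e'' ∈ V K α ×ˢ V K β := by
    intro e e' e'' h h' h''
    rw [Finset.mem_product] at *
    exact ⟨add_mem_V (sub_mem_V h.1 h'.1) h''.1, add_mem_V (sub_mem_V h.2 h'.2) h''.2⟩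
  have h3 := coset_bound hpv F G hM hM₁ a₀ b₀ (α := α) (β := β) ((V K α ×ˢ V K β).filter CC)
    (by
      intro e he e' he' e'' he''
      rw [Finset.mem_filter] at *
      exact ⟨hXaff _ _ _ he.1 he'.1 he''.1, hCCaff _ _ _ he.2 he'.2 he''.2⟩)
    (Finset.filter_subset _ _)
  have h4 := coset_bound hpv F G hM hM₁ a₀ b₀ (α := α) (β := β)
    ((V K α ×ˢ V K β).filter (fun e => CC e ∧ ¬ B e))
    (by
      intro e he e' he' e'' he''
      rw [Finset.mem_filter] at *
      refine ⟨hXaff _ _ _ he.1 he'.1 he''.1, hCCaff _ _ _ he.2.1 he'.2.1 he''.2.1, ?_⟩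
      have h5 : ∀ e, ¬ B e → P ≠ 1 ∧ P ∣ a₀ + e.1 ∧ P ∣ b₀ + e.2 := by
        intro e he
        rw [hB] at he
        push Not at he
        exact he
      obtain ⟨g0, g1, g2⟩ := h5 _ he.2.2
      obtain ⟨_, g1', g2'⟩ := h5 _ he'.2.2
      obtain ⟨_, g1'', g2''⟩ := h5 _ he''.2.2
      rintro (h | h)
      · exact g0 h
      · exact h ⟨aff_dvd1 a₀ P _ _ _ g1 g1' g1'', aff_dvd1 b₀ P _ _ _ g2 g2' g2''⟩)
    (Finset.filter_subset _ _)
  rw [h1]
  exact (abs_sub _ _).trans (by linarith)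

/-! ## Counting -/

/-- admissible pairs -/
def adm (F G : K[X] → K[X]) (P M M₁ : K[X]) : Prop :=
  P = 1 ∨ ∃ a b : K[X], ¬ (P ∣ a ∧ P ∣ b) ∧ P ∣ dd F G M a b ∧ P ∣ dd F G M₁ a b

theorem adm_count (hcls : S_cls) {F G : K[X] → K[X]} (hLB : LB K F G) {k u v : ℕ} {P : K[X]}
    (hPm : P.Monic) (hP : P = 1 ∨ Irreducible P) (hPu : P.natDegree ≤ u) (hPv : P.natDegree ≤ v)
    {S : Finset K[X]} (hS : S ⊆ Ty K F G k u v) {M : K[X]} (hM : M ∈ Ty K F G k u v) :
    (S.filter (fun M₁ => adm F G P M M₁)).card ≤ Fintype.card K ^ (k + 1 - P.natDegree) := by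
  obtain ⟨hm, hk, hs, _⟩ := mem_Ty hM
  rcases hP with h1 | hP
  · rw [h1, natDegree_one, Nat.sub_zero]
    calc (S.filter (fun M₁ => adm F G 1 M M₁)).card ≤ S.card :=
          Finset.card_le_card (Finset.filter_subset _ _)
      _ ≤ (Ty K F G k u v).card := Finset.card_le_card hS
      _ ≤ Fintype.card K ^ k := card_Ty_le F G k u v
      _ ≤ _ := Nat.pow_le_pow_right Fintype.card_pos (Nat.le_succ k)
  · rcases (S.filter (fun M₁ => adm F G P M M₁)).eq_empty_or_nonempty with h | ⟨M₂, hM₂⟩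
    · rw [h, Finset.card_empty]
      exact Nat.zero_le _
    · have h2 := (Finset.mem_filter.1 hM₂).2
      have hP1 : P ≠ 1 := fun h => hP.not_isUnit (h ▸ isUnit_one)
      obtain ⟨a, b, hab, h3, _⟩ := h2.resolve_left hP1
      refine le_trans (Finset.card_le_card ?_) (hcls K F G hLB k u v P a b hPm hP hPu hPv hab)
      intro M₁ hM₁
      rw [Finset.mem_filter] at hM₁
      obtain ⟨a', b', hab', h4, h5⟩ := hM₁.2.resolve_left hP1
      exact Finset.mem_filter.2 ⟨hS hM₁.1, prop_pair hs (hLB M hm hs).2.2.2.2.2.1 hP hab' h3 h4 h5⟩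

/-- the sum over the admissible pairs -/
theorem pairs_count (hker : S_ker) (hcls : S_cls) {F G : K[X] → K[X]} (hLB : LB K F G)
    {k u v α β L : ℕ} {P : K[X]} (hPm : P.Monic) (hP : P = 1 ∨ Irreducible P)
    (hPu : P.natDegree ≤ u) (hPv : P.natDegree ≤ v) (hα : 3 * α + u ≤ 2 * k + L + 2)
    (hβ : 3 * β + v ≤ 2 * k + L + 2) {S : Finset K[X]} (hS : S ⊆ Ty K F G k u v) :
    ∑ M ∈ S, ∑ M₁ ∈ S, (if adm F G P M M₁ then (NN F G α β M M₁).card else 0) ≤
      Fintype.card K ^ (2 * k + 1 - P.natDegree) +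
        Fintype.card K ^ (k + 2 * L + max u v + k / 3 + 3) := by
  obtain ⟨hker1, hker2⟩ := (hker K F G hLB).2 k u v α β L hα hβ
  rcases S.eq_empty_or_nonempty with rfl | ⟨M₀, hM₀⟩
  · simp
  have huv : u + v = k + 1 := by
    obtain ⟨hm, hk, hs, hu, hv⟩ := mem_Ty (hS hM₀)
    have := (hLB M₀ hm hs).2.2.2.2.1
    omega
  have hcardS : S.card ≤ Fintype.card K ^ k :=
    (Finset.card_le_card hS).trans (card_Ty_le F G k u v)
  -- the kernel
  have h1 : ∀ M M₁ : K[X], (if adm F G P M M₁ then (NN F G α β M M₁).card else 0) ≤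
      (if adm F G P M M₁ then 1 else 0) +
        ∑ e ∈ (V K α ×ˢ V K β).filter (fun e => e ≠ 0),
          (if M ∣ dd F G M e.1 e.2 then 1 else 0) * (if M₁ ∣ dd F G M₁ e.1 e.2 then 1 else 0) := by
    intro M M₁
    split_ifs with hadm
    · have h2 : (NN F G α β M M₁).card = ∑ e ∈ V K α ×ˢ V K β,
          (if M ∣ dd F G M e.1 e.2 then 1 else 0) * (if M₁ ∣ dd F G M₁ e.1 e.2 then 1 else 0) := by
        unfold NN
        rw [Finset.card_filter]
        refine Finset.sum_congr rfl fun e _ => ?_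
        by_cases g1 : M ∣ dd F G M e.1 e.2 <;> by_cases g2 : M₁ ∣ dd F G M₁ e.1 e.2 <;>
          simp [g1, g2]
      rw [h2, ← Finset.sum_filter_add_sum_filter_not (V K α ×ˢ V K β) (fun e => e ≠ 0), add_comm]
      refine Nat.add_le_add_right ?_ _
      calc ∑ e ∈ (V K α ×ˢ V K β).filter (fun e => ¬ e ≠ 0),
            (if M ∣ dd F G M e.1 e.2 then 1 else 0) *
              (if M₁ ∣ dd F G M₁ e.1 e.2 then 1 else 0)
          ≤ ∑ e ∈ (V K α ×ˢ V K β).filter (fun e => ¬ e ≠ 0), 1 := by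
            refine Finset.sum_le_sum fun e _ => ?_
            split_ifs <;> simp
        _ ≤ 1 := by
            rw [Finset.sum_const, smul_eq_mul, mul_one, Finset.card_le_one]
            intro e he e' he'
            rw [Finset.mem_filter, not_not] at he he'
            rw [he.2, he'.2]
    · exact Nat.zero_le _
  calc ∑ M ∈ S, ∑ M₁ ∈ S, (if adm F G P M M₁ then (NN F G α β M M₁).card else 0)
      ≤ ∑ M ∈ S, ∑ M₁ ∈ S, ((if adm F G P M M₁ then 1 else 0) +
        ∑ e ∈ (V K α ×ˢ V K β).filter (fun e => e ≠ 0),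
          (if M ∣ dd F G M e.1 e.2 then 1 else 0) *
            (if M₁ ∣ dd F G M₁ e.1 e.2 then 1 else 0)) :=
        Finset.sum_le_sum fun M _ => Finset.sum_le_sum fun M₁ _ => h1 M M₁
    _ = ∑ M ∈ S, (S.filter (fun M₁ => adm F G P M M₁)).card +
        ∑ e ∈ (V K α ×ˢ V K β).filter (fun e => e ≠ 0),
          (S.filter (fun M => M ∣ dd F G M e.1 e.2)).card ^ 2 := by
        simp only [Finset.sum_add_distrib]
        congr 1
        · refine Finset.sum_congr rfl fun M _ => ?_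
          rw [Finset.card_filter]
        · rw [Finset.sum_congr rfl fun M _ => Finset.sum_comm, Finset.sum_comm]
          refine Finset.sum_congr rfl fun e _ => ?_
          rw [sq, Finset.card_filter, Finset.sum_mul_sum]
    _ ≤ ∑ M ∈ S, Fintype.card K ^ (k + 1 - P.natDegree) +
        ∑ e ∈ (V K α ×ˢ V K β).filter (fun e => e ≠ 0),
          Fintype.card K ^ (max u v + L + k / 3 + 3) *
            (S.filter (fun M => M ∣ dd F G M e.1 e.2)).card := by
        refine Nat.add_le_add (Finset.sum_le_sum fun M hM =>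
          adm_count hcls hLB hPm hP hPu hPv hS (hS hM)) (Finset.sum_le_sum fun e he => ?_)
        rw [sq]
        refine Nat.mul_le_mul_right _ ?_
        rw [Finset.mem_filter, Finset.mem_product] at he
        refine le_trans (Finset.card_le_card (Finset.filter_subset_filter _ hS))
          (hker2 e.1 he.1.1 e.2 he.1.2 ?_)
        by_contra hcon
        push Not at hcon
        exact he.2 (Prod.ext hcon.1 hcon.2)
    _ ≤ _ := by
        refine Nat.add_le_add ?_ ?_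
        · rw [Finset.sum_const, smul_eq_mul]
          calc S.card * Fintype.card K ^ (k + 1 - P.natDegree)
              ≤ Fintype.card K ^ k * Fintype.card K ^ (k + 1 - P.natDegree) :=
                Nat.mul_le_mul_right _ hcardS
            _ = Fintype.card K ^ (2 * k + 1 - P.natDegree) := by
                rw [← pow_add]
                congr 1
                omega
        · rw [← Finset.mul_sum]
          calc Fintype.card K ^ (max u v + L + k / 3 + 3) *
              ∑ e ∈ (V K α ×ˢ V K β).filter (fun e => e ≠ 0),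
                (S.filter (fun M => M ∣ dd F G M e.1 e.2)).card
              ≤ Fintype.card K ^ (max u v + L + k / 3 + 3) * (Fintype.card K ^ k *
                Fintype.card K ^ L) := by
                refine Nat.mul_le_mul_left _ ?_
                calc ∑ e ∈ (V K α ×ˢ V K β).filter (fun e => e ≠ 0),
                      (S.filter (fun M => M ∣ dd F G M e.1 e.2)).card
                    ≤ ∑ e ∈ V K α ×ˢ V K β, (S.filter (fun M => M ∣ dd F G M e.1 e.2)).card :=
                      Finset.sum_le_sum_of_subset (Finset.filter_subset _ _)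
                  _ = ∑ M ∈ S, ((V K α ×ˢ V K β).filter
                      (fun e => M ∣ dd F G M e.1 e.2)).card := by
                      simp only [Finset.card_filter]
                      exact Finset.sum_comm
                  _ ≤ ∑ M ∈ S, Fintype.card K ^ L :=
                      Finset.sum_le_sum fun M hM => hker1 M (hS hM)
                  _ = S.card * Fintype.card K ^ L := by rw [Finset.sum_const, smul_eq_mul]
                  _ ≤ _ := Nat.mul_le_mul_right _ hcardS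
            _ = Fintype.card K ^ (k + 2 * L + max u v + k / 3 + 3) := by
                rw [← pow_add, ← pow_add]
                congr 1
                omega

end coset

end Bil

open Bil in
theorem bil (hpv : S_pv) (hker : S_ker) (hcls : S_cls) : S_bil := by
  intro K _ _ _ F G hLB k u v α β L P a₀ b₀ S Q c θ hPm hP hPu hPv hα hβ hS hc hθ
  set X := V K α ×ˢ V K β with hX
  set D : K[X] → K[X] × K[X] → K[X] := fun M e => dd F G M (a₀ + e.1) (b₀ + e.2) with hD
  set th : K[X] × K[X] → ℝ := fun e => θ (a₀ + e.1) (b₀ + e.2) with hth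
  set J : K[X] → K[X] × K[X] → ℝ := fun M e => (jac (D M e) M : ℝ) with hJ
  set R : K[X] × K[X] → ℝ := fun e =>
    ∑ M ∈ S, if P ∣ D M e ∧ Q M ∣ D M e then c M * J M e else 0 with hR
  set X' := X.filter (fun e => P = 1 ∨ ¬ (P ∣ a₀ + e.1 ∧ P ∣ b₀ + e.2)) with hX'
  have hP' : P = 1 ∨ Irreducible P := hP.imp_right fun h => h.1
  -- step 1
  have h1 : (∑ M ∈ S, ∑ x ∈ V K α, ∑ y ∈ V K β,
      if P ∣ dd F G M (a₀ + x) (b₀ + y) ∧ Q M ∣ dd F G M (a₀ + x) (b₀ + y) then
        c M * θ (a₀ + x) (b₀ + y) * (jac (dd F G M (a₀ + x) (b₀ + y)) M : ℝ) else 0) =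
      ∑ e ∈ X', th e * R e := by
    have h2 : ∀ M ∈ S, (∑ x ∈ V K α, ∑ y ∈ V K β,
        if P ∣ dd F G M (a₀ + x) (b₀ + y) ∧ Q M ∣ dd F G M (a₀ + x) (b₀ + y) then
          c M * θ (a₀ + x) (b₀ + y) * (jac (dd F G M (a₀ + x) (b₀ + y)) M : ℝ) else 0) =
        ∑ e ∈ X, if P ∣ D M e ∧ Q M ∣ D M e then c M * th e * J M e else 0 := by
      intro M _
      rw [hX, Finset.sum_product]
    rw [Finset.sum_congr rfl h2, Finset.sum_comm, hX', Finset.sum_filter]
    refine Finset.sum_congr rfl fun e _ => ?_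
    have h3 : (∑ M ∈ S, if P ∣ D M e ∧ Q M ∣ D M e then c M * th e * J M e else 0) =
        th e * R e := by
      rw [hR, Finset.mul_sum]
      refine Finset.sum_congr rfl fun M _ => ?_
      split_ifs
      · ring
      · rw [mul_zero]
    rw [h3]
    split_ifs with hb
    · rfl
    · push Not at hb
      have h4 : th e = 0 := (hP.resolve_left hb.1).2 _ _ hb.2.1 hb.2.2
      rw [h4, zero_mul]
  -- step 2
  have h2 : (∑ e ∈ X', th e * R e) ^ 2 ≤ (Fintype.card K : ℝ) ^ (α + β) * ∑ e ∈ X', R e ^ 2 := by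
    refine (Finset.sum_mul_sq_le_sq_mul_sq X' th R).trans
      (mul_le_mul_of_nonneg_right ?_ (Finset.sum_nonneg fun e _ => sq_nonneg _))
    calc ∑ e ∈ X', th e ^ 2 ≤ ∑ e ∈ X', (1 : ℝ) := by
          refine Finset.sum_le_sum fun e _ => ?_
          rw [← sq_abs]
          exact pow_le_one₀ (abs_nonneg _) (hθ _ _)
      _ = (X'.card : ℝ) := by rw [Finset.sum_const, nsmul_eq_mul, mul_one]
      _ ≤ (X.card : ℝ) := by
          exact_mod_cast Finset.card_le_card (Finset.filter_subset _ _)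
      _ = (Fintype.card K : ℝ) ^ (α + β) := by
          rw [hX, Finset.card_product, card_V, card_V, pow_add]
          push_cast
          rfl
  -- step 3
  have h3 : ∑ e ∈ X', R e ^ 2 = ∑ M ∈ S, ∑ M₁ ∈ S, c M * c M₁ * ∑ e ∈ X',
      if (P ∣ D M e ∧ Q M ∣ D M e) ∧ (P ∣ D M₁ e ∧ Q M₁ ∣ D M₁ e) then J M e * J M₁ e else 0 := by
    have h4 : ∀ e ∈ X', R e ^ 2 = ∑ M ∈ S, ∑ M₁ ∈ S, c M * c M₁ *
        (if (P ∣ D M e ∧ Q M ∣ D M e) ∧ (P ∣ D M₁ e ∧ Q M₁ ∣ D M₁ e) then J M e * J M₁ e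
          else 0) := by
      intro e _
      rw [sq, hR, Finset.sum_mul_sum]
      refine Finset.sum_congr rfl fun M _ => Finset.sum_congr rfl fun M₁ _ => ?_
      by_cases g1 : P ∣ D M e ∧ Q M ∣ D M e
      · by_cases g2 : P ∣ D M₁ e ∧ Q M₁ ∣ D M₁ e
        · rw [if_pos g1, if_pos g2, if_pos ⟨g1, g2⟩]
          ring
        · rw [if_pos g1, if_neg g2, mul_zero, if_neg (fun h => g2 h.2), mul_zero]
      · rw [if_neg g1, zero_mul, if_neg (fun h => g1 h.1), mul_zero]
    rw [Finset.sum_congr rfl h4, Finset.sum_comm]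
    refine Finset.sum_congr rfl fun M _ => ?_
    rw [Finset.sum_comm]
    refine Finset.sum_congr rfl fun M₁ _ => ?_
    rw [Finset.mul_sum]
  -- step 4
  have h4 : ∀ M ∈ S, ∀ M₁ ∈ S, c M * c M₁ * ∑ e ∈ X',
      (if (P ∣ D M e ∧ Q M ∣ D M e) ∧ (P ∣ D M₁ e ∧ Q M₁ ∣ D M₁ e) then J M e * J M₁ e
        else 0) ≤
      2 * (Fintype.card K : ℝ) ^ k *
        ((if adm F G P M M₁ then (NN F G α β M M₁).card else 0 : ℕ) : ℝ) := by
    intro M hM M₁ hM₁
    have h5 := T_bound hpv F G (α := α) (β := β) (hS hM) (hS hM₁) a₀ b₀ P (Q M) (Q M₁)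
    have h6 : |c M * c M₁| ≤ 1 := by
      rw [abs_mul]
      exact mul_le_one₀ (hc M) (abs_nonneg _) (hc M₁)
    by_cases hadm : adm F G P M M₁
    · rw [if_pos hadm]
      refine (le_abs_self _).trans ?_
      rw [abs_mul]
      calc |c M * c M₁| * |∑ e ∈ X', (if (P ∣ D M e ∧ Q M ∣ D M e) ∧
            (P ∣ D M₁ e ∧ Q M₁ ∣ D M₁ e) then J M e * J M₁ e else 0)|
          ≤ 1 * (2 * (((NN F G α β M M₁).card : ℝ) * (Fintype.card K : ℝ) ^ k)) :=
            mul_le_mul h6 h5 (abs_nonneg _) zero_le_one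
        _ = _ := by ring
    · rw [if_neg hadm, Nat.cast_zero, mul_zero]
      have h7 : (∑ e ∈ X', (if (P ∣ D M e ∧ Q M ∣ D M e) ∧ (P ∣ D M₁ e ∧ Q M₁ ∣ D M₁ e) then
          J M e * J M₁ e else 0)) = 0 := by
        refine Finset.sum_eq_zero fun e he => ?_
        rw [if_neg]
        intro hcon
        apply hadm
        rw [hX', Finset.mem_filter] at he
        rcases he.2 with h | h
        · exact Or.inl h
        · exact Or.inr ⟨_, _, h, hcon.1.1, hcon.2.1⟩
      rw [h7, mul_zero]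
  -- conclusion
  rw [h1]
  refine h2.trans ?_
  have h5 := pairs_count hker hcls hLB hPm hP' hPu hPv hα hβ hS
  have h6 : ∑ e ∈ X', R e ^ 2 ≤ 2 * (Fintype.card K : ℝ) ^ k *
      ((Fintype.card K : ℝ) ^ (2 * k + 1 - P.natDegree) +
        (Fintype.card K : ℝ) ^ (k + 2 * L + max u v + k / 3 + 3)) := by
    rw [h3]
    calc ∑ M ∈ S, ∑ M₁ ∈ S, c M * c M₁ * ∑ e ∈ X',
          (if (P ∣ D M e ∧ Q M ∣ D M e) ∧ (P ∣ D M₁ e ∧ Q M₁ ∣ D M₁ e) then J M e * J M₁ e
            else 0)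
        ≤ ∑ M ∈ S, ∑ M₁ ∈ S, 2 * (Fintype.card K : ℝ) ^ k *
          ((if adm F G P M M₁ then (NN F G α β M M₁).card else 0 : ℕ) : ℝ) :=
          Finset.sum_le_sum fun M hM => Finset.sum_le_sum fun M₁ hM₁ => h4 M hM M₁ hM₁
      _ = 2 * (Fintype.card K : ℝ) ^ k *
          ((∑ M ∈ S, ∑ M₁ ∈ S, (if adm F G P M M₁ then (NN F G α β M M₁).card else 0) : ℕ) : ℝ) := by
          push_cast
          rw [Finset.mul_sum]
          refine Finset.sum_congr rfl fun M _ => ?_
          rw [Finset.mul_sum]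
      _ ≤ _ := by
          refine mul_le_mul_of_nonneg_left ?_ (by positivity)
          exact_mod_cast h5
  calc (Fintype.card K : ℝ) ^ (α + β) * ∑ e ∈ X', R e ^ 2
      ≤ (Fintype.card K : ℝ) ^ (α + β) * (2 * (Fintype.card K : ℝ) ^ k *
        ((Fintype.card K : ℝ) ^ (2 * k + 1 - P.natDegree) +
          (Fintype.card K : ℝ) ^ (k + 2 * L + max u v + k / 3 + 3))) :=
        mul_le_mul_of_nonneg_left h6 (by positivity)
    _ = _ := by
        rw [pow_add _ (α + β) k]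
        ring

end Pool.Agent.H6.W
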