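import Pool.Agent.H6.W.Stm

/-!
# WILSON BOX (helper36): the monic `D` of degree `n - k` with `(M D)'' = 0`
-/

set_option autoImplicit false

namespace Pool.Agent.H6.W

open Polynomial
open scoped Classical
open Pool.Agent.H985.Chow (mob)
open Pool.Agent.H694.Typ (Mn PU Irn mem_Mn)
open Pool.Agent.H290.CT (V mem_V)

noncomputable section

namespace Box

variable {K : Type} [Field K] [Fintype K] [CharP K 3]

lemma der3 (a h : K[X]) : derivative (a ^ 3 * h) = a ^ 3 * derivative h := by
  rw [derivative_mul, derivative_pow]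
  have h3 : ((3 : ℕ) : K[X]) = 0 := CharP.cast_eq_zero K[X] 3
  have : (C ((3 : ℕ) : K) : K[X]) = 0 := by rw [CharP.cast_eq_zero K 3, C_0]
  rw [this]
  ring

lemma eq_one_of_cube {c : K} (h : c ^ 3 = 1) : c = 1 := by
  have : Fact (Nat.Prime 3) := ⟨Nat.prime_three⟩
  have h1 : (c - 1) ^ 3 = 0 := by
    rw [sub_pow_char, h, one_pow, sub_self]
  have h2 : c - 1 = 0 := pow_eq_zero_iff (by norm_num) |>.mp h1
  exact sub_eq_zero.mp h2

lemma nd {a p : K[X]} (hp : p.Monic) (ha : a ≠ 0) :
    (a ^ 3 * p).natDegree = 3 * a.natDegree + p.natDegree := by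
  rw [natDegree_mul (pow_ne_zero 3 ha) hp.ne_zero, natDegree_pow]

lemma inj {p q a b a' b' : K[X]} (hp : p.Monic) (hq : q.Monic)
    (hne : p.natDegree % 3 ≠ q.natDegree % 3)
    (h : a ^ 3 * p + b ^ 3 * q = a' ^ 3 * p + b' ^ 3 * q) : a = a' ∧ b = b' := by
  have : Fact (Nat.Prime 3) := ⟨Nat.prime_three⟩
  have h1 : (a - a') ^ 3 * p = (b' - b) ^ 3 * q := by
    rw [sub_pow_char, sub_pow_char]
    linear_combination h
  by_cases ha : a - a' = 0
  · rw [ha, zero_pow (by norm_num), zero_mul] at h1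
    have h2 : (b' - b) ^ 3 = 0 := by
      rcases mul_eq_zero.mp h1.symm with h2 | h2
      · exact h2
      · exact absurd h2 hq.ne_zero
    have h3 : b' - b = 0 := (pow_eq_zero_iff (by norm_num)).mp h2
    exact ⟨sub_eq_zero.mp ha, (sub_eq_zero.mp h3).symm⟩
  · exfalso
    have hb : b' - b ≠ 0 := by
      intro hb
      rw [hb, zero_pow (by norm_num), zero_mul] at h1
      exact mul_ne_zero (pow_ne_zero 3 ha) hp.ne_zero h1
    have h2 := congrArg natDegree h1
    rw [nd hp ha, nd hq hb] at h2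
    omega

lemma key {p q : K[X]} (hp : p.Monic) (hq : q.Monic) (m : ℕ) (hpm : p.natDegree % 3 = m % 3)
    (hqm : q.natDegree % 3 ≠ m % 3) (hq' : q.natDegree ≤ m) (a b : K[X]) :
    ((a ^ 3 * p + b ^ 3 * q).Monic ∧ (a ^ 3 * p + b ^ 3 * q).natDegree = m) ↔
      (a.Monic ∧ 3 * a.natDegree + p.natDegree = m ∧ b ∈ V K ((m - q.natDegree + 2) / 3)) := by
  have hdeg : b ∈ V K ((m - q.natDegree + 2) / 3) ↔ (b ^ 3 * q).degree < (m : ℕ) := by
    rw [mem_V]
    by_cases hb : b = 0
    · rw [hb, zero_pow (by norm_num), zero_mul, degree_zero]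
      exact ⟨fun _ => WithBot.bot_lt_coe _, fun _ => WithBot.bot_lt_coe _⟩
    · rw [degree_eq_natDegree hb, degree_eq_natDegree (mul_ne_zero (pow_ne_zero 3 hb) hq.ne_zero),
        nd hq hb, Nat.cast_lt, Nat.cast_lt]
      omega
  constructor
  · rintro ⟨hS, hm⟩
    have hb : b ∈ V K ((m - q.natDegree + 2) / 3) := by
      rw [hdeg]
      by_cases hb : b = 0
      · rw [hb, zero_pow (by norm_num), zero_mul, degree_zero]
        exact WithBot.bot_lt_coe _
      · rw [degree_eq_natDegree (mul_ne_zero (pow_ne_zero 3 hb) hq.ne_zero), nd hq hb,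
          Nat.cast_lt]
        by_contra hcon
        rw [not_lt] at hcon
        by_cases ha : a = 0
        · rw [ha, zero_pow (by norm_num), zero_mul, zero_add, nd hq hb] at hm
          omega
        · have hα := nd hp ha
          have hβ := nd hq hb
          rcases lt_trichotomy (a ^ 3 * p).natDegree (b ^ 3 * q).natDegree with h | h | h
          · rw [natDegree_add_eq_right_of_natDegree_lt h] at hm
            omega
          · omega
          · rw [natDegree_add_eq_left_of_natDegree_lt h] at hm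
            omega
    have hb' := hdeg.mp hb
    have hSd : (a ^ 3 * p + b ^ 3 * q).degree = (m : ℕ) := by
      rw [degree_eq_natDegree hS.ne_zero, hm]
    have h1 : a ^ 3 * p = (a ^ 3 * p + b ^ 3 * q) - b ^ 3 * q := by ring
    have h2 : (a ^ 3 * p).Monic := by
      rw [h1]
      exact hS.sub_of_left (by rw [hSd]; exact hb')
    have h3 : a ≠ 0 := by
      intro h0
      rw [h0, zero_pow (by norm_num), zero_mul] at h2
      exact h2.ne_zero rfl
    have h4 : (a ^ 3 * p).degree = (m : ℕ) := by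
      rw [h1, degree_sub_eq_left_of_degree_lt (by rw [hSd]; exact hb'), hSd]
    have h5 := natDegree_eq_of_degree_eq_some h4
    rw [nd hp h3] at h5
    refine ⟨?_, h5, hb⟩
    have h6 : (a ^ 3 * p).leadingCoeff = 1 := h2
    rw [leadingCoeff_mul, leadingCoeff_pow, hp.leadingCoeff, mul_one] at h6
    exact eq_one_of_cube h6
  · rintro ⟨ha, hm, hb⟩
    have hb' := hdeg.mp hb
    have h1 : (a ^ 3 * p).Monic := (ha.pow 3).mul hp
    have h2 : (a ^ 3 * p).degree = (m : ℕ) := by
      rw [degree_eq_natDegree h1.ne_zero, nd hp ha.ne_zero, hm]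
    refine ⟨h1.add_of_left (by rw [h2]; exact hb'), ?_⟩
    apply natDegree_eq_of_degree_eq_some
    rw [degree_add_eq_left_of_degree_lt (by rw [h2]; exact hb'), h2]

/-- monic polynomials of degree `m` -/
lemma monic_iff {m : ℕ} (a : K[X]) :
    (a.Monic ∧ a.natDegree = m) ↔ ∃ x ∈ V K m, a = X ^ m + x := by
  constructor
  · rintro ⟨ha, hm⟩
    refine ⟨a - X ^ m, ?_, by ring⟩
    rw [mem_V]
    have h1 : a.degree = (m : ℕ) := by rw [degree_eq_natDegree ha.ne_zero, hm]
    have h2 : (a - X ^ m).degree < a.degree := by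
      apply degree_sub_lt
      · rw [h1, degree_X_pow]
      · exact ha.ne_zero
      · rw [ha.leadingCoeff, (monic_X_pow m).leadingCoeff]
    rw [h1] at h2
    exact h2
  · rintro ⟨x, hx, rfl⟩
    rw [mem_V] at hx
    refine ⟨monic_X_pow_add hx, ?_⟩
    apply natDegree_eq_of_degree_eq_some
    rw [degree_add_eq_left_of_degree_lt (by rw [degree_X_pow]; exact hx), degree_X_pow]

end Box

open Box in
theorem box : S_box := by
  intro K _ _ _ F G hLB n k u v M hM hn hkn hu hv
  obtain ⟨hMn, hsq, hFu, hGv⟩ := Finset.mem_filter.mp hM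
  obtain ⟨hMm, hMk⟩ := mem_Mn.mp hMn
  obtain ⟨hF, hG, h1, h2, h3, -, h5, h6, h7⟩ := hLB M hMm hsq
  rw [hMk, hFu] at h1
  rw [hMk, hGv] at h2
  rw [hMk, hFu, hGv] at h3
  have hne : (F M).natDegree % 3 ≠ (G M).natDegree % 3 := by rw [hFu, hGv]; omega
  have hder : ∀ a b : K[X], derivative (derivative (M * dd F G M a b)) = 0 := by
    intro a b
    have : M * dd F G M a b = a ^ 3 * (M * F M) + b ^ 3 * (M * G M) := by
      unfold dd; ring
    rw [this, derivative_add, der3, der3, derivative_add, der3, der3, h5, h6, mul_zero, mul_zero,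
      add_zero]
  have hset : ∀ a b : K[X], dd F G M a b ∈ Mn K (n - k) ↔
      ∃ x ∈ V K (bA n k u), ∃ y ∈ V K (bB n k v), a = cA K n k u + x ∧ b = cB K n k v + y := by
    intro a b
    rw [mem_Mn]
    by_cases h0 : n % 3 = 0
    · have hk1 := key hF hG (n - k) (by rw [hFu]; omega) (by rw [hGv]; omega)
        (by rw [hGv]; exact hv) a b
      have hA : 3 * bA n k u + u = n - k := by unfold bA; rw [if_pos h0]; omega
      have hB : (n - k - (G M).natDegree + 2) / 3 = bB n k v := by
        unfold bB; rw [if_pos h0, hGv]; omega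
      unfold dd
      rw [hk1, hB, hFu]
      unfold cA cB
      rw [if_pos h0, if_pos h0]
      constructor
      · rintro ⟨ha, hd, hb⟩
        obtain ⟨x, hx, rfl⟩ := (monic_iff a).mp ⟨ha, (by omega : a.natDegree = bA n k u)⟩
        exact ⟨x, hx, b, hb, rfl, (zero_add b).symm⟩
      · rintro ⟨x, hx, y, hy, rfl, rfl⟩
        obtain ⟨ha, hd⟩ := (monic_iff (X ^ bA n k u + x)).mpr ⟨x, hx, rfl⟩
        refine ⟨ha, by rw [hd]; exact hA, ?_⟩
        rw [zero_add]
        exact hy
    · have hn1 : n % 3 = 1 := by omega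
      have hk1 := key hG hF (n - k) (by rw [hGv]; omega) (by rw [hFu]; omega)
        (by rw [hFu]; exact hu) b a
      have hB : 3 * bB n k v + v = n - k := by unfold bB; rw [if_neg h0]; omega
      have hA : (n - k - (F M).natDegree + 2) / 3 = bA n k u := by
        unfold bA; rw [if_neg h0, hFu]
      unfold dd
      rw [add_comm (a ^ 3 * F M), hk1, hA, hGv]
      unfold cA cB
      rw [if_neg h0, if_neg h0]
      constructor
      · rintro ⟨hb, hd, ha⟩
        obtain ⟨y, hy, rfl⟩ := (monic_iff b).mp ⟨hb, (by omega : b.natDegree = bB n k v)⟩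
        exact ⟨a, ha, y, hy, (zero_add a).symm, rfl⟩
      · rintro ⟨x, hx, y, hy, rfl, rfl⟩
        obtain ⟨hb, hd⟩ := (monic_iff (X ^ bB n k v + y)).mpr ⟨y, hy, rfl⟩
        refine ⟨hb, by rw [hd]; exact hB, ?_⟩
        rw [zero_add]
        exact hx
  constructor
  · intro Φ
    rw [← Finset.sum_product']
    symm
    refine Finset.sum_bij (fun e _ => dd F G M (cA K n k u + e.1) (cB K n k v + e.2))
      ?_ ?_ ?_ ?_
    · rintro ⟨x, y⟩ he
      obtain ⟨hx, hy⟩ := Finset.mem_product.mp he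
      exact Finset.mem_filter.mpr ⟨(hset _ _).mpr ⟨x, hx, y, hy, rfl, rfl⟩, hder _ _⟩
    · rintro ⟨x, y⟩ _ ⟨x', y'⟩ _ h
      obtain ⟨ha, hb⟩ := inj hF hG hne h
      exact Prod.ext (add_left_cancel ha) (add_left_cancel hb)
    · intro D hD
      obtain ⟨hD1, hD2⟩ := Finset.mem_filter.mp hD
      obtain ⟨a, b, rfl⟩ := h7 D hD2
      obtain ⟨x, hx, y, hy, rfl, rfl⟩ := (hset a b).mp hD1
      exact ⟨(x, y), Finset.mem_product.mpr ⟨hx, hy⟩, rfl⟩
    · intro e _
      rfl
  · unfold bA bB nu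
    split_ifs with h0
    · omega
    · omega

end

end Pool.Agent.H6.W
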