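import Pool.Agent.H6.W.Stm
import Pool.Agent.H985.Chow.Typ

/-!
# Wilson primes: CLS (helper643)
-/

set_option autoImplicit false

namespace Pool.Agent.H6.W

open Polynomial
open scoped Classical
open Pool.Agent.H694.Typ (Mn)
open Pool.Agent.H694.Typ (mem_Mn card_Mn)

theorem monic_divBy {K : Type} [Field K] {P f : K[X]} (hP : P.Monic) (hf : f.Monic)
    (h : P.natDegree ≤ f.natDegree) : (f /ₘ P).Monic := by
  have hd : P.degree ≤ f.degree := by
    rw [degree_eq_natDegree hP.ne_zero, degree_eq_natDegree hf.ne_zero]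
    exact_mod_cast h
  rw [Monic, leadingCoeff_divByMonic_of_monic hP hd, hf.leadingCoeff]

/-- the projection to one pair of residue classes is injective -/
theorem cls_aux {K : Type} [Field K] [Fintype K] (P : K[X]) (hP : P.Monic) (u v k : ℕ)
    (hu : P.natDegree ≤ u) (huv : u + v = k + 1) (S : Finset K[X]) (F G : K[X] → K[X])
    (hF : ∀ M ∈ S, (F M).Monic ∧ (F M).natDegree = u)
    (hG : ∀ M ∈ S, (G M).Monic ∧ (G M).natDegree = v)
    (hinj : ∀ M ∈ S, ∀ M' ∈ S, F M = F M' → G M = G M' → M = M')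
    (hcl : ∀ M ∈ S, ∀ M' ∈ S, G M = G M' → P ∣ F M - F M') :
    S.card ≤ Fintype.card K ^ (k + 1 - P.natDegree) := by
  have h1 : S.card ≤ (Mn K (u - P.natDegree) ×ˢ Mn K v).card := by
    refine Finset.card_le_card_of_injOn (fun M => (F M /ₘ P, G M)) ?_ ?_
    · intro M hM
      rw [Finset.mem_coe] at hM
      rw [Finset.mem_coe, Finset.mem_product, mem_Mn, mem_Mn]
      refine ⟨⟨monic_divBy hP (hF M hM).1 (by rw [(hF M hM).2]; exact hu), ?_⟩, hG M hM⟩
      rw [natDegree_divByMonic _ hP, (hF M hM).2]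
    · intro M hM M' hM' he
      rw [Finset.mem_coe] at hM hM'
      have he1 : F M /ₘ P = F M' /ₘ P := (Prod.mk.inj he).1
      have he2 : G M = G M' := (Prod.mk.inj he).2
      have h2 : F M %ₘ P = F M' %ₘ P := by
        have h3 := (modByMonic_eq_zero_iff_dvd hP).2 (hcl M hM M' hM' he2)
        rw [sub_modByMonic] at h3
        exact sub_eq_zero.1 h3
      refine hinj M hM M' hM' ?_ he2
      rw [← modByMonic_add_div (F M) P, ← modByMonic_add_div (F M') P, he1, h2]
  rw [Finset.card_product, card_Mn, card_Mn, ← pow_add] at h1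
  have h2 : u - P.natDegree + v = k + 1 - P.natDegree := by omega
  rwa [h2] at h1

theorem cls : S_cls := by
  intro K _ _ _ F G hLB k u v P a b hP hPi hu hv hab
  set S := (Ty K F G k u v).filter (fun M => P ∣ dd F G M a b) with hS
  have hmem : ∀ M ∈ S, M.Monic ∧ Squarefree M ∧ M.natDegree = k ∧ (F M).natDegree = u ∧
      (G M).natDegree = v ∧ P ∣ a ^ 3 * F M + b ^ 3 * G M := by
    intro M hM
    rw [hS, Finset.mem_filter, Ty, Finset.mem_filter, mem_Mn] at hM
    exact ⟨hM.1.1.1, hM.1.2.1, hM.1.1.2, hM.1.2.2.1, hM.1.2.2.2, hM.2⟩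
  rcases S.eq_empty_or_nonempty with h0 | ⟨M0, hM0⟩
  · rw [h0, Finset.card_empty]; exact Nat.zero_le _
  obtain ⟨m1, m2, m3, m4, m5, m6⟩ := hmem M0 hM0
  have huv : u + v = k + 1 := by
    have := (hLB M0 m1 m2).2.2.2.2.1
    rw [m4, m5, m3] at this
    exact this
  have hinj : ∀ M ∈ S, ∀ M' ∈ S, F M = F M' → G M = G M' → M = M' := by
    intro M hM M' hM' e1 e2
    obtain ⟨p1, p2, -⟩ := hmem M hM
    obtain ⟨q1, q2, -⟩ := hmem M' hM'
    rw [← (hLB M p1 p2).2.2.2.2.2.1, ← (hLB M' q1 q2).2.2.2.2.2.1, e1, e2]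
  have hFm : ∀ M ∈ S, (F M).Monic ∧ (F M).natDegree = u := by
    intro M hM
    obtain ⟨p1, p2, p3, p4, p5, p6⟩ := hmem M hM
    exact ⟨(hLB M p1 p2).1, p4⟩
  have hGm : ∀ M ∈ S, (G M).Monic ∧ (G M).natDegree = v := by
    intro M hM
    obtain ⟨p1, p2, p3, p4, p5, p6⟩ := hmem M hM
    exact ⟨(hLB M p1 p2).2.1, p5⟩
  have hprime : Prime P := hPi.prime
  by_cases ha : P ∣ a
  · have hb : ¬ P ∣ b := fun hb => hab ⟨ha, hb⟩
    refine cls_aux P hP v u k hv (by omega) S G F hGm hFm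
      (fun M hM M' hM' e1 e2 => hinj M hM M' hM' e2 e1) ?_
    intro M hM M' hM' e
    have h1 := (hmem M hM).2.2.2.2.2
    have h2 := (hmem M' hM').2.2.2.2.2
    have h3 : P ∣ b ^ 3 * (G M - G M') := by
      have h4 := dvd_sub h1 h2
      rw [e] at h4
      have h5 : b ^ 3 * (G M - G M') = a ^ 3 * F M' + b ^ 3 * G M - (a ^ 3 * F M' + b ^ 3 * G M') := by
        ring
      rw [h5]; exact h4
    rcases hprime.dvd_or_dvd h3 with h6 | h6
    · exact absurd (hprime.dvd_of_dvd_pow h6) hb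
    · exact h6
  · refine cls_aux P hP u v k hu huv S F G hFm hGm hinj ?_
    intro M hM M' hM' e
    have h1 := (hmem M hM).2.2.2.2.2
    have h2 := (hmem M' hM').2.2.2.2.2
    have h3 : P ∣ a ^ 3 * (F M - F M') := by
      have h4 := dvd_sub h1 h2
      rw [e] at h4
      have h5 : a ^ 3 * (F M - F M') = a ^ 3 * F M + b ^ 3 * G M' - (a ^ 3 * F M' + b ^ 3 * G M') := by
        ring
      rw [h5]; exact h4
    rcases hprime.dvd_or_dvd h3 with h6 | h6
    · exact absurd (hprime.dvd_of_dvd_pow h6) ha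
    · exact h6

end Pool.Agent.H6.W
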