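import Pool.Agent.H6.W.Stm

set_option autoImplicit false

namespace Pool.Agent.H6.W

open Polynomial
open scoped Classical
open Pool.Agent.H290.CT (V)

/-- divisors versus submultisets of the prime factors -/
theorem div_card_le {K : Type} [Field K] (N : K[X]) (hN : N ≠ 0) :
    ({D : K[X] | D.Monic ∧ D ∣ N}.ncard) ≤
      ∏ P ∈ (UniqueFactorizationMonoid.normalizedFactors N).toFinset,
        ((UniqueFactorizationMonoid.normalizedFactors N).count P + 1) := by
  rw [← Multiset.card_Iic, ← Set.ncard_coe_finset]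
  apply Set.ncard_le_ncard_of_injOn
    (fun D => UniqueFactorizationMonoid.normalizedFactors D)
  · rintro D ⟨hD, hDN⟩
    simp only [Finset.coe_Iic, Set.mem_Iic]
    exact (UniqueFactorizationMonoid.dvd_iff_normalizedFactors_le_normalizedFactors
      hD.ne_zero hN).1 hDN
  · rintro D ⟨hD, -⟩ E ⟨hE, -⟩ h
    have h1 := UniqueFactorizationMonoid.prod_normalizedFactors_eq hD.ne_zero
    have h2 := UniqueFactorizationMonoid.prod_normalizedFactors_eq hE.ne_zero
    simp only at h
    rw [h, h2, hE.normalize_eq_self, hD.normalize_eq_self] at h1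
    exact h1.symm

theorem div_deg {K : Type} [Field K] (N : K[X]) (hN : N ≠ 0) :
    ∑ P ∈ (UniqueFactorizationMonoid.normalizedFactors N).toFinset,
        (UniqueFactorizationMonoid.normalizedFactors N).count P * P.natDegree = N.natDegree := by
  have h1 := UniqueFactorizationMonoid.prod_normalizedFactors hN
  have h2 : (UniqueFactorizationMonoid.normalizedFactors N).prod.natDegree = N.natDegree :=
    natDegree_eq_of_degree_eq (degree_eq_degree_of_associated h1)
  rw [← h2, Polynomial.natDegree_multiset_prod]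
  · rw [Finset.sum_multiset_map_count]
    simp
  · intro h0
    exact UniqueFactorizationMonoid.zero_notMem_normalizedFactors N h0

theorem div_aux {q δ : ℝ} (hq : 2 ≤ q) (hδ : 0 < δ) (v d : ℕ) (hd : 1 ≤ d) :
    ((v : ℝ) + 1) ≤ (1 + 1 / (δ * Real.log 2)) * q ^ (δ * (v * d : ℕ)) := by
  have hl2 : 0 < Real.log 2 := Real.log_pos (by norm_num)
  have hq0 : 0 < q := by linarith
  have hlq : Real.log 2 ≤ Real.log q := Real.log_le_log (by norm_num) hq
  have hd1 : (1 : ℝ) ≤ d := by exact_mod_cast hd
  have hv0 : (0 : ℝ) ≤ v := Nat.cast_nonneg v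
  have h1 : 1 + δ * v * Real.log 2 ≤ q ^ (δ * (v * d : ℕ)) := by
    rw [Real.rpow_def_of_pos hq0]
    have h2 : δ * v * Real.log 2 ≤ Real.log q * (δ * (v * d : ℕ)) := by
      push_cast
      have h3 : δ * v ≤ δ * (v * d) := by
        apply mul_le_mul_of_nonneg_left _ hδ.le
        nlinarith
      calc δ * v * Real.log 2 ≤ δ * (v * d) * Real.log q :=
            mul_le_mul h3 hlq hl2.le (by positivity)
        _ = _ := by ring
    have h4 := Real.add_one_le_exp (Real.log q * (δ * (v * d : ℕ)))
    linarith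
  have h5 : 0 < 1 + 1 / (δ * Real.log 2) := by positivity
  calc (v : ℝ) + 1 ≤ (1 + 1 / (δ * Real.log 2)) * (1 + δ * v * Real.log 2) := by
        have h6 : (1 + 1 / (δ * Real.log 2)) * (1 + δ * v * Real.log 2) =
            1 + 1 / (δ * Real.log 2) + δ * v * Real.log 2 + v := by field_simp; ring
        rw [h6]
        have h7 : 0 < 1 / (δ * Real.log 2) := by positivity
        have h8 : 0 ≤ δ * v * Real.log 2 := by positivity
        linarith
    _ ≤ _ := mul_le_mul_of_nonneg_left h1 h5.le

theorem div_aux2 {q δ : ℝ} (hq : 2 ≤ q) (v d : ℕ) (hd : 1 ≤ δ * d) :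
    ((v : ℝ) + 1) ≤ q ^ (δ * (v * d : ℕ)) := by
  have hq0 : 0 < q := by linarith
  have h1 : ((v + 1 : ℕ) : ℝ) ≤ ((2 ^ v : ℕ) : ℝ) := by
    exact_mod_cast Nat.lt_two_pow_self
  have h2 : (2 : ℝ) ^ v ≤ q ^ v := pow_le_pow_left₀ (by norm_num) hq v
  have h3 : q ^ v ≤ q ^ (δ * (v * d : ℕ)) := by
    rw [← Real.rpow_natCast]
    apply Real.rpow_le_rpow_of_exponent_le (by linarith)
    push_cast
    have hv0 : (0 : ℝ) ≤ v := Nat.cast_nonneg v
    nlinarith
  push_cast at h1
  linarith

theorem div_ : S_div := by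
  intro K _ _ ε hε
  set q : ℝ := (Fintype.card K : ℝ) with hq
  have hq2 : 2 ≤ q := by
    rw [hq]; exact_mod_cast Fintype.one_lt_card
  have hq0 : 0 < q := by linarith
  set δ : ℝ := ε / 2 with hδ
  have hδ0 : 0 < δ := by positivity
  have hl2 : 0 < Real.log 2 := Real.log_pos (by norm_num)
  set C : ℝ := 1 + 1 / (δ * Real.log 2) with hC
  have hC1 : 1 ≤ C := by
    have : 0 < 1 / (δ * Real.log 2) := by positivity
    linarith
  obtain ⟨s, hs⟩ := exists_nat_ge (1 / δ)
  set M : ℕ := (V K s).card with hM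
  -- the constant is absorbed
  have hev : ∀ᶠ n : ℕ in Filter.atTop, C ^ M ≤ q ^ (δ * n) := by
    have ht : Filter.Tendsto (fun n : ℕ => q ^ (δ * n)) Filter.atTop Filter.atTop := by
      have h1 : Filter.Tendsto (fun n : ℕ => (q ^ δ) ^ n) Filter.atTop Filter.atTop :=
        tendsto_pow_atTop_atTop_of_one_lt (Real.one_lt_rpow (by linarith) hδ0)
      refine h1.congr fun n => ?_
      rw [← Real.rpow_natCast, ← Real.rpow_mul hq0.le]
    exact ht.eventually_ge_atTop _
  obtain ⟨n₀, hn₀⟩ := Filter.eventually_atTop.1 hev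
  refine ⟨n₀, fun n hn N hN hdeg => ?_⟩
  set F := UniqueFactorizationMonoid.normalizedFactors N with hF
  have h1 : (({D : K[X] | D.Monic ∧ D ∣ N}.ncard : ℕ) : ℝ) ≤
      ∏ P ∈ F.toFinset, ((F.count P : ℝ) + 1) := by
    have := div_card_le N hN
    exact_mod_cast this
  have h2 : ∏ P ∈ F.toFinset, ((F.count P : ℝ) + 1) ≤
      ∏ P ∈ F.toFinset, ((if P.natDegree < s then C else 1) *
        q ^ (δ * (F.count P * P.natDegree : ℕ))) := by
    apply Finset.prod_le_prod
    · intro P _; positivity
    · intro P hP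
      have hirr : Irreducible P :=
        UniqueFactorizationMonoid.irreducible_of_normalized_factor P (Multiset.mem_toFinset.1 hP)
      split_ifs with h
      · exact div_aux hq2 hδ0 _ _ hirr.natDegree_pos
      · rw [one_mul]
        apply div_aux2 hq2
        push Not at h
        have h3 : (s : ℝ) ≤ P.natDegree := by exact_mod_cast h
        rw [div_le_iff₀ hδ0] at hs
        nlinarith
  have h3 : ∏ P ∈ F.toFinset, ((if P.natDegree < s then C else 1) *
        q ^ (δ * (F.count P * P.natDegree : ℕ))) ≤ C ^ M * q ^ (δ * n) := by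
    rw [Finset.prod_mul_distrib]
    apply mul_le_mul
    · rw [Finset.prod_ite]
      simp only [Finset.prod_const_one, mul_one, Finset.prod_const]
      apply pow_le_pow_right₀ hC1
      apply Finset.card_le_card
      intro P hP
      rw [Finset.mem_filter] at hP
      rw [Pool.Agent.H290.CT.mem_V]
      rw [Polynomial.degree_eq_natDegree
        (UniqueFactorizationMonoid.irreducible_of_normalized_factor P
          (Multiset.mem_toFinset.1 hP.1)).ne_zero]
      exact_mod_cast hP.2
    · rw [← Real.rpow_sum_of_pos hq0]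
      apply Real.rpow_le_rpow_of_exponent_le (by linarith)
      rw [← Finset.mul_sum, ← Nat.cast_sum, div_deg N hN]
      apply mul_le_mul_of_nonneg_left _ hδ0.le
      exact_mod_cast hdeg
    · apply Finset.prod_nonneg
      intro P _; positivity
    · positivity
  calc (({D : K[X] | D.Monic ∧ D ∣ N}.ncard : ℕ) : ℝ) ≤ C ^ M * q ^ (δ * n) :=
        h1.trans (h2.trans h3)
    _ ≤ q ^ (δ * n) * q ^ (δ * n) :=
        mul_le_mul_of_nonneg_right (hn₀ n hn) (by positivity)
    _ = q ^ (ε * n) := by
        rw [← Real.rpow_add hq0]; congr 1; rw [hδ]; ring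

end Pool.Agent.H6.W
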