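import Mathlib
import Pool.Agent.H6.W.Stm
import Pool.Agent.H604.LD.Far1
import Pool.Agent.H604.LD.Hid

/-!
# The main term (task FAR1 of project WILSON)
-/

set_option autoImplicit false
set_option linter.all false

namespace Pool.Agent.H6.W.F1W

open Polynomial Finset
open scoped Classical
open Pool.Agent.H985.Chow (mob)
open Pool.Agent.H694.Typ
open Pool.Agent.H604.LD (BHW bw Pz)
open Pool.Agent.H604.LD.F1 (Pr prod_facts card_sets mob_nsq not_dvd_of_ne mob_one')
open Pool.Agent.H604.LD.Hid (Dv mem_Dv sum_mob_zero mob_eq)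

section basic

variable {K : Type} [Field K] [Fintype K]

lemma prod_dvd_iff {T : Finset K[X]} (hT : Pr T) {f : K[X]} :
    ∏ P ∈ T, P ∣ f ↔ ∀ P ∈ T, P ∣ f := by
  constructor
  · intro h P hP
    exact (dvd_prod_of_mem _ hP).trans h
  · intro h
    refine Finset.prod_dvd_of_coprime ?_ h
    intro P hP Q hQ hPQ
    exact ((hT P hP).2.coprime_iff_not_dvd).2 (not_dvd_of_ne (hT Q hQ) (hT P hP) hPQ)

/-- the monic irreducible divisors -/
noncomputable def pf (f : K[X]) : Finset K[X] := (PU K f.natDegree).filter (fun P => P ∣ f)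

lemma mem_pf {f P : K[X]} (hf : f ≠ 0) : P ∈ pf f ↔ P.Monic ∧ Irreducible P ∧ P ∣ f := by
  unfold pf
  rw [mem_filter, mem_PU]
  constructor
  · rintro ⟨⟨h1, h2, h3⟩, h4⟩
    exact ⟨h1, h2, h4⟩
  · rintro ⟨h1, h2, h4⟩
    exact ⟨⟨h1, h2, natDegree_le_of_dvd h4 hf⟩, h4⟩

lemma pr_pf {f : K[X]} : Pr (pf f) := by
  intro P hP
  unfold pf at hP
  rw [mem_filter, mem_PU] at hP
  exact ⟨hP.1.1, hP.1.2.1⟩

lemma pf_dvd {f P : K[X]} (h : P ∈ pf f) : P ∣ f := by
  unfold pf at h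
  exact (mem_filter.1 h).2

lemma pf_prod {T : Finset K[X]} (hT : Pr T) : pf (∏ P ∈ T, P) = T := by
  obtain ⟨h1, h2, h3, h4⟩ := prod_facts hT
  ext P
  rw [mem_pf h1.ne_zero]
  constructor
  · rintro ⟨h5, h6, h7⟩
    by_contra h
    exact (h6.coprime_iff_not_dvd.1 (h4 P h6 h5 h)) h7
  · intro h
    exact ⟨(hT P h).1, (hT P h).2, dvd_prod_of_mem _ h⟩

lemma prod_inj {T T' : Finset K[X]} (hT : Pr T) (hT' : Pr T') (h : ∏ P ∈ T, P = ∏ P ∈ T', P) :
    T = T' := by
  rw [← pf_prod hT, ← pf_prod hT', h]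

lemma prod_pf_dvd {f : K[X]} : ∏ P ∈ pf f, P ∣ f :=
  (prod_dvd_iff pr_pf).2 fun P hP => pf_dvd hP

lemma prod_pf {f : K[X]} (hf : f.Monic) (hs : Squarefree f) : ∏ P ∈ pf f, P = f := by
  obtain ⟨g, hg⟩ := prod_pf_dvd (f := f)
  have h1 : (∏ P ∈ pf f, P).Monic := (prod_facts pr_pf).1
  have hgm : g.Monic := by
    rw [hg] at hf
    exact h1.of_mul_monic_left hf
  by_cases hg1 : g = 1
  · rw [hg1, mul_one] at hg
    exact hg.symm
  · exfalso
    have hnu : ¬ IsUnit g := fun h => hg1 (hgm.eq_one_of_isUnit h)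
    obtain ⟨P, hPm, hPi, hPg⟩ := exists_monic_irreducible_factor g hnu
    have h2 : P ∣ f := by rw [hg]; exact hPg.mul_left _
    have h3 : P ∈ pf f := (mem_pf hf.ne_zero).2 ⟨hPm, hPi, h2⟩
    have h4 : P * P ∣ f := by
      rw [hg]
      exact mul_dvd_mul (dvd_prod_of_mem _ h3) hPg
    exact hPi.not_isUnit (hs P h4)

lemma deg_pf {f : K[X]} (hf : f ≠ 0) : ∑ P ∈ pf f, P.natDegree ≤ f.natDegree := by
  rw [← (prod_facts (pr_pf (f := f))).2.2.1]
  exact natDegree_le_of_dvd prod_pf_dvd hf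

lemma pf_empty {f : K[X]} (hf : f.Monic) : pf f = ∅ ↔ f = 1 := by
  constructor
  · intro h
    by_contra hf1
    have hnu : ¬ IsUnit f := fun h => hf1 (hf.eq_one_of_isUnit h)
    obtain ⟨P, hPm, hPi, hPf⟩ := exists_monic_irreducible_factor f hnu
    have h3 : P ∈ pf f := (mem_pf hf.ne_zero).2 ⟨hPm, hPi, hPf⟩
    rw [h] at h3
    exact absurd h3 (Finset.notMem_empty _)
  · rintro rfl
    rw [Finset.eq_empty_iff_forall_notMem]
    intro P hP
    have h1 := (pr_pf P hP).2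
    exact h1.not_isUnit (isUnit_of_dvd_one (pf_dvd hP))

/-- the monic polynomials of degree at most `n` -/
noncomputable def ML (K : Type) [Field K] [Fintype K] (n : ℕ) : Finset K[X] :=
  (range (n + 1)).biUnion (fun j => Mn K j)

lemma mem_ML {n : ℕ} {f : K[X]} : f ∈ ML K n ↔ f.Monic ∧ f.natDegree ≤ n := by
  unfold ML
  rw [mem_biUnion]
  constructor
  · rintro ⟨j, hj, hf⟩
    rw [mem_Mn] at hf
    rw [mem_range] at hj
    exact ⟨hf.1, by omega⟩
  · rintro ⟨h1, h2⟩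
    exact ⟨f.natDegree, mem_range.2 (by omega), mem_Mn.2 ⟨h1, rfl⟩⟩

lemma sum_ML (n : ℕ) (φ : K[X] → ℝ) :
    ∑ f ∈ ML K n, φ f = ∑ j ∈ range (n + 1), ∑ f ∈ Mn K j, φ f := by
  unfold ML
  rw [sum_biUnion]
  intro i _ j _ hij
  simp only [Function.onFun]
  rw [disjoint_left]
  intro f hi hj
  rw [mem_Mn] at hi hj
  exact hij (hi.2.symm.trans hj.2)

lemma geo (N : ℕ) : ∑ n ∈ range N, Fintype.card K ^ n ≤ Fintype.card K ^ N := by
  have hq : 2 ≤ Fintype.card K := Fintype.one_lt_card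
  induction N with
  | zero => simp
  | succ N ih =>
    rw [sum_range_succ, pow_succ]
    have : Fintype.card K ^ N * 2 ≤ Fintype.card K ^ N * Fintype.card K :=
      Nat.mul_le_mul_left _ hq
    omega

lemma card_ML (n : ℕ) : (ML K n).card ≤ Fintype.card K ^ (n + 1) := by
  unfold ML
  refine card_biUnion_le.trans ?_
  simp only [card_Mn]
  exact geo (n + 1)

lemma abs_mob (f : K[X]) : |(mob f : ℝ)| ≤ 1 := by
  rw [mob_eq]
  split_ifs
  · push_cast
    rw [abs_pow, abs_neg, abs_one, one_pow]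
  · simp

end basic

section cube

variable {K : Type} [Field K] [Fintype K] [CharP K 3]

lemma sq_cube {N P : K[X]} (hN : derivative (derivative N) = 0) (hP : Irreducible P)
    (h : P ^ 2 ∣ N) : P ^ 3 ∣ N := by
  obtain ⟨M, rfl⟩ := h
  have h1 : derivative (derivative (P ^ 2 * M)) = 2 * derivative P ^ 2 * M +
      P * (2 * derivative (derivative P) * M + 4 * derivative P * derivative M +
        P * derivative (derivative M)) := by
    rw [pow_two P]
    simp only [derivative_mul, derivative_add]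
    ring
  rw [h1] at hN
  have h2 : P ∣ 2 * derivative P ^ 2 * M := by
    have h3 : 2 * derivative P ^ 2 * M = P * (-(2 * derivative (derivative P) * M +
      4 * derivative P * derivative M + P * derivative (derivative M))) := by
      linear_combination hN
    exact ⟨_, h3⟩
  have h20 : (2 : K) ≠ 0 := by
    intro h0
    have h3 : ((3 : ℕ) : K) = 0 := CharP.cast_eq_zero K 3
    have h4 : (1 : K) = 0 := by
      have h5 : (3 : K) = 0 := by exact_mod_cast h3
      linear_combination h5 - h0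
    exact one_ne_zero h4
  have hu : IsUnit (2 : K[X]) := by
    have h3 : (2 : K[X]) = C (2 : K) := (map_ofNat C 2).symm
    rw [h3, isUnit_C]
    exact isUnit_iff_ne_zero.2 h20
  have hsep : IsCoprime P (derivative P) := (PerfectField.separable_of_irreducible hP)
  have hPd : ¬ P ∣ derivative P := hP.coprime_iff_not_dvd.1 hsep
  have h4 : P ∣ M := by
    rcases hP.prime.dvd_or_dvd h2 with h5 | h5
    · exfalso
      rcases hP.prime.dvd_or_dvd h5 with h6 | h6
      · exact hP.not_isUnit (isUnit_of_dvd_unit h6 hu)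
      · exact hPd (hP.prime.dvd_of_dvd_pow h6)
    · exact h5
  obtain ⟨M', rfl⟩ := h4
  exact ⟨M', by ring⟩

/-- the Moebius function detects the squarefree `N` with `N'' = 0` -/
lemma sum_cube {n : ℕ} {N : K[X]} (hN : N ∈ WA K n) :
    ∑ E ∈ (ML K n).filter (fun E => E ^ 3 ∣ N), (mob E : ℝ) = if Squarefree N then 1 else 0 := by
  unfold WA at hN
  rw [mem_filter, mem_Mn] at hN
  obtain ⟨⟨hNm, hNd⟩, hN2⟩ := hN
  have hN0 := hNm.ne_zero
  obtain ⟨TR, hTR⟩ : ∃ TR, TR = (pf N).filter (fun P => P ^ 3 ∣ N) := ⟨_, rfl⟩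
  have hPr : Pr TR := by
    intro P hP
    rw [hTR] at hP
    exact pr_pf P (mem_filter.1 hP).1
  obtain ⟨R, hR⟩ : ∃ R, R = ∏ P ∈ TR, P := ⟨_, rfl⟩
  obtain ⟨hRm, hRs, -, -⟩ := prod_facts hPr
  rw [← hR] at hRm hRs
  have hR3 : R ^ 3 ∣ N := by
    rw [hR, ← prod_pow]
    refine Finset.prod_dvd_of_coprime ?_ ?_
    · intro P hP Q hQ hPQ
      exact IsCoprime.pow (((hPr P hP).2.coprime_iff_not_dvd).2
        (not_dvd_of_ne (hPr Q hQ) (hPr P hP) hPQ))
    · intro P hP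
      rw [hTR] at hP
      exact (mem_filter.1 hP).2
  have hRN : R ∣ N := (dvd_pow_self R (by norm_num)).trans hR3
  have h1 : ∑ E ∈ (ML K n).filter (fun E => E ^ 3 ∣ N), (mob E : ℝ) = ∑ E ∈ Dv R, (mob E : ℝ) := by
    have h2 : Dv R = (ML K n).filter (fun E => E ∣ R) := by
      ext E
      rw [mem_Dv hRm.ne_zero, mem_filter, mem_ML]
      constructor
      · rintro ⟨h3, h4⟩
        exact ⟨⟨h3, by rw [← hNd]; exact natDegree_le_of_dvd (h4.trans hRN) hN0⟩, h4⟩
      · rintro ⟨⟨h3, -⟩, h4⟩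
        exact ⟨h3, h4⟩
    rw [h2, sum_filter, sum_filter]
    refine sum_congr rfl fun E hE => ?_
    rw [mem_ML] at hE
    by_cases hs : Squarefree E
    · have h3 : E ^ 3 ∣ N ↔ E ∣ R := by
        constructor
        · intro h4
          rw [← prod_pf hE.1 hs]
          rw [prod_dvd_iff pr_pf]
          intro P hP
          rw [hR]
          refine dvd_prod_of_mem _ ?_
          have h5 : P ^ 3 ∣ N := (pow_dvd_pow_of_dvd (pf_dvd hP) 3).trans h4
          rw [hTR, mem_filter]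
          refine ⟨(mem_pf hN0).2 ⟨(pr_pf P hP).1, (pr_pf P hP).2,
            (dvd_pow_self P (by norm_num)).trans h5⟩, h5⟩
        · intro h4
          exact (pow_dvd_pow_of_dvd h4 3).trans hR3
      simp only [h3]
    · rw [mob_nsq hs]
      simp
  rw [h1]
  by_cases hs : Squarefree N
  · rw [if_pos hs]
    have h2 : R = 1 := by
      have h3 : TR = ∅ := by
        rw [Finset.eq_empty_iff_forall_notMem]
        intro P hP
        rw [hTR, mem_filter] at hP
        refine (pr_pf P hP.1).2.not_isUnit (hs P ?_)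
        exact (Dvd.intro P (by ring : P * P * P = P ^ 3)).trans hP.2
      rw [hR, h3, prod_empty]
    have h3 : Dv R = {1} := by
      ext D
      rw [mem_Dv hRm.ne_zero, mem_singleton, h2]
      constructor
      · rintro ⟨h3, h4⟩
        exact h3.eq_one_of_isUnit (isUnit_of_dvd_one h4)
      · rintro rfl
        exact ⟨monic_one, dvd_rfl⟩
    rw [h3, sum_singleton, mob_one']
    simp
  · rw [if_neg hs]
    refine sum_mob_zero hRm hRs ?_
    have h2 : ∃ P ∈ TR, True := by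
      obtain ⟨x, hx1, hx2⟩ : ∃ x, x * x ∣ N ∧ ¬ IsUnit x := by
        by_contra hcon
        apply hs
        intro x hx
        by_contra hx2
        exact hcon ⟨x, hx, hx2⟩
      obtain ⟨P, hPm, hPi, hPx⟩ := exists_monic_irreducible_factor x hx2
      have h3 : P ^ 2 ∣ N := by
        rw [pow_two]
        exact (mul_dvd_mul hPx hPx).trans hx1
      refine ⟨P, ?_, trivial⟩
      rw [hTR, mem_filter]
      exact ⟨(mem_pf hN0).2 ⟨hPm, hPi, (dvd_pow_self P (by norm_num)).trans h3⟩,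
        sq_cube hN2 hPi h3⟩
    obtain ⟨P, hP, -⟩ := h2
    have h3 : P ∣ R := by
      rw [hR]
      exact dvd_prod_of_mem _ hP
    exact lt_of_lt_of_le (hPr P hP).2.natDegree_pos (natDegree_le_of_dvd h3 hRm.ne_zero)

/-- the multiples of a cube -/
lemma sum_WA {E : K[X]} (hE : E.Monic) {n : ℕ} (h : 3 * E.natDegree ≤ n) (φ : K[X] → ℝ) :
    ∑ N ∈ (WA K n).filter (fun N => E ^ 3 ∣ N), φ N =
      ∑ N ∈ WA K (n - 3 * E.natDegree), φ (E ^ 3 * N) := by
  have h3 : (3 : K[X]) = 0 := by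
    have h4 : ((3 : ℕ) : K[X]) = 0 := CharP.cast_eq_zero K[X] 3
    exact_mod_cast h4
  have hd : derivative (E ^ 3) = 0 := by
    have h4 : derivative (E ^ 3) = 3 * (E ^ 2 * derivative E) := by
      rw [show E ^ 3 = E * E * E by ring]
      simp only [derivative_mul]
      ring
    rw [h4, h3, zero_mul]
  have hdd : ∀ N, derivative (derivative (E ^ 3 * N)) = E ^ 3 * derivative (derivative N) := by
    intro N
    simp only [derivative_mul, hd, zero_mul, zero_add]
  have hE3 : (E ^ 3).Monic := hE.pow 3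
  have hE3d : (E ^ 3).natDegree = 3 * E.natDegree := hE.natDegree_pow 3
  symm
  refine Finset.sum_bij (fun N _ => E ^ 3 * N) ?_ ?_ ?_ ?_
  · intro N hN
    unfold WA at hN ⊢
    rw [mem_filter, mem_Mn] at hN
    rw [mem_filter, mem_filter, mem_Mn]
    refine ⟨⟨⟨hE3.mul hN.1.1, ?_⟩, ?_⟩, dvd_mul_right _ _⟩
    · rw [hE3.natDegree_mul hN.1.1, hN.1.2, hE3d]
      omega
    · rw [hdd, hN.2, mul_zero]
  · intro N _ N' _ hh
    exact mul_left_cancel₀ hE3.ne_zero hh
  · intro N hN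
    unfold WA at hN
    rw [mem_filter, mem_filter, mem_Mn] at hN
    obtain ⟨⟨⟨hN1, hN2⟩, hN3⟩, N', rfl⟩ := hN
    have h1 : N'.Monic := hE3.of_mul_monic_left hN1
    refine ⟨N', ?_, rfl⟩
    unfold WA
    rw [mem_filter, mem_Mn]
    refine ⟨⟨h1, ?_⟩, ?_⟩
    · rw [hE3.natDegree_mul h1, hE3d] at hN2
      omega
    · rw [hdd] at hN3
      exact (mul_eq_zero.1 hN3).resolve_left hE3.ne_zero
  · intro N _
    rfl

lemma no_WA {E : K[X]} (hE : E.Monic) {n : ℕ} (h : n < 3 * E.natDegree) :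
    (WA K n).filter (fun N => E ^ 3 ∣ N) = ∅ := by
  rw [Finset.eq_empty_iff_forall_notMem]
  intro N hN
  unfold WA at hN
  rw [mem_filter, mem_filter, mem_Mn] at hN
  have h1 := natDegree_le_of_dvd hN.2 hN.1.1.1.ne_zero
  rw [hE.natDegree_pow 3] at h1
  omega

end cube

section main

variable {K : Type} [Field K] [Fintype K]

/-- the modulus -/
noncomputable def QQ (E : K[X]) (T : Finset K[X]) (D : K[X]) : K[X] := ∏ P ∈ (T ∪ pf D) \ pf E, P

lemma pr_QQ {E D : K[X]} {T : Finset K[X]} (hT : Pr T) : Pr ((T ∪ pf D) \ pf E) := by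
  intro P hP
  rw [mem_sdiff, mem_union] at hP
  rcases hP.1 with h | h
  · exact hT P h
  · exact pr_pf P h

lemma QQ_dvd {E D N : K[X]} {T : Finset K[X]} (hT : Pr T) (hE : E.Monic) (hD : D.Monic)
    (hs : Squarefree D) :
    ((∀ P ∈ T, P ∣ E ^ 3 * N) ∧ D ∣ E ^ 3 * N) ↔ QQ E T D ∣ N := by
  unfold QQ
  rw [prod_dvd_iff (pr_QQ hT)]
  constructor
  · rintro ⟨h1, h2⟩ P hP
    have hPr := pr_QQ hT P hP
    rw [mem_sdiff, mem_union] at hP
    have h3 : P ∣ E ^ 3 * N := by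
      rcases hP.1 with h | h
      · exact h1 P h
      · exact (pf_dvd h).trans h2
    rcases hPr.2.prime.dvd_or_dvd h3 with h4 | h4
    · exfalso
      exact hP.2 ((mem_pf hE.ne_zero).2 ⟨hPr.1, hPr.2, hPr.2.prime.dvd_of_dvd_pow h4⟩)
    · exact h4
  · intro h
    have key : ∀ P ∈ T ∪ pf D, P ∣ E ^ 3 * N := by
      intro P hP
      by_cases h1 : P ∈ pf E
      · exact ((pf_dvd h1).trans (dvd_pow_self E (by norm_num))).mul_right N
      · exact (h P (mem_sdiff.2 ⟨hP, h1⟩)).mul_left _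
    refine ⟨fun P hP => key P (mem_union_left _ hP), ?_⟩
    rw [← prod_pf hD hs, prod_dvd_iff pr_pf]
    intro P hP
    exact key P (mem_union_right _ hP)

/-- the sets of primes of degree sum at most `a` -/
noncomputable def TS (K : Type) [Field K] [Fintype K] (z a : ℕ) : Finset (Finset K[X]) :=
  (Pz K z).powerset.filter (fun T => ∑ P ∈ T, P.natDegree ≤ a)

lemma mem_TS {z a : ℕ} {T : Finset K[X]} (h : T ∈ TS K z a) :
    Pr T ∧ ∑ P ∈ T, P.natDegree ≤ a := by
  unfold TS at h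
  rw [mem_filter, mem_powerset] at h
  refine ⟨?_, h.2⟩
  intro P hP
  have h1 := mem_of_mem_erase (h.1 hP)
  rw [mem_PU] at h1
  exact ⟨h1.1, h1.2.1⟩

lemma card_TS (z a : ℕ) : ((TS K z a).card : ℝ) ≤ (Fintype.card K : ℝ) ^ (a + 1) := by
  have h : (TS K z a).card ≤ (ML K a).card := by
    refine card_le_card_of_injOn (fun T => ∏ P ∈ T, P) ?_ ?_
    · intro T hT
      obtain ⟨h1, h2⟩ := mem_TS (Finset.mem_coe.1 hT)
      obtain ⟨h3, -, h4, -⟩ := prod_facts h1
      rw [Finset.mem_coe, mem_ML]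
      refine ⟨h3, ?_⟩
      rw [h4]
      exact h2
    · intro T hT T' hT' h
      exact prod_inj (mem_TS (Finset.mem_coe.1 hT)).1 (mem_TS (Finset.mem_coe.1 hT')).1 h
  have h2 := h.trans (card_ML (K := K) a)
  exact_mod_cast h2

lemma empty_TS (z a : ℕ) : (∅ : Finset K[X]) ∈ TS K z a := by
  unfold TS
  rw [mem_filter, mem_powerset]
  exact ⟨empty_subset _, by simp⟩

lemma bw_eq {A z : ℕ} {C : ℝ} {w : Finset K[X] → ℝ} (hw : BHW K z A C w) (f : K[X]) :
    bw z w f = ∑ T ∈ TS K z (A * z), if ∀ P ∈ T, P ∣ f then w T else 0 := by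
  unfold bw
  symm
  rw [← sum_filter]
  refine sum_subset ?_ ?_
  · intro T hT
    rw [mem_filter] at hT
    unfold TS at hT
    rw [mem_filter, mem_powerset] at hT
    rw [mem_powerset]
    intro P hP
    exact mem_filter.2 ⟨hT.1.1 hP, hT.2 P hP⟩
  · intro T hT hT2
    by_contra hwT
    apply hT2
    rw [mem_powerset] at hT
    obtain ⟨h1, h2⟩ := hw.2.2.1 T hwT
    rw [mem_filter]
    unfold TS
    rw [mem_filter, mem_powerset]
    exact ⟨⟨h1, h2⟩, fun P hP => (mem_filter.1 (hT hP)).2⟩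

lemma bw_le {A z : ℕ} {C : ℝ} {w : Finset K[X] → ℝ} (hw : BHW K z A C w) (f : K[X]) :
    |bw z w f| ≤ (Fintype.card K : ℝ) ^ (A * z + 1) := by
  rw [bw_eq hw]
  refine (abs_sum_le_sum_abs _ _).trans ?_
  refine (sum_le_sum (g := fun _ => (1 : ℝ)) ?_).trans ?_
  · intro T _
    split_ifs
    · exact hw.1 T
    · simp
  · rw [sum_const, nsmul_eq_mul, mul_one]
    exact card_TS z (A * z)

/-- the sum over the divisors -/
noncomputable def SS (J : ℕ) (c : ℝ) (N : K[X]) : ℝ :=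
  ∑ D ∈ ML K J, if D ∣ N then (c - D.natDegree) * (mob D : ℝ) else 0

lemma SS_eq (J : ℕ) (c : ℝ) (N : K[X]) :
    ∑ j ∈ range (J + 1), (c - j) * ∑ D ∈ (Mn K j).filter (fun D => D ∣ N), (mob D : ℝ) =
      SS J c N := by
  unfold SS
  rw [sum_ML]
  refine sum_congr rfl fun j _ => ?_
  rw [mul_sum, sum_filter]
  refine sum_congr rfl fun D hD => ?_
  rw [mem_Mn] at hD
  rw [hD.2]

lemma total (n J z : ℕ) (w : Finset K[X] → ℝ) (c : ℝ) :
    ∑ j ∈ range (J + 1), (c - j) * Nn K n j z w =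
      ∑ N ∈ (WA K n).filter (fun N => Squarefree N), bw z w N * SS J c N := by
  unfold Nn
  have h1 : ∀ j ∈ range (J + 1), (c - j) * ∑ N ∈ (WA K n).filter (fun N => Squarefree N),
      bw z w N * ∑ D ∈ (Mn K j).filter (fun D => D ∣ N), (mob D : ℝ) =
      ∑ N ∈ (WA K n).filter (fun N => Squarefree N),
        bw z w N * ((c - j) * ∑ D ∈ (Mn K j).filter (fun D => D ∣ N), (mob D : ℝ)) := by
    intro j _
    rw [mul_sum]
    refine sum_congr rfl fun N _ => ?_
    ring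
  rw [sum_congr rfl h1, sum_comm]
  refine sum_congr rfl fun N _ => ?_
  rw [← mul_sum, SS_eq]

/-- the part of the multiples of `E ^ 3` -/
noncomputable def BB (n J z : ℕ) (w : Finset K[X] → ℝ) (c : ℝ) (E : K[X]) : ℝ :=
  ∑ N ∈ (WA K n).filter (fun N => E ^ 3 ∣ N), bw z w N * SS J c N

lemma total2 [CharP K 3] (n J z : ℕ) (w : Finset K[X] → ℝ) (c : ℝ) :
    ∑ j ∈ range (J + 1), (c - j) * Nn K n j z w =
      ∑ E ∈ ML K n, (mob E : ℝ) * BB n J z w c E := by
  rw [total, sum_filter]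
  have h1 : ∀ N ∈ WA K n, (if Squarefree N then bw z w N * SS J c N else 0) =
      ∑ E ∈ ML K n, if E ^ 3 ∣ N then (mob E : ℝ) * (bw z w N * SS J c N) else 0 := by
    intro N hN
    have h2 := sum_cube hN
    rw [sum_filter] at h2
    have h3 : (if Squarefree N then bw z w N * SS J c N else 0) =
        (if Squarefree N then (1 : ℝ) else 0) * (bw z w N * SS J c N) := by
      split_ifs <;> simp
    rw [h3, ← h2, sum_mul]
    refine sum_congr rfl fun E _ => ?_
    split_ifs <;> simp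
  rw [sum_congr rfl h1, sum_comm]
  refine sum_congr rfl fun E _ => ?_
  unfold BB
  rw [mul_sum, sum_filter]

lemma BB_eq [CharP K 3] {A z n J : ℕ} {C : ℝ} {w : Finset K[X] → ℝ} (hw : BHW K z A C w) (c : ℝ)
    {E : K[X]} (hE : E.Monic) (h : 3 * E.natDegree ≤ n) :
    BB n J z w c E = ∑ T ∈ TS K z (A * z), ∑ D ∈ ML K J,
      w T * ((c - D.natDegree) * (mob D : ℝ)) *
        (cnt K (n - 3 * E.natDegree) (QQ E T D) : ℝ) := by
  unfold BB
  rw [sum_WA hE h]
  have h1 : ∀ N ∈ WA K (n - 3 * E.natDegree), bw z w (E ^ 3 * N) * SS J c (E ^ 3 * N) =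
      ∑ T ∈ TS K z (A * z), ∑ D ∈ ML K J,
        (if ∀ P ∈ T, P ∣ E ^ 3 * N then w T else 0) *
          (if D ∣ E ^ 3 * N then (c - D.natDegree) * (mob D : ℝ) else 0) := by
    intro N _
    rw [bw_eq hw, SS, sum_mul_sum]
  rw [sum_congr rfl h1, sum_comm]
  refine sum_congr rfl fun T hT => ?_
  rw [sum_comm]
  refine sum_congr rfl fun D hD => ?_
  obtain ⟨hTP, -⟩ := mem_TS hT
  rw [mem_ML] at hD
  by_cases hs : Squarefree D
  · have h2 : ∀ N ∈ WA K (n - 3 * E.natDegree), (if ∀ P ∈ T, P ∣ E ^ 3 * N then w T else 0) *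
        (if D ∣ E ^ 3 * N then (c - D.natDegree) * (mob D : ℝ) else 0) =
        if QQ E T D ∣ N then w T * ((c - D.natDegree) * (mob D : ℝ)) else 0 := by
      intro N _
      have h3 := QQ_dvd (N := N) hTP hE hD.1 hs
      by_cases h4 : ∀ P ∈ T, P ∣ E ^ 3 * N
      · by_cases h5 : D ∣ E ^ 3 * N
        · rw [if_pos h4, if_pos h5, if_pos (h3.1 ⟨h4, h5⟩)]
        · rw [if_neg h5, if_neg (fun h6 => h5 (h3.2 h6).2), mul_zero]
      · rw [if_neg h4, if_neg (fun h6 => h4 (h3.2 h6).1), zero_mul]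
    rw [sum_congr rfl h2, ← sum_filter, sum_const, nsmul_eq_mul]
    unfold cnt
    ring
  · rw [mob_nsq hs]
    simp

lemma wt_QQ {E D : K[X]} {T : Finset K[X]} (hT : Pr T) (hD : D ≠ 0) :
    (1 / (Fintype.card K : ℝ) ^ (QQ E T D).natDegree) =
      (∏ P ∈ T \ pf E, (1 / (Fintype.card K : ℝ) ^ P.natDegree)) *
        ∏ᶠ P ∈ {P : K[X] | P.Monic ∧ Irreducible P ∧ P ∣ D ∧ P ∉ T ∪ pf E},
          (1 / (Fintype.card K : ℝ) ^ P.natDegree) := by
  have h1 : {P : K[X] | P.Monic ∧ Irreducible P ∧ P ∣ D ∧ P ∉ T ∪ pf E} =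
      ((pf D \ (T ∪ pf E) : Finset K[X]) : Set K[X]) := by
    ext P
    rw [Set.mem_setOf_eq, Finset.mem_coe, mem_sdiff, mem_pf hD]
    tauto
  rw [h1, finprod_mem_coe_finset]
  have h2 : (T ∪ pf D) \ pf E = (T \ pf E) ∪ (pf D \ (T ∪ pf E)) := by
    ext P
    simp only [mem_sdiff, mem_union]
    tauto
  have h3 : Disjoint (T \ pf E) (pf D \ (T ∪ pf E)) := by
    rw [disjoint_left]
    intro P h4 h5
    rw [mem_sdiff] at h4 h5
    exact h5.2 (mem_union_left _ h4.1)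
  rw [← prod_union h3, ← h2]
  unfold QQ
  rw [(prod_facts (pr_QQ hT)).2.2.1, ← prod_pow_eq_pow_sum, one_div, ← prod_inv_distrib]
  refine prod_congr rfl fun P _ => ?_
  rw [one_div]

lemma G_eq (hgen : S_gen) {T : Finset K[X]} {E : K[X]} (hT : Pr T) (hE : E ≠ 0) {a : ℕ}
    (ha : ∑ P ∈ T, P.natDegree ≤ a) (J : ℕ) (c : ℝ) :
    |∑ D ∈ ML K J, (c - D.natDegree) * (mob D : ℝ) *
        (1 / (Fintype.card K : ℝ) ^ (QQ E T D).natDegree) -
      (if T = ∅ ∧ pf E = ∅ then 1 else 0)| ≤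
      100 * (|c| + J + 1) *
        (Fintype.card K : ℝ) ^ (4 * ((a + E.natDegree : ℕ) : ℝ) - J / 2) := by
  have h1 := hgen K T (pf E) (a + E.natDegree) J c ?_ ?_
  · have h2 : ∑ D ∈ ML K J, (c - D.natDegree) * (mob D : ℝ) *
        (1 / (Fintype.card K : ℝ) ^ (QQ E T D).natDegree) =
        ∑ j ∈ Finset.range (J + 1), (c - j) * ∑ D ∈ Mn K j, (mob D : ℝ) *
        ((∏ P ∈ T \ pf E, (1 / (Fintype.card K : ℝ) ^ P.natDegree)) *
          ∏ᶠ P ∈ {P : K[X] | P.Monic ∧ Irreducible P ∧ P ∣ D ∧ P ∉ T ∪ pf E},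
            (1 / (Fintype.card K : ℝ) ^ P.natDegree)) := by
      rw [sum_ML]
      refine sum_congr rfl fun j _ => ?_
      rw [mul_sum]
      refine sum_congr rfl fun D hD => ?_
      rw [mem_Mn] at hD
      rw [wt_QQ hT hD.1.ne_zero, hD.2]
      ring
    rw [h2]
    exact h1
  · intro P hP
    rcases mem_union.1 hP with h | h
    · exact hT P h
    · exact pr_pf P h
  · have h2 := deg_pf hE
    have h3 : ∑ P ∈ T ∪ pf E, P.natDegree ≤ ∑ P ∈ T, P.natDegree + ∑ P ∈ pf E, P.natDegree := by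
      rw [← sum_union_inter]
      omega
    omega

/-- the error for one modulus -/
noncomputable def er (m : ℕ) (Q : K[X]) : ℝ :=
  |(cnt K m Q : ℝ) - (Fintype.card K : ℝ) ^ nu m * (1 / (Fintype.card K : ℝ) ^ Q.natDegree)|

lemma er_sum [CharP K 3] (hirr : S_irr) {m L : ℕ} (hm : m % 3 ≠ 2) (hL : L ≤ m) :
    ∑ Q ∈ (ML K L).filter (fun Q => Squarefree Q), er m Q ≤
      16 * ((m : ℝ) + 1) * (Fintype.card K : ℝ) ^ (L + 5) := by
  have hq := q_ge (k := K)
  rw [sum_filter, sum_ML]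
  have h1 : ∀ j ∈ range (L + 1), ∑ Q ∈ Mn K j, (if Squarefree Q then er m Q else 0) ≤
      16 * ((m : ℝ) + 1) * (Fintype.card K : ℝ) ^ (j + 4) := by
    intro j hj
    rw [mem_range] at hj
    refine le_trans (le_of_eq ?_) (hirr K m j hm (by omega))
    rw [← sum_filter]
    refine sum_congr rfl fun Q hQ => ?_
    rw [mem_filter, mem_Mn] at hQ
    unfold er
    rw [hQ.1.2, Real.rpow_sub (by linarith), Real.rpow_natCast, Real.rpow_natCast, mul_one_div]
  refine (sum_le_sum h1).trans ?_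
  rw [← mul_sum]
  refine mul_le_mul_of_nonneg_left ?_ (by positivity)
  have h2 : ∑ j ∈ range (L + 1), Fintype.card K ^ (j + 4) ≤ Fintype.card K ^ (L + 5) := by
    have h3 := geo (K := K) (L + 1)
    have h4 : ∑ j ∈ range (L + 1), Fintype.card K ^ (j + 4) =
        (∑ j ∈ range (L + 1), Fintype.card K ^ j) * Fintype.card K ^ 4 := by
      rw [sum_mul]
      exact sum_congr rfl fun j _ => pow_add _ _ _
    have h5 : Fintype.card K ^ (L + 5) = Fintype.card K ^ (L + 1) * Fintype.card K ^ 4 := by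
      rw [← pow_add]
    rw [h4, h5]
    exact Nat.mul_le_mul_right _ h3
  exact_mod_cast h2

lemma fiber {T : Finset K[X]} {E : K[X]} (hT : Pr T) (hE : E ≠ 0) {a : ℕ}
    (ha : ∑ P ∈ T, P.natDegree ≤ a) (m J : ℕ) :
    ∑ D ∈ (ML K J).filter (fun D => Squarefree D), er m (QQ E T D) ≤
      (Fintype.card K : ℝ) ^ (a + E.natDegree + 1) *
        ∑ Q ∈ (ML K (J + a)).filter (fun Q => Squarefree Q), er m Q := by
  have h1 : ∀ D ∈ (ML K J).filter (fun D => Squarefree D),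
      QQ E T D ∈ (ML K (J + a)).filter (fun Q => Squarefree Q) := by
    intro D hD
    rw [mem_filter, mem_ML] at hD
    rw [mem_filter, mem_ML]
    obtain ⟨h2, h3, h4, -⟩ := prod_facts (pr_QQ (D := D) (E := E) hT)
    refine ⟨⟨h2, ?_⟩, h3⟩
    unfold QQ
    rw [h4]
    have h5 := deg_pf hD.1.1.ne_zero
    have h6 : ∑ P ∈ (T ∪ pf D) \ pf E, P.natDegree ≤ ∑ P ∈ T ∪ pf D, P.natDegree :=
      sum_le_sum_of_subset sdiff_subset
    have h7 : ∑ P ∈ T ∪ pf D, P.natDegree ≤ ∑ P ∈ T, P.natDegree + ∑ P ∈ pf D, P.natDegree := by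
      rw [← sum_union_inter]
      omega
    omega
  rw [← sum_fiberwise_of_maps_to h1, mul_sum]
  refine sum_le_sum fun Q hQ => ?_
  have h2 : ∑ D ∈ ((ML K J).filter (fun D => Squarefree D)).filter (fun D => QQ E T D = Q),
      er m (QQ E T D) = ((((ML K J).filter (fun D => Squarefree D)).filter
        (fun D => QQ E T D = Q)).card : ℝ) * er m Q := by
    rw [← nsmul_eq_mul, ← sum_const]
    refine sum_congr rfl fun D hD => ?_
    rw [(mem_filter.1 hD).2]
  rw [h2]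
  refine mul_le_mul_of_nonneg_right ?_ (abs_nonneg _)
  have h3 : (((ML K J).filter (fun D => Squarefree D)).filter (fun D => QQ E T D = Q)).card ≤
      (ML K (a + E.natDegree)).card := by
    refine card_le_card_of_injOn (fun D => ∏ P ∈ pf D ∩ (T ∪ pf E), P) ?_ ?_
    · intro D hD
      rw [Finset.mem_coe, mem_filter, mem_filter, mem_ML] at hD
      have hPr : Pr (pf D ∩ (T ∪ pf E)) := fun P hP => pr_pf P (mem_inter.1 hP).1
      obtain ⟨h4, -, h5, -⟩ := prod_facts hPr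
      rw [Finset.mem_coe, mem_ML]
      refine ⟨h4, ?_⟩
      rw [h5]
      have h6 : ∑ P ∈ pf D ∩ (T ∪ pf E), P.natDegree ≤ ∑ P ∈ T ∪ pf E, P.natDegree :=
        sum_le_sum_of_subset inter_subset_right
      have h7 : ∑ P ∈ T ∪ pf E, P.natDegree ≤ ∑ P ∈ T, P.natDegree + ∑ P ∈ pf E, P.natDegree := by
        rw [← sum_union_inter]
        omega
      have h8 := deg_pf hE
      omega
    · intro D hD D' hD' h
      rw [Finset.mem_coe, mem_filter, mem_filter, mem_ML] at hD hD'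
      have hPr : ∀ D : K[X], Pr (pf D ∩ (T ∪ pf E)) := fun D P hP => pr_pf P (mem_inter.1 hP).1
      have h4 : pf D ∩ (T ∪ pf E) = pf D' ∩ (T ∪ pf E) := prod_inj (hPr D) (hPr D') h
      have h5 : (T ∪ pf D) \ pf E = (T ∪ pf D') \ pf E :=
        prod_inj (pr_QQ hT) (pr_QQ hT) (hD.2.trans hD'.2.symm)
      have h6 : pf D = pf D' := by
        ext P
        have h7 : P ∈ pf D ∩ (T ∪ pf E) ↔ P ∈ pf D' ∩ (T ∪ pf E) := by rw [h4]
        have h8 : P ∈ (T ∪ pf D) \ pf E ↔ P ∈ (T ∪ pf D') \ pf E := by rw [h5]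
        simp only [mem_inter, mem_union, mem_sdiff] at h7 h8
        tauto
      rw [← prod_pf hD.1.1.1 hD.1.2, ← prod_pf hD'.1.1.1 hD'.1.2, h6]
  have h4 := h3.trans (card_ML (K := K) (a + E.natDegree))
  exact_mod_cast h4

end main

section final

variable {K : Type} [Field K] [Fintype K]

lemma c_le {n J : ℕ} {c : ℝ} (hc : |c| ≤ n) (hJ : J ≤ n) {D : K[X]} (hD : D ∈ ML K J) :
    |(c - D.natDegree) * (mob D : ℝ)| ≤ 2 * n := by
  rw [mem_ML] at hD
  rw [abs_mul]
  have h1 := abs_mob D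
  have h2 : |c - D.natDegree| ≤ 2 * n := by
    refine (abs_sub _ _).trans ?_
    rw [abs_of_nonneg (Nat.cast_nonneg _ : (0 : ℝ) ≤ (D.natDegree : ℝ))]
    have h3 : (D.natDegree : ℝ) ≤ n := by exact_mod_cast hD.2.trans hJ
    linarith
  calc |c - D.natDegree| * |(mob D : ℝ)| ≤ 2 * n * 1 :=
        mul_le_mul h2 h1 (abs_nonneg _) (by positivity)
    _ = 2 * n := mul_one _

lemma small [CharP K 3] (hirr : S_irr) (hgen : S_gen) {A z n J t : ℕ} {C : ℝ}
    {w : Finset K[X] → ℝ} (hw : BHW K z A C w) {c : ℝ} (hc : |c| ≤ n) (hJ : J ≤ n)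
    (hn : n % 3 ≠ 2) {E : K[X]} (hE : E.Monic) (ht : E.natDegree ≤ t)
    (h3 : J + A * z + 3 * t ≤ n) :
    |BB n J z w c E - (if E = 1 then (Fintype.card K : ℝ) ^ nu n else 0)| ≤
      (Fintype.card K : ℝ) ^ (A * z + 1) * (2 * n * ((Fintype.card K : ℝ) ^ (A * z + t + 1) *
        (16 * ((n : ℝ) + 1) * (Fintype.card K : ℝ) ^ (J + A * z + 5)))) +
      (Fintype.card K : ℝ) ^ (A * z + 1) * ((Fintype.card K : ℝ) ^ nu n *
        (100 * (|c| + J + 1) *
          (Fintype.card K : ℝ) ^ (4 * ((A * z + t : ℕ) : ℝ) - J / 2))) := by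
  have hq := q_ge (k := K)
  obtain ⟨q, hqd⟩ : ∃ q : ℝ, q = (Fintype.card K : ℝ) := ⟨_, rfl⟩
  rw [← hqd] at hq ⊢
  obtain ⟨m, hm⟩ : ∃ m, m = n - 3 * E.natDegree := ⟨_, rfl⟩
  obtain ⟨a, ha⟩ : ∃ a, a = A * z := ⟨_, rfl⟩
  have hBB := BB_eq (n := n) (J := J) hw c hE (by omega)
  rw [← hm, ← ha] at hBB
  rw [← ha] at h3 ⊢
  have hnum : nu m ≤ nu n := by unfold nu; omega
  have hm3 : m % 3 ≠ 2 := by omega
  have hmn : m ≤ n := by omega
  -- the main term as a sum
  have e2 : (if E = 1 then q ^ nu n else 0) = ∑ T ∈ TS K z a,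
      w T * (q ^ nu m * (if T = ∅ ∧ pf E = ∅ then (1 : ℝ) else 0)) := by
    by_cases h1 : E = 1
    · have h2 : pf E = ∅ := (pf_empty hE).2 h1
      have h4 : m = n := by
        rw [hm, h1, natDegree_one]
        rfl
      rw [if_pos h1, sum_eq_single_of_mem ∅ (empty_TS z a), hw.2.1, if_pos ⟨rfl, h2⟩, h4]
      · ring
      · intro T _ hT
        rw [if_neg (fun h => hT h.1)]
        ring
    · have h2 : ¬ pf E = ∅ := fun h => h1 ((pf_empty hE).1 h)
      rw [if_neg h1]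
      symm
      refine sum_eq_zero fun T _ => ?_
      rw [if_neg (fun h => h2 h.2)]
      ring
  have e3 : BB n J z w c E - (if E = 1 then q ^ nu n else 0) = ∑ T ∈ TS K z a,
      (w T * (∑ D ∈ ML K J, (c - D.natDegree) * (mob D : ℝ) *
          ((cnt K m (QQ E T D) : ℝ) - q ^ nu m * (1 / q ^ (QQ E T D).natDegree))) +
        w T * (q ^ nu m * (∑ D ∈ ML K J, (c - D.natDegree) * (mob D : ℝ) *
          (1 / q ^ (QQ E T D).natDegree) - (if T = ∅ ∧ pf E = ∅ then 1 else 0)))) := by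
    rw [e2, hBB, ← sum_sub_distrib]
    refine sum_congr rfl fun T _ => ?_
    have h1 : ∑ D ∈ ML K J, w T * ((c - D.natDegree) * (mob D : ℝ)) *
        (cnt K m (QQ E T D) : ℝ) = w T * ∑ D ∈ ML K J, (c - D.natDegree) * (mob D : ℝ) *
          (cnt K m (QQ E T D) : ℝ) := by
      rw [mul_sum]
      exact sum_congr rfl fun D _ => by ring
    have h2 : ∑ D ∈ ML K J, (c - D.natDegree) * (mob D : ℝ) *
          ((cnt K m (QQ E T D) : ℝ) - q ^ nu m * (1 / q ^ (QQ E T D).natDegree)) =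
        ∑ D ∈ ML K J, (c - D.natDegree) * (mob D : ℝ) * (cnt K m (QQ E T D) : ℝ) -
        q ^ nu m * ∑ D ∈ ML K J, (c - D.natDegree) * (mob D : ℝ) *
          (1 / q ^ (QQ E T D).natDegree) := by
      rw [mul_sum, ← sum_sub_distrib]
      exact sum_congr rfl fun D _ => by ring
    rw [h1, h2]
    ring
  rw [e3]
  refine (abs_sum_le_sum_abs _ _).trans ?_
  have hterm : ∀ T ∈ TS K z a, |w T * (∑ D ∈ ML K J, (c - D.natDegree) * (mob D : ℝ) *
          ((cnt K m (QQ E T D) : ℝ) - q ^ nu m * (1 / q ^ (QQ E T D).natDegree))) +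
        w T * (q ^ nu m * (∑ D ∈ ML K J, (c - D.natDegree) * (mob D : ℝ) *
          (1 / q ^ (QQ E T D).natDegree) - (if T = ∅ ∧ pf E = ∅ then 1 else 0)))| ≤
      2 * n * (q ^ (a + t + 1) * (16 * ((n : ℝ) + 1) * q ^ (J + a + 5))) +
      q ^ nu n * (100 * (|c| + J + 1) * q ^ (4 * ((a + t : ℕ) : ℝ) - J / 2)) := by
    intro T hT
    obtain ⟨hTP, hTa⟩ := mem_TS hT
    have hwT := hw.1 T
    refine (abs_add_le _ _).trans (add_le_add ?_ ?_)
    · rw [abs_mul]
      have h1 : |∑ D ∈ ML K J, (c - D.natDegree) * (mob D : ℝ) *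
          ((cnt K m (QQ E T D) : ℝ) - q ^ nu m * (1 / q ^ (QQ E T D).natDegree))| ≤
          ∑ D ∈ ML K J, (if Squarefree D then 2 * n * er m (QQ E T D) else 0) := by
        refine (abs_sum_le_sum_abs _ _).trans (sum_le_sum fun D hD => ?_)
        by_cases hs : Squarefree D
        · rw [if_pos hs, abs_mul]
          have h4 := c_le hc hJ hD
          have h5 : |(cnt K m (QQ E T D) : ℝ) - q ^ nu m * (1 / q ^ (QQ E T D).natDegree)| =
              er m (QQ E T D) := by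
            unfold er
            rw [hqd]
          rw [h5]
          exact mul_le_mul_of_nonneg_right h4 (abs_nonneg _)
        · rw [if_neg hs, mob_nsq hs]
          simp
      rw [← sum_filter, ← mul_sum] at h1
      have h4 := fiber hTP hE.ne_zero hTa m J
      have h5 := er_sum (K := K) hirr hm3 (show J + a ≤ m by omega)
      rw [← hqd] at h4 h5
      have h6 : q ^ (a + E.natDegree + 1) ≤ q ^ (a + t + 1) :=
        pow_le_pow_right₀ (by linarith) (by omega)
      have h7 : (m : ℝ) ≤ n := by exact_mod_cast hmn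
      have h8 : 0 ≤ ∑ Q ∈ (ML K (J + a)).filter (fun Q => Squarefree Q), er m Q :=
        sum_nonneg fun Q _ => abs_nonneg _
      have h9 : 0 ≤ |∑ D ∈ ML K J, (c - D.natDegree) * (mob D : ℝ) *
          ((cnt K m (QQ E T D) : ℝ) - q ^ nu m * (1 / q ^ (QQ E T D).natDegree))| := abs_nonneg _
      have h10 : 16 * ((m : ℝ) + 1) * q ^ (J + a + 5) ≤ 16 * ((n : ℝ) + 1) * q ^ (J + a + 5) :=
        mul_le_mul_of_nonneg_right (by linarith) (by positivity)
      calc |w T| * |∑ D ∈ ML K J, (c - D.natDegree) * (mob D : ℝ) *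
          ((cnt K m (QQ E T D) : ℝ) - q ^ nu m * (1 / q ^ (QQ E T D).natDegree))| ≤
          1 * (2 * n * ∑ D ∈ (ML K J).filter (fun D => Squarefree D), er m (QQ E T D)) :=
            mul_le_mul hwT h1 h9 zero_le_one
        _ = 2 * n * ∑ D ∈ (ML K J).filter (fun D => Squarefree D), er m (QQ E T D) := one_mul _
        _ ≤ 2 * n * (q ^ (a + E.natDegree + 1) *
            ∑ Q ∈ (ML K (J + a)).filter (fun Q => Squarefree Q), er m Q) :=
            mul_le_mul_of_nonneg_left h4 (by positivity)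
        _ ≤ 2 * n * (q ^ (a + t + 1) * (16 * ((n : ℝ) + 1) * q ^ (J + a + 5))) := by
            refine mul_le_mul_of_nonneg_left ?_ (by positivity)
            exact mul_le_mul h6 (h5.trans h10) h8 (by positivity)
    · rw [abs_mul, abs_mul, abs_of_nonneg (show (0 : ℝ) ≤ q ^ nu m by positivity)]
      have h1 := G_eq hgen hTP hE.ne_zero hTa J c
      rw [← hqd] at h1
      have h4 : q ^ nu m ≤ q ^ nu n := pow_le_pow_right₀ (by linarith) hnum
      have h5 : q ^ (4 * ((a + E.natDegree : ℕ) : ℝ) - (J : ℝ) / 2) ≤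
          q ^ (4 * ((a + t : ℕ) : ℝ) - (J : ℝ) / 2) := by
        refine Real.rpow_le_rpow_of_exponent_le (by linarith) ?_
        have h6 : ((a + E.natDegree : ℕ) : ℝ) ≤ ((a + t : ℕ) : ℝ) := by
          exact_mod_cast (by omega : a + E.natDegree ≤ a + t)
        linarith
      have h6 : 0 ≤ 100 * (|c| + J + 1) := by positivity
      have h7 := h1.trans (mul_le_mul_of_nonneg_left h5 h6)
      calc |w T| * (q ^ nu m * |∑ D ∈ ML K J, (c - D.natDegree) * (mob D : ℝ) *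
          (1 / q ^ (QQ E T D).natDegree) - (if T = ∅ ∧ pf E = ∅ then 1 else 0)|) ≤
          1 * (q ^ nu n * (100 * (|c| + J + 1) * q ^ (4 * ((a + t : ℕ) : ℝ) - J / 2))) := by
            refine mul_le_mul hwT ?_ (by positivity) zero_le_one
            exact mul_le_mul h4 h7 (abs_nonneg _) (by positivity)
        _ = _ := one_mul _
  refine (sum_le_sum hterm).trans ?_
  rw [sum_const, nsmul_eq_mul, ← mul_add]
  refine mul_le_mul_of_nonneg_right ?_ (by positivity)
  rw [hqd]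
  exact card_TS z a

lemma card_WA [CharP K 3] (hirr : S_irr) {m : ℕ} (hm : m % 3 ≠ 2) :
    ((WA K m).card : ℝ) ≤ 17 * ((m : ℝ) + 1) * (Fintype.card K : ℝ) ^ (nu m + 5) := by
  have hq := q_ge (k := K)
  have h1 := er_sum (K := K) hirr hm (Nat.zero_le m)
  have h2 : er m (1 : K[X]) ≤ ∑ Q ∈ (ML K 0).filter (fun Q => Squarefree Q), er m Q := by
    refine single_le_sum (f := fun Q => er m Q) (fun Q _ => abs_nonneg _) ?_
    rw [mem_filter, mem_ML]
    exact ⟨⟨monic_one, by rw [natDegree_one]⟩, squarefree_one⟩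
  have h3 : cnt K m 1 = (WA K m).card := by
    unfold cnt
    rw [filter_true_of_mem]
    intro N _
    exact one_dvd N
  have h4 := h2.trans h1
  unfold er at h4
  rw [h3, natDegree_one, pow_zero, div_one, mul_one] at h4
  have h5 := (le_abs_self _).trans h4
  have h6 : (Fintype.card K : ℝ) ^ (nu m + 5) = (Fintype.card K : ℝ) ^ nu m *
      (Fintype.card K : ℝ) ^ 5 := pow_add _ _ _
  have h7 : 1 ≤ (Fintype.card K : ℝ) ^ nu m := one_le_pow₀ (by linarith)
  have h8 : 1 ≤ (Fintype.card K : ℝ) ^ 5 := one_le_pow₀ (by linarith)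
  have h9 : (0 : ℝ) ≤ m := Nat.cast_nonneg _
  rw [h6]
  rw [zero_add] at h5
  have h10 : (Fintype.card K : ℝ) ^ nu m ≤ (m + 1) * ((Fintype.card K : ℝ) ^ nu m *
      (Fintype.card K : ℝ) ^ 5) := by
    have h11 : (Fintype.card K : ℝ) ^ nu m ≤ (Fintype.card K : ℝ) ^ nu m *
      (Fintype.card K : ℝ) ^ 5 := le_mul_of_one_le_right (by linarith) h8
    have h12 : (Fintype.card K : ℝ) ^ nu m * (Fintype.card K : ℝ) ^ 5 ≤
        (m + 1) * ((Fintype.card K : ℝ) ^ nu m * (Fintype.card K : ℝ) ^ 5) :=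
      le_mul_of_one_le_left (by positivity) (by linarith)
    linarith
  have h11 : 16 * ((m : ℝ) + 1) * (Fintype.card K : ℝ) ^ 5 ≤ 16 * ((m : ℝ) + 1) *
      ((Fintype.card K : ℝ) ^ nu m * (Fintype.card K : ℝ) ^ 5) := by
    refine mul_le_mul_of_nonneg_left ?_ (by positivity)
    exact le_mul_of_one_le_left (by positivity) h7
  linarith

lemma large [CharP K 3] (hirr : S_irr) {A z n J : ℕ} {C : ℝ}
    {w : Finset K[X] → ℝ} (hw : BHW K z A C w) {c : ℝ} (hc : |c| ≤ n) (hJ : J ≤ n)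
    (hn : n % 3 ≠ 2) {V : ℝ} (hV : ∀ N : K[X], N ≠ 0 → N.natDegree ≤ n →
      (({D : K[X] | D.Monic ∧ D ∣ N}.ncard : ℝ)) ≤ V) {E : K[X]} (hE : E.Monic)
    (h3 : 3 * E.natDegree ≤ n) :
    |BB n J z w c E| ≤ 17 * ((n : ℝ) + 1) *
      (Fintype.card K : ℝ) ^ (nu n - 2 * E.natDegree + 5) *
        ((Fintype.card K : ℝ) ^ (A * z + 1) * (2 * n * V)) := by
  have hq := q_ge (k := K)
  have hbound : ∀ N ∈ (WA K n).filter (fun N => E ^ 3 ∣ N), |bw z w N * SS J c N| ≤
      (Fintype.card K : ℝ) ^ (A * z + 1) * (2 * n * V) := by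
    intro N hN
    rw [mem_filter] at hN
    unfold WA at hN
    rw [mem_filter, mem_Mn] at hN
    have hN0 := hN.1.1.1.ne_zero
    have h1 := hV N hN0 hN.1.1.2.le
    rw [abs_mul]
    refine mul_le_mul (bw_le hw N) ?_ (abs_nonneg _) (by positivity)
    unfold SS
    refine (abs_sum_le_sum_abs _ _).trans ?_
    have h2 : ∑ D ∈ ML K J, |if D ∣ N then (c - D.natDegree) * (mob D : ℝ) else 0| ≤
        ∑ D ∈ ML K J, (if D ∣ N then 2 * (n : ℝ) else 0) := by
      refine sum_le_sum fun D hD => ?_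
      split_ifs
      · exact c_le hc hJ hD
      · simp
    refine h2.trans ?_
    rw [← sum_filter, sum_const, nsmul_eq_mul, mul_comm]
    refine mul_le_mul_of_nonneg_left (le_trans ?_ h1) (by positivity)
    have h4 : {D : K[X] | D.Monic ∧ D ∣ N} = ((Dv N : Finset K[X]) : Set K[X]) := by
      ext D
      rw [Set.mem_setOf_eq, Finset.mem_coe, mem_Dv hN0]
    rw [h4, Set.ncard_coe_finset]
    have h5 : (ML K J).filter (fun D => D ∣ N) ⊆ Dv N := by
      intro D hD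
      rw [mem_filter, mem_ML] at hD
      exact (mem_Dv hN0).2 ⟨hD.1.1, hD.2⟩
    exact_mod_cast card_le_card h5
  unfold BB
  refine (abs_sum_le_sum_abs _ _).trans ((sum_le_sum hbound).trans ?_)
  rw [sum_const, nsmul_eq_mul]
  have hV0 : 0 ≤ V := by
    have h1 := hV 1 one_ne_zero (by rw [natDegree_one]; exact Nat.zero_le _)
    exact le_trans (Nat.cast_nonneg _) h1
  refine mul_le_mul_of_nonneg_right ?_ (by positivity)
  have h1 := sum_WA (K := K) hE h3 (fun _ => 1)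
  rw [sum_const, sum_const, nsmul_eq_mul, nsmul_eq_mul, mul_one, mul_one] at h1
  rw [h1]
  have h2 := card_WA (K := K) hirr (show (n - 3 * E.natDegree) % 3 ≠ 2 by omega)
  have h4 : nu (n - 3 * E.natDegree) = nu n - 2 * E.natDegree := by unfold nu; omega
  rw [h4] at h2
  refine h2.trans ?_
  refine mul_le_mul_of_nonneg_right ?_ (by positivity)
  have h5 : ((n - 3 * E.natDegree : ℕ) : ℝ) ≤ n := by exact_mod_cast Nat.sub_le _ _
  linarith

lemma numeric {q : ℝ} (hq : 2 ≤ q) {n J a t v : ℕ} {κ c : ℝ} (hκ : 0 < κ)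
    (hκ' : κ ≤ 1 / 100000) (h1 : 16 * (a : ℝ) ≤ κ * n) (h2 : (t : ℝ) ≤ κ / 4 * n)
    (h2' : κ / 4 * n < t + 1) (h3 : n ≤ 2 * J) (h4 : (J : ℝ) ≤ (2 / 3 - κ) * n)
    (hc : |c| ≤ n) (h5 : 2 * n ≤ 3 * v)
    (h6 : 266 * ((n : ℝ) + 1) ^ 3 * q ^ 8 ≤ q ^ (κ / 16 * (n : ℝ))) :
    q ^ (t + 1) * (q ^ (a + 1) * (2 * n * (q ^ (a + t + 1) *
        (16 * ((n : ℝ) + 1) * q ^ (J + a + 5)))) +
      q ^ (a + 1) * (q ^ v * (100 * (|c| + J + 1) *
        q ^ (4 * ((a + t : ℕ) : ℝ) - J / 2)))) +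
    (n + 1) * (17 * ((n : ℝ) + 1) * (q ^ (v + 5) / q ^ (t + 1)) *
      (q ^ (a + 1) * (2 * n * q ^ (κ / 16 * (n : ℝ))))) ≤ q ^ ((v : ℝ) - κ / 16 * n) := by
  have hq0 : 0 < q := by linarith
  have hn0 : (0 : ℝ) ≤ n := Nat.cast_nonneg _
  have h3' : (n : ℝ) ≤ 2 * J := by exact_mod_cast h3
  have h5' : 2 * (n : ℝ) ≤ 3 * v := by exact_mod_cast h5
  have hJn : (J : ℝ) ≤ n := by nlinarith
  obtain ⟨R, hR⟩ : ∃ R, R = q ^ ((v : ℝ) - κ / 8 * n) := ⟨_, rfl⟩
  have hR0 : 0 < R := by rw [hR]; positivity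
  have hn3 : (n : ℝ) * (n + 1) ≤ (n + 1) ^ 3 := by nlinarith [mul_nonneg hn0 hn0, mul_nonneg (mul_nonneg hn0 hn0) hn0]
  have hn3' : (n : ℝ) + 1 ≤ (n + 1) ^ 3 := by nlinarith [mul_nonneg hn0 hn0, mul_nonneg (mul_nonneg hn0 hn0) hn0]
  have hn3'' : (n : ℝ) * (n + 1) * (n + 1) ≤ (n + 1) ^ 3 := by nlinarith [mul_nonneg hn0 hn0, mul_nonneg (mul_nonneg hn0 hn0) hn0]
  -- the first term
  have t1 : q ^ (t + 1) * (q ^ (a + 1) * (2 * n * (q ^ (a + t + 1) *
        (16 * ((n : ℝ) + 1) * q ^ (J + a + 5))))) ≤ 32 * ((n : ℝ) + 1) ^ 3 * (q ^ 8 * R) := by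
    have e1 : q ^ (t + 1) * (q ^ (a + 1) * (2 * n * (q ^ (a + t + 1) *
        (16 * ((n : ℝ) + 1) * q ^ (J + a + 5))))) =
        32 * (n * (n + 1)) * (q ^ 8 * q ^ (2 * t + 3 * a + J)) := by ring
    have e2 : q ^ (2 * t + 3 * a + J) ≤ R := by
      rw [hR, ← Real.rpow_natCast]
      refine Real.rpow_le_rpow_of_exponent_le (by linarith) ?_
      push_cast
      nlinarith
    rw [e1]
    refine mul_le_mul (by linarith) (mul_le_mul_of_nonneg_left e2 (by positivity))
      (by positivity) (by positivity)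
  have t2 : q ^ (t + 1) * (q ^ (a + 1) * (q ^ v * (100 * (|c| + J + 1) *
        q ^ (4 * ((a + t : ℕ) : ℝ) - (J : ℝ) / 2)))) ≤
      200 * ((n : ℝ) + 1) ^ 3 * (q ^ 8 * R) := by
    have e1 : q ^ (t + 1) * (q ^ (a + 1) * (q ^ v * (100 * (|c| + J + 1) *
        q ^ (4 * ((a + t : ℕ) : ℝ) - (J : ℝ) / 2)))) =
        100 * (|c| + J + 1) * (q ^ 2 * (q ^ (t + a + v) *
          q ^ (4 * ((a + t : ℕ) : ℝ) - (J : ℝ) / 2))) := by ring
    have e2 : q ^ (t + a + v) * q ^ (4 * ((a + t : ℕ) : ℝ) - (J : ℝ) / 2) ≤ R := by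
      rw [hR, ← Real.rpow_natCast, ← Real.rpow_add hq0]
      refine Real.rpow_le_rpow_of_exponent_le (by linarith) ?_
      push_cast
      nlinarith
    have e3 : q ^ 2 ≤ q ^ 8 := pow_le_pow_right₀ (by linarith) (by norm_num)
    have e4 : 100 * (|c| + J + 1) ≤ 200 * ((n : ℝ) + 1) ^ 3 := by linarith
    rw [e1]
    refine mul_le_mul e4 ?_ (by positivity) (by positivity)
    exact mul_le_mul e3 e2 (by positivity) (by positivity)
  have t3 : (n + 1) * (17 * ((n : ℝ) + 1) * (q ^ (v + 5) / q ^ (t + 1)) *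
      (q ^ (a + 1) * (2 * n * q ^ (κ / 16 * (n : ℝ))))) ≤
      34 * ((n : ℝ) + 1) ^ 3 * (q ^ 8 * R) := by
    have e1 : (n + 1) * (17 * ((n : ℝ) + 1) * (q ^ (v + 5) / q ^ (t + 1)) *
      (q ^ (a + 1) * (2 * n * q ^ (κ / 16 * (n : ℝ))))) =
        34 * (n * (n + 1) * (n + 1)) * (q ^ 6 * (q ^ v / q ^ (t + 1) * q ^ a *
          q ^ (κ / 16 * (n : ℝ)))) := by ring
    have e2 : q ^ v / q ^ (t + 1) * q ^ a * q ^ (κ / 16 * (n : ℝ)) ≤ R := by
      rw [hR, ← Real.rpow_natCast, ← Real.rpow_natCast, ← Real.rpow_natCast,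
        ← Real.rpow_sub hq0, ← Real.rpow_add hq0, ← Real.rpow_add hq0]
      refine Real.rpow_le_rpow_of_exponent_le (by linarith) ?_
      push_cast
      nlinarith
    have e3 : q ^ 6 ≤ q ^ 8 := pow_le_pow_right₀ (by linarith) (by norm_num)
    rw [e1]
    refine mul_le_mul (by linarith) ?_ (by positivity) (by positivity)
    exact mul_le_mul e3 e2 (by positivity) (by positivity)
  have t4 : q ^ ((v : ℝ) - κ / 16 * n) = q ^ (κ / 16 * (n : ℝ)) * R := by
    rw [hR, ← Real.rpow_add hq0]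
    congr 1
    ring
  rw [t4, mul_add]
  have t5 := mul_le_mul_of_nonneg_right h6 hR0.le
  linarith

end final

end Pool.Agent.H6.W.F1W

namespace Pool.Agent.H6.W

open Polynomial Finset
open scoped Classical
open Pool.Agent.H985.Chow (mob)
open Pool.Agent.H694.Typ
open Pool.Agent.H604.LD (BHW bw Pz)
open F1W

/-- **FAR1.** -/
theorem far1 (hdiv : S_div) (hirr : S_irr) (hgen : S_gen) : S_far1 := by
  intro K _ _ _ A C κ hκ hκ'
  have hq := q_ge (k := K)
  obtain ⟨q, hqd⟩ : ∃ q : ℝ, q = (Fintype.card K : ℝ) := ⟨_, rfl⟩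
  have hq' : 2 ≤ q := by rw [hqd]; exact hq
  have hq0 : 0 < q := by linarith
  obtain ⟨n₁, hn₁⟩ := hdiv K (κ / 16) (by positivity)
  obtain ⟨r, hr⟩ : ∃ r : ℝ, r = q ^ (-(κ / 16)) := ⟨_, rfl⟩
  have hr0 : 0 < r := by rw [hr]; positivity
  have hr1 : r < 1 := by
    rw [hr]
    exact Real.rpow_lt_one_of_one_lt_of_neg (by linarith) (by linarith)
  have ht := tendsto_pow_const_mul_const_pow_of_abs_lt_one 3 (r := r) (by
    rw [abs_of_pos hr0]
    exact hr1)
  obtain ⟨n₂, hn₂⟩ := Filter.eventually_atTop.1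
    (ht.eventually (gt_mem_nhds (show (0 : ℝ) < 1 / (2128 * q ^ 8) by positivity)))
  refine ⟨κ / 16, by positivity, max (max n₁ n₂) 1, ?_⟩
  intro n J z w c hn hn3 hw hAz hnJ hJ hc
  have hnn1 : n₁ ≤ n := (le_max_left _ _).trans ((le_max_left _ _).trans hn)
  have hnn2 : n₂ ≤ n := (le_max_right _ _).trans ((le_max_left _ _).trans hn)
  have hn1 : 1 ≤ n := (le_max_right _ _).trans hn
  have hn1' : (1 : ℝ) ≤ n := by exact_mod_cast hn1
  have hV := hn₁ n hnn1
  -- the threshold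
  obtain ⟨t, ht⟩ : ∃ t, t = ⌊κ / 4 * (n : ℝ)⌋₊ := ⟨_, rfl⟩
  have ht1 : (t : ℝ) ≤ κ / 4 * n := by
    rw [ht]
    exact Nat.floor_le (by positivity)
  have ht2 : κ / 4 * n < t + 1 := by
    rw [ht]
    exact Nat.lt_floor_add_one _
  have h6 : 266 * ((n : ℝ) + 1) ^ 3 * q ^ 8 ≤ q ^ (κ / 16 * (n : ℝ)) := by
    have h7 := hn₂ n hnn2
    have h8 : r ^ n = (q ^ (κ / 16 * (n : ℝ)))⁻¹ := by
      rw [hr, ← Real.rpow_natCast, ← Real.rpow_mul hq0.le, ← Real.rpow_neg hq0.le]
      congr 1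
      ring
    rw [h8] at h7
    have h9 : 0 < q ^ (κ / 16 * (n : ℝ)) := by positivity
    rw [← div_eq_mul_inv, div_lt_div_iff₀ h9 (by positivity)] at h7
    have h10 : ((n : ℝ) + 1) ^ 3 ≤ 8 * (n : ℝ) ^ 3 := by
      have h11 : ((n : ℝ) + 1) ^ 3 ≤ (2 * n) ^ 3 :=
        pow_le_pow_left₀ (by positivity) (by linarith) 3
      calc ((n : ℝ) + 1) ^ 3 ≤ (2 * n) ^ 3 := h11
        _ = 8 * (n : ℝ) ^ 3 := by ring
    calc 266 * ((n : ℝ) + 1) ^ 3 * q ^ 8 ≤ 266 * (8 * (n : ℝ) ^ 3) * q ^ 8 := by gcongr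
      _ = (n : ℝ) ^ 3 * (2128 * q ^ 8) := by ring
      _ ≤ q ^ (κ / 16 * (n : ℝ)) := by linarith
  have hJt : J + A * z + 3 * t ≤ n := by
    have h7 : ((J + A * z + 3 * t : ℕ) : ℝ) ≤ n := by
      push_cast at hAz ⊢
      nlinarith
    exact_mod_cast h7
  have hJn : J ≤ n := by omega
  have hmain := numeric hq' (c := c) hκ hκ' hAz ht1 ht2 hnJ hJ hc
    (show 2 * n ≤ 3 * nu n by unfold nu; omega) h6
  rw [← hqd]
  refine le_trans ?_ hmain
  rw [total2]
  have e1 : ∑ E ∈ ML K n, (mob E : ℝ) * BB n J z w c E - q ^ nu n =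
      ∑ E ∈ ML K n, ((mob E : ℝ) * BB n J z w c E - (if E = 1 then q ^ nu n else 0)) := by
    rw [sum_sub_distrib, sum_ite_eq' (ML K n) (1 : K[X]) (fun _ => q ^ nu n), if_pos]
    rw [mem_ML]
    exact ⟨monic_one, by rw [natDegree_one]; exact Nat.zero_le _⟩
  rw [e1]
  refine (abs_sum_le_sum_abs _ _).trans ?_
  rw [← sum_filter_add_sum_filter_not (ML K n) (fun E => E.natDegree ≤ t)]
  refine add_le_add ?_ ?_
  · -- the small `E`
    have h7 : ∀ E ∈ (ML K n).filter (fun E => E.natDegree ≤ t),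
        |(mob E : ℝ) * BB n J z w c E - (if E = 1 then q ^ nu n else 0)| ≤
        q ^ (A * z + 1) * (2 * n * (q ^ (A * z + t + 1) *
          (16 * ((n : ℝ) + 1) * q ^ (J + A * z + 5)))) +
        q ^ (A * z + 1) * (q ^ nu n * (100 * (|c| + J + 1) *
          q ^ (4 * ((A * z + t : ℕ) : ℝ) - J / 2))) := by
      intro E hE
      rw [mem_filter, mem_ML] at hE
      have h8 := small hirr hgen hw hc hJn hn3 hE.1.1 hE.2 hJt
      rw [← hqd] at h8
      refine le_trans ?_ h8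
      have h9 : (mob E : ℝ) * BB n J z w c E - (if E = 1 then q ^ nu n else 0) =
          (mob E : ℝ) * (BB n J z w c E - (if E = 1 then q ^ nu n else 0)) := by
        by_cases h10 : E = 1
        · rw [h10, Pool.Agent.H604.LD.F1.mob_one']
          push_cast
          ring
        · rw [if_neg h10]
          ring
      rw [h9, abs_mul]
      exact mul_le_of_le_one_left (abs_nonneg _) (abs_mob E)
    refine (sum_le_sum h7).trans ?_
    rw [sum_const, nsmul_eq_mul]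
    refine mul_le_mul_of_nonneg_right ?_ (by positivity)
    have h8 : ((ML K n).filter (fun E => E.natDegree ≤ t)).card ≤ (ML K t).card := by
      refine card_le_card ?_
      intro E hE
      rw [mem_filter, mem_ML] at hE
      exact mem_ML.2 ⟨hE.1.1, hE.2⟩
    have h9 := h8.trans (card_ML (K := K) t)
    rw [hqd]
    exact_mod_cast h9
  · -- the large `E`
    obtain ⟨W, hW⟩ : ∃ W, W = q ^ (A * z + 1) * (2 * n * q ^ (κ / 16 * (n : ℝ))) := ⟨_, rfl⟩
    have hW0 : 0 ≤ W := by rw [hW]; positivity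
    rw [← hW]
    have h7 : ∀ E ∈ (ML K n).filter (fun E => ¬ E.natDegree ≤ t),
        |(mob E : ℝ) * BB n J z w c E - (if E = 1 then q ^ nu n else 0)| ≤
        if 3 * E.natDegree ≤ n then 17 * ((n : ℝ) + 1) * q ^ (nu n - 2 * E.natDegree + 5) * W
          else 0 := by
      intro E hE
      rw [mem_filter, mem_ML] at hE
      have h8 : E ≠ 1 := by
        rintro rfl
        apply hE.2
        rw [natDegree_one]
        exact Nat.zero_le _
      rw [if_neg h8, sub_zero, abs_mul]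
      refine (mul_le_of_le_one_left (abs_nonneg _) (abs_mob E)).trans ?_
      split_ifs with h9
      · have h10 := large hirr hw hc hJn hn3 hV hE.1.1 h9
        rw [← hqd, ← hW] at h10
        exact h10
      · unfold BB
        rw [no_WA hE.1.1 (by omega), sum_empty, abs_zero]
    refine (sum_le_sum h7).trans ?_
    rw [sum_filter, sum_ML]
    have h8 : ∀ j ∈ range (n + 1), ∑ E ∈ Mn K j, (if ¬ E.natDegree ≤ t then
        (if 3 * E.natDegree ≤ n then 17 * ((n : ℝ) + 1) * q ^ (nu n - 2 * E.natDegree + 5) * W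
          else 0) else 0) ≤ 17 * ((n : ℝ) + 1) * (q ^ (nu n + 5) / q ^ (t + 1)) * W := by
      intro j hj
      by_cases h9 : t < j ∧ 3 * j ≤ n
      · have h10 : ∀ E ∈ Mn K j, (if ¬ E.natDegree ≤ t then
            (if 3 * E.natDegree ≤ n then
              17 * ((n : ℝ) + 1) * q ^ (nu n - 2 * E.natDegree + 5) * W else 0) else 0) =
            17 * ((n : ℝ) + 1) * q ^ (nu n - 2 * j + 5) * W := by
          intro E hE
          rw [mem_Mn] at hE
          rw [hE.2, if_pos (by omega), if_pos h9.2]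
        rw [sum_congr rfl h10, sum_const, card_Mn, nsmul_eq_mul, Nat.cast_pow, ← hqd]
        have h11 : q ^ j * q ^ (nu n - 2 * j + 5) ≤ q ^ (nu n + 5) / q ^ (t + 1) := by
          rw [le_div_iff₀ (by positivity), ← pow_add, ← pow_add]
          refine pow_le_pow_right₀ (by linarith) ?_
          unfold nu
          omega
        calc q ^ j * (17 * ((n : ℝ) + 1) * q ^ (nu n - 2 * j + 5) * W) =
            17 * ((n : ℝ) + 1) * (q ^ j * q ^ (nu n - 2 * j + 5)) * W := by ring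
          _ ≤ 17 * ((n : ℝ) + 1) * (q ^ (nu n + 5) / q ^ (t + 1)) * W := by gcongr
      · have h10 : ∀ E ∈ Mn K j, (if ¬ E.natDegree ≤ t then
            (if 3 * E.natDegree ≤ n then
              17 * ((n : ℝ) + 1) * q ^ (nu n - 2 * E.natDegree + 5) * W else 0) else 0) = 0 := by
          intro E hE
          rw [mem_Mn] at hE
          rw [hE.2]
          by_cases h11 : j ≤ t
          · rw [if_neg (not_not.2 h11)]
          · rw [if_pos h11, if_neg (fun h12 => h9 ⟨by omega, h12⟩)]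
        rw [sum_congr rfl h10, sum_const_zero]
        positivity
    refine (sum_le_sum h8).trans (le_of_eq ?_)
    rw [sum_const, card_range, nsmul_eq_mul]
    push_cast
    ring

end Pool.Agent.H6.W
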