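import Pool.Agent.H6.W.Stm

/-!
# Project WILSON, task FAR2A: very large divisors (helper603)
-/

set_option autoImplicit false

namespace Pool.Agent.H6.W

open Polynomial
open scoped Classical
open Pool.Agent.H985.Chow (mob)
open Pool.Agent.H694.Typ (Mn PU Irn)
open Pool.Agent.H604.LD (BHW bw Pz S_bhw)
open Pool.Agent.H290.CT (V)

noncomputable section

namespace Far2a

open Pool.Agent.H694.Typ (pol pol_inj pol_degree exists_max_sq mem_Mn card_Mn mem_PU)
open Pool.Agent.H290.CT (mem_V card_V)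

variable {K : Type} [Field K] [Fintype K]

/-! ### Sums over `V` -/

/-- the polynomial with given coefficients, as a homomorphism -/
def ph (m : ℕ) : (Fin m → K) →+ K[X] where
  toFun c := pol c
  map_zero' := by simp [pol]
  map_add' c d := by
    simp only [pol, Pi.add_apply, C_add, add_mul]
    rw [Finset.sum_add_distrib]

theorem sum_V (m : ℕ) (f : K[X] → ℝ) : ∑ h ∈ V K m, f h = ∑ c : Fin m → K, f (ph m c) := by
  have e : V K m = Finset.univ.image (pol : (Fin m → K) → K[X]) := rfl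
  rw [e, Finset.sum_image fun a _ b _ h => pol_inj h]
  rfl

theorem split_mem {α : ℕ} {E r h : K[X]} (hE : E.Monic) (he : E.natDegree ≤ α)
    (hr : r ∈ V K E.natDegree) (hh : h ∈ V K (α - E.natDegree)) : r + E * h ∈ V K α := by
  rw [mem_V] at *
  refine lt_of_le_of_lt (degree_add_le _ _) (max_lt ?_ ?_)
  · exact lt_of_lt_of_le hr (by exact_mod_cast he)
  · by_cases h0 : h = 0
    · rw [h0, mul_zero, degree_zero]
      exact WithBot.bot_lt_coe α
    · rw [degree_mul, degree_eq_natDegree hE.ne_zero, degree_eq_natDegree h0]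
      rw [degree_eq_natDegree h0] at hh
      have h1 : h.natDegree < α - E.natDegree := by exact_mod_cast hh
      have h2 : E.natDegree + h.natDegree < α := by omega
      exact_mod_cast h2

theorem sum_split {α : ℕ} (E : K[X]) (hE : E.Monic) (he : E.natDegree ≤ α) (f : K[X] → ℝ) :
    ∑ x ∈ V K α, f x =
      ∑ r ∈ V K E.natDegree, ∑ h ∈ V K (α - E.natDegree), f (r + E * h) := by
  rw [← Finset.sum_product']
  symm
  refine Finset.sum_bij (fun p _ => p.1 + E * p.2) ?_ ?_ ?_ (fun _ _ => rfl)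
  · rintro ⟨r, h⟩ hp
    rw [Finset.mem_product] at hp
    exact split_mem hE he hp.1 hp.2
  · rintro ⟨r, h⟩ hp ⟨r', h'⟩ hp' heq
    rw [Finset.mem_product] at hp hp'
    have hr := mem_V.1 hp.1
    have hr' := mem_V.1 hp'.1
    have hEd : (E.natDegree : WithBot ℕ) = E.degree := (degree_eq_natDegree hE.ne_zero).symm
    rw [hEd] at hr hr'
    have u1 := div_modByMonic_unique h r hE ⟨rfl, hr⟩
    have u2 := div_modByMonic_unique h' r' hE ⟨rfl, hr'⟩
    have heq' : r + E * h = r' + E * h' := heq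
    rw [heq'] at u1
    exact Prod.ext (u1.2.symm.trans u2.2) (u1.1.symm.trans u2.1)
  · intro x hx
    rw [mem_V] at hx
    refine ⟨(x %ₘ E, x /ₘ E), ?_, modByMonic_add_div x E⟩
    rw [Finset.mem_product]
    constructor
    · rw [mem_V]
      have := degree_modByMonic_lt x hE
      rwa [degree_eq_natDegree hE.ne_zero] at this
    · rw [mem_V]
      by_cases h0 : x /ₘ E = 0
      · rw [h0, degree_zero]; exact WithBot.bot_lt_coe _
      · have hx0 : x ≠ 0 := by
          rintro rfl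
          exact h0 (zero_divByMonic E)
        rw [degree_eq_natDegree hx0] at hx
        have h1 : x.natDegree < α := by exact_mod_cast hx
        have h2 := natDegree_divByMonic x hE
        have h3 : E.natDegree ≤ x.natDegree := by
          by_contra hlt
          apply h0
          rw [divByMonic_eq_zero_iff hE]
          exact degree_lt_degree (by omega)
        rw [degree_eq_natDegree h0, h2]
        have h4 : x.natDegree - E.natDegree < α - E.natDegree := by omega
        exact_mod_cast h4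

/-- multiples of a polynomial in `V` -/
theorem card_mul {g : K[X]} (hg : g ≠ 0) (α : ℕ) :
    ((V K α).filter (fun x => g ∣ x)).card ≤ Fintype.card K ^ (α - g.natDegree) := by
  have hsub : (V K α).filter (fun x => g ∣ x) ⊆ (V K (α - g.natDegree)).image (fun h => g * h) := by
    intro x hx
    rw [Finset.mem_filter, mem_V] at hx
    obtain ⟨hx, h, rfl⟩ := hx
    refine Finset.mem_image.2 ⟨h, ?_, rfl⟩
    rw [mem_V]
    by_cases h0 : h = 0
    · rw [h0, degree_zero]; exact WithBot.bot_lt_coe _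
    · rw [degree_mul, degree_eq_natDegree hg, degree_eq_natDegree h0] at hx
      have h1 : g.natDegree + h.natDegree < α := by exact_mod_cast hx
      rw [degree_eq_natDegree h0]
      have h2 : h.natDegree < α - g.natDegree := by omega
      exact_mod_cast h2
  refine (Finset.card_le_card hsub).trans (Finset.card_image_le.trans ?_)
  rw [card_V]

/-! ### The symbols -/

omit [Fintype K] in
theorem leg_congr {f f' P : K[X]} (h : P ∣ f - f') : leg f P = leg f' P := by
  unfold leg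
  have h1 : P ∣ f ↔ P ∣ f' := by
    constructor
    · intro hf
      have := dvd_sub hf h
      rwa [sub_sub_cancel] at this
    · intro hf
      have := dvd_add h hf
      rwa [sub_add_cancel] at this
  have h2 : (∃ y : K[X], P ∣ y ^ 2 - f) ↔ ∃ y : K[X], P ∣ y ^ 2 - f' := by
    constructor
    · rintro ⟨y, hy⟩
      refine ⟨y, ?_⟩
      have := dvd_add hy h
      rwa [sub_add_sub_cancel] at this
    · rintro ⟨y, hy⟩
      refine ⟨y, ?_⟩
      have := dvd_sub hy h
      have e : y ^ 2 - f' - (f - f') = y ^ 2 - f := by ring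
      rwa [e] at this
  simp only [h1, h2]

omit [Fintype K] in
theorem jac_congr {f f' g : K[X]} (h : g ∣ f - f') : jac f g = jac f' g := by
  unfold jac
  congr 1
  refine Multiset.map_congr rfl fun P hP => ?_
  exact leg_congr ((UniqueFactorizationMonoid.dvd_of_mem_normalizedFactors hP).trans h)

omit [Fintype K] in
theorem leg_abs (f P : K[X]) : |leg f P| ≤ 1 := by
  unfold leg
  split_ifs <;> simp

omit [Fintype K] in
theorem jac_abs (f g : K[X]) : |jac f g| ≤ 1 := by
  unfold jac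
  refine Multiset.prod_induction (fun x : ℤ => |x| ≤ 1) _ ?_ (by simp) ?_
  · intro a b ha hb
    rw [abs_mul]
    exact mul_le_one₀ ha (abs_nonneg b) hb
  · intro x hx
    obtain ⟨P, -, rfl⟩ := Multiset.mem_map.1 hx
    exact leg_abs f P

omit [Fintype K] in
theorem jac_abs_real (f g : K[X]) : |(jac f g : ℝ)| ≤ 1 := by
  have := jac_abs f g
  exact_mod_cast this

omit [Fintype K] in
theorem sqf_dvd {c N : K[X]} (hc : Squarefree c) (hc0 : c ≠ 0)
    (h : ∀ P : K[X], Irreducible P → P ∣ c → P ∣ N) : c ∣ N := by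
  by_cases hN : N = 0
  · rw [hN]; exact dvd_zero c
  rw [UniqueFactorizationMonoid.dvd_iff_normalizedFactors_le_normalizedFactors hc0 hN]
  rw [Multiset.le_iff_subset
    ((UniqueFactorizationMonoid.squarefree_iff_nodup_normalizedFactors hc0).1 hc)]
  intro P hP
  have hirr := UniqueFactorizationMonoid.irreducible_of_normalized_factor P hP
  have hdvd := UniqueFactorizationMonoid.dvd_of_mem_normalizedFactors hP
  have hnorm := UniqueFactorizationMonoid.normalize_normalized_factor P hP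
  rw [UniqueFactorizationMonoid.mem_normalizedFactors_iff' hN]
  exact ⟨hirr, hnorm, h P hirr hdvd⟩

/-! ### The inner sum -/

theorem inner_bound (hpv1 : S_pv1) (h2 : (2 : K) ≠ 0) {b c a₀ E : K[X]} (hb : b ≠ 0)
    (hc : Squarefree c) (hc0 : c ≠ 0) (hcb : c ∣ b) {α β ρ e : ℕ} (hρ : ρ ≤ c.natDegree)
    (hbβ : b.natDegree ≤ β) (hE : E.Monic) (hEe : E.natDegree ≤ e) (heα : e ≤ α) (g : K[X] → ℝ)
    (hg1 : ∀ x, |g x| ≤ 1) (hg : ∀ r h, g (r + E * h) = g r) :
    |∑ x ∈ V K α, (jac (a₀ + x) b : ℝ) * g x| ≤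
      (Fintype.card K : ℝ) ^ e * (Fintype.card K : ℝ) ^ (α - ρ) *
        (Fintype.card K : ℝ) ^ ((β : ℝ) / 2) := by
  have hq : (1 : ℝ) ≤ (Fintype.card K : ℝ) := by exact_mod_cast Fintype.card_pos
  rw [sum_split E hE (hEe.trans heα)]
  have hr : ∀ r ∈ V K E.natDegree,
      |∑ h ∈ V K (α - E.natDegree), (jac (a₀ + (r + E * h)) b : ℝ) * g (r + E * h)| ≤
        (Fintype.card K : ℝ) ^ (α - ρ) * (Fintype.card K : ℝ) ^ ((β : ℝ) / 2) := by
    intro r _
    simp only [hg]
    rw [← Finset.sum_mul, abs_mul]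
    have h3 : |∑ h ∈ V K (α - E.natDegree), (jac (a₀ + (r + E * h)) b : ℝ)| ≤
        (Fintype.card K : ℝ) ^ (α - ρ) * (Fintype.card K : ℝ) ^ ((β : ℝ) / 2) := by
      rw [sum_V]
      have h4 := hpv1 K h2 b hb (Fin (α - E.natDegree) → K)
        ((AddMonoidHom.mulLeft E).comp (ph (α - E.natDegree))) (a₀ + r)
      have e1 : ∀ d : Fin (α - E.natDegree) → K,
          a₀ + r + ((AddMonoidHom.mulLeft E).comp (ph (α - E.natDegree))) d =
            a₀ + (r + E * ph (α - E.natDegree) d) := by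
        intro d
        rw [AddMonoidHom.comp_apply, AddMonoidHom.coe_mulLeft, add_assoc]
      simp only [e1] at h4
      refine h4.trans ?_
      have hcard : ((Finset.univ : Finset (Fin (α - E.natDegree) → K)).filter (fun d =>
          ∀ P : K[X], Irreducible P → P ∣ b →
            P ∣ ((AddMonoidHom.mulLeft E).comp (ph (α - E.natDegree))) d)).card ≤
          Fintype.card K ^ (α - ρ) := by
        refine le_trans ?_ (Nat.pow_le_pow_right Fintype.card_pos
          (by omega : α - c.natDegree ≤ α - ρ))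
        refine le_trans ?_ (card_mul hc0 α)
        refine Finset.card_le_card_of_injOn (fun d => E * ph (α - E.natDegree) d) ?_ ?_
        · intro d hd
          rw [Finset.mem_coe, Finset.mem_filter] at hd
          rw [Finset.mem_coe, Finset.mem_filter]
          constructor
          · have h0 : (0 : K[X]) ∈ V K E.natDegree := Pool.Agent.H290.CT.zero_mem_V _
            have h1 := split_mem (h := ph (α - E.natDegree) d) hE (hEe.trans heα) h0 (by
              rw [mem_V]; exact pol_degree d)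
            rwa [zero_add] at h1
          · refine sqf_dvd hc hc0 fun P hP hPc => ?_
            exact hd.2 P hP (hPc.trans hcb)
        · intro d _ d' _ hdd
          exact pol_inj (mul_left_cancel₀ hE.ne_zero hdd)
      have hpow : (Fintype.card K : ℝ) ^ ((b.natDegree : ℝ) / 2) ≤
          (Fintype.card K : ℝ) ^ ((β : ℝ) / 2) := by
        apply Real.rpow_le_rpow_of_exponent_le hq
        have : (b.natDegree : ℝ) ≤ β := by exact_mod_cast hbβ
        linarith
      refine mul_le_mul ?_ hpow (by positivity) (by positivity)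
      exact_mod_cast hcard
    calc |∑ h ∈ V K (α - E.natDegree), (jac (a₀ + (r + E * h)) b : ℝ)| * |g r|
        ≤ (Fintype.card K : ℝ) ^ (α - ρ) * (Fintype.card K : ℝ) ^ ((β : ℝ) / 2) * 1 :=
          mul_le_mul h3 (hg1 r) (abs_nonneg _) (by positivity)
      _ = _ := mul_one _
  calc |∑ r ∈ V K E.natDegree, ∑ h ∈ V K (α - E.natDegree),
        (jac (a₀ + (r + E * h)) b : ℝ) * g (r + E * h)|
      ≤ ∑ r ∈ V K E.natDegree, |∑ h ∈ V K (α - E.natDegree),
        (jac (a₀ + (r + E * h)) b : ℝ) * g (r + E * h)| := Finset.abs_sum_le_sum_abs _ _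
    _ ≤ ∑ _r ∈ V K E.natDegree, (Fintype.card K : ℝ) ^ (α - ρ) *
        (Fintype.card K : ℝ) ^ ((β : ℝ) / 2) := Finset.sum_le_sum hr
    _ = (Fintype.card K : ℝ) ^ E.natDegree * ((Fintype.card K : ℝ) ^ (α - ρ) *
        (Fintype.card K : ℝ) ^ ((β : ℝ) / 2)) := by
        rw [Finset.sum_const, card_V, nsmul_eq_mul]; push_cast; ring
    _ ≤ (Fintype.card K : ℝ) ^ e * ((Fintype.card K : ℝ) ^ (α - ρ) *
        (Fintype.card K : ℝ) ^ ((β : ℝ) / 2)) := by
        apply mul_le_mul_of_nonneg_right _ (by positivity)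
        exact pow_le_pow_right₀ hq hEe
    _ = _ := by ring

/-! ### Bad second coordinates -/

/-- `b` is small or divisible by a large square -/
def Bad (σ t : ℕ) (b : K[X]) : Prop :=
  b = 0 ∨ b.natDegree < σ ∨ ∃ g : K[X], g.Monic ∧ t < g.natDegree ∧ g ^ 2 ∣ b

theorem geoD {q : ℕ} (hq : 2 ≤ q) (B t : ℕ) : ∀ J : ℕ, t ≤ J → J ≤ B →
    ∑ j ∈ Finset.Icc (t + 1) J, q ^ (B - j) + q ^ (B - J) ≤ q ^ (B - t) := by
  intro J htJ
  induction J, htJ using Nat.le_induction with
  | base => intro _; simp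
  | succ J hJ ih =>
    intro hB
    have h1 := ih (by omega)
    have h2 : 2 * q ^ (B - (J + 1)) ≤ q ^ (B - J) := by
      have e : B - J = (B - (J + 1)) + 1 := by omega
      rw [e, pow_succ, mul_comm]
      exact Nat.mul_le_mul_left _ hq
    rw [Finset.sum_Icc_succ_top (by omega)]
    omega

theorem bad_card (c₀ : K[X]) (β σ t : ℕ) (hc₀ : ∀ y ∈ V K β, (c₀ + y).natDegree ≤ β) :
    ((V K β).filter (fun y => Bad σ t (c₀ + y))).card ≤
      Fintype.card K ^ σ + Fintype.card K ^ (β + 1 - t) := by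
  have hq : 2 ≤ Fintype.card K := Fintype.one_lt_card
  have hsub : (V K β).filter (fun y => Bad σ t (c₀ + y)) ⊆
      (V K β).filter (fun y => c₀ + y ∈ V K σ) ∪
        (Finset.Icc (t + 1) (β / 2)).biUnion (fun j => (Mn K j).biUnion
          (fun g => (V K β).filter (fun y => c₀ + y ∈ (V K (β + 1)).filter (fun x => g ^ 2 ∣ x)))) := by
    intro y hy
    rw [Finset.mem_filter] at hy
    obtain ⟨hy, hb⟩ := hy
    rw [Finset.mem_union]
    have hfirst : (c₀ + y = 0 ∨ (c₀ + y).natDegree < σ) → y ∈ (V K β).filter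
        (fun y => c₀ + y ∈ V K σ) := by
      intro h
      rw [Finset.mem_filter]
      refine ⟨hy, mem_V.2 ?_⟩
      by_cases h0 : c₀ + y = 0
      · rw [h0, degree_zero]; exact WithBot.bot_lt_coe _
      · rw [degree_eq_natDegree h0]
        rcases h with h | h
        · exact absurd h h0
        · exact_mod_cast h
    by_cases h0 : c₀ + y = 0
    · exact Or.inl (hfirst (Or.inl h0))
    rcases hb with hb | hb | ⟨g, hg, htg, hgd⟩
    · exact absurd hb h0
    · exact Or.inl (hfirst (Or.inr hb))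
    · right
      have hdeg := natDegree_le_of_dvd hgd h0
      rw [natDegree_pow] at hdeg
      have hβ := hc₀ y hy
      rw [Finset.mem_biUnion]
      refine ⟨g.natDegree, ?_, ?_⟩
      · rw [Finset.mem_Icc]
        omega
      · rw [Finset.mem_biUnion]
        refine ⟨g, mem_Mn.2 ⟨hg, rfl⟩, ?_⟩
        rw [Finset.mem_filter, Finset.mem_filter]
        refine ⟨hy, mem_V.2 ?_, hgd⟩
        rw [degree_eq_natDegree h0]
        exact_mod_cast (by omega : (c₀ + y).natDegree < β + 1)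
  have hinj : ∀ S : Finset K[X], ((V K β).filter (fun y => c₀ + y ∈ S)).card ≤ S.card := by
    intro S
    refine Finset.card_le_card_of_injOn (fun y => c₀ + y) ?_ ?_
    · intro y hy
      rw [Finset.mem_coe, Finset.mem_filter] at hy
      exact hy.2
    · intro y _ y' _ h
      exact add_left_cancel h
  refine (Finset.card_le_card hsub).trans ((Finset.card_union_le _ _).trans ?_)
  refine Nat.add_le_add ?_ ?_
  · refine (hinj _).trans ?_
    rw [card_V]
  · have h1 : ((Finset.Icc (t + 1) (β / 2)).biUnion (fun j => (Mn K j).biUnion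
          (fun g => (V K β).filter (fun y => c₀ + y ∈ (V K (β + 1)).filter
            (fun x => g ^ 2 ∣ x))))).card ≤
        ∑ j ∈ Finset.Icc (t + 1) (β / 2), Fintype.card K ^ (β + 1 - j) := by
      refine Finset.card_biUnion_le.trans (Finset.sum_le_sum fun j hj => ?_)
      rw [Finset.mem_Icc] at hj
      have h2 : ∀ g ∈ Mn K j, ((V K β).filter (fun y => c₀ + y ∈ (V K (β + 1)).filter
          (fun x => g ^ 2 ∣ x))).card ≤ Fintype.card K ^ (β + 1 - 2 * j) := by
        intro g hg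
        rw [mem_Mn] at hg
        refine (hinj _).trans ?_
        have h3 := card_mul (pow_ne_zero 2 hg.1.ne_zero) (β + 1)
        rw [natDegree_pow, hg.2] at h3
        exact h3
      refine Finset.card_biUnion_le.trans ((Finset.sum_le_sum h2).trans ?_)
      rw [Finset.sum_const, card_Mn, smul_eq_mul, ← pow_add]
      have e : j + (β + 1 - 2 * j) = β + 1 - j := by omega
      rw [e]
    refine h1.trans ?_
    by_cases hJ : t ≤ β / 2
    · have h4 := geoD hq (β + 1) t (β / 2) hJ (by omega)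
      omega
    · rw [Finset.Icc_eq_empty (by omega), Finset.sum_empty]
      exact Nat.zero_le _

/-! ### The sets of primes -/

theorem mem_Pz {z : ℕ} {P : K[X]} (h : P ∈ Pz K z) : P.Monic ∧ Irreducible P := by
  unfold Pz at h
  have h1 := Finset.mem_of_mem_erase h
  rw [mem_PU] at h1
  exact ⟨h1.1, h1.2.1⟩

theorem dvd_prod {z : ℕ} {T : Finset K[X]} (hT : T ⊆ Pz K z) {P : K[X]} (hP : P ∈ Pz K z) :
    P ∣ ∏ Q ∈ T, Q ↔ P ∈ T := by
  constructor
  · intro h
    have hPp : Prime P := (mem_Pz hP).2.prime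
    obtain ⟨Q, hQ, hPQ⟩ := (hPp.dvd_finsetProd_iff _).1 h
    have hQ' := mem_Pz (hT hQ)
    have hass : Associated P Q := (mem_Pz hP).2.associated_of_dvd hQ'.2 hPQ
    have := eq_of_monic_of_associated (mem_Pz hP).1 hQ'.1 hass
    rw [this]
    exact hQ
  · intro h
    exact Finset.dvd_prod_of_mem (fun Q => Q) h

theorem prod_monic {z : ℕ} {T : Finset K[X]} (hT : T ⊆ Pz K z) : (∏ Q ∈ T, Q).Monic :=
  monic_prod_of_monic _ _ fun _ hQ => (mem_Pz (hT hQ)).1

theorem prod_deg {z : ℕ} {T : Finset K[X]} (hT : T ⊆ Pz K z) :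
    (∏ Q ∈ T, Q).natDegree = ∑ P ∈ T, P.natDegree :=
  natDegree_prod_of_monic _ _ fun _ hQ => (mem_Pz (hT hQ)).1

/-- the sets of primes with small total degree -/
def TT (K : Type) [Field K] [Fintype K] (z D : ℕ) : Finset (Finset K[X]) :=
  (Pz K z).powerset.filter (fun T => ∑ P ∈ T, P.natDegree ≤ D)

theorem card_TT (z D : ℕ) : (TT K z D).card ≤ Fintype.card K ^ (D + 1) := by
  rw [← card_V]
  refine Finset.card_le_card_of_injOn (fun T => ∏ Q ∈ T, Q) ?_ ?_
  · intro T hT
    rw [Finset.mem_coe, TT, Finset.mem_filter, Finset.mem_powerset] at hT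
    rw [Finset.mem_coe, mem_V, degree_eq_natDegree (prod_monic hT.1).ne_zero, prod_deg hT.1]
    exact_mod_cast (by omega : ∑ P ∈ T, P.natDegree < D + 1)
  · intro T hT T' hT' h
    rw [Finset.mem_coe, TT, Finset.mem_filter, Finset.mem_powerset] at hT hT'
    have h' : ∏ Q ∈ T, Q = ∏ Q ∈ T', Q := h
    ext P
    constructor
    · intro hP
      rw [← dvd_prod hT'.1 (hT.1 hP), ← h', dvd_prod hT.1 (hT.1 hP)]
      exact hP
    · intro hP
      rw [← dvd_prod hT.1 (hT'.1 hP), h', dvd_prod hT'.1 (hT'.1 hP)]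
      exact hP

/-- the indicator function of the divisibility conditions -/
def ind (T : Finset K[X]) (N : K[X]) : ℝ := if ∀ P ∈ T, P ∣ N then 1 else 0

theorem bw_eq {z A : ℕ} {C : ℝ} {w : Finset K[X] → ℝ} (hw : BHW K z A C w) (N : K[X]) :
    bw z w N = ∑ T ∈ TT K z (A * z), w T * ind T N := by
  unfold bw
  have e : ((Pz K z).filter (fun P => P ∣ N)).powerset =
      (Pz K z).powerset.filter (fun T => ∀ P ∈ T, P ∣ N) := by
    ext T
    rw [Finset.mem_powerset, Finset.mem_filter, Finset.mem_powerset]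
    constructor
    · intro h
      exact ⟨fun P hP => (Finset.mem_filter.1 (h hP)).1, fun P hP => (Finset.mem_filter.1 (h hP)).2⟩
    · rintro ⟨h1, h2⟩ P hP
      exact Finset.mem_filter.2 ⟨h1 hP, h2 P hP⟩
  rw [e, Finset.sum_filter]
  have e2 : ∑ T ∈ TT K z (A * z), w T * ind T N =
      ∑ T ∈ (Pz K z).powerset, if ∑ P ∈ T, P.natDegree ≤ A * z then w T * ind T N else 0 := by
    unfold TT
    rw [Finset.sum_filter]
  rw [e2]
  refine Finset.sum_congr rfl fun T _ => ?_
  by_cases hT : w T = 0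
  · rw [hT]; simp
  · rw [if_pos (hw.2.2.1 T hT).2]
    unfold ind
    split_ifs <;> simp

/-! ### Fixed `M` and `T` -/

omit [Fintype K] in
theorem ind_abs (T : Finset K[X]) (N : K[X]) : |ind T N| ≤ 1 := by
  unfold ind
  split_ifs <;> simp

omit [Fintype K] in
theorem ind_congr {T : Finset K[X]} {N N' : K[X]} (h : ∀ P ∈ T, P ∣ N - N') : ind T N = ind T N' := by
  unfold ind
  have e : (∀ P ∈ T, P ∣ N) ↔ ∀ P ∈ T, P ∣ N' := by
    constructor
    · intro h1 P hP
      have := dvd_sub (h1 P hP) (h P hP)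
      rwa [sub_sub_cancel] at this
    · intro h1 P hP
      have := dvd_add (h P hP) (h1 P hP)
      rwa [sub_add_cancel] at this
  simp only [e]

omit [Fintype K] in
theorem dd_congr (F G : K[X] → K[X]) (M a₀ b r h E : K[X]) :
    E ∣ dd F G M (a₀ + (r + E * h)) b - dd F G M (a₀ + r) b := by
  have h1 : (a₀ + (r + E * h)) - (a₀ + r) ∣ (a₀ + (r + E * h)) ^ 3 - (a₀ + r) ^ 3 :=
    sub_dvd_pow_sub_pow _ _ 3
  have e1 : (a₀ + (r + E * h)) - (a₀ + r) = E * h := by ring
  have e2 : dd F G M (a₀ + (r + E * h)) b - dd F G M (a₀ + r) b =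
      ((a₀ + (r + E * h)) ^ 3 - (a₀ + r) ^ 3) * F M := by
    unfold dd
    ring
  rw [e1] at h1
  rw [e2]
  exact ((dvd_mul_right E h).trans h1).mul_right _

theorem MT_bound (hpv1 : S_pv1) (h2 : (2 : K) ≠ 0) (F G : K[X] → K[X]) {M : K[X]} (hM : M.Monic)
    {z : ℕ} {T : Finset K[X]} (hT : T ⊆ Pz K z) {α β σ t ρ e₀ : ℕ}
    (he : M.natDegree + ∑ P ∈ T, P.natDegree ≤ e₀) (heα : e₀ ≤ α) (hσ : ρ + 2 * t ≤ σ)
    {a₀ b₀ : K[X]} (hb₀ : ∀ y ∈ V K β, (b₀ + y).natDegree ≤ β) (θ : K[X] → K[X] → ℝ)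
    (ξ κ : K[X] → ℝ) (hθ : ∀ a b, |θ a b| ≤ 1) (hξ : ∀ b, |ξ b| ≤ 1) (hκ : ∀ M, |κ M| ≤ 1)
    (hθ2 : ∀ a b, b ≠ 0 → θ a b = ξ b * (jac a b : ℝ))
    (hmob : ∀ x ∈ V K α, ∀ y ∈ V K β, (mob (dd F G M (a₀ + x) (b₀ + y)) : ℝ) =
      κ M * θ (a₀ + x) (b₀ + y) * (jac (dd F G M (a₀ + x) (b₀ + y)) M : ℝ)) :
    |∑ x ∈ V K α, ∑ y ∈ V K β, (mob (dd F G M (a₀ + x) (b₀ + y)) : ℝ) *
        ind T (M * dd F G M (a₀ + x) (b₀ + y))| ≤
      (Fintype.card K : ℝ) ^ α * ((Fintype.card K : ℝ) ^ σ + (Fintype.card K : ℝ) ^ (β + 1 - t)) +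
      (Fintype.card K : ℝ) ^ β * ((Fintype.card K : ℝ) ^ e₀ * (Fintype.card K : ℝ) ^ (α - ρ) *
        (Fintype.card K : ℝ) ^ ((β : ℝ) / 2)) := by
  set R : ℝ := (Fintype.card K : ℝ) ^ e₀ * (Fintype.card K : ℝ) ^ (α - ρ) *
        (Fintype.card K : ℝ) ^ ((β : ℝ) / 2) with hR
  have hR0 : 0 ≤ R := by positivity
  set E : K[X] := M * ∏ Q ∈ T, Q with hEdef
  have hEm : E.Monic := hM.mul (prod_monic hT)
  have hEd : E.natDegree ≤ e₀ := by
    rw [hEdef, hM.natDegree_mul (prod_monic hT), prod_deg hT]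
    exact he
  rw [Finset.sum_comm]
  have hy : ∀ y ∈ V K β, |∑ x ∈ V K α, (mob (dd F G M (a₀ + x) (b₀ + y)) : ℝ) *
      ind T (M * dd F G M (a₀ + x) (b₀ + y))| ≤
      (if Bad σ t (b₀ + y) then (Fintype.card K : ℝ) ^ α else 0) + R := by
    intro y hy
    by_cases hbad : Bad σ t (b₀ + y)
    · rw [if_pos hbad]
      have h3 : |∑ x ∈ V K α, (mob (dd F G M (a₀ + x) (b₀ + y)) : ℝ) *
          ind T (M * dd F G M (a₀ + x) (b₀ + y))| ≤ (Fintype.card K : ℝ) ^ α := by
        refine (Finset.abs_sum_le_sum_abs _ _).trans ?_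
        have h4 : ∀ x ∈ V K α, |(mob (dd F G M (a₀ + x) (b₀ + y)) : ℝ) *
            ind T (M * dd F G M (a₀ + x) (b₀ + y))| ≤ 1 := by
          intro x hx
          rw [hmob x hx y hy, abs_mul, abs_mul, abs_mul]
          have h5 := mul_le_one₀ (hκ M) (abs_nonneg _) (hθ (a₀ + x) (b₀ + y))
          have h6 := mul_le_one₀ h5 (abs_nonneg _)
            (jac_abs_real (dd F G M (a₀ + x) (b₀ + y)) M)
          exact mul_le_one₀ h6 (abs_nonneg _) (ind_abs T _)
        refine (Finset.sum_le_sum h4).trans ?_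
        rw [Finset.sum_const, card_V, nsmul_eq_mul, mul_one]
        push_cast
        exact le_rfl
      linarith
    · rw [if_neg hbad, zero_add]
      unfold Bad at hbad
      push Not at hbad
      obtain ⟨hb0, hbσ, hbsq⟩ := hbad
      -- the squarefree part
      set b := b₀ + y with hb
      have hlc : b.leadingCoeff ≠ 0 := mt leadingCoeff_eq_zero.1 hb0
      have hbm : (b * C b.leadingCoeff⁻¹).Monic := monic_mul_leadingCoeff_inv hb0
      have hbd : (b * C b.leadingCoeff⁻¹).natDegree = b.natDegree :=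
        natDegree_mul_C (inv_ne_zero hlc)
      have hdvd : b * C b.leadingCoeff⁻¹ ∣ b := by
        refine ⟨C b.leadingCoeff, ?_⟩
        rw [mul_assoc, ← C_mul, inv_mul_cancel₀ hlc, C_1, mul_one]
      obtain ⟨g, c, hg, hbgc, hc, hcs⟩ := exists_max_sq hbm
      have hgt : g.natDegree ≤ t := by
        by_contra hlt
        push Not at hlt
        exact hbsq g hg hlt ((Dvd.intro c hbgc.symm).trans hdvd)
      have hcd : ρ ≤ c.natDegree := by
        have h3 : (b * C b.leadingCoeff⁻¹).natDegree = 2 * g.natDegree + c.natDegree := by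
          rw [hbgc, (hg.pow 2).natDegree_mul hc, natDegree_pow]
        rw [hbd] at h3
        omega
      have hcb : c ∣ b := (Dvd.intro_left (g ^ 2) hbgc.symm).trans hdvd
      -- the inner sum
      obtain ⟨gf, hgf⟩ : ∃ gf : K[X] → ℝ, ∀ x, gf x =
          (jac (dd F G M (a₀ + x) b) M : ℝ) * ind T (M * dd F G M (a₀ + x) b) := ⟨_, fun _ => rfl⟩
      have hg1 : ∀ x, |gf x| ≤ 1 := by
        intro x
        rw [hgf, abs_mul]
        have h9 := jac_abs_real (dd F G M (a₀ + x) b) M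
        have h10 := ind_abs T (M * dd F G M (a₀ + x) b)
        exact mul_le_one₀ h9 (abs_nonneg _) h10
      have hg2 : ∀ r h, gf (r + E * h) = gf r := by
        intro r h
        have hcong := dd_congr F G M a₀ b r h E
        have hME : M ∣ E := dvd_mul_right M _
        have h9 : ind T (M * dd F G M (a₀ + (r + E * h)) b) = ind T (M * dd F G M (a₀ + r) b) := by
          refine ind_congr fun P hP => ?_
          rw [← mul_sub]
          refine Dvd.dvd.mul_left ?_ M
          exact ((Finset.dvd_prod_of_mem (fun Q => Q) hP).trans (dvd_mul_left _ M)).trans hcong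
        rw [hgf, hgf, jac_congr (hME.trans hcong), h9]
      have hin := inner_bound hpv1 h2 (a₀ := a₀) (E := E) hb0 hcs hc.ne_zero hcb hcd (hb₀ y hy)
        hEm hEd heα gf hg1 hg2
      rw [← hR] at hin
      have e : ∑ x ∈ V K α, (mob (dd F G M (a₀ + x) b) : ℝ) * ind T (M * dd F G M (a₀ + x) b) =
          κ M * ξ b * ∑ x ∈ V K α, (jac (a₀ + x) b : ℝ) * gf x := by
        rw [Finset.mul_sum]
        refine Finset.sum_congr rfl fun x hx => ?_
        rw [hmob x hx y hy, hθ2 _ _ hb0, hgf]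
        ring
      rw [e, abs_mul, abs_mul]
      have h11 : |κ M| * |ξ b| ≤ 1 := mul_le_one₀ (hκ M) (abs_nonneg _) (hξ b)
      calc |κ M| * |ξ b| * |∑ x ∈ V K α, (jac (a₀ + x) b : ℝ) * gf x|
          ≤ 1 * R := mul_le_mul h11 hin (abs_nonneg _) zero_le_one
        _ = R := one_mul R
  refine (Finset.abs_sum_le_sum_abs _ _).trans ((Finset.sum_le_sum hy).trans ?_)
  rw [Finset.sum_add_distrib, Finset.sum_const, card_V, nsmul_eq_mul, ← Finset.sum_filter,
    Finset.sum_const, nsmul_eq_mul]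
  have h7 := bad_card b₀ β σ t hb₀
  have h8 : ((((V K β).filter (fun y => Bad σ t (b₀ + y))).card : ℕ) : ℝ) ≤
      (Fintype.card K : ℝ) ^ σ + (Fintype.card K : ℝ) ^ (β + 1 - t) := by
    exact_mod_cast h7
  push_cast
  refine add_le_add ?_ le_rfl
  rw [mul_comm]
  exact mul_le_mul_of_nonneg_left h8 (by positivity)

/-! ### The numbers -/

theorem numeric {q : ℝ} (hq : 2 ≤ q) {A1 α β k σ t ρ : ℕ} {X : ℝ}
    (h1 : (A1 : ℝ) + 1 + α + σ ≤ X - 2) (h2 : (A1 : ℝ) + 1 + α + (β + 1 - t) ≤ X - 2)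
    (ht : t ≤ β + 1) (h3 : (A1 : ℝ) + 1 + β + (k + A1) + (α - ρ) + β / 2 ≤ X - 2) (hρ : ρ ≤ α) :
    q ^ (A1 + 1) * (q ^ α * (q ^ σ + q ^ (β + 1 - t)) +
      q ^ β * (q ^ (k + A1) * q ^ (α - ρ) * q ^ ((β : ℝ) / 2))) ≤ q ^ X := by
  have hq0 : 0 < q := by linarith
  have hq1 : 1 ≤ q := by linarith
  have e1 : q ^ (A1 + 1) * (q ^ α * q ^ σ) ≤ q ^ (X - 2) := by
    rw [← pow_add, ← pow_add, ← Real.rpow_natCast]
    apply Real.rpow_le_rpow_of_exponent_le hq1
    push_cast
    linarith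
  have e2 : q ^ (A1 + 1) * (q ^ α * q ^ (β + 1 - t)) ≤ q ^ (X - 2) := by
    rw [← pow_add, ← pow_add, ← Real.rpow_natCast]
    apply Real.rpow_le_rpow_of_exponent_le hq1
    push_cast [Nat.cast_sub ht]
    linarith
  have e3 : q ^ (A1 + 1) * (q ^ β * (q ^ (k + A1) * q ^ (α - ρ) * q ^ ((β : ℝ) / 2))) ≤
      q ^ (X - 2) := by
    have e : q ^ (A1 + 1) * (q ^ β * (q ^ (k + A1) * q ^ (α - ρ) * q ^ ((β : ℝ) / 2))) =
        q ^ (A1 + 1 + β + (k + A1) + (α - ρ)) * q ^ ((β : ℝ) / 2) := by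
      rw [pow_add, pow_add, pow_add]
      ring
    rw [e, ← Real.rpow_natCast, ← Real.rpow_add hq0]
    apply Real.rpow_le_rpow_of_exponent_le hq1
    push_cast [Nat.cast_sub hρ]
    linarith
  have e4 : q ^ X = q ^ (2 : ℕ) * q ^ (X - 2) := by
    rw [← Real.rpow_natCast, ← Real.rpow_add hq0]
    congr 1
    push_cast
    ring
  have h4 : (4 : ℝ) ≤ q ^ (2 : ℕ) := by nlinarith
  have h5 : 0 < q ^ (X - 2) := Real.rpow_pos_of_pos hq0 _
  have h6 : 4 * q ^ (X - 2) ≤ q ^ (2 : ℕ) * q ^ (X - 2) := mul_le_mul_of_nonneg_right h4 h5.le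
  rw [e4]
  calc q ^ (A1 + 1) * (q ^ α * (q ^ σ + q ^ (β + 1 - t)) +
      q ^ β * (q ^ (k + A1) * q ^ (α - ρ) * q ^ ((β : ℝ) / 2)))
      = q ^ (A1 + 1) * (q ^ α * q ^ σ) + q ^ (A1 + 1) * (q ^ α * q ^ (β + 1 - t)) +
        q ^ (A1 + 1) * (q ^ β * (q ^ (k + A1) * q ^ (α - ρ) * q ^ ((β : ℝ) / 2))) := by ring
    _ ≤ q ^ (X - 2) + q ^ (X - 2) + q ^ (X - 2) := by linarith
    _ ≤ 4 * q ^ (X - 2) := by linarith
    _ ≤ _ := h6

omit [Fintype K] in
theorem two_ne [CharP K 3] : (2 : K) ≠ 0 := by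
  intro h
  have h1 : ((2 : ℕ) : K) = 0 := by exact_mod_cast h
  rw [CharP.cast_eq_zero_iff K 3 2] at h1
  omega

theorem bound_b (n k v : ℕ) : ∀ y ∈ V K (bB n k v), (cB K n k v + y).natDegree ≤ bB n k v := by
  intro y hy
  rw [mem_V] at hy
  rw [natDegree_le_iff_degree_le]
  refine (degree_add_le _ _).trans (max_le ?_ hy.le)
  unfold cB
  split_ifs
  · rw [degree_zero]; exact bot_le
  · rw [degree_X_pow]

/-- the sum for one cofactor -/
theorem M_bound (hbox : S_box) (hmuf : S_muf) (hpv1 : S_pv1) [CharP K 3] {F G : K[X] → K[X]}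
    (hLB : LB K F G) {A : ℕ} {C κ : ℝ} (hκ1 : κ ≤ 1 / 100000) {n k z : ℕ}
    {w : Finset K[X] → ℝ} (hn : 10000 ≤ n) (hn3 : n % 3 ≠ 2) (hw : BHW K z A C w)
    (hAz : 16 * ((A * z : ℕ) : ℝ) ≤ κ * n) (h15 : 15 * k ≤ n) {M : K[X]} (hM : M ∈ Mn K k)
    (hsq : Squarefree M) :
    |∑ D ∈ (Mn K (n - k)).filter (fun D => derivative (derivative (M * D)) = 0),
        (mob D : ℝ) * bw z w (M * D)| ≤
      (Fintype.card K : ℝ) ^ ((nu n : ℝ) - k - 1 / 200 * n) := by
  have hMm := (mem_Mn.1 hM).1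
  have hMk := (mem_Mn.1 hM).2
  obtain ⟨-, -, -, -, huv, -, -, -, -⟩ := hLB M hMm hsq
  set u := (F M).natDegree with hu
  set v := (G M).natDegree with hv
  rw [hMk] at huv
  have hTy : M ∈ Ty K F G k u v := Finset.mem_filter.2 ⟨hM, hsq, rfl, rfl⟩
  obtain ⟨hbox1, hbox2⟩ := hbox K F G hLB n k u v M hTy hn3 (by omega) (by omega) (by omega)
  obtain ⟨θ, ξ, κ', hθ, hξ, hκ', hθ2, -, hmuf1⟩ := hmuf K F G hLB n k u v hn3 (by omega)
  have hA3 : n - k - u ≤ 3 * bA n k u + 2 := by unfold bA; split_ifs <;> omega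
  have hB3 : n - k - v ≤ 3 * bB n k v + 2 := by unfold bB; split_ifs <;> omega
  have hB4 : 3 * bB n k v ≤ n + 1 := by unfold bB; split_ifs <;> omega
  have hbb := bound_b (K := K) n k v
  set α := bA n k u with hα
  set β := bB n k v with hβ
  -- all members of the box are monic of degree `n - k`
  have hmem : ∀ x ∈ V K α, ∀ y ∈ V K β, dd F G M (cA K n k u + x) (cB K n k v + y) ∈ Mn K (n - k) := by
    have h1 := hbox1 (fun D => if D ∈ Mn K (n - k) then 0 else 1)
    have h2 : ∑ D ∈ (Mn K (n - k)).filter (fun D => derivative (derivative (M * D)) = 0),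
        (if D ∈ Mn K (n - k) then (0 : ℝ) else 1) = 0 := by
      refine Finset.sum_eq_zero fun D hD => ?_
      rw [if_pos (Finset.mem_filter.1 hD).1]
    rw [h2] at h1
    have hnn : ∀ x ∈ V K α, 0 ≤ ∑ y ∈ V K β,
        (if dd F G M (cA K n k u + x) (cB K n k v + y) ∈ Mn K (n - k) then (0 : ℝ) else 1) :=
      fun x _ => Finset.sum_nonneg fun y _ => by split_ifs <;> norm_num
    have h3 := (Finset.sum_eq_zero_iff_of_nonneg hnn).1 h1.symm
    intro x hx y hy
    have h4 := h3 x hx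
    have hnn2 : ∀ y ∈ V K β, (0 : ℝ) ≤
        (if dd F G M (cA K n k u + x) (cB K n k v + y) ∈ Mn K (n - k) then (0 : ℝ) else 1) :=
      fun y _ => by split_ifs <;> norm_num
    have h5 := (Finset.sum_eq_zero_iff_of_nonneg hnn2).1 h4 y hy
    by_contra hcon
    rw [if_neg hcon] at h5
    exact one_ne_zero h5
  have hmob : ∀ x ∈ V K α, ∀ y ∈ V K β,
      (mob (dd F G M (cA K n k u + x) (cB K n k v + y)) : ℝ) =
      κ' M * θ (cA K n k u + x) (cB K n k v + y) *
        (jac (dd F G M (cA K n k u + x) (cB K n k v + y)) M : ℝ) := by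
    intro x hx y hy
    have h1 := mem_Mn.1 (hmem x hx y hy)
    exact hmuf1 M hTy _ _ h1.1 h1.2
  -- real numbers
  have r1 : (15 : ℝ) * k ≤ n := by exact_mod_cast h15
  have hnr : (10000 : ℝ) ≤ n := by exact_mod_cast hn
  have r2 : 16 * ((A * z : ℕ) : ℝ) ≤ 1 / 100000 * n :=
    hAz.trans (mul_le_mul_of_nonneg_right hκ1 (by positivity))
  have ra : (n : ℝ) ≤ 3 * α + 2 * k + 3 := by
    have : n ≤ 3 * α + 2 * k + 3 := by omega
    exact_mod_cast this
  have rb : (n : ℝ) ≤ 3 * β + 2 * k + 3 := by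
    have : n ≤ 3 * β + 2 * k + 3 := by omega
    exact_mod_cast this
  have rb2 : (3 : ℝ) * β ≤ n + 1 := by exact_mod_cast hB4
  have rnu : (nu n : ℝ) = α + β + k := by exact_mod_cast hbox2.symm
  obtain ⟨m, hm1, hm2⟩ : ∃ m : ℕ, 100 * m ≤ n ∧ n < 100 * m + 100 := ⟨n / 100, by omega, by omega⟩
  have rm1 : (100 : ℝ) * m ≤ n := by exact_mod_cast hm1
  have rm2 : (n : ℝ) ≤ 100 * m + 100 := by exact_mod_cast hm2.le
  have hρα : 25 * m ≤ α := by
    have : (25 : ℝ) * m ≤ α := by linarith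
    exact_mod_cast this
  have htβ : m ≤ β + 1 := by
    have : (m : ℝ) ≤ β + 1 := by linarith
    exact_mod_cast this
  have heα : k + A * z ≤ α := by
    have : (k : ℝ) + ((A * z : ℕ) : ℝ) ≤ α := by linarith
    exact_mod_cast this
  -- the sum over `T`
  have e : ∑ D ∈ (Mn K (n - k)).filter (fun D => derivative (derivative (M * D)) = 0),
        (mob D : ℝ) * bw z w (M * D) =
      ∑ T ∈ TT K z (A * z), w T * ∑ x ∈ V K α, ∑ y ∈ V K β,
        (mob (dd F G M (cA K n k u + x) (cB K n k v + y)) : ℝ) *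
          ind T (M * dd F G M (cA K n k u + x) (cB K n k v + y)) := by
    have e1 : ∀ T, ∑ x ∈ V K α, ∑ y ∈ V K β,
        (mob (dd F G M (cA K n k u + x) (cB K n k v + y)) : ℝ) *
          ind T (M * dd F G M (cA K n k u + x) (cB K n k v + y)) =
        ∑ D ∈ (Mn K (n - k)).filter (fun D => derivative (derivative (M * D)) = 0),
          (mob D : ℝ) * ind T (M * D) := fun T =>
      (hbox1 (fun D => (mob D : ℝ) * ind T (M * D))).symm
    simp only [e1, Finset.mul_sum]
    rw [Finset.sum_comm]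
    refine Finset.sum_congr rfl fun D _ => ?_
    rw [bw_eq hw, Finset.mul_sum]
    refine Finset.sum_congr rfl fun T _ => ?_
    ring
  rw [e]
  set Bd : ℝ := (Fintype.card K : ℝ) ^ α * ((Fintype.card K : ℝ) ^ (27 * m) +
      (Fintype.card K : ℝ) ^ (β + 1 - m)) +
      (Fintype.card K : ℝ) ^ β * ((Fintype.card K : ℝ) ^ (k + A * z) *
        (Fintype.card K : ℝ) ^ (α - 25 * m) * (Fintype.card K : ℝ) ^ ((β : ℝ) / 2)) with hBd
  have hT : ∀ T ∈ TT K z (A * z), |w T * ∑ x ∈ V K α, ∑ y ∈ V K β,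
        (mob (dd F G M (cA K n k u + x) (cB K n k v + y)) : ℝ) *
          ind T (M * dd F G M (cA K n k u + x) (cB K n k v + y))| ≤ Bd := by
    intro T hT
    rw [TT, Finset.mem_filter, Finset.mem_powerset] at hT
    rw [abs_mul]
    have h1 := MT_bound hpv1 two_ne F G hMm hT.1 (α := α) (β := β) (σ := 27 * m) (t := m)
      (ρ := 25 * m) (e₀ := k + A * z) (by rw [hMk]; omega) heα (by omega) hbb θ ξ κ' hθ hξ hκ'
      hθ2 hmob
    have h2 := hw.1 T
    calc |w T| * _ ≤ 1 * Bd := mul_le_mul h2 h1 (abs_nonneg _) zero_le_one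
      _ = Bd := one_mul _
  have hq2 : (2 : ℝ) ≤ (Fintype.card K : ℝ) := by exact_mod_cast Fintype.one_lt_card (α := K)
  have hBd0 : 0 ≤ Bd := by positivity
  refine (Finset.abs_sum_le_sum_abs _ _).trans ((Finset.sum_le_sum hT).trans ?_)
  rw [Finset.sum_const, nsmul_eq_mul]
  have h6 : (((TT K z (A * z)).card : ℕ) : ℝ) ≤ (Fintype.card K : ℝ) ^ (A * z + 1) := by
    exact_mod_cast card_TT (K := K) z (A * z)
  refine (mul_le_mul_of_nonneg_right h6 hBd0).trans ?_
  rw [hBd]
  apply numeric hq2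
  · push_cast at r2 ⊢
    rw [rnu]
    linarith
  · push_cast at r2 ⊢
    rw [rnu]
    linarith
  · exact htβ
  · push_cast at r2 ⊢
    rw [rnu]
    linarith
  · exact hρα

end Far2a

open Far2a in
theorem far2a (hlat : S_lat) (hbox : S_box) (hmuf : S_muf) (hpv1 : S_pv1) (hsw : S_swap) :
    S_far2a := by
  intro K _ _ _ A C κ _ hκ1
  refine ⟨1 / 200, by norm_num, 10000, ?_⟩
  intro n l z w hn hn3 hw hAz hln h15
  obtain ⟨F, G, hLB⟩ := hlat K
  rw [hsw K n l z w hln]
  obtain ⟨k, hk, hkn, rfl⟩ : ∃ k, n - l = k ∧ k ≤ n ∧ l = n - k := ⟨n - l, rfl, by omega, by omega⟩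
  rw [hk]
  rw [hk] at h15
  have hq2 : (2 : ℝ) ≤ (Fintype.card K : ℝ) := by exact_mod_cast Fintype.one_lt_card (α := K)
  have hMs : ∀ M ∈ (Mn K k).filter (fun M => Squarefree M),
      |∑ D ∈ (Mn K (n - k)).filter (fun D => derivative (derivative (M * D)) = 0),
        (mob D : ℝ) * bw z w (M * D)| ≤
      (Fintype.card K : ℝ) ^ ((nu n : ℝ) - k - 1 / 200 * n) := by
    intro M hM
    rw [Finset.mem_filter] at hM
    exact M_bound hbox hmuf hpv1 hLB hκ1 hn hn3 hw hAz h15 hM.1 hM.2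
  refine (Finset.abs_sum_le_sum_abs _ _).trans ((Finset.sum_le_sum hMs).trans ?_)
  rw [Finset.sum_const, nsmul_eq_mul]
  have h1 : ((((Mn K k).filter (fun M => Squarefree M)).card : ℕ) : ℝ) ≤
      (Fintype.card K : ℝ) ^ (k : ℝ) := by
    rw [Real.rpow_natCast]
    have := (Finset.card_filter_le (Mn K k) (fun M => Squarefree M)).trans_eq
      (Pool.Agent.H694.Typ.card_Mn k)
    exact_mod_cast this
  refine (mul_le_mul_of_nonneg_right h1 (by positivity)).trans ?_
  rw [← Real.rpow_add (by linarith)]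
  apply le_of_eq
  congr 1
  ring

end

end Pool.Agent.H6.W
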