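import Mathlib
import Pool.Agent.H6.W.Stm

/-!
# Wilson primes: large divisors (task FAR2B)
-/

set_option autoImplicit false

namespace Pool.Agent.H6.W.F2B

open Polynomial Finset
open scoped Classical
open Pool.Agent.H985.Chow (mob)
open Pool.Agent.H694.Typ (Mn PU Irn mem_Mn card_Mn mem_PU)
open Pool.Agent.H604.LD (BHW bw Pz)
open Pool.Agent.H290.CT (V mem_V card_V sum_V_add)

section sets

variable {K : Type} [Field K] [Fintype K]

/-- a set of monic irreducible polynomials -/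
def Pr (T : Finset K[X]) : Prop := ∀ P ∈ T, P.Monic ∧ Irreducible P

lemma Pr_of {z : ℕ} {T : Finset K[X]} (hT : T ⊆ Pz K z) : Pr T := by
  intro P hP
  have h1 := mem_of_mem_erase (hT hP)
  rw [mem_PU] at h1
  exact ⟨h1.1, h1.2.1⟩

omit [Fintype K] in
lemma not_dvd_of_ne {P Q : K[X]} (hP : P.Monic ∧ Irreducible P) (hQ : Q.Monic ∧ Irreducible Q)
    (h : Q ≠ P) : ¬ Q ∣ P := by
  intro h1
  exact h (eq_of_monic_of_associated hQ.1 hP.1 (hQ.2.associated_of_dvd hP.2 h1))

omit [Fintype K] in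
lemma prod_facts {T : Finset K[X]} (hT : Pr T) : (∏ P ∈ T, P).Monic ∧
    (∏ P ∈ T, P).natDegree = ∑ P ∈ T, P.natDegree ∧
    ∀ Q, Irreducible Q → Q.Monic → Q ∉ T → IsCoprime Q (∏ P ∈ T, P) := by
  have h4 : ∀ Q, Irreducible Q → Q.Monic → Q ∉ T → IsCoprime Q (∏ P ∈ T, P) := by
    intro Q hQ hQm hQT
    rw [IsCoprime.prod_right_iff]
    intro P hP
    rw [hQ.coprime_iff_not_dvd]
    refine not_dvd_of_ne (hT P hP) ⟨hQm, hQ⟩ ?_
    rintro rfl
    exact hQT hP
  exact ⟨monic_prod_of_monic _ _ fun P hP => (hT P hP).1,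
    natDegree_prod_of_monic _ _ fun P hP => (hT P hP).1, h4⟩

/-- the number of the sets of small degree -/
lemma card_sets (z N : ℕ) : ((Pz K z).powerset.filter
    (fun T => ∑ P ∈ T, P.natDegree ≤ N)).card ≤ Fintype.card K ^ (N + 1) := by
  have h1 : ((Pz K z).powerset.filter (fun T => ∑ P ∈ T, P.natDegree ≤ N)).card ≤
      ((range (N + 1)).biUnion (fun n => Mn K n)).card := by
    refine card_le_card_of_injOn (fun T => ∏ P ∈ T, P) ?_ ?_
    · intro T hT
      rw [Finset.mem_coe, mem_filter, mem_powerset] at hT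
      obtain ⟨hm, hdeg, -⟩ := prod_facts (Pr_of hT.1)
      rw [Finset.mem_coe, mem_biUnion]
      exact ⟨∑ P ∈ T, P.natDegree, mem_range.2 (by omega), mem_Mn.2 ⟨hm, hdeg⟩⟩
    · have key : ∀ T ∈ (Pz K z).powerset.filter (fun T => ∑ P ∈ T, P.natDegree ≤ N),
          ∀ T' ∈ (Pz K z).powerset.filter (fun T => ∑ P ∈ T, P.natDegree ≤ N),
          ∏ P ∈ T, P = ∏ P ∈ T', P → T ⊆ T' := by
        intro T hT T' hT' h P hP
        rw [mem_filter, mem_powerset] at hT hT'
        have h1 := Pr_of hT.1 P hP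
        by_contra h2
        have h3 := (prod_facts (Pr_of hT'.1)).2.2 P h1.2 h1.1 h2
        rw [← h] at h3
        exact (h1.2.coprime_iff_not_dvd.1 h3) (dvd_prod_of_mem _ hP)
      intro T hT T' hT' h
      exact Subset.antisymm (key T hT T' hT' h) (key T' hT' T hT h.symm)
  refine h1.trans (card_biUnion_le.trans ?_)
  simp only [card_Mn]
  have hq : 2 ≤ Fintype.card K := Fintype.one_lt_card
  have h2 : ∀ N : ℕ, ∑ n ∈ range N, Fintype.card K ^ n ≤ Fintype.card K ^ N := by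
    intro N
    induction N with
    | zero => simp
    | succ N ih =>
      rw [sum_range_succ, pow_succ]
      have : Fintype.card K ^ N * 2 ≤ Fintype.card K ^ N * Fintype.card K :=
        Nat.mul_le_mul_left _ hq
      omega
  exact h2 (N + 1)

/-- the product of the elements of `T` that do not divide `M` -/
noncomputable def QT (T : Finset K[X]) (M : K[X]) : K[X] := ∏ P ∈ T.filter (fun P => ¬ P ∣ M), P

omit [Fintype K] in
lemma QT_dvd {T : Finset K[X]} (hT : Pr T) (M D : K[X]) :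
    (∀ P ∈ T, P ∣ M * D) ↔ QT T M ∣ D := by
  unfold QT
  constructor
  · intro h
    refine Finset.prod_dvd_of_coprime ?_ ?_
    · intro P hP Q hQ hPQ
      have hP' := hT P (mem_filter.1 hP).1
      have hQ' := hT Q (mem_filter.1 hQ).1
      exact (hP'.2.coprime_iff_not_dvd).2 (not_dvd_of_ne hQ' hP' hPQ)
    · intro P hP
      rw [mem_filter] at hP
      exact ((hT P hP.1).2.prime.dvd_or_dvd (h P hP.1)).resolve_left hP.2
  · intro h P hP
    by_cases h3 : P ∣ M
    · exact h3.mul_right _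
    · exact ((dvd_prod_of_mem _ (mem_filter.2 ⟨hP, h3⟩)).trans h).mul_left _

lemma bw_eq (z : ℕ) (w : Finset K[X] → ℝ) (M D : K[X]) :
    bw z w (M * D) = ∑ T ∈ (Pz K z).powerset, w T * (if QT T M ∣ D then (1 : ℝ) else 0) := by
  have h : ∀ T ∈ (Pz K z).powerset, w T * (if QT T M ∣ D then (1 : ℝ) else 0) =
      if ∀ P ∈ T, P ∣ M * D then w T else 0 := by
    intro T hT
    rw [mem_powerset] at hT
    by_cases h1 : QT T M ∣ D
    · rw [if_pos h1, if_pos ((QT_dvd (Pr_of hT) M D).2 h1), mul_one]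
    · rw [if_neg h1, if_neg (fun h2 => h1 ((QT_dvd (Pr_of hT) M D).1 h2)), mul_zero]
  rw [sum_congr rfl h, ← sum_filter]
  unfold bw
  refine sum_congr ?_ fun _ _ => rfl
  ext T
  rw [mem_powerset, mem_filter, mem_powerset]
  constructor
  · intro h
    exact ⟨fun P hP => (mem_filter.1 (h hP)).1, fun P hP => (mem_filter.1 (h hP)).2⟩
  · rintro ⟨h1, h2⟩ P hP
    exact mem_filter.2 ⟨h1 hP, h2 P hP⟩

/-- decomposition into types -/
lemma sum_types {F G : K[X] → K[X]} (hLB : LB K F G) (k : ℕ) (f : K[X] → ℝ) :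
    ∑ M ∈ (Mn K k).filter (fun M => Squarefree M), f M =
      ∑ u ∈ range (k + 2), ∑ M ∈ Ty K F G k u (k + 1 - u), f M := by
  have h0 : ∀ M ∈ (Mn K k).filter (fun M => Squarefree M),
      (F M).natDegree + (G M).natDegree = k + 1 := by
    intro M hM
    rw [mem_filter, mem_Mn] at hM
    have := (hLB M hM.1.1 hM.2).2.2.2.2.1
    rw [hM.1.2] at this
    exact this
  rw [← sum_fiberwise_of_maps_to (t := range (k + 2)) (g := fun M => (F M).natDegree)]
  · refine sum_congr rfl fun u hu => sum_congr ?_ fun _ _ => rfl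
    ext M
    constructor
    · intro h
      rw [mem_filter] at h
      have h1 := h0 M h.1
      have h2 := h.1
      rw [mem_filter] at h2
      unfold Ty
      rw [mem_filter]
      exact ⟨h2.1, h2.2, h.2, by have := h.2; omega⟩
    · intro h
      unfold Ty at h
      rw [mem_filter] at h
      rw [mem_filter, mem_filter]
      exact ⟨⟨h.1, h.2.1⟩, h.2.2.1⟩
  · intro M hM
    have := h0 M hM
    rw [mem_range]
    show (F M).natDegree < k + 2
    omega

/-- averaging over translates -/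
lemma avg {α α' : ℕ} (h : α' ≤ α) (f : K[X] → ℝ) :
    (Fintype.card K : ℝ) ^ α' * ∑ x ∈ V K α, f x = ∑ x ∈ V K α, ∑ x' ∈ V K α', f (x + x') := by
  rw [sum_comm]
  have h1 : ∀ x' ∈ V K α', ∑ x ∈ V K α, f (x + x') = ∑ x ∈ V K α, f x := by
    intro x' hx'
    refine sum_V_add ?_ f
    rw [mem_V] at hx' ⊢
    exact lt_of_lt_of_le hx' (by exact_mod_cast h)
  rw [sum_congr rfl h1, sum_const, card_V, nsmul_eq_mul]
  push_cast
  rfl

lemma avg2 {α α' β β' : ℕ} (h : α' ≤ α) (h' : β' ≤ β) (f : K[X] → K[X] → ℝ) :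
    (Fintype.card K : ℝ) ^ (α' + β') * ∑ x ∈ V K α, ∑ y ∈ V K β, f x y =
      ∑ x ∈ V K α, ∑ y ∈ V K β, ∑ x' ∈ V K α', ∑ y' ∈ V K β', f (x + x') (y + y') := by
  rw [pow_add, mul_assoc, mul_sum]
  have h1 : ∀ x ∈ V K α, (Fintype.card K : ℝ) ^ β' * ∑ y ∈ V K β, f x y =
      ∑ y ∈ V K β, ∑ y' ∈ V K β', f x (y + y') := fun x _ => avg h' _
  rw [sum_congr rfl h1, avg h]
  refine sum_congr rfl fun x _ => ?_
  rw [sum_comm]

omit [Fintype K] in
lemma mob_le (f : K[X]) : |(mob f : ℝ)| ≤ 1 := by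
  unfold Pool.Agent.H985.Chow.mob
  split_ifs
  · push_cast
    rw [abs_pow, abs_neg, abs_one, one_pow]
  · simp

/-- the sum for one set and one type -/
noncomputable def ST (F G : K[X] → K[X]) (n k u v : ℕ) (T : Finset K[X]) : ℝ :=
  ∑ M ∈ Ty K F G k u v,
    ∑ D ∈ (Mn K (n - k)).filter (fun D => derivative (derivative (M * D)) = 0),
      if QT T M ∣ D then (mob D : ℝ) else 0

lemma card_q : (2 : ℝ) ≤ (Fintype.card K : ℝ) := by
  exact_mod_cast (Fintype.one_lt_card : 1 < Fintype.card K)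

/-- the trivial bound for the unbalanced types -/
lemma unbal [CharP K 3] (hbox : S_box) (hunb : S_unb) {F G : K[X] → K[X]} (hLB : LB K F G)
    {n k u v δ : ℕ} (T : Finset K[X]) (hn : n % 3 ≠ 2) (hk : k ≤ n) (hu : u ≤ n - k)
    (hv : v ≤ n - k) (hd : 3 * δ ≤ max u v - min u v) (hN : bA n k u + bB n k v + k = nu n) :
    |ST F G n k u v T| * (Fintype.card K : ℝ) ^ δ ≤ (Fintype.card K : ℝ) ^ (nu n + 1) := by
  have hq := card_q (K := K)
  set q : ℝ := (Fintype.card K : ℝ) with hqdef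
  have hq1 : 1 ≤ q := by linarith
  have h1 : |ST F G n k u v T| ≤ ((Ty K F G k u v).card : ℝ) * q ^ (bA n k u + bB n k v) := by
    unfold ST
    refine (abs_sum_le_sum_abs _ _).trans ?_
    rw [← nsmul_eq_mul]
    refine sum_le_card_nsmul _ _ _ fun M hM => ?_
    have hb := (hbox K F G hLB n k u v M hM hn hk hu hv).1
    rw [hb (fun D => if QT T M ∣ D then (mob D : ℝ) else 0)]
    refine (abs_sum_le_sum_abs _ _).trans ?_
    have h2 : ∀ x ∈ V K (bA n k u), |∑ y ∈ V K (bB n k v),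
        (fun D => if QT T M ∣ D then (mob D : ℝ) else 0)
          (dd F G M (cA K n k u + x) (cB K n k v + y))| ≤ q ^ bB n k v := by
      intro x _
      refine (abs_sum_le_sum_abs _ _).trans ?_
      have h3 : ∀ y ∈ V K (bB n k v), |(fun D => if QT T M ∣ D then (mob D : ℝ) else 0)
          (dd F G M (cA K n k u + x) (cB K n k v + y))| ≤ 1 := by
        intro y _
        show |if QT T M ∣ _ then (mob _ : ℝ) else 0| ≤ 1
        split_ifs
        · exact mob_le _
        · simp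
      refine (sum_le_sum h3).trans ?_
      rw [sum_const, card_V, nsmul_eq_mul, mul_one]
      push_cast
      exact le_rfl
    refine (sum_le_sum h2).trans ?_
    rw [sum_const, card_V, nsmul_eq_mul, pow_add]
    push_cast
    exact le_rfl
  have h2 : ((Ty K F G k u v).card : ℝ) * q ^ δ ≤ q ^ (k + 1) := by
    have h3 := hunb K F G hLB k u v
    have h4 : ((Ty K F G k u v).card : ℝ) * q ^ ((max u v - min u v) / 3) ≤ q ^ (k + 1) := by
      rw [hqdef]
      exact_mod_cast h3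
    refine le_trans ?_ h4
    apply mul_le_mul_of_nonneg_left _ (Nat.cast_nonneg _)
    exact pow_le_pow_right₀ hq1 (by omega)
  calc |ST F G n k u v T| * q ^ δ
      ≤ ((Ty K F G k u v).card : ℝ) * q ^ (bA n k u + bB n k v) * q ^ δ :=
        mul_le_mul_of_nonneg_right h1 (by positivity)
    _ = (((Ty K F G k u v).card : ℝ) * q ^ δ) * q ^ (bA n k u + bB n k v) := by ring
    _ ≤ q ^ (k + 1) * q ^ (bA n k u + bB n k v) :=
        mul_le_mul_of_nonneg_right h2 (by positivity)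
    _ = q ^ (nu n + 1) := by
        rw [← pow_add]
        congr 1
        omega

omit [Fintype K] in
lemma rearr (S A B : Finset K[X]) (φ : K[X] → K[X] → K[X] → ℝ) (a b x y : K[X]) :
    ∑ x' ∈ A, ∑ y' ∈ B, ∑ M ∈ S, φ M (a + (x + x')) (b + (y + y')) =
      ∑ M ∈ S, ∑ x' ∈ A, ∑ y' ∈ B, φ M (a + x + x') (b + y + y') := by
  symm
  rw [sum_comm]
  refine sum_congr rfl fun x' _ => ?_
  rw [sum_comm]
  refine sum_congr rfl fun y' _ => ?_
  simp only [add_assoc]

/-- the bilinear bound for the balanced types -/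
lemma bal [CharP K 3] (hbox : S_box) (hmuf : S_muf) (hbil : S_bil) {F G : K[X] → K[X]}
    (hLB : LB K F G) {n k u v δ : ℕ} (T : Finset K[X]) (hn : n % 3 ≠ 2) (hkn : 3 * k + 3 * δ ≤ n)
    (hδk : 48 * δ ≤ k) (huv : u + v = k + 1) (hk1 : 1 ≤ k)
    (hd : max u v - min u v < 3 * δ) (hN : bA n k u + bB n k v + k = nu n) :
    |ST F G n k u v T| * (Fintype.card K : ℝ) ^ δ ≤ (Fintype.card K : ℝ) ^ (nu n + 3) := by
  have hq := card_q (K := K)
  set q : ℝ := (Fintype.card K : ℝ) with hqdef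
  have hq1 : 1 ≤ q := by linarith
  have hq0 : 0 < q := by linarith
  have hk : k ≤ n := by omega
  have hu : u ≤ n - k := by omega
  have hv : v ≤ n - k := by omega
  obtain ⟨θ, ξ, κ', hθ, -, hκ, -, -, hmu⟩ := hmuf K F G hLB n k u v hn hk
  set α := bA n k u with hα
  set β := bB n k v with hβ
  obtain ⟨α', hα'⟩ : ∃ α', α' = (2 * k + 3 * δ - u) / 3 := ⟨_, rfl⟩
  obtain ⟨β', hβ'⟩ : ∃ β', β' = (2 * k + 3 * δ - v) / 3 := ⟨_, rfl⟩
  have hαα : α' ≤ α := by
    rw [hα, hα']
    unfold bA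
    split_ifs <;> omega
  have hββ : β' ≤ β := by
    rw [hβ, hβ']
    unfold bB
    split_ifs <;> omega
  have hs : k + 2 * δ ≤ α' + β' + 1 := by rw [hα', hβ']; omega
  have ha1 : 3 * α' + u ≤ 2 * k + 3 * δ + 2 := by rw [hα']; omega
  have hb1 : 3 * β' + v ≤ 2 * k + 3 * δ + 2 := by rw [hβ']; omega
  have hE : k + 2 * (3 * δ) + max u v + k / 3 + 3 ≤ 2 * k + 3 := by
    rcases le_total u v with h | h
    · rw [max_eq_right h, min_eq_left h] at *
      omega
    · rw [max_eq_left h, min_eq_right h] at *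
      omega
  -- the summand
  obtain ⟨φ, hφ⟩ : ∃ φ : K[X] → K[X] → K[X] → ℝ, φ = fun M a b =>
    if (1 : K[X]) ∣ dd F G M a b ∧ QT T M ∣ dd F G M a b then
      κ' M * θ a b * (Pool.Agent.H6.W.jac (dd F G M a b) M : ℝ) else 0 := ⟨_, rfl⟩
  have hST : ST F G n k u v T =
      ∑ x ∈ V K α, ∑ y ∈ V K β, ∑ M ∈ Ty K F G k u v,
        φ M (cA K n k u + x) (cB K n k v + y) := by
    have e1 : ST F G n k u v T = ∑ M ∈ Ty K F G k u v, ∑ x ∈ V K α, ∑ y ∈ V K β,
        if (1 : K[X]) ∣ dd F G M (cA K n k u + x) (cB K n k v + y) ∧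
            QT T M ∣ dd F G M (cA K n k u + x) (cB K n k v + y) then
          κ' M * θ (cA K n k u + x) (cB K n k v + y) *
            (Pool.Agent.H6.W.jac (dd F G M (cA K n k u + x) (cB K n k v + y)) M : ℝ) else 0 := by
      unfold ST
      refine sum_congr rfl fun M hM => ?_
      have hb := (hbox K F G hLB n k u v M hM hn hk hu hv).1
      rw [hb (fun D => if QT T M ∣ D then (mob D : ℝ) else 0)]
      -- the elements are monic of degree `n - k`
      have hb2 := hb (fun D => if D.Monic ∧ D.natDegree = n - k then 0 else 1)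
      have hz : ∑ D ∈ (Mn K (n - k)).filter (fun D => derivative (derivative (M * D)) = 0),
          (fun D : K[X] => if D.Monic ∧ D.natDegree = n - k then (0 : ℝ) else 1) D = 0 := by
        refine sum_eq_zero fun D hD => ?_
        rw [mem_filter, mem_Mn] at hD
        exact if_pos hD.1
      rw [hz] at hb2
      have hnn : ∀ x y : K[X], (0 : ℝ) ≤ (fun D : K[X] => if D.Monic ∧ D.natDegree = n - k then
          (0 : ℝ) else 1) (dd F G M (cA K n k u + x) (cB K n k v + y)) := by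
        intro x y
        show (0 : ℝ) ≤ if _ then (0 : ℝ) else 1
        split_ifs <;> norm_num
      refine sum_congr rfl fun x hx => sum_congr rfl fun y hy => ?_
      have hb3 := (sum_eq_zero_iff_of_nonneg (fun x _ => sum_nonneg fun y _ => hnn x y)).1
        hb2.symm x hx
      have hb4 := (sum_eq_zero_iff_of_nonneg (fun y _ => hnn x y)).1 hb3 y hy
      have hb5 : (dd F G M (cA K n k u + x) (cB K n k v + y)).Monic ∧
          (dd F G M (cA K n k u + x) (cB K n k v + y)).natDegree = n - k := by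
        by_contra hcon
        have hb6 : (if (dd F G M (cA K n k u + x) (cB K n k v + y)).Monic ∧
          (dd F G M (cA K n k u + x) (cB K n k v + y)).natDegree = n - k then (0 : ℝ) else 1) = 0 :=
          hb4
        rw [if_neg hcon] at hb6
        exact one_ne_zero hb6
      have hb7 := hmu M hM _ _ hb5.1 hb5.2
      show (if QT T M ∣ dd F G M (cA K n k u + x) (cB K n k v + y) then
        (mob (dd F G M (cA K n k u + x) (cB K n k v + y)) : ℝ) else 0) = _
      by_cases h : QT T M ∣ dd F G M (cA K n k u + x) (cB K n k v + y)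
      · rw [if_pos h, if_pos ⟨one_dvd _, h⟩, hb7]
      · rw [if_neg h, if_neg (fun h' => h h'.2)]
    rw [e1, sum_comm]
    refine sum_congr rfl fun x _ => ?_
    rw [sum_comm]
    refine sum_congr rfl fun y _ => sum_congr rfl fun M _ => ?_
    rw [hφ]
  -- averaging
  have hav := avg2 hαα hββ (fun x y => ∑ M ∈ Ty K F G k u v,
    φ M (cA K n k u + x) (cB K n k v + y))
  rw [← hST, ← hqdef] at hav
  set R : ℝ := 2 * q ^ (α' + β' + k) * (q ^ (2 * k + 1 - (1 : K[X]).natDegree) +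
    q ^ (k + 2 * (3 * δ) + max u v + k / 3 + 3)) with hR
  have hR0 : 0 ≤ R := by positivity
  have hbd : ∀ x y : K[X], |∑ x' ∈ V K α', ∑ y' ∈ V K β', ∑ M ∈ Ty K F G k u v,
      φ M (cA K n k u + (x + x')) (cB K n k v + (y + y'))| ≤ Real.sqrt R := by
    intro x y
    apply Real.abs_le_sqrt
    have h1 := hbil K F G hLB k u v α' β' (3 * δ) 1 (cA K n k u + x) (cB K n k v + y)
      (Ty K F G k u v) (QT T) κ' θ monic_one (Or.inl rfl) (by rw [natDegree_one]; omega)
      (by rw [natDegree_one]; omega) ha1 hb1 (Subset.refl _) hκ hθ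
    rw [rearr, hφ]
    exact h1
  have hmain : q ^ (α' + β') * |ST F G n k u v T| ≤ q ^ (α + β) * Real.sqrt R := by
    have h1 : q ^ (α' + β') * |ST F G n k u v T| = |q ^ (α' + β') * ST F G n k u v T| := by
      rw [abs_mul, abs_of_nonneg (show 0 ≤ q ^ (α' + β') by positivity)]
    rw [h1, hav]
    refine (abs_sum_le_sum_abs _ _).trans ?_
    have h2 : ∀ x ∈ V K α, |∑ y ∈ V K β, ∑ x' ∈ V K α', ∑ y' ∈ V K β',
        ∑ M ∈ Ty K F G k u v,
          φ M (cA K n k u + (x + x')) (cB K n k v + (y + y'))| ≤ q ^ β * Real.sqrt R := by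
      intro x _
      refine (abs_sum_le_sum_abs _ _).trans ?_
      refine (sum_le_sum fun y _ => hbd x y).trans ?_
      rw [sum_const, card_V, nsmul_eq_mul]
      push_cast
      exact le_rfl
    refine (sum_le_sum h2).trans ?_
    rw [sum_const, card_V, nsmul_eq_mul, pow_add]
    push_cast
    rw [mul_assoc]
  -- arithmetic
  have hR2 : R ≤ q ^ (α' + β' + 3 * k + 5) := by
    rw [hR, natDegree_one]
    have h1 : q ^ (2 * k + 1 - 0) + q ^ (k + 2 * (3 * δ) + max u v + k / 3 + 3) ≤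
        2 * q ^ (2 * k + 3) := by
      have h2 : q ^ (2 * k + 1 - 0) ≤ q ^ (2 * k + 3) := pow_le_pow_right₀ hq1 (by omega)
      have h3 : q ^ (k + 2 * (3 * δ) + max u v + k / 3 + 3) ≤ q ^ (2 * k + 3) :=
        pow_le_pow_right₀ hq1 hE
      linarith
    calc 2 * q ^ (α' + β' + k) * (q ^ (2 * k + 1 - 0) +
          q ^ (k + 2 * (3 * δ) + max u v + k / 3 + 3))
        ≤ 2 * q ^ (α' + β' + k) * (2 * q ^ (2 * k + 3)) :=
          mul_le_mul_of_nonneg_left h1 (by positivity)
      _ = (2 * 2) * q ^ (α' + β' + 3 * k + 3) := by ring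
      _ ≤ (q * q) * q ^ (α' + β' + 3 * k + 3) :=
          mul_le_mul_of_nonneg_right (mul_le_mul hq hq (by norm_num) hq0.le) (by positivity)
      _ = q ^ (α' + β' + 3 * k + 5) := by ring
  have hsq : (q ^ (α' + β') * |ST F G n k u v T|) ^ 2 ≤ (q ^ (α + β) * Real.sqrt R) ^ 2 :=
    pow_le_pow_left₀ (by positivity) hmain 2
  rw [mul_pow, mul_pow, Real.sq_sqrt hR0] at hsq
  have hfin : (|ST F G n k u v T| * q ^ δ) ^ 2 ≤ (q ^ (nu n + 3)) ^ 2 := by
    have hp : 0 < (q ^ (α' + β')) ^ 2 := by positivity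
    rw [← mul_le_mul_iff_right₀ hp]
    calc (q ^ (α' + β')) ^ 2 * (|ST F G n k u v T| * q ^ δ) ^ 2
        = ((q ^ (α' + β')) ^ 2 * |ST F G n k u v T| ^ 2) * q ^ (2 * δ) := by ring
      _ ≤ ((q ^ (α + β)) ^ 2 * R) * q ^ (2 * δ) :=
          mul_le_mul_of_nonneg_right hsq (by positivity)
      _ ≤ ((q ^ (α + β)) ^ 2 * q ^ (α' + β' + 3 * k + 5)) * q ^ (2 * δ) :=
          mul_le_mul_of_nonneg_right (mul_le_mul_of_nonneg_left hR2 (by positivity))
            (by positivity)
      _ = q ^ (2 * (α + β) + (α' + β' + 3 * k + 5) + 2 * δ) := by ring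
      _ ≤ q ^ (2 * (α' + β') + 2 * (nu n + 3)) := pow_le_pow_right₀ hq1 (by omega)
      _ = (q ^ (α' + β')) ^ 2 * (q ^ (nu n + 3)) ^ 2 := by ring
  exact le_of_sq_le_sq hfin (by positivity)

/-- one type -/
lemma one_type [CharP K 3] (hbox : S_box) (hmuf : S_muf) (hbil : S_bil) (hunb : S_unb)
    {F G : K[X] → K[X]} (hLB : LB K F G) {n k u v δ : ℕ} (T : Finset K[X]) (hn : n % 3 ≠ 2)
    (hkn : 3 * k + 3 * δ ≤ n) (hδk : 48 * δ ≤ k) (huv : u + v = k + 1) (hk1 : 1 ≤ k) :
    |ST F G n k u v T| * (Fintype.card K : ℝ) ^ δ ≤ (Fintype.card K : ℝ) ^ (nu n + 3) := by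
  have hq := card_q (K := K)
  rcases (Ty K F G k u v).eq_empty_or_nonempty with h | ⟨M, hM⟩
  · unfold ST
    rw [h, sum_empty, abs_zero, zero_mul]
    positivity
  · have hN := (hbox K F G hLB n k u v M hM hn (by omega) (by omega) (by omega)).2
    by_cases hd : 3 * δ ≤ max u v - min u v
    · refine (unbal hbox hunb hLB T hn (by omega) (by omega) (by omega) hd hN).trans ?_
      exact pow_le_pow_right₀ (by linarith) (by omega)
    · exact bal hbox hmuf hbil hLB T hn hkn hδk huv hk1 (by omega) hN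

lemma Nn_eq [CharP K 3] (hsw : S_swap) {F G : K[X] → K[X]} (hLB : LB K F G) {n l : ℕ} (z : ℕ)
    (w : Finset K[X] → ℝ) (hl : l ≤ n) :
    Nn K n l z w = ∑ T ∈ (Pz K z).powerset, w T *
      ∑ u ∈ range (n - l + 2), ST F G n (n - l) u (n - l + 1 - u) T := by
  rw [hsw K n l z w hl]
  have hnl : n - (n - l) = l := by omega
  unfold ST
  rw [hnl]
  have h1 : ∀ M ∈ (Mn K (n - l)).filter (fun M => Squarefree M),
      ∑ D ∈ (Mn K l).filter (fun D => derivative (derivative (M * D)) = 0),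
        (mob D : ℝ) * bw z w (M * D) =
      ∑ T ∈ (Pz K z).powerset, w T *
        ∑ D ∈ (Mn K l).filter (fun D => derivative (derivative (M * D)) = 0),
          if QT T M ∣ D then (mob D : ℝ) else 0 := by
    intro M _
    simp only [bw_eq, mul_sum]
    rw [sum_comm]
    refine sum_congr rfl fun T _ => sum_congr rfl fun D _ => ?_
    split_ifs <;> ring
  rw [sum_congr rfl h1, sum_comm]
  refine sum_congr rfl fun T _ => ?_
  rw [← mul_sum, sum_types hLB]

/-- the bound with integer exponents -/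
lemma Nn_bound [CharP K 3] (hbox : S_box) (hmuf : S_muf) (hbil : S_bil) (hunb : S_unb)
    (hsw : S_swap) {F G : K[X] → K[X]} (hLB : LB K F G) {n l z A δ : ℕ} {C : ℝ}
    {w : Finset K[X] → ℝ} (hw : BHW K z A C w) (hn : n % 3 ≠ 2) (hl : l ≤ n)
    (hkn : 3 * (n - l) + 3 * δ ≤ n) (hδk : 48 * δ ≤ n - l) (hk1 : 1 ≤ n - l) :
    |Nn K n l z w| * (Fintype.card K : ℝ) ^ δ ≤ (Fintype.card K : ℝ) ^ (A * z + 1) *
      (((n - l + 2 : ℕ) : ℝ) * (Fintype.card K : ℝ) ^ (nu n + 3)) := by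
  have hq := card_q (K := K)
  have hcs := card_sets (K := K) z (A * z)
  rw [Nn_eq hsw hLB z w hl]
  set q : ℝ := (Fintype.card K : ℝ) with hqdef
  have hq0 : 0 < q := by linarith
  have h1 : ∀ T ∈ (Pz K z).powerset,
      |w T * ∑ u ∈ range (n - l + 2), ST F G n (n - l) u (n - l + 1 - u) T| * q ^ δ ≤
        if ∑ P ∈ T, P.natDegree ≤ A * z then ((n - l + 2 : ℕ) : ℝ) * q ^ (nu n + 3) else 0 := by
    intro T _
    by_cases hwT : w T = 0
    · rw [hwT, zero_mul, abs_zero, zero_mul]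
      split_ifs
      · positivity
      · exact le_rfl
    · rw [if_pos (hw.2.2.1 T hwT).2, abs_mul]
      have h2 : |∑ u ∈ range (n - l + 2), ST F G n (n - l) u (n - l + 1 - u) T| * q ^ δ ≤
          ((n - l + 2 : ℕ) : ℝ) * q ^ (nu n + 3) := by
        calc |∑ u ∈ range (n - l + 2), ST F G n (n - l) u (n - l + 1 - u) T| * q ^ δ
            ≤ (∑ u ∈ range (n - l + 2), |ST F G n (n - l) u (n - l + 1 - u) T|) * q ^ δ :=
              mul_le_mul_of_nonneg_right (abs_sum_le_sum_abs _ _) (by positivity)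
          _ = ∑ u ∈ range (n - l + 2), |ST F G n (n - l) u (n - l + 1 - u) T| * q ^ δ := by
              rw [sum_mul]
          _ ≤ ∑ u ∈ range (n - l + 2), q ^ (nu n + 3) := by
              refine sum_le_sum fun u hu => ?_
              rw [mem_range] at hu
              exact one_type hbox hmuf hbil hunb hLB T hn hkn hδk (by omega) hk1
          _ = ((n - l + 2 : ℕ) : ℝ) * q ^ (nu n + 3) := by
              rw [sum_const, card_range, nsmul_eq_mul]
      calc |w T| * |∑ u ∈ range (n - l + 2), ST F G n (n - l) u (n - l + 1 - u) T| * q ^ δ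
          = |w T| * (|∑ u ∈ range (n - l + 2), ST F G n (n - l) u (n - l + 1 - u) T| * q ^ δ) := by
            ring
        _ ≤ 1 * (((n - l + 2 : ℕ) : ℝ) * q ^ (nu n + 3)) :=
            mul_le_mul (hw.1 T) h2 (by positivity) zero_le_one
        _ = ((n - l + 2 : ℕ) : ℝ) * q ^ (nu n + 3) := one_mul _
  calc |∑ T ∈ (Pz K z).powerset, w T *
        ∑ u ∈ range (n - l + 2), ST F G n (n - l) u (n - l + 1 - u) T| * q ^ δ
      ≤ (∑ T ∈ (Pz K z).powerset, |w T *
        ∑ u ∈ range (n - l + 2), ST F G n (n - l) u (n - l + 1 - u) T|) * q ^ δ :=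
        mul_le_mul_of_nonneg_right (abs_sum_le_sum_abs _ _) (by positivity)
    _ = ∑ T ∈ (Pz K z).powerset, |w T *
        ∑ u ∈ range (n - l + 2), ST F G n (n - l) u (n - l + 1 - u) T| * q ^ δ := by
        rw [sum_mul]
    _ ≤ ∑ T ∈ (Pz K z).powerset,
        if ∑ P ∈ T, P.natDegree ≤ A * z then ((n - l + 2 : ℕ) : ℝ) * q ^ (nu n + 3) else 0 :=
        sum_le_sum h1
    _ = (((Pz K z).powerset.filter (fun T => ∑ P ∈ T, P.natDegree ≤ A * z)).card : ℝ) *
        (((n - l + 2 : ℕ) : ℝ) * q ^ (nu n + 3)) := by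
        rw [← sum_filter, sum_const, nsmul_eq_mul]
    _ ≤ q ^ (A * z + 1) * (((n - l + 2 : ℕ) : ℝ) * q ^ (nu n + 3)) := by
        apply mul_le_mul_of_nonneg_right _ (by positivity)
        rw [hqdef]
        exact_mod_cast hcs

end sets

end Pool.Agent.H6.W.F2B

namespace Pool.Agent.H6.W

open Polynomial Finset F2B
open scoped Classical
open Pool.Agent.H604.LD (BHW bw Pz)

/-- **Task FAR2B.** -/
theorem far2b (hlat : S_lat) (hbox : S_box) (hmuf : S_muf) (hbil : S_bil) (hunb : S_unb)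
    (hsw : S_swap) : S_far2b := by
  intro K _ _ _ A C κ hκ0 hκ1
  obtain ⟨F, G, hLB⟩ := hlat K
  have hq : (2 : ℝ) ≤ (Fintype.card K : ℝ) := card_q
  obtain ⟨c, hc⟩ : ∃ c : ℝ, c = κ * Real.log 2 / 16 := ⟨_, rfl⟩
  have hl2 : 0 < Real.log 2 := Real.log_pos (by norm_num)
  have hc0 : 0 < c := by rw [hc]; positivity
  refine ⟨κ / 2, by positivity, ⌈4 / c ^ 2 + 40 / (3 * κ) + 1⌉₊, ?_⟩
  intro n l z w hn hn3 hw hAz hl hk15 hlk
  have hn' : 4 / c ^ 2 + 40 / (3 * κ) + 1 ≤ (n : ℝ) := Nat.ceil_le.1 hn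
  have hp1 : 0 < 4 / c ^ 2 := by positivity
  have hp2 : 0 < 40 / (3 * κ) := by positivity
  have hn1 : (1 : ℝ) ≤ n := by linarith
  have hnc : 4 ≤ c ^ 2 * n := by
    have h1 : 4 / c ^ 2 ≤ (n : ℝ) := by linarith
    rw [div_le_iff₀ (by positivity)] at h1
    linarith
  have hnk : 40 ≤ 3 * κ * n := by
    have h1 : 40 / (3 * κ) ≤ (n : ℝ) := by linarith
    rw [div_le_iff₀ (by positivity)] at h1
    linarith
  obtain ⟨δ, hδ⟩ : ∃ δ, δ = ⌊κ * n⌋₊ := ⟨_, rfl⟩
  have hδ1 : (δ : ℝ) ≤ κ * n := by rw [hδ]; exact Nat.floor_le (by positivity)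
  have hδ2 : κ * n < δ + 1 := by rw [hδ]; exact Nat.lt_floor_add_one _
  have hkn : 3 * (n - l) + 3 * δ ≤ n := by
    have h1 : (3 : ℝ) * (n - l) + 3 * δ ≤ n := by linarith
    have h2 : ((3 * (n - l) + 3 * δ : ℕ) : ℝ) ≤ (n : ℝ) := by
      push_cast [Nat.cast_sub hl]
      exact h1
    exact_mod_cast h2
  have hk15' : (n : ℝ) < 15 * ((n - l : ℕ) : ℝ) := by exact_mod_cast hk15
  have hδk : 48 * δ ≤ n - l := by
    have h1 : (48 : ℝ) * δ ≤ ((n - l : ℕ) : ℝ) := by
      have h2 : κ * n ≤ 1 / 100000 * n := mul_le_mul_of_nonneg_right hκ1 (by linarith)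
      linarith
    exact_mod_cast h1
  have hk1 : 1 ≤ n - l := by
    rcases Nat.eq_zero_or_pos (n - l) with h | h
    · rw [h] at hk15
      omega
    · exact h
  have hb := Nn_bound hbox hmuf hbil hunb hsw hLB hw hn3 hl hkn hδk hk1
  set q : ℝ := (Fintype.card K : ℝ) with hqdef
  have hq0 : 0 < q := by linarith
  have hq1 : 1 ≤ q := by linarith
  have hexp : (n : ℝ) + 2 ≤ q ^ (κ * n / 16 : ℝ) := by
    have h1 : Real.exp (c * n) ≤ q ^ (κ * n / 16 : ℝ) := by
      rw [Real.rpow_def_of_pos hq0]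
      apply Real.exp_le_exp.2
      have h2 : Real.log 2 ≤ Real.log q := Real.log_le_log (by norm_num) hq
      have h3 : c * n = Real.log 2 * (κ * n / 16) := by rw [hc]; ring
      rw [h3]
      exact mul_le_mul_of_nonneg_right h2 (by positivity)
    have h2 := Real.quadratic_le_exp_of_nonneg (x := c * n) (by positivity)
    have h3 : 4 * (n : ℝ) ≤ c ^ 2 * n * n := mul_le_mul_of_nonneg_right hnc (by linarith)
    have h4 : (c * n) ^ 2 = c ^ 2 * n * n := by ring
    have h5 : 0 < c * n := by positivity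
    rw [h4] at h2
    linarith
  have hk2 : ((n - l + 2 : ℕ) : ℝ) ≤ q ^ (κ * n / 16 : ℝ) := by
    refine le_trans ?_ hexp
    have : n - l + 2 ≤ n + 2 := by omega
    exact_mod_cast this
  have hqδ : 0 < q ^ δ := by positivity
  rw [← mul_le_mul_iff_left₀ hqδ]
  refine hb.trans ?_
  calc q ^ (A * z + 1) * (((n - l + 2 : ℕ) : ℝ) * q ^ (nu n + 3))
      ≤ q ^ (A * z + 1) * (q ^ (κ * n / 16 : ℝ) * q ^ (nu n + 3)) := by
        apply mul_le_mul_of_nonneg_left _ (by positivity)
        exact mul_le_mul_of_nonneg_right hk2 (by positivity)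
    _ = q ^ (((A * z : ℕ) : ℝ) + 1 + (κ * n / 16 + ((nu n : ℝ) + 3))) := by
        rw [Real.rpow_add hq0, Real.rpow_add hq0 (κ * n / 16)]
        have e1 : q ^ (A * z + 1) = q ^ (((A * z : ℕ) : ℝ) + 1) := by
          rw [← Real.rpow_natCast]
          push_cast
          rfl
        have e2 : q ^ (nu n + 3) = q ^ ((nu n : ℝ) + 3) := by
          rw [← Real.rpow_natCast]
          push_cast
          rfl
        rw [e1, e2]
    _ ≤ q ^ ((nu n : ℝ) - κ / 2 * n + δ) := by
        apply Real.rpow_le_rpow_of_exponent_le hq1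
        linarith
    _ = q ^ ((nu n : ℝ) - κ / 2 * n) * q ^ δ := by
        rw [Real.rpow_add hq0, Real.rpow_natCast]

end Pool.Agent.H6.W
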