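import Pool.Agent.H6.W.Stm

/-!
# Task FIN: the assembly
-/

set_option autoImplicit false
set_option linter.unusedSectionVars false

namespace Pool.Agent.H6.W

open Polynomial
open scoped Classical
open Pool.Agent.H985.Chow (mob)
open Pool.Agent.H694.Typ (Mn PU Irn mem_Mn mem_PU)
open Pool.Agent.H604.LD (BHW bw Pz S_bhw)
open Pool.Agent.H290.CT (V)

namespace FIN

section

variable {K : Type} [Field K] [Fintype K]

theorem two_ne [CharP K 3] : (2 : K) ≠ 0 := by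
  intro h
  have h1 : ((2 : ℕ) : K) = 0 := by exact_mod_cast h
  rw [CharP.cast_eq_zero_iff K 3 2] at h1
  omega

theorem bw_irr {z : ℕ} {U : Finset K[X] → ℝ} (hU : U ∅ = 1) {f : K[X]} (hf : Irreducible f)
    (hz : z < f.natDegree) : bw z U f = 1 := by
  unfold bw
  have h1 : (Pz K z).filter (fun P => P ∣ f) = ∅ := by
    rw [Finset.filter_eq_empty_iff]
    intro P hP h
    unfold Pz at hP
    rw [Finset.mem_erase, mem_PU] at hP
    obtain ⟨-, -, h2, h3⟩ := hP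
    have h4 : Associated P f := h2.associated_of_dvd hf h
    have h5 := natDegree_eq_of_degree_eq (degree_eq_degree_of_associated h4)
    omega
  rw [h1, Finset.powerset_empty, Finset.sum_singleton, hU]

theorem Wn_eq (hw : S_wil) (h2 : (2 : K) ≠ 0) (n : ℕ) :
    Wn K n = ((WA K n).filter (fun N => Irreducible N)).card := by
  unfold Wn WA
  rw [Finset.filter_filter]
  congr 1
  refine Finset.filter_congr fun P hP => ?_
  rw [mem_Mn] at hP
  constructor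
  · rintro ⟨h3, h4⟩
    exact ⟨(hw K h2 n P hP.1 hP.2 h3).1 h4, h3⟩
  · rintro ⟨h3, h4⟩
    exact ⟨h4, (hw K h2 n P hP.1 hP.2 h4).2 h3⟩

theorem Wn_zero [CharP K 3] (hw : S_wil) {n : ℕ} (hn : n % 3 = 2) : Wn K n = 0 := by
  rw [Wn_eq hw two_ne, Finset.card_eq_zero, Finset.filter_eq_empty_iff]
  intro N hN _
  unfold WA at hN
  rw [Finset.mem_filter, mem_Mn] at hN
  obtain ⟨⟨h3, h4⟩, h5⟩ := hN
  obtain ⟨k, rfl⟩ : ∃ k, n = 3 * k + 2 := ⟨n / 3, by omega⟩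
  have h6 := congrArg (fun p : K[X] => p.coeff (3 * k)) h5
  simp only [coeff_derivative, coeff_zero] at h6
  have h7 : N.coeff (3 * k + 1 + 1) = 1 := by
    have := h3.coeff_natDegree
    rw [h4] at this
    exact this
  have h8 : (3 : K) = 0 := by exact_mod_cast CharP.cast_eq_zero K 3
  rw [h7] at h6
  push_cast at h6
  rw [h8] at h6
  have h9 : (2 : K) = 0 := by linear_combination h6
  exact two_ne h9

/-- the identity for the number of the primes -/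
theorem ident (hh : S_hid) (hw : S_wil) (h2 : (2 : K) ≠ 0) {n z : ℕ} (hn : 1 ≤ n) (hz : z < n)
    {U : Finset K[X] → ℝ} (hU : U ∅ = 1) (c : ℝ) :
    (n : ℝ) * (Wn K n : ℝ) = ∑ j ∈ Finset.range (n + 1), (c - j) * Nn K n j z U := by
  have hmem : ∀ N ∈ (WA K n).filter (fun N => Squarefree N), N.Monic ∧ N.natDegree = n ∧
      Squarefree N := by
    intro N hN
    rw [Finset.mem_filter] at hN
    obtain ⟨h3, h4⟩ := hN
    unfold WA at h3
    rw [Finset.mem_filter, mem_Mn] at h3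
    exact ⟨h3.1.1, h3.1.2, h4⟩
  have h1 : ∀ N ∈ (WA K n).filter (fun N => Squarefree N), (if Irreducible N then (n : ℝ) else 0) =
      ∑ j ∈ Finset.range (n + 1), (c - j) *
        (bw z U N * ∑ D ∈ (Mn K j).filter (fun D => D ∣ N), (mob D : ℝ)) := by
    intro N hN
    obtain ⟨e1, e2, e3⟩ := hmem N hN
    have e5 := hh K n c N hn e1 e3 e2
    have e4 : bw z U N * (if Irreducible N then (n : ℝ) else 0) =
        if Irreducible N then (n : ℝ) else 0 := by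
      split_ifs with h
      · rw [bw_irr hU h (by rw [e2]; exact hz), one_mul]
      · rw [mul_zero]
    rw [← e4, ← e5, Finset.mul_sum]
    refine Finset.sum_congr rfl fun j _ => ?_
    ring
  have h3 : (n : ℝ) * (Wn K n : ℝ) =
      ∑ N ∈ (WA K n).filter (fun N => Squarefree N), if Irreducible N then (n : ℝ) else 0 := by
    rw [← Finset.sum_filter, Finset.sum_const, nsmul_eq_mul, Wn_eq hw h2, Finset.filter_filter,
      mul_comm]
    congr 2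
    refine congrArg Finset.card (Finset.filter_congr fun N _ => ?_)
    exact ⟨fun h => ⟨h.squarefree, h⟩, fun h => h.2⟩
  rw [h3, Finset.sum_congr rfl h1, Finset.sum_comm]
  refine Finset.sum_congr rfl fun j _ => ?_
  rw [← Finset.mul_sum]
  rfl

end

/-- the estimate from the parts -/
theorem split {n J : ℕ} (hJ : J < n) (Nf : ℕ → ℝ) (Q E1 E2 E3 κ : ℝ) (hκ : 0 < κ)
    (hE2 : 0 ≤ E2) (hE3 : 0 ≤ E3) (hJ1 : (2 / 3 - κ) * n < J + 1)
    (hfar : |∑ j ∈ Finset.range (J + 1), (2 * (n : ℝ) / 3 - j) * Nf j - Q| ≤ E1)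
    (hn : ∀ j, J < j → j ≤ n → (j : ℝ) < (2 / 3 + κ) * n → |Nf j| ≤ E3)
    (hf : ∀ j, j ≤ n → (2 / 3 + κ) * n ≤ j → |Nf j| ≤ E2) :
    |∑ j ∈ Finset.range (n + 1), (2 * (n : ℝ) / 3 - j) * Nf j - Q| ≤
      E1 + ((n : ℝ) + 1) * (n * E2) + (2 * κ * n + 1) * (κ * n * E3) := by
  have hn0 : (0 : ℝ) ≤ n := Nat.cast_nonneg n
  have h1 : ∑ j ∈ Finset.range (n + 1), (2 * (n : ℝ) / 3 - j) * Nf j =
      ∑ j ∈ Finset.range (J + 1), (2 * (n : ℝ) / 3 - j) * Nf j +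
        ∑ j ∈ Finset.Ico (J + 1) (n + 1), (2 * (n : ℝ) / 3 - j) * Nf j := by
    rw [Finset.sum_range_add_sum_Ico _ (by omega)]
  have h2 := Finset.sum_filter_add_sum_filter_not (Finset.Ico (J + 1) (n + 1))
    (fun j : ℕ => (j : ℝ) < (2 / 3 + κ) * n) (fun j => (2 * (n : ℝ) / 3 - j) * Nf j)
  have h3 : |∑ j ∈ (Finset.Ico (J + 1) (n + 1)).filter (fun j : ℕ => (j : ℝ) < (2 / 3 + κ) * n),
      (2 * (n : ℝ) / 3 - j) * Nf j| ≤ (2 * κ * n + 1) * (κ * n * E3) := by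
    refine (Finset.abs_sum_le_sum_abs _ _).trans ?_
    have e1 : ∀ j ∈ (Finset.Ico (J + 1) (n + 1)).filter
        (fun j : ℕ => (j : ℝ) < (2 / 3 + κ) * n), |(2 * (n : ℝ) / 3 - j) * Nf j| ≤
          κ * n * E3 := by
      intro j hj
      rw [Finset.mem_filter, Finset.mem_Ico] at hj
      obtain ⟨⟨h4, h5⟩, h6⟩ := hj
      have h7 : ((J : ℝ) + 1) ≤ j := by exact_mod_cast h4
      rw [abs_mul]
      refine mul_le_mul ?_ (hn j (by omega) (by omega) h6) (abs_nonneg _) (by positivity)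
      rw [abs_le]
      constructor <;> linarith
    refine (Finset.sum_le_sum e1).trans ?_
    rw [Finset.sum_const, nsmul_eq_mul]
    refine mul_le_mul_of_nonneg_right ?_ (by positivity)
    have e2 : (Finset.Ico (J + 1) (n + 1)).filter (fun j : ℕ => (j : ℝ) < (2 / 3 + κ) * n) ⊆
        Finset.Ico (J + 1) ⌈(2 / 3 + κ) * n⌉₊ := by
      intro j hj
      rw [Finset.mem_filter, Finset.mem_Ico] at hj
      rw [Finset.mem_Ico]
      exact ⟨hj.1.1, Nat.lt_ceil.2 hj.2⟩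
    have e3 := Finset.card_le_card e2
    rw [Nat.card_Ico] at e3
    have e4 : ((⌈(2 / 3 + κ) * n⌉₊ : ℕ) : ℝ) < (2 / 3 + κ) * n + 1 := by
      exact Nat.ceil_lt_add_one (by positivity)
    have e5 : (((⌈(2 / 3 + κ) * n⌉₊ - (J + 1) : ℕ)) : ℝ) ≤ 2 * κ * n + 1 := by
      rcases le_or_gt (J + 1) ⌈(2 / 3 + κ) * n⌉₊ with h | h
      · rw [Nat.cast_sub h]
        push_cast
        linarith
      · rw [Nat.sub_eq_zero_of_le h.le]
        push_cast
        positivity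
    refine le_trans ?_ e5
    exact_mod_cast e3
  have h4 : |∑ j ∈ (Finset.Ico (J + 1) (n + 1)).filter
      (fun j : ℕ => ¬ (j : ℝ) < (2 / 3 + κ) * n), (2 * (n : ℝ) / 3 - j) * Nf j| ≤
        ((n : ℝ) + 1) * (n * E2) := by
    refine (Finset.abs_sum_le_sum_abs _ _).trans ?_
    have e1 : ∀ j ∈ (Finset.Ico (J + 1) (n + 1)).filter
        (fun j : ℕ => ¬ (j : ℝ) < (2 / 3 + κ) * n), |(2 * (n : ℝ) / 3 - j) * Nf j| ≤
          n * E2 := by
      intro j hj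
      rw [Finset.mem_filter, Finset.mem_Ico, not_lt] at hj
      obtain ⟨⟨h4, h5⟩, h6⟩ := hj
      have h7 : (j : ℝ) ≤ n := by exact_mod_cast (by omega : j ≤ n)
      have h8 : (0 : ℝ) ≤ j := Nat.cast_nonneg j
      rw [abs_mul]
      refine mul_le_mul ?_ (hf j (by omega) h6) (abs_nonneg _) hn0
      rw [abs_le]
      constructor <;> linarith
    refine (Finset.sum_le_sum e1).trans ?_
    rw [Finset.sum_const, nsmul_eq_mul]
    refine mul_le_mul_of_nonneg_right ?_ (by positivity)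
    have e2 := Finset.card_le_card (Finset.filter_subset
      (fun j : ℕ => ¬ (j : ℝ) < (2 / 3 + κ) * n) (Finset.Ico (J + 1) (n + 1)))
    rw [Nat.card_Ico] at e2
    have e3 : n + 1 - (J + 1) ≤ n + 1 := by omega
    exact_mod_cast e2.trans e3
  rw [h1, ← h2]
  rw [abs_le] at hfar h3 h4 ⊢
  constructor <;> linarith [hfar.1, hfar.2, h3.1, h3.2, h4.1, h4.2]

theorem rpow_split {q : ℝ} (hq : 0 < q) (m : ℕ) (θ : ℝ) (d : ℕ) :
    q ^ ((m : ℝ) - θ * (d : ℝ)) = q ^ m * (q ^ (-θ)) ^ d := by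
  rw [← Real.rpow_natCast (q ^ (-θ)) d, ← Real.rpow_mul hq.le, ← Real.rpow_natCast q m,
    ← Real.rpow_add hq]
  congr 1
  ring

end FIN

open FIN in
theorem fin : S_fin := by
  intro hwil hfar1 hfar2a hfar2b hnear hhid hbhw K _ _ _
  refine ⟨?_, fun n hn => Wn_zero hwil hn⟩
  obtain ⟨A, C, hA, hC, hbw⟩ := hbhw K
  obtain ⟨q, hq⟩ : ∃ q : ℝ, q = (Fintype.card K : ℝ) := ⟨_, rfl⟩
  have hq2 : (2 : ℝ) ≤ q := by
    rw [hq]
    exact_mod_cast (Fintype.one_lt_card (α := K))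
  have hq0 : 0 < q := by linarith
  have hA0 : (0 : ℝ) < A := by exact_mod_cast hA
  have hA1 : (1 : ℝ) ≤ A := by exact_mod_cast hA
  intro ε hε
  obtain ⟨κ₀, hκ₀, d₃, H3⟩ := hnear K A C (ε / (1000000 * (A : ℝ) ^ 2)) hC (by positivity)
  obtain ⟨κ, hκ0, hκ1, hκ2⟩ : ∃ κ : ℝ, 0 < κ ∧ κ ≤ κ₀ ∧ κ ≤ 1 / 100000 :=
    ⟨min κ₀ (1 / 100000), by positivity, min_le_left _ _, min_le_right _ _⟩
  obtain ⟨θ₁, hθ₁, d₁, H1⟩ := hfar1 K A C κ hκ0 hκ2
  obtain ⟨θ₂, hθ₂, d₂, H2⟩ := hfar2a K A C κ hκ0 hκ2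
  obtain ⟨θ₄, hθ₄, d₄, H4⟩ := hfar2b K A C κ hκ0 hκ2
  -- the limits
  have hr : ∀ θ : ℝ, 0 < θ → |q ^ (-θ)| < 1 := by
    intro θ hθ
    rw [abs_of_pos (Real.rpow_pos_of_pos hq0 _)]
    exact Real.rpow_lt_one_of_one_lt_of_neg (by linarith) (by linarith)
  have l1 := tendsto_pow_const_mul_const_pow_of_abs_lt_one 0 (hr θ₁ hθ₁)
  have l2 := tendsto_pow_const_mul_const_pow_of_abs_lt_one 2 (hr θ₂ hθ₂)
  have l4 := tendsto_pow_const_mul_const_pow_of_abs_lt_one 2 (hr θ₄ hθ₄)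
  rw [Metric.tendsto_atTop] at l1 l2 l4
  obtain ⟨n1, L1⟩ := l1 (ε / 16) (by positivity)
  obtain ⟨n2, L2⟩ := l2 (ε / 16) (by positivity)
  obtain ⟨n4, L4⟩ := l4 (ε / 16) (by positivity)
  obtain ⟨n3, L3⟩ := exists_nat_ge (32 * (A : ℝ) / κ)
  refine ⟨max (max (max d₁ d₂) (max d₃ d₄)) (max (max n1 n2) (max n4 (max n3 7))), fun n hn hn3 => ?_⟩
  simp only [max_le_iff] at hn
  obtain ⟨⟨⟨hd1, hd2⟩, hd3, hd4⟩, ⟨hn1, hn2⟩, hn4, hn5, hn7⟩ := hn
  have hnpos : (0 : ℝ) < n := by exact_mod_cast (by omega : 0 < n)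
  have hn7' : (7 : ℝ) ≤ n := by exact_mod_cast hn7
  have hκn : 32 * (A : ℝ) ≤ κ * n := by
    have h1 : (n3 : ℝ) ≤ n := by exact_mod_cast hn5
    have h2 : 32 * (A : ℝ) / κ ≤ n := L3.trans h1
    rw [div_le_iff₀ hκ0] at h2
    linarith
  obtain ⟨z, hz⟩ : ∃ z : ℕ, z = ⌊κ * n / (16 * A)⌋₊ := ⟨_, rfl⟩
  have hz1 : (z : ℝ) ≤ κ * n / (16 * A) := by
    rw [hz]
    exact Nat.floor_le (by positivity)
  have hx1 : 2 ≤ κ * n / (16 * A) := by
    rw [le_div_iff₀ (by positivity)]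
    linarith
  have hz2 : κ * n / (16 * A) / 2 ≤ z := by
    have h1 : κ * n / (16 * A) < (z : ℝ) + 1 := by
      rw [hz]
      exact Nat.lt_floor_add_one _
    linarith
  have hz3 : 1 ≤ z := by
    have h1 : (0 : ℝ) < z := by linarith
    exact_mod_cast h1
  have hz0 : (0 : ℝ) < z := by exact_mod_cast hz3
  have hz4 : κ * n ≤ 32 * A * z := by
    have h1 : κ * n / (16 * A) / 2 = κ * n / (32 * A) := by
      rw [div_div]
      congr 1
      ring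
    rw [h1, div_le_iff₀ (by positivity)] at hz2
    linarith
  obtain ⟨U, hU⟩ := hbw z hz3
  have hAz : 16 * ((A * z : ℕ) : ℝ) ≤ κ * n := by
    rw [le_div_iff₀ (by positivity)] at hz1
    push_cast
    linarith
  have hzAz : (z : ℝ) ≤ ((A * z : ℕ) : ℝ) := by
    exact_mod_cast Nat.le_mul_of_pos_left z (by omega)
  have hAz0 : (0 : ℝ) ≤ ((A * z : ℕ) : ℝ) := Nat.cast_nonneg _
  have hκn2 : κ * n ≤ κ₀ * n := mul_le_mul_of_nonneg_right hκ1 hnpos.le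
  have hκn3 : κ * n ≤ 1 / 100000 * n := mul_le_mul_of_nonneg_right hκ2 hnpos.le
  have hzn : z < n := by
    have h1 : (z : ℝ) < n := by linarith
    exact_mod_cast h1
  obtain ⟨J, hJ⟩ : ∃ J : ℕ, J = ⌊(2 / 3 - κ) * n⌋₊ := ⟨_, rfl⟩
  have hJ1 : (J : ℝ) ≤ (2 / 3 - κ) * n := by
    rw [hJ]
    refine Nat.floor_le ?_
    have : (0 : ℝ) ≤ 2 / 3 - κ := by linarith
    positivity
  have hJ2 : (2 / 3 - κ) * n < (J : ℝ) + 1 := by
    rw [hJ]
    exact Nat.lt_floor_add_one _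
  have hJn : J < n := by
    have h1 : (J : ℝ) < n := by nlinarith
    exact_mod_cast h1
  have hJ3 : n ≤ 2 * J := by
    have h1 : (n : ℝ) ≤ 2 * J := by nlinarith
    exact_mod_cast h1
  have hid := ident (K := K) hhid hwil two_ne (n := n) (z := z) (by omega) hzn hU.2.1
    (2 * (n : ℝ) / 3)
  -- the three bounds
  have b1 := H1 n J z U (2 * (n : ℝ) / 3) hd1 hn3 hU hAz hJ3 hJ1 (by
    rw [abs_le]
    constructor <;> linarith)
  have b2 : ∀ j, j ≤ n → (2 / 3 + κ) * n ≤ j → |Nn K n j z U| ≤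
      (Fintype.card K : ℝ) ^ ((nu n : ℝ) - θ₂ * n) +
        (Fintype.card K : ℝ) ^ ((nu n : ℝ) - θ₄ * n) := by
    intro j hj1 hj2
    have p1 : 0 ≤ (Fintype.card K : ℝ) ^ ((nu n : ℝ) - θ₂ * n) :=
      Real.rpow_nonneg (Nat.cast_nonneg _) _
    have p2 : 0 ≤ (Fintype.card K : ℝ) ^ ((nu n : ℝ) - θ₄ * n) :=
      Real.rpow_nonneg (Nat.cast_nonneg _) _
    rcases le_or_gt (15 * (n - j)) n with h | h
    · have := H2 n j z U hd2 hn3 hU hAz hj1 h
      linarith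
    · have := H4 n j z U hd4 hn3 hU hAz hj1 h hj2
      linarith
  have b3 : ∀ j, J < j → j ≤ n → (j : ℝ) < (2 / 3 + κ) * n → |Nn K n j z U| ≤
      ε / (1000000 * (A : ℝ) ^ 2) * (Fintype.card K : ℝ) ^ nu n / (z : ℝ) ^ 2 := by
    intro j hj1 hj2 hj3
    have h7 : ((J : ℝ) + 1) ≤ j := by exact_mod_cast hj1
    refine H3 n j z U hd3 hn3 hz3 hU (by linarith) (by linarith) ?_
    rw [abs_le]
    constructor <;> linarith
  have b4 := split hJn (fun j => Nn K n j z U) _ _ _ _ κ hκ0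
    (by positivity) (by positivity) hJ2 b1 b3 b2
  rw [← hid, ← hq] at b4
  have hqd : 0 < q ^ nu n := pow_pos hq0 _
  have e0 : (n : ℝ) * (Wn K n : ℝ) / (Fintype.card K : ℝ) ^ nu n - 1 =
      ((n : ℝ) * (Wn K n : ℝ) - q ^ nu n) / q ^ nu n := by
    rw [← hq]
    field_simp
  rw [e0, abs_div, abs_of_pos hqd, div_le_iff₀ hqd]
  refine b4.trans ?_
  have m1 : (q ^ (-θ₁)) ^ n < ε / 16 := by
    have h := L1 n hn1
    rw [Real.dist_eq, sub_zero, pow_zero, one_mul] at h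
    exact (le_abs_self _).trans_lt h
  have m2 : (n : ℝ) ^ 2 * (q ^ (-θ₂)) ^ n < ε / 16 := by
    have h := L2 n hn2
    rw [Real.dist_eq, sub_zero] at h
    exact (le_abs_self _).trans_lt h
  have m4 : (n : ℝ) ^ 2 * (q ^ (-θ₄)) ^ n < ε / 16 := by
    have h := L4 n hn4
    rw [Real.dist_eq, sub_zero] at h
    exact (le_abs_self _).trans_lt h
  rw [rpow_split hq0, rpow_split hq0, rpow_split hq0]
  have r2 : 0 < (q ^ (-θ₂)) ^ n := pow_pos (Real.rpow_pos_of_pos hq0 _) _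
  have r4 : 0 < (q ^ (-θ₄)) ^ n := pow_pos (Real.rpow_pos_of_pos hq0 _) _
  have k1 : q ^ nu n * (q ^ (-θ₁)) ^ n ≤ ε / 16 * q ^ nu n := by
    rw [mul_comm]
    exact mul_le_mul_of_nonneg_right m1.le hqd.le
  have k2 : ((n : ℝ) + 1) * (n * (q ^ nu n * (q ^ (-θ₂)) ^ n + q ^ nu n * (q ^ (-θ₄)) ^ n)) ≤
      ε / 4 * q ^ nu n := by
    have h1 : ((n : ℝ) + 1) * n ≤ 2 * (n : ℝ) ^ 2 := by nlinarith
    have h2 : 0 ≤ q ^ nu n * (q ^ (-θ₂)) ^ n + q ^ nu n * (q ^ (-θ₄)) ^ n := by positivity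
    calc ((n : ℝ) + 1) * (n * (q ^ nu n * (q ^ (-θ₂)) ^ n + q ^ nu n * (q ^ (-θ₄)) ^ n))
        = (((n : ℝ) + 1) * n) * (q ^ nu n * (q ^ (-θ₂)) ^ n + q ^ nu n * (q ^ (-θ₄)) ^ n) := by ring
      _ ≤ (2 * (n : ℝ) ^ 2) * (q ^ nu n * (q ^ (-θ₂)) ^ n + q ^ nu n * (q ^ (-θ₄)) ^ n) :=
          mul_le_mul_of_nonneg_right h1 h2
      _ = 2 * ((n : ℝ) ^ 2 * (q ^ (-θ₂)) ^ n + (n : ℝ) ^ 2 * (q ^ (-θ₄)) ^ n) * q ^ nu n := by ring
      _ ≤ ε / 4 * q ^ nu n := by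
          refine mul_le_mul_of_nonneg_right ?_ hqd.le
          linarith
  have k3 : (2 * κ * n + 1) * (κ * n * (ε / (1000000 * (A : ℝ) ^ 2) * q ^ nu n / (z : ℝ) ^ 2)) ≤
      ε / 4 * q ^ nu n := by
    have h0 : 0 ≤ κ * n := by positivity
    have h1 : (2 * κ * n + 1) * (κ * n) ≤ 3 * (κ * n) ^ 2 := by nlinarith
    have h2 : (κ * n) ^ 2 ≤ (32 * A * z) ^ 2 := by
      exact pow_le_pow_left₀ h0 hz4 2
    have h3 : 0 ≤ ε / (1000000 * (A : ℝ) ^ 2) * q ^ nu n / (z : ℝ) ^ 2 := by positivity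
    calc (2 * κ * n + 1) * (κ * n * (ε / (1000000 * (A : ℝ) ^ 2) * q ^ nu n / (z : ℝ) ^ 2))
        = ((2 * κ * n + 1) * (κ * n)) *
          (ε / (1000000 * (A : ℝ) ^ 2) * q ^ nu n / (z : ℝ) ^ 2) := by ring
      _ ≤ (3 * (32 * A * z) ^ 2) * (ε / (1000000 * (A : ℝ) ^ 2) * q ^ nu n / (z : ℝ) ^ 2) :=
          mul_le_mul_of_nonneg_right (h1.trans (by linarith)) h3
      _ = 3072 / 1000000 * ε * q ^ nu n := by
          field_simp
          ring
      _ ≤ ε / 4 * q ^ nu n := by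
          refine mul_le_mul_of_nonneg_right ?_ hqd.le
          linarith
  have m6 : 0 < ε * q ^ nu n := mul_pos hε hqd
  linarith

end Pool.Agent.H6.W
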