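import Pool.Agent.H6.W.Stm
import Pool.Agent.H604.LD.Far1

/-!
# The generating function of the main term (task GEN, helper116)
-/

set_option autoImplicit false

namespace Pool.Agent.H6.W.Gen

open Polynomial Finset
open scoped Classical
open Pool.Agent.H985.Chow (mob)
open Pool.Agent.H694.Typ
open Pool.Agent.H604.LD.F1

/-! ### Real sequences -/

section seq

/-- the shift by `d` -/
noncomputable def sh (d : ℕ) (A : ℕ → ℝ) (j : ℕ) : ℝ := if d ≤ j then A (j - d) else 0

/-- the partial sums -/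
noncomputable def ps (a : ℕ → ℝ) (j : ℕ) : ℝ := ∑ i ∈ range (j + 1), a i

lemma sum_sh (d : ℕ) (A w : ℕ → ℝ) (n : ℕ) :
    ∑ j ∈ range n, sh d A j * w j = ∑ j ∈ range (n - d), A j * w (j + d) := by
  induction n with
  | zero => simp
  | succ n ih =>
    rw [sum_range_succ, ih]
    unfold sh
    by_cases h : d ≤ n
    · rw [if_pos h, show n + 1 - d = (n - d) + 1 by omega, sum_range_succ,
        show n - d + d = n by omega]
    · rw [if_neg h, show n + 1 - d = 0 by omega, show n - d = 0 by omega]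
      simp

lemma ps_sh (d : ℕ) (a : ℕ → ℝ) (j : ℕ) : ps (sh d a) j = sh d (ps a) j := by
  unfold ps
  have h := sum_sh d a (fun _ => 1) (j + 1)
  simp only [mul_one] at h
  rw [h]
  unfold sh
  by_cases h1 : d ≤ j
  · rw [if_pos h1, show j + 1 - d = j - d + 1 by omega]
  · rw [if_neg h1, show j + 1 - d = 0 by omega]
    simp

variable {h h' A : ℕ → ℝ} {Y B w : ℝ} {d : ℕ}

lemma step_A (hY : 1 < Y) (hw : 0 ≤ w) (hw2 : w * Y ^ d * Y ^ d ≤ 1)
    (e : ∀ j, h j = A j - w * sh d A j)
    (hB : ∀ n, ∑ j ∈ range n, |h j| * Y ^ j ≤ B) (n : ℕ) :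
    (Y ^ d - 1) * ∑ j ∈ range n, |A j| * Y ^ j ≤ Y ^ d * B := by
  have hY0 : 0 < Y := by linarith
  have hYd : 0 < Y ^ d := by positivity
  set Sn := ∑ j ∈ range n, |A j| * Y ^ j with hS
  have h1 : Sn ≤ ∑ j ∈ range n, |h j| * Y ^ j + w * (Y ^ d * Sn) := by
    have h2 : Sn ≤ ∑ j ∈ range n, (|h j| * Y ^ j + w * (sh d (fun i => |A i|) j * Y ^ j)) := by
      rw [hS]
      refine sum_le_sum fun j _ => ?_
      have h3 : A j = h j + w * sh d A j := by rw [e]; ring
      have h4 : |sh d A j| = sh d (fun i => |A i|) j := by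
        unfold sh
        split_ifs <;> simp
      have h5 : |A j| ≤ |h j| + w * sh d (fun i => |A i|) j := by
        calc |A j| = |h j + w * sh d A j| := by rw [← h3]
          _ ≤ |h j| + |w * sh d A j| := abs_add_le _ _
          _ = _ := by rw [abs_mul, abs_of_nonneg hw, h4]
      have h6 : 0 ≤ Y ^ j := by positivity
      nlinarith
    refine h2.trans ?_
    rw [sum_add_distrib, ← mul_sum, sum_sh]
    have h3 : ∑ j ∈ range (n - d), |A j| * Y ^ (j + d) ≤ Y ^ d * Sn := by
      have h4 : ∑ j ∈ range (n - d), |A j| * Y ^ (j + d) =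
          Y ^ d * ∑ j ∈ range (n - d), |A j| * Y ^ j := by
        rw [mul_sum]
        exact sum_congr rfl fun j _ => by rw [pow_add]; ring
      rw [h4]
      refine mul_le_mul_of_nonneg_left ?_ hYd.le
      exact sum_le_sum_of_subset_of_nonneg (range_mono (Nat.sub_le _ _))
        (fun _ _ _ => by positivity)
    have := mul_le_mul_of_nonneg_left h3 hw
    linarith
  have hSn : 0 ≤ Sn := sum_nonneg fun _ _ => by positivity
  have h2 := hB n
  -- multiply by Y ^ d
  have h3 : w * (Y ^ d * Sn) * Y ^ d ≤ Sn := by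
    have := mul_le_mul_of_nonneg_right hw2 hSn
    nlinarith
  have h4 := mul_le_mul_of_nonneg_right h1 hYd.le
  have h5 := mul_le_mul_of_nonneg_right h2 hYd.le
  nlinarith

lemma step_h' (hY : 1 < Y) (e : ∀ j, h' j = A j - sh d A j) (n : ℕ) :
    ∑ j ∈ range n, |h' j| * Y ^ j ≤ (1 + Y ^ d) * ∑ j ∈ range n, |A j| * Y ^ j := by
  have hY0 : 0 < Y := by linarith
  have hYd : 0 < Y ^ d := by positivity
  have h2 : ∑ j ∈ range n, |h' j| * Y ^ j ≤
      ∑ j ∈ range n, (|A j| * Y ^ j + (sh d (fun i => |A i|) j * Y ^ j)) := by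
    refine sum_le_sum fun j _ => ?_
    have h4 : |sh d A j| = sh d (fun i => |A i|) j := by
      unfold sh
      split_ifs <;> simp
    have h5 : |h' j| ≤ |A j| + sh d (fun i => |A i|) j := by
      rw [e, ← h4]
      exact abs_sub _ _
    have h6 : 0 ≤ Y ^ j := by positivity
    nlinarith
  refine h2.trans ?_
  rw [sum_add_distrib, sum_sh]
  have h4 : ∑ j ∈ range (n - d), |A j| * Y ^ (j + d) =
      Y ^ d * ∑ j ∈ range (n - d), |A j| * Y ^ j := by
    rw [mul_sum]
    exact sum_congr rfl fun j _ => by rw [pow_add]; ring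
  rw [h4, add_mul, one_mul]
  refine add_le_add le_rfl (mul_le_mul_of_nonneg_left ?_ hYd.le)
  exact sum_le_sum_of_subset_of_nonneg (range_mono (Nat.sub_le _ _)) (fun _ _ _ => by positivity)

lemma step_sum (hY : 1 < Y) (e : ∀ j, h' j = A j - sh d A j) (n : ℕ) :
    |∑ j ∈ range n, h' j| * Y ^ n ≤ Y ^ d * ∑ j ∈ range n, |A j| * Y ^ j := by
  have hY0 : 0 < Y := by linarith
  have h1 : ∑ j ∈ range n, h' j = ∑ j ∈ Ico (n - d) n, A j := by
    have h2 := sum_sh d A (fun _ => 1) n
    simp only [mul_one] at h2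
    rw [sum_congr rfl (fun j _ => e j), sum_sub_distrib, h2, sum_Ico_eq_sub _ (Nat.sub_le _ _)]
  rw [h1]
  calc |∑ j ∈ Ico (n - d) n, A j| * Y ^ n ≤ (∑ j ∈ Ico (n - d) n, |A j|) * Y ^ n :=
        mul_le_mul_of_nonneg_right (abs_sum_le_sum_abs _ _) (by positivity)
    _ = ∑ j ∈ Ico (n - d) n, |A j| * Y ^ n := sum_mul _ _ _
    _ ≤ ∑ j ∈ Ico (n - d) n, Y ^ d * (|A j| * Y ^ j) := by
        refine sum_le_sum fun j hj => ?_
        rw [mem_Ico] at hj
        have h3 : Y ^ n ≤ Y ^ d * Y ^ j := by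
          rw [← pow_add]
          exact pow_le_pow_right₀ hY.le (by omega)
        have := mul_le_mul_of_nonneg_left h3 (abs_nonneg (A j))
        linarith
    _ = Y ^ d * ∑ j ∈ Ico (n - d) n, |A j| * Y ^ j := (mul_sum _ _ _).symm
    _ ≤ _ := by
        refine mul_le_mul_of_nonneg_left ?_ (by positivity)
        refine sum_le_sum_of_subset_of_nonneg ?_ (fun _ _ _ => by positivity)
        intro j hj
        rw [mem_Ico] at hj
        rw [mem_range]
        exact hj.2

end seq

/-! ### The coefficients -/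

section coef

variable {K : Type} [Field K] [Fintype K]

/-- the local weights -/
noncomputable def uu (R : Finset K[X]) (D : K[X]) : ℝ :=
  ∏ P ∈ R, if P ∣ D then (Fintype.card K : ℝ) ^ P.natDegree else 1

/-- the coefficients of the main term -/
noncomputable def cR (R : Finset K[X]) (j : ℕ) : ℝ :=
  wt K j * ∑ D ∈ Mn K j, (mob D : ℝ) * uu R D

/-- the coefficients without the multiples of `P` -/
noncomputable def aR (R : Finset K[X]) (P : K[X]) (j : ℕ) : ℝ :=
  wt K j * ∑ D ∈ (Mn K j).filter (fun D => ¬ P ∣ D), (mob D : ℝ) * uu R D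

/-- the product of the weights -/
noncomputable def wR (R : Finset K[X]) : ℝ := ∏ P ∈ R, wt K P.natDegree

lemma wt_pos (j : ℕ) : 0 < wt K j := by
  have := q_ge (k := K)
  unfold wt
  positivity

lemma wR_pos (R : Finset K[X]) : 0 < wR R := prod_pos fun _ _ => wt_pos _

lemma gT_eq (R : Finset K[X]) (D : K[X]) : gT R D = wR R * uu R D := by
  unfold gT wR uu
  rw [← prod_mul_distrib]
  refine prod_congr rfl fun P _ => ?_
  have := q_ge (k := K)
  split_ifs
  · unfold wt
    rw [inv_mul_cancel₀ (by positivity)]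
  · rw [mul_one]

lemma sT_eq (R : Finset K[X]) (j : ℕ) : sT R j = wR R * cR R j := by
  unfold sT cR
  have h : ∑ D ∈ Mn K j, (mob D : ℝ) * gT R D = wR R * ∑ D ∈ Mn K j, (mob D : ℝ) * uu R D := by
    rw [mul_sum]
    exact sum_congr rfl fun D _ => by rw [gT_eq]; ring
  rw [h]
  ring

lemma aT_eq (R : Finset K[X]) (P : K[X]) (j : ℕ) : aT R P j = wR R * aR R P j := by
  unfold aT aR
  have h : ∑ D ∈ (Mn K j).filter (fun D => ¬ P ∣ D), (mob D : ℝ) * gT R D =
      wR R * ∑ D ∈ (Mn K j).filter (fun D => ¬ P ∣ D), (mob D : ℝ) * uu R D := by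
    rw [mul_sum]
    exact sum_congr rfl fun D _ => by rw [gT_eq]; ring
  rw [h]
  ring

lemma rec_c {R : Finset K[X]} {P : K[X]} (hR : Pr R) (hP : P.Monic ∧ Irreducible P) (h : P ∉ R)
    (j : ℕ) : cR R j = aR R P j - wt K P.natDegree * sh P.natDegree (aR R P) j := by
  have h1 := rec_s hR hP h j
  have hw := wR_pos R
  rw [sT_eq, aT_eq, aT_eq] at h1
  have h2 : wR R * cR R j = wR R * (aR R P j - wt K P.natDegree * sh P.natDegree (aR R P) j) := by
    rw [h1]
    unfold sh
    split_ifs <;> ring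
  exact mul_left_cancel₀ hw.ne' h2

lemma rec_c' {R : Finset K[X]} {P : K[X]} (hR : Pr R) (hP : P.Monic ∧ Irreducible P) (h : P ∉ R)
    (j : ℕ) : cR (insert P R) j = aR R P j - sh P.natDegree (aR R P) j := by
  have h1 := rec_s' hR hP h j
  have hw := wR_pos R
  have hw' := wt_pos (K := K) P.natDegree
  rw [sT_eq, aT_eq, aT_eq] at h1
  have h3 : wR (insert P R) = wt K P.natDegree * wR R := by
    unfold wR
    rw [prod_insert h]
  have h2 : (wt K P.natDegree * wR R) * cR (insert P R) j =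
      (wt K P.natDegree * wR R) * (aR R P j - sh P.natDegree (aR R P) j) := by
    rw [← h3, h1, h3]
    unfold sh
    split_ifs <;> ring
  exact mul_left_cancel₀ (by positivity) h2

lemma ps_rec {a c : ℕ → ℝ} {w : ℝ} {d : ℕ} (h : ∀ j, c j = a j - w * sh d a j) (j : ℕ) :
    ps c j = ps a j - w * sh d (ps a) j := by
  rw [← ps_sh]
  unfold ps
  rw [mul_sum, ← sum_sub_distrib]
  exact sum_congr rfl fun i _ => h i

lemma cR_empty (j : ℕ) :
    cR (∅ : Finset K[X]) j = if j = 0 then 1 else if j = 1 then -1 else 0 := by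
  rw [← sT_empty (K := K), sT_eq]
  unfold wR
  rw [prod_empty, one_mul]

lemma ps_empty (j : ℕ) : ps (cR (∅ : Finset K[X])) j = if j = 0 then 1 else 0 := by
  unfold ps
  induction j with
  | zero => simp [cR_empty]
  | succ j ih =>
    rw [sum_range_succ, ih, cR_empty]
    rcases j with _ | j
    · simp
    · simp

/-- the size of the bound -/
noncomputable def dg (R : Finset K[X]) : ℕ := ∑ P ∈ R, P.natDegree

lemma bounds {Y : ℝ} (hY1 : 1 < Y) (hY2 : Y ^ 2 = (Fintype.card K : ℝ)) (R : Finset K[X]) : Pr R →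
    (∀ n, ∑ j ∈ range n, |ps (cR R) j| * Y ^ j ≤ Y ^ (8 * dg R)) ∧
    (R.Nonempty → ∀ n, |∑ j ∈ range n, ps (cR R) j| * Y ^ n ≤ Y ^ (8 * dg R)) := by
  have hY0 : 0 < Y := by linarith
  induction R using Finset.induction_on with
  | empty =>
    intro _
    refine ⟨fun n => ?_, fun h => absurd h Finset.not_nonempty_empty⟩
    unfold dg
    rw [sum_empty, mul_zero, pow_zero]
    rcases n with _ | n
    · simp
    · rw [sum_range_succ', ps_empty]
      have h1 : ∑ k ∈ range n, |ps (cR (∅ : Finset K[X])) (k + 1)| * Y ^ (k + 1) = 0 := by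
        refine sum_eq_zero fun k _ => ?_
        rw [ps_empty, if_neg (by omega)]
        simp
      rw [h1]
      simp
  | insert P R hPR ih =>
    intro hT
    have hP : P.Monic ∧ Irreducible P := hT P (mem_insert_self _ _)
    have hR : Pr R := fun Q hQ => hT Q (mem_insert_of_mem hQ)
    obtain ⟨ih1, -⟩ := ih hR
    set d := P.natDegree with hd
    have hd1 : 1 ≤ d := hP.2.natDegree_pos
    have e1 : ∀ j, ps (cR R) j = ps (aR R P) j - wt K d * sh d (ps (aR R P)) j :=
      ps_rec (rec_c hR hP hPR)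
    have e2 : ∀ j, ps (cR (insert P R)) j = ps (aR R P) j - sh d (ps (aR R P)) j := by
      intro j
      have := ps_rec (a := aR R P) (c := cR (insert P R)) (w := 1) (d := d)
        (fun j => by rw [one_mul]; exact rec_c' hR hP hPR j) j
      rw [this, one_mul]
    have hw : wt K d * Y ^ d * Y ^ d ≤ 1 := by
      have h1 : Y ^ d * Y ^ d = (Fintype.card K : ℝ) ^ d := by
        rw [← hY2, ← pow_add, ← pow_mul]
        congr 1
        ring
      rw [mul_assoc, h1]
      unfold wt
      have := q_ge (k := K)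
      rw [inv_mul_cancel₀ (by positivity)]
    have hA := step_A hY1 (wt_nonneg d) hw e1 ih1
    have h2 := step_h' (h' := ps (cR (insert P R))) hY1 e2
    have h3 := step_sum (h' := ps (cR (insert P R))) hY1 e2
    have hdg : dg (insert P R) = d + dg R := by
      unfold dg
      rw [sum_insert hPR]
    set B := Y ^ (8 * dg R) with hB
    have hB0 : 0 < B := by positivity
    set y := Y ^ d with hy
    have hy2 : 2 ≤ y ^ 2 := by
      have h4 : (2:ℝ) ≤ Y ^ 2 := by rw [hY2]; exact q_ge
      calc (2:ℝ) ≤ Y ^ 2 := h4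
        _ ≤ (Y ^ 2) ^ d := le_self_pow₀ (by linarith) (by omega)
        _ = y ^ 2 := by rw [hy, ← pow_mul, ← pow_mul, mul_comm]
    have hy0 : 0 < y := by positivity
    have hy14 : (1.41 : ℝ) ≤ y := by nlinarith
    have hBy : Y ^ (8 * dg (insert P R)) = y ^ 8 * B := by
      rw [hdg, hy, hB, ← pow_mul, ← pow_add]
      congr 1
      ring
    have hy8 : (1 + y) ≤ y ^ 7 * (y - 1) := by
      have h5 : (8:ℝ) ≤ y ^ 6 := by
        calc (8:ℝ) = 2 ^ 3 := by norm_num
          _ ≤ (y ^ 2) ^ 3 := pow_le_pow_left₀ (by norm_num) hy2 3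
          _ = y ^ 6 := by ring
      have h6 : 0 ≤ y * (y - 1) := by nlinarith
      have h7 := mul_le_mul_of_nonneg_right h5 h6
      nlinarith
    rw [hBy]
    constructor
    · intro n
      refine (h2 n).trans ?_
      have h5 := hA n
      set S := ∑ j ∈ range n, |ps (aR R P) j| * Y ^ j with hS
      have hS0 : 0 ≤ S := sum_nonneg fun _ _ => by positivity
      have h6 : (1 + y) * S * (y - 1) ≤ y ^ 8 * B * (y - 1) := by
        calc (1 + y) * S * (y - 1) = (1 + y) * ((y - 1) * S) := by ring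
          _ ≤ (1 + y) * (y * B) := mul_le_mul_of_nonneg_left h5 (by linarith)
          _ ≤ (y ^ 7 * (y - 1)) * (y * B) := mul_le_mul_of_nonneg_right hy8 (by positivity)
          _ = y ^ 8 * B * (y - 1) := by ring
      exact le_of_mul_le_mul_right h6 (by linarith)
    · intro _ n
      refine (h3 n).trans ?_
      have h5 := hA n
      set S := ∑ j ∈ range n, |ps (aR R P) j| * Y ^ j with hS
      have h6 : y * S * (y - 1) ≤ y ^ 8 * B * (y - 1) := by
        calc y * S * (y - 1) = y * ((y - 1) * S) := by ring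
          _ ≤ (1 + y) * (y * B) := by
            have h7 : 0 ≤ y * B := by positivity
            have h8 := mul_le_mul_of_nonneg_left h5 hy0.le
            nlinarith
          _ ≤ (y ^ 7 * (y - 1)) * (y * B) := mul_le_mul_of_nonneg_right hy8 (by positivity)
          _ = y ^ 8 * B * (y - 1) := by ring
      exact le_of_mul_le_mul_right h6 (by linarith)

/-- summation by parts -/
lemma by_parts (a : ℕ → ℝ) (c : ℝ) (J : ℕ) :
    ∑ j ∈ range (J + 1), (c - j) * a j = (c - J) * ps a J + ∑ j ∈ range J, ps a j := by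
  induction J with
  | zero => simp [ps]
  | succ J ih =>
    rw [sum_range_succ, ih, sum_range_succ (fun j => ps a j) J]
    have h : ps a (J + 1) = ps a J + a (J + 1) := by
      unfold ps
      rw [sum_range_succ]
    rw [h]
    push_cast
    ring

/-- the local weights as a product over the prime divisors -/
lemma fin_eq {R : Finset K[X]} (hR : Pr R) {j : ℕ} {D : K[X]} (hD : D ∈ Mn K j)
    (hs : Squarefree D) :
    ∏ᶠ P ∈ {P : K[X] | P.Monic ∧ Irreducible P ∧ P ∣ D ∧ P ∉ R},
      (1 / (Fintype.card K : ℝ) ^ P.natDegree) = wt K j * uu R D := by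
  rw [mem_Mn] at hD
  obtain ⟨hm, hj⟩ := hD
  have hD0 : D ≠ 0 := hm.ne_zero
  have hq := q_ge (k := K)
  set F : Finset K[X] := (UniqueFactorizationMonoid.normalizedFactors D).toFinset with hF
  have hmem : ∀ P, P ∈ F ↔ P.Monic ∧ Irreducible P ∧ P ∣ D := by
    intro P
    rw [hF, Multiset.mem_toFinset, Polynomial.mem_normalizedFactors_iff hD0]
    tauto
  have hprod : ∏ P ∈ F, P = D := by
    have hnd := (UniqueFactorizationMonoid.squarefree_iff_nodup_normalizedFactors hD0).1 hs
    rw [Finset.prod_eq_multiset_prod, hF, Multiset.toFinset_val, hnd.dedup, Multiset.map_id',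
      UniqueFactorizationMonoid.prod_normalizedFactors_eq hD0, hm.normalize_eq_self]
  have hdeg : ∑ P ∈ F, P.natDegree = j := by
    rw [← hj, ← hprod, natDegree_prod_of_monic]
    intro P hP
    exact ((hmem P).1 hP).1
  have hset : {P : K[X] | P.Monic ∧ Irreducible P ∧ P ∣ D ∧ P ∉ R} = ↑(F \ R) := by
    ext P
    rw [Set.mem_setOf_eq, Finset.mem_coe, mem_sdiff, hmem]
    tauto
  rw [hset, finprod_mem_coe_finset]
  have h1 : wt K j = (∏ P ∈ F \ R, (1 / (Fintype.card K : ℝ) ^ P.natDegree)) *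
      ∏ P ∈ F ∩ R, (1 / (Fintype.card K : ℝ) ^ P.natDegree) := by
    rw [mul_comm, prod_inter_mul_prod_diff]
    unfold wt
    rw [← hdeg, ← prod_pow_eq_pow_sum]
    simp
  have h2 : uu R D = ∏ P ∈ F ∩ R, (Fintype.card K : ℝ) ^ P.natDegree := by
    unfold uu
    rw [← prod_filter]
    refine prod_congr ?_ fun _ _ => rfl
    ext P
    rw [mem_filter, mem_inter, hmem]
    constructor
    · rintro ⟨h3, h4⟩
      exact ⟨⟨(hR P h3).1, (hR P h3).2, h4⟩, h3⟩
    · rintro ⟨⟨_, _, h4⟩, h3⟩
      exact ⟨h3, h4⟩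
  rw [h1, h2, mul_assoc, ← prod_mul_distrib]
  have h3 : ∏ P ∈ F ∩ R, (1 / (Fintype.card K : ℝ) ^ P.natDegree) *
      (Fintype.card K : ℝ) ^ P.natDegree = 1 := by
    refine prod_eq_one fun P _ => ?_
    rw [one_div, inv_mul_cancel₀ (by positivity)]
  rw [h3, mul_one]

end coef

theorem gen : S_gen := by
  intro K _ _ T E r J c hTE hr
  have hq := q_ge (k := K)
  set R := T ∪ E with hR
  have hPr : Pr R := hTE
  set t : ℝ := ∏ P ∈ T \ E, (1 / (Fintype.card K : ℝ) ^ P.natDegree) with ht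
  have ht0 : 0 ≤ t := prod_nonneg fun _ _ => by positivity
  have ht1 : t ≤ 1 := by
    refine prod_le_one (fun _ _ => by positivity) fun P _ => ?_
    rw [div_le_one (by positivity)]
    exact one_le_pow₀ (by linarith)
  have e1 : ∑ j ∈ range (J + 1), (c - j) * ∑ D ∈ Mn K j, (mob D : ℝ) *
        (t * ∏ᶠ P ∈ {P : K[X] | P.Monic ∧ Irreducible P ∧ P ∣ D ∧ P ∉ R},
            (1 / (Fintype.card K : ℝ) ^ P.natDegree)) =
      t * ∑ j ∈ range (J + 1), (c - j) * cR R j := by
    rw [mul_sum]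
    refine sum_congr rfl fun j _ => ?_
    unfold cR
    have h : ∑ D ∈ Mn K j, (mob D : ℝ) *
        (t * ∏ᶠ P ∈ {P : K[X] | P.Monic ∧ Irreducible P ∧ P ∣ D ∧ P ∉ R},
            (1 / (Fintype.card K : ℝ) ^ P.natDegree)) =
        t * (wt K j * ∑ D ∈ Mn K j, (mob D : ℝ) * uu R D) := by
      rw [mul_sum, mul_sum]
      refine sum_congr rfl fun D hD => ?_
      by_cases hs : Squarefree D
      · rw [fin_eq hPr hD hs]
        ring
      · have h0 : mob D = 0 := by
          unfold mob
          rw [if_neg hs]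
        rw [h0]
        simp
    rw [h]
    ring
  rw [e1]
  obtain ⟨Y, hY0, hY2⟩ : ∃ Y : ℝ, 0 < Y ∧ Y ^ 2 = (Fintype.card K : ℝ) :=
    ⟨Real.sqrt (Fintype.card K), Real.sqrt_pos.2 (by linarith), Real.sq_sqrt (by linarith)⟩
  have hY1 : 1 < Y := by nlinarith
  have hq0 : (0:ℝ) < Fintype.card K := by linarith
  have hYq : ∀ x : ℝ, (Fintype.card K : ℝ) ^ x = Y ^ (2 * x) := by
    intro x
    rw [← hY2, ← Real.rpow_natCast Y 2, ← Real.rpow_mul hY0.le]
    norm_num
  have hexp : (Fintype.card K : ℝ) ^ (4 * (r : ℝ) - J / 2) * Y ^ J = Y ^ (8 * r) := by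
    rw [hYq, ← Real.rpow_natCast Y J, ← Real.rpow_natCast Y (8 * r), ← Real.rpow_add hY0]
    congr 1
    push_cast
    ring
  obtain ⟨b1, b2⟩ := bounds hY1 hY2 R hPr
  have hdg : dg R ≤ r := hr
  have hBr : Y ^ (8 * dg R) ≤ Y ^ (8 * r) := pow_le_pow_right₀ hY1.le (by omega)
  set X0 := (Fintype.card K : ℝ) ^ (4 * (r : ℝ) - J / 2) with hX0
  have hX0p : 0 < X0 := Real.rpow_pos_of_pos hq0 _
  have hYJ : 0 < Y ^ J := by positivity
  rw [by_parts]
  by_cases hRe : R = ∅
  · have hTE2 : T = ∅ ∧ E = ∅ := by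
      rw [hR, union_eq_empty] at hRe
      exact hRe
    rw [if_pos hTE2]
    have ht2 : t = 1 := by
      rw [ht, hTE2.1]
      simp
    rw [ht2, one_mul, hRe]
    rcases J with _ | J
    · rw [ps_empty]
      simp only [if_true, range_zero, sum_empty, add_zero, mul_one, Nat.cast_zero, sub_zero]
      have h1 : (1:ℝ) ≤ X0 := by
        rw [hX0]
        apply Real.one_le_rpow (by linarith)
        simp
      have h2 : |c - 1| ≤ |c| + 1 := by
        have := abs_sub c 1
        rwa [abs_one] at this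
      have h3 : 0 ≤ |c| := abs_nonneg c
      nlinarith
    · rw [ps_empty, if_neg (by omega), sum_range_succ', ps_empty, if_pos rfl]
      have h1 : ∑ k ∈ range J, ps (cR (∅ : Finset K[X])) (k + 1) = 0 := by
        refine sum_eq_zero fun k _ => ?_
        rw [ps_empty, if_neg (by omega)]
      rw [h1]
      simp only [mul_zero, zero_add, sub_self, abs_zero]
      have h3 : 0 ≤ |c| := abs_nonneg c
      positivity
  · have hTE2 : ¬ (T = ∅ ∧ E = ∅) := by
      intro h
      apply hRe
      rw [hR, h.1, h.2, union_empty]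
    rw [if_neg hTE2, sub_zero]
    have h1 : |ps (cR R) J| ≤ X0 := by
      have h2 := b1 (J + 1)
      have h3 : |ps (cR R) J| * Y ^ J ≤ ∑ j ∈ range (J + 1), |ps (cR R) j| * Y ^ j :=
        single_le_sum (f := fun j => |ps (cR R) j| * Y ^ j) (fun _ _ => by positivity)
          (self_mem_range_succ J)
      have h4 : |ps (cR R) J| * Y ^ J ≤ X0 * Y ^ J := by
        rw [hexp]
        exact (h3.trans h2).trans hBr
      exact le_of_mul_le_mul_right h4 hYJ
    have h2 : |∑ j ∈ range J, ps (cR R) j| ≤ X0 := by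
      have h3 := b2 (Finset.nonempty_of_ne_empty hRe) J
      have h4 : |∑ j ∈ range J, ps (cR R) j| * Y ^ J ≤ X0 * Y ^ J := by
        rw [hexp]
        exact h3.trans hBr
      exact le_of_mul_le_mul_right h4 hYJ
    rw [abs_mul, abs_of_nonneg ht0]
    have h5 : |c - J| ≤ |c| + J := by
      have := abs_sub c J
      rwa [abs_of_nonneg (Nat.cast_nonneg J : (0:ℝ) ≤ J)] at this
    have h6 : |(c - J) * ps (cR R) J + ∑ j ∈ range J, ps (cR R) j| ≤ (|c| + J + 1) * X0 := by
      refine (abs_add_le _ _).trans ?_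
      rw [abs_mul]
      have h7 := mul_le_mul h5 h1 (abs_nonneg _) (by positivity)
      linarith
    have h8 : 0 ≤ (|c| + J + 1) * X0 := by positivity
    calc t * |(c - J) * ps (cR R) J + ∑ j ∈ range J, ps (cR R) j|
        ≤ 1 * ((|c| + J + 1) * X0) := mul_le_mul ht1 h6 (abs_nonneg _) (by norm_num)
      _ ≤ 100 * (|c| + J + 1) * X0 := by linarith

end Pool.Agent.H6.W.Gen

namespace Pool.Agent.H6.W

theorem gen : S_gen := Gen.gen

end Pool.Agent.H6.W
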