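import Pool.Agent.H6.W.Stm
import Pool.Agent.H604.LD.Far2
import Pool.Agent.H604.LD.Hid

/-!
# Wilson primes, task GOOD: the cofactors with a prime factor of suitable degree (helper405)
-/

set_option autoImplicit false
set_option linter.all false

namespace Pool.Agent.H6.W

open Polynomial
open scoped Classical
open Pool.Agent.H985.Chow (mob)
open Pool.Agent.H694.Typ (Mn PU Irn mem_Mn mem_Irn card_Mn coprime_of_ne q_ge wt wt_nonneg)
open Pool.Agent.H604.LD (BHW bw Pz S_bhw)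
open Pool.Agent.H604.LD.Far2 (ET MI TT ET_monic ET_deg ET_dvd mem_TT TT_MI sum_TT bw_eq mob_le)
open Pool.Agent.H604.LD.Hid (mob_of_not mob_mul_cop mob_irr)
open Pool.Agent.H290.CT (V card_V)

noncomputable section

namespace GoodL

section alg
variable {K : Type} [Field K] [Fintype K] [CharP K 3]

theorem two_ne : (2 : K) ≠ 0 := by
  intro h
  have h1 : (3 : K) = 0 := by
    have := CharP.cast_eq_zero K 3
    exact_mod_cast this
  have h2 : (1 : K) = 0 := by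
    have h3 : (1 : K) = 3 - 2 := by norm_num
    rw [h3, h1, h, sub_zero]
  exact one_ne_zero h2

/-- squares of primes dividing a polynomial with second derivative zero are cubes -/
theorem cube_dvd {P N : K[X]} (hP : Irreducible P) (hN : derivative (derivative N) = 0)
    (h : P ^ 2 ∣ N) : P ^ 3 ∣ N := by
  obtain ⟨N₁, rfl⟩ := h
  have hsep : IsCoprime P (derivative P) := PerfectField.separable_of_irreducible hP
  have h1 : derivative (derivative (P ^ 2 * N₁)) = 2 * (derivative P ^ 2 * N₁) +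
      P * (2 * derivative (derivative P) * N₁ + 4 * derivative P * derivative N₁ +
        P * derivative (derivative N₁)) := by
    rw [pow_two]
    simp only [derivative_mul, derivative_add]
    ring
  rw [h1] at hN
  have h2 : P ∣ 2 * (derivative P ^ 2 * N₁) := by
    have h3 : 2 * (derivative P ^ 2 * N₁) = -(P * (2 * derivative (derivative P) * N₁ +
        4 * derivative P * derivative N₁ + P * derivative (derivative N₁))) := by
      linear_combination hN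
    rw [h3]
    exact (dvd_mul_right _ _).neg_right
  have h4 : P ∣ derivative P ^ 2 * N₁ := by
    have h5 : (2 : K[X]) = C (2 : K) := (map_ofNat C 2).symm
    rw [h5] at h2
    have h6 : IsUnit (C (2 : K)) := isUnit_C.2 (IsUnit.mk0 _ two_ne)
    exact (h6.dvd_mul_left).1 h2
  have h7 : P ∣ N₁ := (hsep.pow_right (n := 2)).dvd_of_dvd_mul_left h4
  rw [pow_succ]
  exact mul_dvd_mul_left _ h7

/-- the Moebius function of `D` and of `P D` -/
theorem mob_step {P M D : K[X]} (hP : Irreducible P) (hPM : ¬ P ∣ M)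
    (h : derivative (derivative (M * (P * D))) = 0) : mob D = -mob (P * D) := by
  by_cases hD : P ∣ D
  · have h1 : P ^ 2 ∣ M * (P * D) := by
      rw [pow_two]
      exact (mul_dvd_mul_left P hD).mul_left M
    have h2 := cube_dvd hP h h1
    have h3 : P ^ 3 ∣ P * (M * D) := by
      have e : P * (M * D) = M * (P * D) := by ring
      rwa [e]
    rw [pow_succ', mul_dvd_mul_iff_left hP.ne_zero] at h3
    have h4 : IsCoprime (P ^ 2) M := ((hP.coprime_iff_not_dvd).2 hPM).pow_left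
    have h5 : P ^ 2 ∣ D := h4.dvd_of_dvd_mul_left h3
    have h6 : ¬ Squarefree D := by
      intro h7
      rw [pow_two] at h5
      exact hP.not_isUnit (h7 P h5)
    have h8 : ¬ Squarefree (P * D) := fun h9 => h6 (h9.squarefree_of_dvd (dvd_mul_left _ _))
    rw [mob_of_not h6, mob_of_not h8, neg_zero]
  · rw [mob_mul_cop ((hP.coprime_iff_not_dvd).2 hD), mob_irr hP]
    ring

/-- common prime factors -/
theorem mob_zero {P M D : K[X]} (hP : Irreducible P) (hM : Squarefree M) (hPM : P ∣ M) (hPD : P ∣ D)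
    (h : derivative (derivative (M * D)) = 0) : mob D = 0 := by
  apply mob_of_not
  intro hD
  have h1 : P ^ 2 ∣ M * D := by
    rw [pow_two]
    exact mul_dvd_mul hPM hPD
  have h2 := cube_dvd hP h h1
  obtain ⟨m, rfl⟩ := hPM
  obtain ⟨d, rfl⟩ := hPD
  have h3 : P ^ 2 * P ∣ P ^ 2 * (m * d) := by
    have e : P ^ 2 * (m * d) = P * m * (P * d) := by ring
    rw [e, ← pow_succ]
    exact h2
  rw [mul_dvd_mul_iff_left (pow_ne_zero 2 hP.ne_zero)] at h3
  rcases hP.prime.dvd_or_dvd h3 with h4 | h4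
  · exact hP.not_isUnit (hM P (mul_dvd_mul_left P h4))
  · exact hP.not_isUnit (hD P (mul_dvd_mul_left P h4))

end alg

section swap
variable {K : Type} [Field K] [Fintype K]

/-- the number of the prime factors in `S` -/
def om (S : Finset K[X]) (M : K[X]) : ℕ := (S.filter (fun P => P ∣ M)).card

theorem om_mul {S : Finset K[X]} (hS : ∀ P ∈ S, P.Monic ∧ Irreducible P) {P M : K[X]} (hP : P ∈ S)
    (hM : ¬ P ∣ M) : om S (P * M) = 1 + om S M := by
  unfold om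
  have h1 : S.filter (fun Q => Q ∣ P * M) = insert P (S.filter (fun Q => Q ∣ M)) := by
    ext Q
    rw [Finset.mem_filter, Finset.mem_insert, Finset.mem_filter]
    constructor
    · rintro ⟨h1, h2⟩
      rcases (hS Q h1).2.prime.dvd_or_dvd h2 with h3 | h3
      · left
        exact eq_of_monic_of_associated (hS Q h1).1 (hS P hP).1
          ((hS Q h1).2.associated_of_dvd (hS P hP).2 h3)
      · right
        exact ⟨h1, h3⟩
    · rintro (rfl | ⟨h1, h2⟩)
      · exact ⟨hP, dvd_mul_right _ _⟩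
      · exact ⟨h1, h2.mul_left _⟩
  rw [h1, Finset.card_insert_of_notMem, add_comm]
  intro h2
  exact hM (Finset.mem_filter.1 h2).2

theorem swap [CharP K 3] {n k : ℕ} (hkn : k ≤ n) {S : Finset K[X]}
    (hS : ∀ P ∈ S, P.Monic ∧ Irreducible P) {P : K[X]} (hP : P ∈ S) (hρ : P.natDegree ≤ k)
    (Φ : K[X] → ℝ) :
    ∑ M ∈ (Mn K k).filter (fun M => Squarefree M ∧ P ∣ M), (1 / (om S M : ℝ)) *
      ∑ D ∈ (Mn K (n - k)).filter (fun D => derivative (derivative (M * D)) = 0),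
        (mob D : ℝ) * Φ (M * D) =
    -∑ M ∈ (Mn K (k - P.natDegree)).filter (fun M => Squarefree M), (1 / (1 + (om S M : ℝ))) *
      ∑ D ∈ (Mn K (n - (k - P.natDegree))).filter (fun D => derivative (derivative (M * D)) = 0),
        if P ∣ D then (mob D : ℝ) * Φ (M * D) else 0 := by
  obtain ⟨hPm, hPi⟩ := hS P hP
  obtain ⟨k₂, hk₂⟩ : ∃ k₂, k = P.natDegree + k₂ := ⟨k - P.natDegree, by omega⟩
  have hk₂' : k - P.natDegree = k₂ := by omega
  have hnk : n - k₂ = P.natDegree + (n - k) := by omega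
  rw [hk₂', hnk]
  have e1 : ∑ M ∈ (Mn K k₂).filter (fun M => Squarefree M), (1 / (1 + (om S M : ℝ))) *
      ∑ D ∈ (Mn K (P.natDegree + (n - k))).filter (fun D => derivative (derivative (M * D)) = 0),
        (if P ∣ D then (mob D : ℝ) * Φ (M * D) else 0) =
      ∑ M ∈ (Mn K k₂).filter (fun M => Squarefree M ∧ ¬ P ∣ M), (1 / (1 + (om S M : ℝ))) *
      ∑ D ∈ (Mn K (P.natDegree + (n - k))).filter (fun D => derivative (derivative (M * D)) = 0),
        (if P ∣ D then (mob D : ℝ) * Φ (M * D) else 0) := by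
    symm
    refine Finset.sum_subset ?_ ?_
    · intro M hM
      rw [Finset.mem_filter] at hM ⊢
      exact ⟨hM.1, hM.2.1⟩
    · intro M hM hM'
      rw [Finset.mem_filter] at hM hM'
      have hPM : P ∣ M := by
        by_contra h
        exact hM' ⟨hM.1, hM.2, h⟩
      rw [Finset.sum_eq_zero, mul_zero]
      intro D hD
      rw [Finset.mem_filter] at hD
      split_ifs with h
      · rw [mob_zero hPi hM.2 hPM h hD.2, Int.cast_zero, zero_mul]
      · rfl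
  rw [e1, ← Finset.sum_neg_distrib]
  symm
  refine Finset.sum_bij (fun M _ => P * M) ?_ ?_ ?_ ?_
  · intro M hM
    rw [Finset.mem_filter, mem_Mn] at hM ⊢
    obtain ⟨⟨h1, h2⟩, h3, h4⟩ := hM
    refine ⟨⟨hPm.mul h1, by rw [hPm.natDegree_mul h1, h2, hk₂]⟩, ?_, dvd_mul_right _ _⟩
    exact squarefree_mul_iff.2 ⟨((hPi.coprime_iff_not_dvd).2 h4).isRelPrime, hPi.squarefree, h3⟩
  · intro M _ M' _ h
    exact mul_left_cancel₀ hPm.ne_zero h
  · intro M hM
    rw [Finset.mem_filter, mem_Mn] at hM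
    obtain ⟨⟨h1, h2⟩, h3, m, rfl⟩ := hM
    have h4 : m.Monic := hPm.of_mul_monic_left h1
    refine ⟨m, ?_, rfl⟩
    rw [Finset.mem_filter, mem_Mn]
    rw [hPm.natDegree_mul h4] at h2
    refine ⟨⟨h4, by omega⟩, h3.squarefree_of_dvd (dvd_mul_left _ _), ?_⟩
    intro h5
    exact hPi.not_isUnit (h3 P (mul_dvd_mul_left P h5))
  · intro M hM
    rw [Finset.mem_filter, mem_Mn] at hM
    obtain ⟨⟨h1, h2⟩, h3, h4⟩ := hM
    rw [om_mul hS hP h4]
    push_cast
    rw [← mul_neg]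
    congr 1
    rw [← Finset.sum_neg_distrib]
    have e2 : ∀ D ∈ (Mn K (P.natDegree + (n - k))).filter
        (fun D => derivative (derivative (M * D)) = 0),
        -(if P ∣ D then (mob D : ℝ) * Φ (M * D) else 0) =
        if P ∣ D then -((mob D : ℝ) * Φ (M * D)) else 0 := by
      intro D _
      split_ifs
      · rfl
      · exact neg_zero
    rw [Finset.sum_congr rfl e2, ← Finset.sum_filter]
    symm
    refine Finset.sum_bij (fun D _ => P * D) ?_ ?_ ?_ ?_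
    · intro D hD
      rw [Finset.mem_filter, mem_Mn] at hD
      obtain ⟨⟨h5, h6⟩, h7⟩ := hD
      rw [Finset.mem_filter, Finset.mem_filter, mem_Mn]
      refine ⟨⟨⟨hPm.mul h5, by rw [hPm.natDegree_mul h5, h6]⟩, ?_⟩, dvd_mul_right _ _⟩
      have e : M * (P * D) = P * M * D := by ring
      rw [e]
      exact h7
    · intro D _ D' _ h
      exact mul_left_cancel₀ hPm.ne_zero h
    · intro D hD
      rw [Finset.mem_filter, Finset.mem_filter, mem_Mn] at hD
      obtain ⟨⟨⟨h5, h6⟩, h7⟩, d, rfl⟩ := hD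
      have h8 : d.Monic := hPm.of_mul_monic_left h5
      refine ⟨d, ?_, rfl⟩
      rw [Finset.mem_filter, mem_Mn]
      rw [hPm.natDegree_mul h8] at h6
      refine ⟨⟨h8, by omega⟩, ?_⟩
      have e : P * M * d = M * (P * d) := by ring
      rw [e]
      exact h7
    · intro D hD
      rw [Finset.mem_filter, mem_Mn] at hD
      have e : M * (P * D) = P * M * D := by ring
      have h9 : derivative (derivative (M * (P * D))) = 0 := by
        rw [e]
        exact hD.2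
      rw [mob_step hPi h4 h9, e]
      push_cast
      ring

/-- the modulus of the sieve condition -/
def QT (T : Finset K[X]) (M : K[X]) : K[X] := ET (T.filter (fun Q => ¬ Q ∣ M))

theorem QT_dvd {T : Finset K[X]} (hT : MI T) (M D : K[X]) :
    QT T M ∣ D ↔ ∀ Q ∈ T, Q ∣ M * D := by
  unfold QT
  rw [ET_dvd (hT.sub (Finset.filter_subset _ _))]
  constructor
  · intro h Q hQ
    by_cases h1 : Q ∣ M
    · exact h1.mul_right _
    · exact (h Q (Finset.mem_filter.2 ⟨hQ, h1⟩)).mul_left _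
  · intro h Q hQ
    rw [Finset.mem_filter] at hQ
    exact ((hT Q hQ.1).2.prime.dvd_or_dvd (h Q hQ.1)).resolve_left hQ.2

theorem bw_TT {z A : ℕ} {C : ℝ} {w : Finset K[X] → ℝ} (hw : BHW K z A C w) (M D : K[X]) :
    bw z w (M * D) = ∑ T ∈ TT K z (A * z), if QT T M ∣ D then w T else 0 := by
  rw [bw_eq]
  symm
  have h1 : ∀ T ∈ TT K z (A * z), (if QT T M ∣ D then w T else 0) =
      if ∀ P ∈ T, P ∣ M * D then w T else 0 := by
    intro T hT
    by_cases h : QT T M ∣ D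
    · rw [if_pos h, if_pos ((QT_dvd (TT_MI hT) M D).1 h)]
    · rw [if_neg h, if_neg (fun h' => h ((QT_dvd (TT_MI hT) M D).2 h'))]
  rw [Finset.sum_congr rfl h1]
  refine Finset.sum_subset ?_ ?_
  · intro T hT
    exact Finset.mem_powerset.2 (mem_TT.1 hT).1
  · intro T _ hT
    have h2 : w T = 0 := by
      by_contra h3
      exact hT (mem_TT.2 (hw.2.2.1 T h3))
    rw [h2, ite_self]

theorem expand {z A : ℕ} {C : ℝ} {w : Finset K[X] → ℝ} (hw : BHW K z A C w) (P M : K[X])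
    (s : Finset K[X]) :
    ∑ D ∈ s, (if P ∣ D then (mob D : ℝ) * bw z w (M * D) else 0) =
      ∑ T ∈ TT K z (A * z), w T * ∑ D ∈ s, if P ∣ D ∧ QT T M ∣ D then (mob D : ℝ) else 0 := by
  have h1 : ∀ D ∈ s, (if P ∣ D then (mob D : ℝ) * bw z w (M * D) else 0) =
      ∑ T ∈ TT K z (A * z), w T * if P ∣ D ∧ QT T M ∣ D then (mob D : ℝ) else 0 := by
    intro D _
    by_cases h : P ∣ D
    · rw [if_pos h, bw_TT hw, Finset.mul_sum]
      refine Finset.sum_congr rfl fun T _ => ?_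
      by_cases h2 : QT T M ∣ D
      · rw [if_pos h2, if_pos ⟨h, h2⟩, mul_comm]
      · rw [if_neg h2, if_neg (fun h3 => h2 h3.2), mul_zero, mul_zero]
    · rw [if_neg h]
      symm
      exact Finset.sum_eq_zero fun T _ => by rw [if_neg (fun h3 => h h3.1), mul_zero]
  rw [Finset.sum_congr rfl h1, Finset.sum_comm]
  exact Finset.sum_congr rfl fun T _ => (Finset.mul_sum _ _ _).symm

/-- splitting into types -/
theorem types {F G : K[X] → K[X]} (hLB : LB K F G) (k : ℕ) (φ : K[X] → ℝ) :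
    ∑ M ∈ (Mn K k).filter (fun M => Squarefree M), φ M =
      ∑ u ∈ Finset.range (k + 2), ∑ M ∈ Ty K F G k u (k + 1 - u), φ M := by
  have h1 : ∀ M ∈ (Mn K k).filter (fun M => Squarefree M), (F M).natDegree ∈ Finset.range (k + 2) := by
    intro M hM
    rw [Finset.mem_filter, mem_Mn] at hM
    have h2 := (hLB M hM.1.1 hM.2).2.2.2.2.1
    rw [hM.1.2] at h2
    rw [Finset.mem_range]
    omega
  rw [← Finset.sum_fiberwise_of_maps_to h1]
  refine Finset.sum_congr rfl fun u hu => Finset.sum_congr ?_ fun _ _ => rfl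
  ext M
  unfold Ty
  rw [Finset.mem_filter, Finset.mem_filter, Finset.mem_filter, mem_Mn]
  rw [Finset.mem_range] at hu
  constructor
  · rintro ⟨⟨h2, h3⟩, h4⟩
    have h5 := (hLB M h2.1 h3).2.2.2.2.1
    rw [h2.2] at h5
    exact ⟨h2, h3, h4, by omega⟩
  · rintro ⟨h2, h3, h4, h5⟩
    exact ⟨⟨h2, h3⟩, h4⟩

/-- the sum for one prime, one set of the sieve and one type -/
def Bs (F G : K[X] → K[X]) (n k u : ℕ) (S : Finset K[X]) (P : K[X]) (T : Finset K[X]) : ℝ :=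
  ∑ M ∈ Ty K F G k u (k + 1 - u), (1 / (1 + (om S M : ℝ))) *
    ∑ D ∈ (Mn K (n - k)).filter (fun D => derivative (derivative (M * D)) = 0),
      if P ∣ D ∧ QT T M ∣ D then (mob D : ℝ) else 0

theorem one_prime [CharP K 3] {F G : K[X] → K[X]} (hLB : LB K F G) {n k z A : ℕ} {C : ℝ}
    {w : Finset K[X] → ℝ} (hw : BHW K z A C w) (hkn : k ≤ n) {S : Finset K[X]}
    (hS : ∀ P ∈ S, P.Monic ∧ Irreducible P) {P : K[X]} (hP : P ∈ S) (hρ : P.natDegree ≤ k) :
    |∑ M ∈ (Mn K k).filter (fun M => Squarefree M ∧ P ∣ M), (1 / (om S M : ℝ)) *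
      ∑ D ∈ (Mn K (n - k)).filter (fun D => derivative (derivative (M * D)) = 0),
        (mob D : ℝ) * bw z w (M * D)| ≤
    ∑ T ∈ TT K z (A * z), ∑ u ∈ Finset.range (k - P.natDegree + 2),
      |Bs F G n (k - P.natDegree) u S P T| := by
  rw [swap hkn hS hP hρ (fun N => bw z w N), abs_neg]
  have h1 : ∀ M ∈ (Mn K (k - P.natDegree)).filter (fun M => Squarefree M),
      (1 / (1 + (om S M : ℝ))) *
      ∑ D ∈ (Mn K (n - (k - P.natDegree))).filter (fun D => derivative (derivative (M * D)) = 0),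
        (if P ∣ D then (mob D : ℝ) * bw z w (M * D) else 0) =
      ∑ T ∈ TT K z (A * z), w T * ((1 / (1 + (om S M : ℝ))) *
        ∑ D ∈ (Mn K (n - (k - P.natDegree))).filter (fun D => derivative (derivative (M * D)) = 0),
          if P ∣ D ∧ QT T M ∣ D then (mob D : ℝ) else 0) := by
    intro M _
    rw [expand hw, Finset.mul_sum]
    exact Finset.sum_congr rfl fun T _ => by ring
  rw [Finset.sum_congr rfl h1, Finset.sum_comm]
  refine (Finset.abs_sum_le_sum_abs _ _).trans (Finset.sum_le_sum fun T _ => ?_)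
  rw [← Finset.mul_sum, types hLB, abs_mul]
  have h2 := hw.1 T
  have h3 : |∑ u ∈ Finset.range (k - P.natDegree + 2),
      ∑ M ∈ Ty K F G (k - P.natDegree) u (k - P.natDegree + 1 - u), (1 / (1 + (om S M : ℝ))) *
        ∑ D ∈ (Mn K (n - (k - P.natDegree))).filter (fun D => derivative (derivative (M * D)) = 0),
          (if P ∣ D ∧ QT T M ∣ D then (mob D : ℝ) else 0)| ≤
      ∑ u ∈ Finset.range (k - P.natDegree + 2), |Bs F G n (k - P.natDegree) u S P T| :=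
    Finset.abs_sum_le_sum_abs _ _
  calc _ ≤ 1 * |_| := mul_le_mul_of_nonneg_right h2 (abs_nonneg _)
    _ ≤ _ := by rw [one_mul]; exact h3

end swap

section bounds
variable {K : Type} [Field K] [Fintype K]

theorem card_TT (z B : ℕ) : ((TT K z B).card : ℝ) ≤ ((B : ℝ) + 1) * (Fintype.card K : ℝ) ^ B := by
  have hq : (2 : ℝ) ≤ (Fintype.card K : ℝ) := q_ge
  have h1 : ∀ T ∈ TT K z B, ((Fintype.card K : ℝ) ^ B)⁻¹ ≤ wt K (ET T).natDegree := by
    intro T hT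
    unfold wt
    have h2 : (ET T).natDegree ≤ B := by
      rw [ET_deg (TT_MI hT)]
      exact (mem_TT.1 hT).2
    exact inv_anti₀ (by positivity) (pow_le_pow_right₀ (by linarith) h2)
  have h3 := (Finset.sum_le_sum h1).trans (sum_TT (K := K) z B)
  rw [Finset.sum_const, nsmul_eq_mul] at h3
  have h4 : (0 : ℝ) < (Fintype.card K : ℝ) ^ B := by positivity
  calc ((TT K z B).card : ℝ) =
      ((TT K z B).card * ((Fintype.card K : ℝ) ^ B)⁻¹) * (Fintype.card K : ℝ) ^ B := by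
        rw [mul_assoc, inv_mul_cancel₀ h4.ne', mul_one]
    _ ≤ _ := mul_le_mul_of_nonneg_right h3 h4.le

theorem box_mem (hbox : S_box) [CharP K 3] {F G : K[X] → K[X]} (hLB : LB K F G) {n k u v : ℕ}
    {M : K[X]} (hM : M ∈ Ty K F G k u v) (hn : n % 3 ≠ 2) (hk : k ≤ n) (hu : u ≤ n - k)
    (hv : v ≤ n - k) {x y : K[X]} (hx : x ∈ V K (bA n k u)) (hy : y ∈ V K (bB n k v)) :
    dd F G M (cA K n k u + x) (cB K n k v + y) ∈ Mn K (n - k) := by
  by_contra hcon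
  have h := (hbox K F G hLB n k u v M hM hn hk hu hv).1
    (fun D => if D ∈ Mn K (n - k) then 0 else 1)
  rw [Finset.sum_eq_zero (fun D hD => if_pos (Finset.mem_filter.1 hD).1)] at h
  have h0 : ∀ D : K[X], (0 : ℝ) ≤ if D ∈ Mn K (n - k) then 0 else 1 := by
    intro D
    split_ifs <;> norm_num
  have h1 := (Finset.sum_eq_zero_iff_of_nonneg
    fun x _ => Finset.sum_nonneg fun y _ => h0 _).1 h.symm x hx
  have h2 := (Finset.sum_eq_zero_iff_of_nonneg fun y _ => h0 _).1 h1 y hy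
  rw [if_neg hcon] at h2
  exact one_ne_zero h2

theorem box_card (hbox : S_box) [CharP K 3] {F G : K[X] → K[X]} (hLB : LB K F G) {n k u v : ℕ}
    {M : K[X]} (hM : M ∈ Ty K F G k u v) (hn : n % 3 ≠ 2) (hk : k ≤ n) (hu : u ≤ n - k)
    (hv : v ≤ n - k) :
    (((Mn K (n - k)).filter (fun D => derivative (derivative (M * D)) = 0)).card : ℝ) *
      (Fintype.card K : ℝ) ^ k = (Fintype.card K : ℝ) ^ nu n := by
  obtain ⟨h1, h2⟩ := hbox K F G hLB n k u v M hM hn hk hu hv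
  have h := h1 (fun _ => 1)
  simp only [Finset.sum_const, nsmul_eq_mul, mul_one, card_V] at h
  rw [h, ← h2]
  push_cast
  ring

theorem card_irn_dvd (ρ : ℕ) {n : ℕ} {D : K[X]} (hD : D ≠ 0) (hn : D.natDegree ≤ n) :
    ((Irn K ρ).filter (fun P => P ∣ D)).card ≤ n := by
  refine le_trans (Finset.card_le_card ?_) ((Pool.Agent.H694.Typ.card_dvd_e ρ hD).trans hn)
  intro P hP
  rw [Finset.mem_filter, mem_Irn] at hP
  rw [Finset.mem_filter, Pool.Agent.H694.Typ.mem_PU]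
  exact ⟨⟨hP.1.1, hP.1.2.2, hP.1.2.1.le⟩, hP.2⟩

theorem om_inv (S : Finset K[X]) (M : K[X]) :
    0 ≤ 1 / (1 + (om S M : ℝ)) ∧ 1 / (1 + (om S M : ℝ)) ≤ 1 := by
  have h : (0 : ℝ) ≤ (om S M : ℝ) := Nat.cast_nonneg _
  refine ⟨by positivity, ?_⟩
  rw [div_le_one (by positivity)]
  linarith

theorem unb_triv (hbox : S_box) [CharP K 3] {F G : K[X] → K[X]} (hLB : LB K F G)
    {n k u : ℕ} (hn : n % 3 ≠ 2) (hk : 2 * k + 1 ≤ n) (hu : u ≤ k + 1) (ρ : ℕ)
    (S T : Finset K[X]) :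
    (∑ P ∈ Irn K ρ, |Bs F G n k u S P T|) * (Fintype.card K : ℝ) ^ k ≤
      n * (Ty K F G k u (k + 1 - u)).card * (Fintype.card K : ℝ) ^ nu n := by
  have hq : (2 : ℝ) ≤ (Fintype.card K : ℝ) := q_ge
  have h1 : ∀ P ∈ Irn K ρ, |Bs F G n k u S P T| ≤ ∑ M ∈ Ty K F G k u (k + 1 - u),
      ∑ D ∈ (Mn K (n - k)).filter (fun D => derivative (derivative (M * D)) = 0),
        if P ∣ D then (1 : ℝ) else 0 := by
    intro P _
    unfold Bs
    refine (Finset.abs_sum_le_sum_abs _ _).trans (Finset.sum_le_sum fun M _ => ?_)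
    obtain ⟨h2, h3⟩ := om_inv S M
    rw [abs_mul, abs_of_nonneg h2]
    refine (mul_le_of_le_one_left (abs_nonneg _) h3).trans ?_
    refine (Finset.abs_sum_le_sum_abs _ _).trans (Finset.sum_le_sum fun D _ => ?_)
    by_cases h4 : P ∣ D
    · rw [if_pos h4]
      split_ifs
      · exact mob_le D
      · rw [abs_zero]; norm_num
    · rw [if_neg h4, if_neg (fun h5 => h4 h5.1), abs_zero]
  have h5 : ∑ P ∈ Irn K ρ, |Bs F G n k u S P T| ≤ ∑ M ∈ Ty K F G k u (k + 1 - u),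
      (n : ℝ) * (((Mn K (n - k)).filter (fun D => derivative (derivative (M * D)) = 0)).card : ℝ) := by
    refine (Finset.sum_le_sum h1).trans ?_
    rw [Finset.sum_comm]
    refine Finset.sum_le_sum fun M _ => ?_
    rw [Finset.sum_comm]
    have h6 : ∀ D ∈ (Mn K (n - k)).filter (fun D => derivative (derivative (M * D)) = 0),
        ∑ P ∈ Irn K ρ, (if P ∣ D then (1 : ℝ) else 0) ≤ n := by
      intro D hD
      rw [Finset.mem_filter, mem_Mn] at hD
      rw [Finset.sum_boole]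
      exact_mod_cast card_irn_dvd ρ hD.1.1.ne_zero (by omega)
    refine (Finset.sum_le_sum h6).trans ?_
    rw [Finset.sum_const, nsmul_eq_mul, mul_comm]
  calc (∑ P ∈ Irn K ρ, |Bs F G n k u S P T|) * (Fintype.card K : ℝ) ^ k ≤
      (∑ M ∈ Ty K F G k u (k + 1 - u), (n : ℝ) *
        (((Mn K (n - k)).filter (fun D => derivative (derivative (M * D)) = 0)).card : ℝ)) *
        (Fintype.card K : ℝ) ^ k := mul_le_mul_of_nonneg_right h5 (by positivity)
    _ = ∑ M ∈ Ty K F G k u (k + 1 - u), (n : ℝ) * (Fintype.card K : ℝ) ^ nu n := by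
        rw [Finset.sum_mul]
        refine Finset.sum_congr rfl fun M hM => ?_
        rw [mul_assoc, box_card hbox hLB hM hn (by omega) (by omega) (by omega)]
    _ = _ := by
        rw [Finset.sum_const, nsmul_eq_mul]
        ring

theorem unb_bound (hbox : S_box) (hunb : S_unb) [CharP K 3] {F G : K[X] → K[X]} (hLB : LB K F G)
    {n k u : ℕ} (hn : n % 3 ≠ 2) (hk : 2 * k + 1 ≤ n) (hu : u ≤ k + 1) (ρ : ℕ)
    (S T : Finset K[X]) :
    (∑ P ∈ Irn K ρ, |Bs F G n k u S P T|) *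
      (Fintype.card K : ℝ) ^ ((max u (k + 1 - u) - min u (k + 1 - u)) / 3) ≤
      n * (Fintype.card K : ℝ) ^ (nu n + 1) := by
  have hq : (2 : ℝ) ≤ (Fintype.card K : ℝ) := q_ge
  have h1 := unb_triv hbox hLB hn hk hu ρ S T
  have h2 : ((Ty K F G k u (k + 1 - u)).card : ℝ) *
      (Fintype.card K : ℝ) ^ ((max u (k + 1 - u) - min u (k + 1 - u)) / 3) ≤
      (Fintype.card K : ℝ) ^ (k + 1) := by
    exact_mod_cast hunb K F G hLB k u (k + 1 - u)
  set X := ∑ P ∈ Irn K ρ, |Bs F G n k u S P T| with hX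
  set Y := (Fintype.card K : ℝ) ^ ((max u (k + 1 - u) - min u (k + 1 - u)) / 3) with hY
  have hY0 : 0 ≤ Y := by positivity
  have hk0 : (0 : ℝ) < (Fintype.card K : ℝ) ^ k := by positivity
  have h3 : X * Y * (Fintype.card K : ℝ) ^ k ≤
      n * (Fintype.card K : ℝ) ^ (nu n + 1) * (Fintype.card K : ℝ) ^ k := by
    calc X * Y * (Fintype.card K : ℝ) ^ k = (X * (Fintype.card K : ℝ) ^ k) * Y := by ring
      _ ≤ (n * (Ty K F G k u (k + 1 - u)).card * (Fintype.card K : ℝ) ^ nu n) * Y :=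
          mul_le_mul_of_nonneg_right h1 hY0
      _ = (n * (Fintype.card K : ℝ) ^ nu n) * ((Ty K F G k u (k + 1 - u)).card * Y) := by ring
      _ ≤ (n * (Fintype.card K : ℝ) ^ nu n) * (Fintype.card K : ℝ) ^ (k + 1) :=
          mul_le_mul_of_nonneg_left h2 (by positivity)
      _ = _ := by ring
  exact le_of_mul_le_mul_right h3 hk0

theorem bal (hbox : S_box) (hmuf : S_muf) (hbil : S_bil) [CharP K 3] {F G : K[X] → K[X]}
    (hLB : LB K F G) {n k u : ℕ} (hn : n % 3 ≠ 2) (hk : 2 * k + 1 ≤ n) (hk3 : 3 * k ≤ n)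
    (hu : u ≤ k + 1) (S T : Finset K[X]) {P : K[X]} (hP : P.Monic) (hPi : Irreducible P)
    (h1 : P.natDegree ≤ u) (h2 : P.natDegree ≤ k + 1 - u) :
    (Bs F G n k u S P T) ^ 2 ≤ 2 * (Fintype.card K : ℝ) ^ nu n *
      ((Fintype.card K : ℝ) ^ (2 * k + 1 - P.natDegree) +
        (Fintype.card K : ℝ) ^ (k + 2 * (n - 3 * k) + max u (k + 1 - u) + k / 3 + 3)) := by
  obtain ⟨θ, ξ, κ, hθ, -, hκ, -, hθ0, hmob⟩ := hmuf K F G hLB n k u (k + 1 - u) hn (by omega)
  have hα : 3 * bA n k u + u ≤ 2 * k + (n - 3 * k) + 2 := by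
    unfold bA
    split_ifs <;> omega
  have hβ : 3 * bB n k (k + 1 - u) + (k + 1 - u) ≤ 2 * k + (n - 3 * k) + 2 := by
    unfold bB
    split_ifs <;> omega
  have hc : ∀ M, |κ M / (1 + (om S M : ℝ))| ≤ 1 := by
    intro M
    obtain ⟨h3, h4⟩ := om_inv S M
    have e : κ M / (1 + (om S M : ℝ)) = κ M * (1 / (1 + (om S M : ℝ))) := by ring
    rw [e, abs_mul, abs_of_nonneg h3]
    exact mul_le_one₀ (hκ M) h3 h4
  have h := hbil K F G hLB k u (k + 1 - u) (bA n k u) (bB n k (k + 1 - u)) (n - 3 * k) P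
    (cA K n k u) (cB K n k (k + 1 - u)) (Ty K F G k u (k + 1 - u)) (QT T)
    (fun M => κ M / (1 + (om S M : ℝ))) θ hP (Or.inr ⟨hPi, fun a b ha hb => hθ0 a b P hPi ha hb⟩)
    h1 h2 hα hβ (Finset.Subset.refl _) hc hθ
  have hBs : Bs F G n k u S P T = ∑ M ∈ Ty K F G k u (k + 1 - u), ∑ x ∈ V K (bA n k u),
      ∑ y ∈ V K (bB n k (k + 1 - u)),
      if P ∣ dd F G M (cA K n k u + x) (cB K n k (k + 1 - u) + y) ∧
        QT T M ∣ dd F G M (cA K n k u + x) (cB K n k (k + 1 - u) + y) then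
          κ M / (1 + (om S M : ℝ)) * θ (cA K n k u + x) (cB K n k (k + 1 - u) + y) *
            (jac (dd F G M (cA K n k u + x) (cB K n k (k + 1 - u) + y)) M : ℝ) else 0 := by
    unfold Bs
    refine Finset.sum_congr rfl fun M hM => ?_
    rw [(hbox K F G hLB n k u (k + 1 - u) M hM hn (by omega) (by omega) (by omega)).1
      (fun D => if P ∣ D ∧ QT T M ∣ D then (mob D : ℝ) else 0), Finset.mul_sum]
    refine Finset.sum_congr rfl fun x hx => ?_
    rw [Finset.mul_sum]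
    refine Finset.sum_congr rfl fun y hy => ?_
    have h5 := mem_Mn.1 (box_mem hbox hLB hM hn (by omega) (by omega) (by omega) hx hy)
    have h6 := hmob M hM _ _ h5.1 h5.2
    split_ifs with h7
    · rw [h6]
      ring
    · rw [mul_zero]
  have hsum := (hbox K F G hLB n k u (k + 1 - u))
  rcases (Ty K F G k u (k + 1 - u)).eq_empty_or_nonempty with he | ⟨M, hM⟩
  · rw [hBs, he, Finset.sum_empty, zero_pow (by norm_num)]
    positivity
  · have h7 := (hsum M hM hn (by omega) (by omega) (by omega)).2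
    rw [hBs, ← h7]
    exact h

end bounds

section numerics

theorem max_floor {u k : ℕ} (hu : u ≤ k + 1)
    (h : 25 * (max u (k + 1 - u) - min u (k + 1 - u)) < k) :
    100 * max u (k + 1 - u) ≤ 52 * k + 50 := by
  omega

theorem pow_rp {q : ℝ} (hq : 2 ≤ q) (a : ℕ) : q ^ a = q ^ (a : ℝ) := (Real.rpow_natCast q a).symm

theorem two_rp {q : ℝ} (hq : 2 ≤ q) : (2 : ℝ) ≤ q ^ (1 : ℝ) := by rwa [Real.rpow_one]

/-- the numerics of the balanced case -/
theorem num_bal {q θ δ : ℝ} {n k k₂ ρ u N : ℕ} (hq : 2 ≤ q) (hθ0 : 0 < θ) (hθ : θ ≤ 1 / 1000)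
    (hδ : 16 * θ ≤ δ) (hk : |(k : ℝ) - n / 3| ≤ θ * n) (hkk : k = ρ + k₂) (hρ : δ * n ≤ ρ)
    (hρ' : 200 * ρ ≤ n) (hN : (2 / 3 : ℝ) * n ≤ N) (hk3 : 3 * k₂ ≤ n) (hρk : ρ ≤ 2 * k₂ + 1)
    (hm : 100 * u ≤ 52 * k₂ + 50) :
    2 * q ^ N * (q ^ (2 * k₂ + 1 - ρ) + q ^ (k₂ + 2 * (n - 3 * k₂) + u + k₂ / 3 + 3)) ≤
      (q ^ ((N : ℝ) - 6 * θ * n + 3 - ρ)) ^ 2 := by
  have hq0 : (0 : ℝ) < q := by linarith
  have hq1 : (1 : ℝ) ≤ q := by linarith
  have hn0 : (0 : ℝ) ≤ n := Nat.cast_nonneg _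
  obtain ⟨hk1, hk2⟩ := abs_le.1 hk
  have hkk' : (k : ℝ) = ρ + k₂ := by exact_mod_cast hkk
  have hρ'' : 200 * (ρ : ℝ) ≤ n := by exact_mod_cast hρ'
  have hm' : 100 * (u : ℝ) ≤ 52 * k₂ + 50 := by exact_mod_cast hm
  have hk4 : ((k₂ / 3 : ℕ) : ℝ) ≤ k₂ / 3 := Nat.cast_div_le
  have e1 : q ^ (2 * k₂ + 1 - ρ) = q ^ (2 * (k₂ : ℝ) + 1 - ρ) := by
    rw [pow_rp hq, Nat.cast_sub hρk]
    push_cast
    rfl
  have e2 : q ^ (k₂ + 2 * (n - 3 * k₂) + u + k₂ / 3 + 3) =
      q ^ ((k₂ : ℝ) + 2 * (n - 3 * k₂) + u + (k₂ / 3 : ℕ) + 3) := by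
    rw [pow_rp hq]
    push_cast [Nat.cast_sub hk3]
    rfl
  have e3 : (q ^ ((N : ℝ) - 6 * θ * n + 3 - ρ)) ^ 2 = q ^ (2 * ((N : ℝ) - 6 * θ * n + 3 - ρ)) := by
    rw [pow_two, ← Real.rpow_add hq0]
    congr 1
    ring
  have hδn : 16 * θ * n ≤ ρ := le_trans (mul_le_mul_of_nonneg_right hδ hn0) hρ
  have hθn : θ * n ≤ n / 1000 := by nlinarith
  have i1 : q ^ (2 * (k₂ : ℝ) + 1 - ρ) ≤ q ^ ((N : ℝ) - 12 * θ * n + 4 - 2 * ρ) := by
    refine Real.rpow_le_rpow_of_exponent_le hq1 ?_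
    linarith
  have i2 : q ^ ((k₂ : ℝ) + 2 * (n - 3 * k₂) + u + (k₂ / 3 : ℕ) + 3) ≤
      q ^ ((N : ℝ) - 12 * θ * n + 4 - 2 * ρ) := by
    refine Real.rpow_le_rpow_of_exponent_le hq1 ?_
    linarith
  rw [e1, e2, e3]
  have hX : 0 < q ^ ((N : ℝ) - 12 * θ * n + 4 - 2 * ρ) := Real.rpow_pos_of_pos hq0 _
  calc 2 * q ^ N * (q ^ (2 * (k₂ : ℝ) + 1 - ρ) +
        q ^ ((k₂ : ℝ) + 2 * (n - 3 * k₂) + u + (k₂ / 3 : ℕ) + 3)) ≤
      2 * q ^ N * (q ^ ((N : ℝ) - 12 * θ * n + 4 - 2 * ρ) +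
        q ^ ((N : ℝ) - 12 * θ * n + 4 - 2 * ρ)) :=
        mul_le_mul_of_nonneg_left (add_le_add i1 i2) (by positivity)
    _ = (2 * 2) * (q ^ N * q ^ ((N : ℝ) - 12 * θ * n + 4 - 2 * ρ)) := by ring
    _ ≤ (q * q) * (q ^ N * q ^ ((N : ℝ) - 12 * θ * n + 4 - 2 * ρ)) := by
        refine mul_le_mul_of_nonneg_right ?_ (by positivity)
        nlinarith
    _ = q ^ (2 * ((N : ℝ) - 6 * θ * n + 3 - ρ)) := by
        rw [pow_rp hq, ← Real.rpow_add hq0, ← pow_two, pow_rp hq, ← Real.rpow_add hq0]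
        congr 1
        push_cast
        ring


/-- the numerics of the unbalanced case -/
theorem num_unb {q θ X : ℝ} {n k k₂ ρ d N : ℕ} (hq : 2 ≤ q) (hθ0 : 0 < θ) (hθ : θ ≤ 1 / 1000)
    (hk : |(k : ℝ) - n / 3| ≤ θ * n) (hkk : k = ρ + k₂) (hρ' : 200 * ρ ≤ n) (hd : k₂ ≤ 25 * d)
    (h : X * q ^ (d / 3) ≤ n * q ^ (N + 1)) : X ≤ n * q ^ ((N : ℝ) - 4 * θ * n + 2) := by
  have hq0 : (0 : ℝ) < q := by linarith
  have hq1 : (1 : ℝ) ≤ q := by linarith
  have hn0 : (0 : ℝ) ≤ n := Nat.cast_nonneg _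
  obtain ⟨hk1, hk2⟩ := abs_le.1 hk
  have hkk' : (k : ℝ) = ρ + k₂ := by exact_mod_cast hkk
  have hρ'' : 200 * (ρ : ℝ) ≤ n := by exact_mod_cast hρ'
  have hd' : (k₂ : ℝ) ≤ 25 * d := by exact_mod_cast hd
  have hd3 : d ≤ 3 * (d / 3) + 2 := by omega
  have hd4 : (d : ℝ) ≤ 3 * ((d / 3 : ℕ) : ℝ) + 2 := by exact_mod_cast hd3
  have hθn : θ * n ≤ n / 1000 := by nlinarith
  have hY : (0 : ℝ) < q ^ (d / 3) := by positivity
  refine le_of_mul_le_mul_right (h.trans ?_) hY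
  rw [mul_assoc]
  refine mul_le_mul_of_nonneg_left ?_ hn0
  rw [pow_rp hq, pow_rp hq, ← Real.rpow_add hq0]
  refine Real.rpow_le_rpow_of_exponent_le hq1 ?_
  push_cast
  linarith

theorem nu_ge (n : ℕ) : (2 / 3 : ℝ) * n ≤ (nu n : ℝ) := by
  have h : 2 * n ≤ 3 * nu n := by
    unfold nu
    omega
  have h' : 2 * (n : ℝ) ≤ 3 * (nu n : ℝ) := by exact_mod_cast h
  linarith

end numerics

section final
variable {K : Type} [Field K] [Fintype K]

theorem card_irn_le {ρ : ℕ} (hρ : 0 < ρ) : ((Irn K ρ).card : ℝ) ≤ (Fintype.card K : ℝ) ^ ρ := by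
  have h := Pool.Agent.H694.Typ.irn_one_le (k := K) hρ
  have h2 : (Irn K ρ).card ≤ Fintype.card K ^ ρ := by nlinarith
  exact_mod_cast h2

theorem per_u (hbox : S_box) (hmuf : S_muf) (hbil : S_bil) (hunb : S_unb) [CharP K 3]
    {F G : K[X] → K[X]} (hLB : LB K F G) {n k k₂ ρ u : ℕ} {θ δ : ℝ} (hn : n % 3 ≠ 2) (hn3 : 3 ≤ n)
    (hθ0 : 0 < θ) (hθ : θ ≤ 1 / 1000) (hδ : 16 * θ ≤ δ) (hk : |(k : ℝ) - n / 3| ≤ θ * n)
    (hkk : k = ρ + k₂) (hρ0 : 0 < ρ) (hρ : δ * n ≤ ρ) (hρ' : 200 * ρ ≤ n) (hu : u ≤ k₂ + 1)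
    (S T : Finset K[X]) :
    ∑ P ∈ Irn K ρ, |Bs F G n k₂ u S P T| ≤
      ((n : ℝ) + 1) * (Fintype.card K : ℝ) ^ ((nu n : ℝ) - 4 * θ * n + 3) := by
  have hq : (2 : ℝ) ≤ (Fintype.card K : ℝ) := q_ge
  have hq0 : (0 : ℝ) < (Fintype.card K : ℝ) := by linarith
  have hq1 : (1 : ℝ) ≤ (Fintype.card K : ℝ) := by linarith
  have hn0 : (0 : ℝ) ≤ n := Nat.cast_nonneg _
  obtain ⟨hk1, hk2⟩ := abs_le.1 hk
  have hkk' : (k : ℝ) = ρ + k₂ := by exact_mod_cast hkk
  have hρ'' : 200 * (ρ : ℝ) ≤ n := by exact_mod_cast hρ'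
  have hθn : θ * n ≤ n / 1000 := by nlinarith
  have hδn : 16 * (θ * n) ≤ ρ := by
    have := mul_le_mul_of_nonneg_right hδ hn0
    linarith
  have hθn0 : 0 ≤ θ * n := by positivity
  have hk3 : 3 * k₂ ≤ n := by
    have : 3 * (k₂ : ℝ) ≤ n := by linarith
    exact_mod_cast this
  have hk32 : 32 * n ≤ 100 * k₂ := by
    have : 32 * (n : ℝ) ≤ 100 * k₂ := by linarith
    exact_mod_cast this
  have hk21 : 2 * k₂ + 1 ≤ n := by omega
  by_cases h : 25 * (max u (k₂ + 1 - u) - min u (k₂ + 1 - u)) < k₂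
  · have h1 : ∀ P ∈ Irn K ρ, |Bs F G n k₂ u S P T| ≤
        (Fintype.card K : ℝ) ^ ((nu n : ℝ) - 6 * θ * n + 3 - ρ) := by
      intro P hP
      obtain ⟨hPm, hPd, hPi⟩ := mem_Irn.1 hP
      refine abs_le_of_sq_le_sq ?_ (Real.rpow_nonneg hq0.le _)
      have hb := bal hbox hmuf hbil hLB hn hk21 hk3 hu S T hPm hPi (by omega) (by omega)
      rw [hPd] at hb
      exact hb.trans (num_bal hq hθ0 hθ hδ hk hkk hρ hρ' (nu_ge n) hk3 (by omega)
        (max_floor hu h))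
    refine (Finset.sum_le_sum h1).trans ?_
    rw [Finset.sum_const, nsmul_eq_mul]
    have h2 := card_irn_le (K := K) hρ0
    calc ((Irn K ρ).card : ℝ) * (Fintype.card K : ℝ) ^ ((nu n : ℝ) - 6 * θ * n + 3 - ρ) ≤
        (Fintype.card K : ℝ) ^ ρ * (Fintype.card K : ℝ) ^ ((nu n : ℝ) - 6 * θ * n + 3 - ρ) :=
          mul_le_mul_of_nonneg_right h2 (Real.rpow_nonneg hq0.le _)
      _ = (Fintype.card K : ℝ) ^ ((nu n : ℝ) - 6 * θ * n + 3) := by
          rw [pow_rp hq, ← Real.rpow_add hq0]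
          congr 1
          ring
      _ ≤ (Fintype.card K : ℝ) ^ ((nu n : ℝ) - 4 * θ * n + 3) :=
          Real.rpow_le_rpow_of_exponent_le hq1 (by linarith)
      _ ≤ _ := le_mul_of_one_le_left (Real.rpow_nonneg hq0.le _) (by linarith)
  · have h1 := num_unb hq hθ0 hθ hk hkk hρ' (not_lt.1 h)
      (unb_bound hbox hunb hLB hn hk21 hu ρ S T)
    refine h1.trans ?_
    have h2 : (Fintype.card K : ℝ) ^ ((nu n : ℝ) - 4 * θ * n + 2) ≤
        (Fintype.card K : ℝ) ^ ((nu n : ℝ) - 4 * θ * n + 3) :=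
      Real.rpow_le_rpow_of_exponent_le hq1 (by linarith)
    exact mul_le_mul (by linarith) h2 (Real.rpow_nonneg hq0.le _) (by linarith)

/-- splitting according to the prime factors in `S` -/
theorem split (k : ℕ) (S : Finset K[X]) (φ : K[X] → ℝ) :
    ∑ M ∈ (Mn K k).filter (fun M => Squarefree M ∧ ∃ P ∈ S, P ∣ M), φ M =
      ∑ P ∈ S, ∑ M ∈ (Mn K k).filter (fun M => Squarefree M ∧ P ∣ M),
        (1 / (om S M : ℝ)) * φ M := by
  have h1 : ∀ P ∈ S, ∑ M ∈ (Mn K k).filter (fun M => Squarefree M ∧ P ∣ M),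
      (1 / (om S M : ℝ)) * φ M = ∑ M ∈ (Mn K k).filter (fun M => Squarefree M),
        if P ∣ M then (1 / (om S M : ℝ)) * φ M else 0 := by
    intro P _
    rw [← Finset.sum_filter, Finset.filter_filter]
  rw [Finset.sum_congr rfl h1, Finset.sum_comm, ← Finset.filter_filter, Finset.sum_filter]
  refine Finset.sum_congr rfl fun M hM => ?_
  rw [← Finset.sum_filter, Finset.sum_const, nsmul_eq_mul]
  by_cases h : ∃ P ∈ S, P ∣ M
  · rw [if_pos h]
    have h2 : 0 < om S M := by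
      obtain ⟨P, hP, hPM⟩ := h
      exact Finset.card_pos.2 ⟨P, Finset.mem_filter.2 ⟨hP, hPM⟩⟩
    have h3 : (0 : ℝ) < (om S M : ℝ) := by exact_mod_cast h2
    unfold om at h3 ⊢
    field_simp
  · rw [if_neg h]
    have h2 : S.filter (fun P => P ∣ M) = ∅ := by
      rw [Finset.filter_eq_empty_iff]
      intro P hP hPM
      exact h ⟨P, hP, hPM⟩
    rw [h2, Finset.card_empty, Nat.cast_zero, zero_mul]

theorem sum_PP (r₀ r₁ : ℕ) (f : K[X] → ℝ) :
    ∑ P ∈ PP K r₀ r₁, f P = ∑ ρ ∈ Finset.Icc r₀ r₁, ∑ P ∈ Irn K ρ, f P := by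
  unfold PP
  rw [Finset.sum_biUnion]
  intro x _ y _ hxy
  rw [Function.onFun, Finset.disjoint_left]
  intro P h1 h2
  exact hxy ((mem_Irn.1 h1).2.1.symm.trans (mem_Irn.1 h2).2.1)

theorem mem_PP {r₀ r₁ : ℕ} {P : K[X]} (h : P ∈ PP K r₀ r₁) : P.Monic ∧ Irreducible P := by
  unfold PP at h
  rw [Finset.mem_biUnion] at h
  obtain ⟨r, -, h⟩ := h
  rw [mem_Irn] at h
  exact ⟨h.1, h.2.2⟩

theorem mem_PP' {r₀ r₁ ρ : ℕ} {P : K[X]} (hρ : ρ ∈ Finset.Icc r₀ r₁) (h : P ∈ Irn K ρ) :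
    P ∈ PP K r₀ r₁ := Finset.mem_biUnion.2 ⟨ρ, hρ, h⟩

theorem eventually (q θ : ℝ) (hq : 2 ≤ q) (hθ : 0 < θ) :
    ∃ n₀ : ℕ, ∀ n : ℕ, n₀ ≤ n → ((n : ℝ) + 2) ^ 4 * q ^ (3 : ℝ) ≤ q ^ (2 * θ * n) := by
  have hq0 : (0 : ℝ) < q := by linarith
  have hr : 1 < q ^ (2 * θ) := Real.one_lt_rpow (by linarith) (by positivity)
  have h1 := tendsto_pow_const_div_const_pow_of_one_lt 4 hr
  have hc : (0 : ℝ) < 1 / (81 * q ^ (3 : ℝ)) := by positivity
  have h2 := (h1.eventually (gt_mem_nhds hc))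
  obtain ⟨n₀, h3⟩ := Filter.eventually_atTop.1 h2
  refine ⟨max n₀ 1, fun n hn => ?_⟩
  have h4 := h3 n ((le_max_left _ _).trans hn)
  have hn1 : 1 ≤ n := (le_max_right _ _).trans hn
  have hn1' : (1 : ℝ) ≤ n := by exact_mod_cast hn1
  have hrn : 0 < (q ^ (2 * θ)) ^ n := by positivity
  rw [div_lt_div_iff₀ hrn (by positivity), one_mul] at h4
  have h5 : ((n : ℝ) + 2) ^ 4 ≤ 81 * (n : ℝ) ^ 4 := by
    calc ((n : ℝ) + 2) ^ 4 ≤ (3 * (n : ℝ)) ^ 4 := pow_le_pow_left₀ (by positivity) (by linarith) 4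
      _ = _ := by ring
  have h6 : q ^ (2 * θ * n) = (q ^ (2 * θ)) ^ n := by
    rw [← Real.rpow_natCast, ← Real.rpow_mul hq0.le]
  rw [h6]
  calc ((n : ℝ) + 2) ^ 4 * q ^ (3 : ℝ) ≤ 81 * (n : ℝ) ^ 4 * q ^ (3 : ℝ) :=
        mul_le_mul_of_nonneg_right h5 (by positivity)
    _ = (n : ℝ) ^ 4 * (81 * q ^ (3 : ℝ)) := by ring
    _ ≤ _ := h4.le

end final

end GoodL

open GoodL in
/-- **GOOD.** -/
theorem good (hlat : S_lat) (hbox : S_box) (hmuf : S_muf) (hbil : S_bil) (hunb : S_unb) :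
    S_good := by
  intro K _ _ _ A C δ hδ
  obtain ⟨F, G, hLB⟩ := hlat K
  have hq : (2 : ℝ) ≤ (Fintype.card K : ℝ) := q_ge
  have hq0 : (0 : ℝ) < (Fintype.card K : ℝ) := by linarith
  have hq1 : (1 : ℝ) ≤ (Fintype.card K : ℝ) := by linarith
  set θ : ℝ := min (δ / 16) (1 / 1000) with hθdef
  have hθ0 : 0 < θ := by
    rw [hθdef]
    exact lt_min (by positivity) (by norm_num)
  have hθ : θ ≤ 1 / 1000 := min_le_right _ _
  have hδθ : 16 * θ ≤ δ := by
    have := min_le_left (δ / 16) (1 / 1000 : ℝ)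
    rw [← hθdef] at this
    linarith
  obtain ⟨n₀, hn₀⟩ := eventually (Fintype.card K : ℝ) θ hq hθ0
  refine ⟨θ, hθ0, max n₀ 3, ?_⟩
  intro n k z r₀ r₁ w hn hn3 hw hAz hk hr₀ hr hr₁ hz
  have hn30 : 3 ≤ n := (le_max_right _ _).trans hn
  have hnn : n₀ ≤ n := (le_max_left _ _).trans hn
  have hn0 : (0 : ℝ) ≤ n := Nat.cast_nonneg _
  have hθn : θ * n ≤ n / 1000 := by nlinarith
  obtain ⟨hk1, hk2⟩ := abs_le.1 hk
  have hr₁' : 200 * (r₁ : ℝ) ≤ n := by exact_mod_cast hr₁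
  have hkn : k ≤ n := by
    have : (k : ℝ) ≤ n := by linarith
    exact_mod_cast this
  have hr₁k : r₁ ≤ k := by
    have : (r₁ : ℝ) ≤ k := by linarith
    exact_mod_cast this
  have hAz' : ((A * z : ℕ) : ℝ) ≤ n := by linarith
  have hr₀0 : 0 < r₀ := by omega
  set W : ℝ := ((n : ℝ) + 1) * (Fintype.card K : ℝ) ^ ((nu n : ℝ) - 4 * θ * n + 3) with hW
  have hW0 : 0 ≤ W := mul_nonneg (by linarith) (Real.rpow_nonneg hq0.le _)
  rw [split k (PP K r₀ r₁) (fun M =>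
    ∑ D ∈ (Mn K (n - k)).filter (fun D => derivative (derivative (M * D)) = 0),
      (mob D : ℝ) * bw z w (M * D)), sum_PP]
  refine (Finset.abs_sum_le_sum_abs _ _).trans ?_
  have hcardT := card_TT (K := K) z (A * z)
  have hone : ∀ ρ ∈ Finset.Icc r₀ r₁, |∑ P ∈ Irn K ρ,
      ∑ M ∈ (Mn K k).filter (fun M => Squarefree M ∧ P ∣ M), (1 / (om (PP K r₀ r₁) M : ℝ)) *
        ∑ D ∈ (Mn K (n - k)).filter (fun D => derivative (derivative (M * D)) = 0),
          (mob D : ℝ) * bw z w (M * D)| ≤ ((TT K z (A * z)).card : ℝ) * (((n : ℝ) + 2) * W) := by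
    intro ρ hρ
    obtain ⟨hρ1, hρ2⟩ := Finset.mem_Icc.1 hρ
    obtain ⟨k₂, hkk⟩ : ∃ k₂, k = ρ + k₂ := ⟨k - ρ, by omega⟩
    have hk₂ : k - ρ = k₂ := by omega
    refine (Finset.abs_sum_le_sum_abs _ _).trans ?_
    have h1 : ∀ P ∈ Irn K ρ, |∑ M ∈ (Mn K k).filter (fun M => Squarefree M ∧ P ∣ M),
        (1 / (om (PP K r₀ r₁) M : ℝ)) *
        ∑ D ∈ (Mn K (n - k)).filter (fun D => derivative (derivative (M * D)) = 0),
          (mob D : ℝ) * bw z w (M * D)| ≤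
        ∑ T ∈ TT K z (A * z), ∑ u ∈ Finset.range (k₂ + 2),
          |Bs F G n k₂ u (PP K r₀ r₁) P T| := by
      intro P hP
      have hPd := (mem_Irn.1 hP).2.1
      have h2 := one_prime hLB hw hkn (S := PP K r₀ r₁) (fun P hP => mem_PP hP)
        (mem_PP' hρ hP) (by omega)
      rw [hPd, hk₂] at h2
      exact h2
    refine (Finset.sum_le_sum h1).trans ?_
    rw [Finset.sum_comm]
    have h3 : ∀ T ∈ TT K z (A * z), ∑ P ∈ Irn K ρ, ∑ u ∈ Finset.range (k₂ + 2),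
        |Bs F G n k₂ u (PP K r₀ r₁) P T| ≤ ((n : ℝ) + 2) * W := by
      intro T _
      rw [Finset.sum_comm]
      have h4 : ∀ u ∈ Finset.range (k₂ + 2), ∑ P ∈ Irn K ρ,
          |Bs F G n k₂ u (PP K r₀ r₁) P T| ≤ W := by
        intro u hu
        rw [Finset.mem_range] at hu
        refine per_u hbox hmuf hbil hunb hLB hn3 hn30 hθ0 hθ hδθ hk hkk (by omega) ?_ (by omega)
          (by omega) _ T
        refine hr₀.trans ?_
        exact_mod_cast hρ1
      refine (Finset.sum_le_sum h4).trans ?_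
      rw [Finset.sum_const, nsmul_eq_mul, Finset.card_range]
      refine mul_le_mul_of_nonneg_right ?_ hW0
      have : k₂ + 2 ≤ n + 2 := by omega
      exact_mod_cast this
    refine (Finset.sum_le_sum h3).trans ?_
    rw [Finset.sum_const, nsmul_eq_mul]
  refine (Finset.sum_le_sum hone).trans ?_
  rw [Finset.sum_const, nsmul_eq_mul, Nat.card_Icc]
  have hc1 : ((r₁ + 1 - r₀ : ℕ) : ℝ) ≤ (n : ℝ) + 2 := by
    have : r₁ + 1 - r₀ ≤ n + 2 := by omega
    exact_mod_cast this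
  have hc2 : ((TT K z (A * z)).card : ℝ) ≤ ((n : ℝ) + 2) * (Fintype.card K : ℝ) ^ (θ * n) := by
    refine hcardT.trans (mul_le_mul (by linarith) ?_ (by positivity) (by linarith))
    rw [pow_rp hq]
    exact Real.rpow_le_rpow_of_exponent_le hq1 hAz
  have hW1 : W ≤ ((n : ℝ) + 2) * (Fintype.card K : ℝ) ^ ((nu n : ℝ) - 4 * θ * n + 3) := by
    rw [hW]
    exact mul_le_mul_of_nonneg_right (by linarith) (Real.rpow_nonneg hq0.le _)
  have hn2 : (0 : ℝ) ≤ (n : ℝ) + 2 := by linarith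
  calc ((r₁ + 1 - r₀ : ℕ) : ℝ) * (((TT K z (A * z)).card : ℝ) * (((n : ℝ) + 2) * W)) ≤
      ((n : ℝ) + 2) * ((((n : ℝ) + 2) * (Fintype.card K : ℝ) ^ (θ * n)) * (((n : ℝ) + 2) *
        (((n : ℝ) + 2) * (Fintype.card K : ℝ) ^ ((nu n : ℝ) - 4 * θ * n + 3)))) := by
        refine mul_le_mul hc1 (mul_le_mul hc2 (mul_le_mul_of_nonneg_left hW1 hn2)
          (mul_nonneg hn2 hW0) (by positivity)) (by positivity) hn2
    _ = ((n : ℝ) + 2) ^ 4 * (Fintype.card K : ℝ) ^ (3 : ℝ) *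
        ((Fintype.card K : ℝ) ^ ((nu n : ℝ) - 3 * θ * n)) := by
        have e : (Fintype.card K : ℝ) ^ (3 : ℝ) * (Fintype.card K : ℝ) ^ ((nu n : ℝ) - 3 * θ * n) =
            (Fintype.card K : ℝ) ^ (θ * n) *
              (Fintype.card K : ℝ) ^ ((nu n : ℝ) - 4 * θ * n + 3) := by
          rw [← Real.rpow_add hq0, ← Real.rpow_add hq0]
          congr 1
          ring
        rw [mul_assoc (((n : ℝ) + 2) ^ 4), e]
        ring
    _ ≤ (Fintype.card K : ℝ) ^ (2 * θ * n) * (Fintype.card K : ℝ) ^ ((nu n : ℝ) - 3 * θ * n) :=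
        mul_le_mul_of_nonneg_right (hn₀ n hnn) (Real.rpow_nonneg hq0.le _)
    _ = _ := by
        rw [← Real.rpow_add hq0]
        congr 1
        ring

end

end Pool.Agent.H6.W
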