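import Pool.Agent.H6.W.Stm

set_option autoImplicit false
set_option linter.unusedSectionVars false

namespace Pool.Agent.H6.W

open Polynomial
open scoped Classical
open Pool.Agent.H694.Typ (Mn mem_Mn card_Mn)
open Pool.Agent.H290.CT (V mem_V card_V)

namespace Irr

section basic

variable {K : Type} [Field K] [Fintype K]

theorem q_one : (1 : ℝ) ≤ (Fintype.card K : ℝ) := by
  exact_mod_cast Fintype.card_pos

/-- the multiples in terms of the cofactors -/
theorem cnt_eq (n d : ℕ) (Q : K[X]) (hQ : Q ∈ Mn K d) (hd : d ≤ n) :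
    cnt K n Q =
      ((Mn K (n - d)).filter (fun D => derivative (derivative (Q * D)) = 0)).card := by
  rw [mem_Mn] at hQ
  unfold cnt WA
  symm
  refine Finset.card_bij (fun D _ => Q * D) ?_ ?_ ?_
  · intro D hD
    rw [Finset.mem_filter, mem_Mn] at hD
    rw [Finset.mem_filter, Finset.mem_filter, mem_Mn]
    refine ⟨⟨⟨hQ.1.mul hD.1.1, ?_⟩, hD.2⟩, dvd_mul_right _ _⟩
    rw [hQ.1.natDegree_mul hD.1.1, hQ.2, hD.1.2]
    omega
  · intro D _ D' _ h
    exact mul_left_cancel₀ hQ.1.ne_zero h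
  · intro N hN
    rw [Finset.mem_filter, Finset.mem_filter, mem_Mn] at hN
    obtain ⟨⟨⟨h1, h2⟩, h3⟩, D, hD⟩ := hN
    have h4 : D.Monic := by
      rw [hD] at h1
      exact hQ.1.of_mul_monic_left h1
    refine ⟨D, ?_, hD.symm⟩
    rw [Finset.mem_filter, mem_Mn]
    refine ⟨⟨h4, ?_⟩, ?_⟩
    · rw [hD, hQ.1.natDegree_mul h4, hQ.2] at h2
      omega
    · rw [← hD]
      exact h3

theorem deg_le (f g : K[X]) (h : f.natDegree ≠ g.natDegree) :
    g.natDegree ≤ (f + g).natDegree := by
  rcases lt_or_gt_of_ne h with h1 | h1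
  · rw [natDegree_add_eq_right_of_natDegree_lt h1]
  · rw [natDegree_add_eq_left_of_natDegree_lt h1]
    exact h1.le

theorem deg_cube (a F : K[X]) (hF : F.Monic) (ha : a ≠ 0) :
    (a ^ 3 * F).natDegree = 3 * a.natDegree + F.natDegree := by
  rw [natDegree_mul (pow_ne_zero 3 ha) hF.ne_zero, natDegree_pow]

/-- the longer basis element does not occur -/
theorem coeff_zero_of_lt (a b F G : K[X]) (hF : F.Monic) (hG : G.Monic)
    (hFG : F.natDegree % 3 ≠ G.natDegree % 3)
    (h : (a ^ 3 * F + b ^ 3 * G).natDegree < G.natDegree) : b = 0 := by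
  by_contra hb
  have h1 := deg_cube b G hG hb
  by_cases ha : a = 0
  · rw [ha] at h
    simp only [ne_eq, OfNat.ofNat_ne_zero, not_false_eq_true, zero_pow, zero_mul, zero_add] at h
    omega
  · have h2 := deg_cube a F hF ha
    have h3 := deg_le (a ^ 3 * F) (b ^ 3 * G) (by rw [h1, h2]; omega)
    omega

end basic

section char

variable {K : Type} [Field K] [Fintype K] [CharP K 3]

theorem cube_inj (a b : K[X]) (h : a ^ 3 = b ^ 3) : a = b := by
  have h3 : (3 : K[X]) = 0 := by
    have := CharP.cast_eq_zero K[X] 3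
    exact_mod_cast this
  have h1 : (a - b) ^ 3 = 0 := by
    linear_combination h - a * b * (a - b) * h3
  exact sub_eq_zero.1 (pow_eq_zero_iff (by norm_num) |>.1 h1)

theorem lc_cube (a F : K[X]) (hF : F.Monic) (h : (a ^ 3 * F).Monic) : a.Monic := by
  have h3 : (3 : K) = 0 := by
    have := CharP.cast_eq_zero K 3
    exact_mod_cast this
  have h1 : a.leadingCoeff ^ 3 = 1 := by
    have h2 : (a ^ 3 * F).leadingCoeff = 1 := h
    rw [leadingCoeff_mul, hF.leadingCoeff, mul_one, leadingCoeff_pow] at h2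
    exact h2
  have h4 : (a.leadingCoeff - 1) ^ 3 = 0 := by
    linear_combination h1 - a.leadingCoeff * (a.leadingCoeff - 1) * h3
  exact sub_eq_zero.1 (pow_eq_zero_iff (by norm_num) |>.1 h4)

/-- few multiples `a ^ 3 F` of degree `N` -/
theorem few (N : ℕ) (F : K[X]) (hF : F.Monic) (S : Finset K[X])
    (hS : ∀ D ∈ S, D.Monic ∧ D.natDegree = N ∧ ∃ a, D = a ^ 3 * F) :
    S.card ≤ Fintype.card K ^ ((N - F.natDegree) / 3) := by
  have hsub : S ⊆ (Mn K ((N - F.natDegree) / 3)).image (fun a => a ^ 3 * F) := by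
    intro D hD
    obtain ⟨h1, h2, a, rfl⟩ := hS D hD
    have ha := lc_cube a F hF h1
    rw [Finset.mem_image]
    refine ⟨a, ?_, rfl⟩
    rw [mem_Mn]
    refine ⟨ha, ?_⟩
    rw [deg_cube a F hF ha.ne_zero] at h2
    omega
  calc S.card ≤ ((Mn K ((N - F.natDegree) / 3)).image (fun a => a ^ 3 * F)).card :=
        Finset.card_le_card hsub
    _ ≤ (Mn K ((N - F.natDegree) / 3)).card := Finset.card_image_le
    _ = _ := card_Mn _

/-- the bound for one type -/
theorem type_bound (hbox : S_box) (hunb : S_unb) (F G : K[X] → K[X]) (hLB : LB K F G)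
    (n d u v : ℕ) (hn : n % 3 ≠ 2) (hd : d ≤ n) (huv : u + v = d + 1) :
    ∑ Q ∈ Ty K F G d u v,
      |(cnt K n Q : ℝ) - (Fintype.card K : ℝ) ^ ((nu n : ℝ) - d)| ≤
      2 * (Fintype.card K : ℝ) ^ (d + 1) := by
  have hq := q_one (K := K)
  have hq0 : (0 : ℝ) < (Fintype.card K : ℝ) := by linarith
  by_cases hreg : u ≤ n - d ∧ v ≤ n - d
  · -- regular types
    have h0 : ∀ Q ∈ Ty K F G d u v,
        |(cnt K n Q : ℝ) - (Fintype.card K : ℝ) ^ ((nu n : ℝ) - d)| = 0 := by
      intro Q hQ
      obtain ⟨h1, h2⟩ := hbox K F G hLB n d u v Q hQ hn hd hreg.1 hreg.2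
      have h3 := h1 (fun _ => 1)
      simp only [Finset.sum_const, nsmul_eq_mul, mul_one, card_V] at h3
      have hQ' : Q ∈ Mn K d := (Finset.mem_filter.1 hQ).1
      rw [abs_eq_zero, sub_eq_zero, cnt_eq n d Q hQ' hd, h3]
      have h4 : ((nu n : ℝ) - d) = ((bA n d u + bB n d v : ℕ) : ℝ) := by
        rw [← h2]
        push_cast
        ring
      rw [h4, Real.rpow_natCast, pow_add]
      push_cast
      ring
    rw [Finset.sum_eq_zero h0]
    positivity
  · -- irregular types
    obtain ⟨m, hm⟩ : ∃ m, m = (max u v - min u v) / 3 := ⟨_, rfl⟩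
    have hnu : nu n ≤ m + d := by
      unfold nu
      omega
    have hexp : (Fintype.card K : ℝ) ^ ((nu n : ℝ) - d) ≤ (Fintype.card K : ℝ) ^ m := by
      rw [← Real.rpow_natCast]
      apply Real.rpow_le_rpow_of_exponent_le hq
      have : (nu n : ℝ) ≤ m + d := by exact_mod_cast hnu
      linarith
    have hcnt : ∀ Q ∈ Ty K F G d u v, (cnt K n Q : ℝ) ≤ (Fintype.card K : ℝ) ^ m := by
      intro Q hQ
      have hQ' := Finset.mem_filter.1 hQ
      have hQm := mem_Mn.1 hQ'.1
      obtain ⟨hF, hG, hFd, hGd, _, _, _, _, hgen⟩ := hLB Q hQm.1 hQ'.2.1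
      have hmod : (F Q).natDegree % 3 ≠ (G Q).natDegree % 3 := by omega
      have hu : (F Q).natDegree = u := hQ'.2.2.1
      have hv : (G Q).natDegree = v := hQ'.2.2.2
      have key : cnt K n Q ≤ Fintype.card K ^ m := by
        rw [cnt_eq n d Q hQ'.1 hd]
        by_cases hvN : n - d < v
        · refine (few (n - d) (F Q) hF _ ?_).trans ?_
          · intro D hD
            rw [Finset.mem_filter, mem_Mn] at hD
            refine ⟨hD.1.1, hD.1.2, ?_⟩
            obtain ⟨a, b, hab⟩ := hgen D hD.2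
            have hab' : D = a ^ 3 * F Q + b ^ 3 * G Q := hab
            have hb : b = 0 := by
              apply coeff_zero_of_lt a b (F Q) (G Q) hF hG hmod
              rw [← hab', hD.1.2, hv]
              exact hvN
            refine ⟨a, ?_⟩
            rw [hab', hb]
            ring
          · apply Nat.pow_le_pow_right Fintype.card_pos
            rw [hu, hm]
            apply Nat.div_le_div_right
            omega
        · have huN : n - d < u := by omega
          refine (few (n - d) (G Q) hG _ ?_).trans ?_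
          · intro D hD
            rw [Finset.mem_filter, mem_Mn] at hD
            refine ⟨hD.1.1, hD.1.2, ?_⟩
            obtain ⟨a, b, hab⟩ := hgen D hD.2
            have hab' : D = b ^ 3 * G Q + a ^ 3 * F Q := by
              rw [hab, dd, add_comm]
            have ha : a = 0 := by
              apply coeff_zero_of_lt b a (G Q) (F Q) hG hF hmod.symm
              rw [← hab', hD.1.2, hu]
              exact huN
            refine ⟨b, ?_⟩
            rw [hab', ha]
            ring
          · apply Nat.pow_le_pow_right Fintype.card_pos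
            rw [hv, hm]
            apply Nat.div_le_div_right
            omega
      exact_mod_cast key
    have hterm : ∀ Q ∈ Ty K F G d u v,
        |(cnt K n Q : ℝ) - (Fintype.card K : ℝ) ^ ((nu n : ℝ) - d)| ≤
          (Fintype.card K : ℝ) ^ m := by
      intro Q hQ
      have h1 := hcnt Q hQ
      have h2 : (0 : ℝ) ≤ (cnt K n Q : ℝ) := Nat.cast_nonneg _
      have h3 : (0 : ℝ) ≤ (Fintype.card K : ℝ) ^ ((nu n : ℝ) - d) :=
        Real.rpow_nonneg hq0.le _
      rw [abs_le]
      constructor <;> linarith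
    have hU := hunb K F G hLB d u v
    rw [← hm] at hU
    calc ∑ Q ∈ Ty K F G d u v,
          |(cnt K n Q : ℝ) - (Fintype.card K : ℝ) ^ ((nu n : ℝ) - d)|
        ≤ ∑ Q ∈ Ty K F G d u v, (Fintype.card K : ℝ) ^ m := Finset.sum_le_sum hterm
      _ = ((Ty K F G d u v).card : ℝ) * (Fintype.card K : ℝ) ^ m := by
          rw [Finset.sum_const, nsmul_eq_mul]
      _ ≤ (Fintype.card K : ℝ) ^ (d + 1) := by exact_mod_cast hU
      _ ≤ 2 * (Fintype.card K : ℝ) ^ (d + 1) := by
          have : (0 : ℝ) ≤ (Fintype.card K : ℝ) ^ (d + 1) := by positivity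
          linarith

end char

end Irr

theorem irr (hlat : S_lat) (hbox : S_box) (hunb : S_unb) : S_irr := by
  intro K _ _ _ n d hn hd
  obtain ⟨F, G, hLB⟩ := hlat K
  have hq := Irr.q_one (K := K)
  have hmaps : ∀ Q ∈ (Mn K d).filter (fun Q => Squarefree Q),
      (F Q).natDegree ∈ Finset.range (d + 2) := by
    intro Q hQ
    rw [Finset.mem_filter, mem_Mn] at hQ
    obtain ⟨_, _, _, _, h1, _⟩ := hLB Q hQ.1.1 hQ.2
    rw [Finset.mem_range]
    omega
  rw [← Finset.sum_fiberwise_of_maps_to hmaps]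
  have hfib : ∀ u ∈ Finset.range (d + 2),
      ∑ Q ∈ ((Mn K d).filter (fun Q => Squarefree Q)).filter (fun Q => (F Q).natDegree = u),
        |(cnt K n Q : ℝ) - (Fintype.card K : ℝ) ^ ((nu n : ℝ) - d)| ≤
      2 * (Fintype.card K : ℝ) ^ (d + 1) := by
    intro u hu
    rw [Finset.mem_range] at hu
    have hset : ((Mn K d).filter (fun Q => Squarefree Q)).filter
        (fun Q => (F Q).natDegree = u) = Ty K F G d u (d + 1 - u) := by
      ext Q
      unfold Ty
      rw [Finset.mem_filter, Finset.mem_filter, Finset.mem_filter]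
      constructor
      · rintro ⟨⟨h1, h2⟩, h3⟩
        obtain ⟨_, _, _, _, h4, _⟩ := hLB Q (mem_Mn.1 h1).1 h2
        rw [(mem_Mn.1 h1).2] at h4
        exact ⟨h1, h2, h3, by omega⟩
      · rintro ⟨h1, h2, h3, _⟩
        exact ⟨⟨h1, h2⟩, h3⟩
    rw [hset]
    exact Irr.type_bound hbox hunb F G hLB n d u (d + 1 - u) hn hd (by omega)
  refine (Finset.sum_le_sum hfib).trans ?_
  rw [Finset.sum_const, Finset.card_range, nsmul_eq_mul]
  have h1 : (Fintype.card K : ℝ) ^ (d + 1) ≤ (Fintype.card K : ℝ) ^ (d + 4) :=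
    pow_le_pow_right₀ hq (by omega)
  have h2 : (0 : ℝ) ≤ (Fintype.card K : ℝ) ^ (d + 1) := by positivity
  have h3 : (d : ℝ) ≤ n := by exact_mod_cast hd
  have h4 : (0 : ℝ) ≤ (n : ℝ) := Nat.cast_nonneg _
  calc ((d + 2 : ℕ) : ℝ) * (2 * (Fintype.card K : ℝ) ^ (d + 1))
      ≤ (16 * ((n : ℝ) + 1)) * (Fintype.card K : ℝ) ^ (d + 1) := by
        push_cast
        nlinarith
    _ ≤ 16 * ((n : ℝ) + 1) * (Fintype.card K : ℝ) ^ (d + 4) := by
        gcongr

end Pool.Agent.H6.W

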