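import Pool.Agent.H6.W.Stm

/-!
# Wilson primes (helper6): KER, the kernels and an elementary counting bound
-/

set_option autoImplicit false

namespace Pool.Agent.H6.W

open Polynomial
open scoped Classical
open Pool.Agent.H694.Typ (Mn mem_Mn card_Mn)
open Pool.Agent.H290.CT (V mem_V card_V)

namespace KerAux

set_option linter.unusedSectionVars false

section alg

variable {K : Type} [Field K] [CharP K 3]

theorem three0 : (3 : K[X]) = 0 := by
  have h := CharP.cast_eq_zero K[X] 3
  exact_mod_cast h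

theorem der_cube (a : K[X]) : derivative (a ^ 3) = 0 := by
  have h : derivative (a ^ 3) = 3 * (a ^ 2 * derivative a) := by
    rw [show a ^ 3 = a * (a * a) by ring, derivative_mul, derivative_mul]
    ring
  rw [h, three0, zero_mul]

theorem cube_sub (a b : K[X]) : (a - b) ^ 3 = a ^ 3 - b ^ 3 := by
  linear_combination (-(a ^ 2 * b) + a * b ^ 2) * three0 (K := K)

theorem dd_der {F G : K[X] → K[X]} {M : K[X]} (hF : derivative (derivative (M * F M)) = 0)
    (hG : derivative (derivative (M * G M)) = 0) (a b : K[X]) :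
    derivative (derivative (M * dd F G M a b)) = 0 := by
  have h : M * dd F G M a b = a ^ 3 * (M * F M) + b ^ 3 * (M * G M) := by
    unfold dd; ring
  rw [h, derivative_add, derivative_mul (f := a ^ 3), derivative_mul (f := b ^ 3), der_cube,
    der_cube, zero_mul, zero_mul, zero_add, zero_add, derivative_add, derivative_mul (f := a ^ 3),
    derivative_mul (f := b ^ 3), der_cube, der_cube, hF, hG]
  ring

theorem dd_sub (F G : K[X] → K[X]) (M a b c d : K[X]) :
    dd F G M a b - dd F G M c d = dd F G M (a - c) (b - d) := by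
  unfold dd
  rw [cube_sub, cube_sub]
  ring

theorem dd_zero {F G : K[X] → K[X]} {M a b : K[X]} (hF : (F M).Monic) (hG : (G M).Monic)
    (hd : (F M).natDegree % 3 ≠ (G M).natDegree % 3) (h : dd F G M a b = 0) : a = 0 ∧ b = 0 := by
  unfold dd at h
  have h1 : a ^ 3 * F M = -(b ^ 3 * G M) := by linear_combination h
  by_cases ha : a = 0
  · refine ⟨ha, ?_⟩
    rw [ha, zero_pow (by norm_num), zero_mul, zero_add] at h
    rcases mul_eq_zero.1 h with h2 | h2
    · exact pow_eq_zero_iff (by norm_num) |>.1 h2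
    · exact absurd h2 hG.ne_zero
  · exfalso
    have hb : b ≠ 0 := by
      rintro rfl
      rw [zero_pow (by norm_num), zero_mul, neg_zero] at h1
      rcases mul_eq_zero.1 h1 with h2 | h2
      · exact ha (pow_eq_zero_iff (by norm_num) |>.1 h2)
      · exact hF.ne_zero h2
    have h2 := congrArg natDegree h1
    rw [natDegree_neg, natDegree_mul (pow_ne_zero _ ha) hF.ne_zero,
      natDegree_mul (pow_ne_zero _ hb) hG.ne_zero, natDegree_pow, natDegree_pow] at h2
    omega

theorem der_zero_deg {P : K[X]} (h : derivative P = 0) (hP : P ≠ 0) : 3 ∣ P.natDegree := by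
  by_cases h0 : P.natDegree = 0
  · rw [h0]; exact dvd_zero 3
  · obtain ⟨n, hn⟩ := Nat.exists_eq_succ_of_ne_zero h0
    have h1 : (derivative P).coeff n = 0 := by rw [h, coeff_zero]
    rw [coeff_derivative] at h1
    have h2 : P.coeff (n + 1) ≠ 0 := by
      rw [← Nat.succ_eq_add_one, ← hn]
      exact leadingCoeff_ne_zero.2 hP
    have h3 : ((n : K) + 1) = 0 := (mul_eq_zero.1 h1).resolve_left h2
    have h4 : ((P.natDegree : ℕ) : K) = 0 := by
      rw [hn]; push_cast; exact h3
    exact (CharP.cast_eq_zero_iff K 3 _).1 h4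

/-- the derivative of `E G t²` -/
theorem der_EGt {E G t : K[X]}
    (h : E * (t * derivative G - derivative t * G) + derivative E * (t * G) = 0) :
    derivative (E * (G * t ^ 2)) = 0 := by
  have h1 : derivative (E * (G * t ^ 2)) = derivative E * (G * t ^ 2) +
      E * (derivative G * t ^ 2 + G * (2 * t * derivative t)) := by
    rw [derivative_mul, derivative_mul, show t ^ 2 = t * t by ring, derivative_mul]
    ring
  rw [h1]
  linear_combination t * h + (E * G * t * derivative t) * three0 (K := K)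

/-- the equation for `M` -/
theorem eq_M {M t G z : K[X]} (hM : M ≠ 0)
    (h : M ^ 2 * t * derivative G - derivative (M ^ 2 * t) * G = z * M) :
    M * (t * derivative G - derivative t * G) + derivative M * (t * G) = z := by
  have h1 : derivative (M ^ 2 * t) = 2 * M * derivative M * t + M ^ 2 * derivative t := by
    rw [derivative_mul, show M ^ 2 = M * M by ring, derivative_mul]
    ring
  rw [h1] at h
  apply mul_left_cancel₀ hM
  linear_combination h + (M * derivative M * t * G) * three0 (K := K)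

end alg

section count

variable {K : Type} [Field K] [Fintype K] [CharP K 3]

/-- part (1) -/
theorem dvd_sq {M D : K[X]} (hsq : Squarefree M)
    (h : derivative (derivative (M * D)) = 0) (hMD : M ∣ D) : M ^ 2 ∣ D := by
  obtain ⟨E, rfl⟩ := hMD
  have hsep : M.Separable := (PerfectField.separable_iff_squarefree).2 hsq
  have hcop : IsCoprime M (derivative M) := hsep
  have h1 : derivative (derivative (M * (M * E))) = 2 * (derivative M) ^ 2 * E +
      M * (4 * derivative M * derivative E + 2 * derivative (derivative M) * E +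
        M * derivative (derivative E)) := by
    simp only [derivative_mul, derivative_add]
    ring
  rw [h1] at h
  have h2 : (derivative M) ^ 2 * E = M * (4 * derivative M * derivative E +
      2 * derivative (derivative M) * E + M * derivative (derivative E)) := by
    linear_combination ((derivative M) ^ 2 * E) * three0 (K := K) - h
  have h3 : M ∣ (derivative M) ^ 2 * E := ⟨_, h2⟩
  have h4 : M ∣ E := (hcop.pow_right (n := 2)).dvd_of_dvd_mul_left h3
  obtain ⟨E', rfl⟩ := h4
  exact ⟨E', by ring⟩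

theorem cube_deg {α u n : ℕ} {x A : K[X]} (hx : x ∈ V K α) (hA : A.Monic) (hu : A.natDegree = u)
    (h : 3 * α + u ≤ n + 2) : (x ^ 3 * A).degree < n := by
  by_cases h0 : x = 0
  · rw [h0, zero_pow (by norm_num), zero_mul, degree_zero]
    exact WithBot.bot_lt_coe n
  · rw [mem_V, ← natDegree_lt_iff_degree_lt h0] at hx
    rw [← natDegree_lt_iff_degree_lt (mul_ne_zero (pow_ne_zero _ h0) hA.ne_zero),
      natDegree_mul (pow_ne_zero _ h0) hA.ne_zero, natDegree_pow, hu]
    omega

theorem dd_deg {F G : K[X] → K[X]} {M x y : K[X]} {α β u v n : ℕ} (hx : x ∈ V K α)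
    (hy : y ∈ V K β) (hF : (F M).Monic) (hG : (G M).Monic) (hu : (F M).natDegree = u)
    (hv : (G M).natDegree = v) (h1 : 3 * α + u ≤ n + 2) (h2 : 3 * β + v ≤ n + 2) :
    (dd F G M x y).degree < n :=
  lt_of_le_of_lt (degree_add_le _ _) (max_lt (cube_deg hx hF hu h1) (cube_deg hy hG hv h2))

theorem quot_deg {M t : K[X]} {k L : ℕ} (hM : M.Monic) (hk : M.natDegree = k)
    (h : (M ^ 2 * t).degree < ((2 * k + L : ℕ) : WithBot ℕ)) : t ∈ V K L := by
  by_cases h0 : t = 0
  · rw [h0, mem_V, degree_zero]; exact WithBot.bot_lt_coe L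
  · rw [mem_V, ← natDegree_lt_iff_degree_lt h0]
    rw [← natDegree_lt_iff_degree_lt (mul_ne_zero (pow_ne_zero _ hM.ne_zero) h0),
      natDegree_mul (pow_ne_zero _ hM.ne_zero) h0, natDegree_pow, hk] at h
    omega

/-- the counting bound -/
theorem gen_bound (A t : K[X] → K[X]) (z : K[X]) (S : Finset K[X]) (k v L : ℕ)
    (h1 : ∀ M ∈ S, M.Monic ∧ M.natDegree = k) (h2 : ∀ M ∈ S, (A M).Monic ∧ (A M).natDegree = v)
    (h3 : ∀ M ∈ S, t M ≠ 0 ∧ t M ∈ V K L)
    (h4 : ∀ M ∈ S, M * (t M * derivative (A M) - derivative (t M) * A M) +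
      derivative M * (t M * A M) = z) :
    S.card ≤ Fintype.card K ^ (v + L + (k / 3 + 1)) := by
  let r : K[X] → ℕ := fun s => (2 * v + s.natDegree) % 3
  let f : K[X] → K[X] × K[X] × (Fin (k / 3 + 1) → K) := fun M =>
    (A M, t M, fun j => M.coeff (3 * (j : ℕ) + r (t M)))
  have hcard : (Mn K v ×ˢ V K L ×ˢ (Finset.univ : Finset (Fin (k / 3 + 1) → K))).card =
      Fintype.card K ^ (v + L + (k / 3 + 1)) := by
    rw [Finset.card_product, Finset.card_product, card_Mn, card_V, Finset.card_univ,
      Fintype.card_fun, Fintype.card_fin]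
    ring
  rw [← hcard]
  refine Finset.card_le_card_of_injOn f ?_ ?_
  · intro M hM
    rw [Finset.mem_coe] at hM
    simp only [f, Finset.coe_product, Set.mem_prod, Finset.mem_coe, Finset.mem_univ, and_true]
    exact ⟨mem_Mn.2 (h2 M hM), (h3 M hM).2⟩
  · intro M hM N hN hMN
    rw [Finset.mem_coe] at hM hN
    simp only [f, Prod.mk.injEq] at hMN
    obtain ⟨e1, e2, e3⟩ := hMN
    by_contra hne
    have hE : M - N ≠ 0 := sub_ne_zero.2 hne
    obtain ⟨hM1, hM2⟩ := h1 M hM
    obtain ⟨hN1, hN2⟩ := h1 N hN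
    have hlt : (M - N).natDegree < k := by
      rw [natDegree_lt_iff_degree_lt hE]
      have h5 : M.degree = (k : WithBot ℕ) := by rw [degree_eq_natDegree hM1.ne_zero, hM2]
      have h6 : N.degree = (k : WithBot ℕ) := by rw [degree_eq_natDegree hN1.ne_zero, hN2]
      rw [← h5]
      exact degree_sub_lt_left (h5.trans h6.symm) hM1.ne_zero
        (by rw [hM1.leadingCoeff, hN1.leadingCoeff])
    have q1 := h4 M hM
    have q2 := h4 N hN
    rw [← e1, ← e2] at q2
    have q3 : (M - N) * (t M * derivative (A M) - derivative (t M) * A M) +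
        derivative (M - N) * (t M * A M) = 0 := by
      rw [derivative_sub]
      linear_combination q1 - q2
    have q4 := der_EGt q3
    have hA0 := (h2 M hM).1.ne_zero
    have ht0 := (h3 M hM).1
    have q5 := der_zero_deg q4 (mul_ne_zero hE (mul_ne_zero hA0 (pow_ne_zero 2 ht0)))
    rw [natDegree_mul hE (mul_ne_zero hA0 (pow_ne_zero 2 ht0)),
      natDegree_mul hA0 (pow_ne_zero 2 ht0), natDegree_pow, (h2 M hM).2] at q5
    have q6 : (M - N).natDegree = 3 * ((M - N).natDegree / 3) + r (t M) := by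
      simp only [r]
      omega
    have hj : (M - N).natDegree / 3 < k / 3 + 1 := by omega
    have q7 := congrFun e3 ⟨(M - N).natDegree / 3, hj⟩
    simp only [← e2] at q7
    rw [← q6] at q7
    have q8 : (M - N).coeff (M - N).natDegree = 0 := by
      rw [coeff_sub, q7, sub_self]
    exact leadingCoeff_ne_zero.2 hE q8

end count

end KerAux

open KerAux in
theorem ker : S_ker := by
  intro K _ _ _ F G hLB
  refine ⟨fun M D _ hsq h hMD => dvd_sq hsq h hMD, ?_⟩
  intro k u v α β L h1 h2
  have hTy : ∀ M ∈ Ty K F G k u v, M.Monic ∧ M.natDegree = k ∧ Squarefree M ∧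
      (F M).natDegree = u ∧ (G M).natDegree = v := by
    intro M hM
    unfold Ty at hM
    rw [Finset.mem_filter, mem_Mn] at hM
    exact ⟨hM.1.1, hM.1.2, hM.2⟩
  have hfac : ∀ M ∈ Ty K F G k u v, ∀ x ∈ V K α, ∀ y ∈ V K β, M ∣ dd F G M x y →
      ∃ t ∈ V K L, dd F G M x y = M ^ 2 * t := by
    intro M hM x hx y hy hdvd
    obtain ⟨m1, m2, m3, m4, m5⟩ := hTy M hM
    obtain ⟨b1, b2, b3, b4, b5, b6, b7, b8, b9⟩ := hLB M m1 m3
    obtain ⟨t, ht⟩ := dvd_sq m3 (dd_der b7 b8 x y) hdvd
    have hdeg : (dd F G M x y).degree < ((2 * k + L : ℕ) : WithBot ℕ) :=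
      dd_deg hx hy b1 b2 m4 m5 h1 h2
    refine ⟨t, ?_, ht⟩
    rw [ht] at hdeg
    exact quot_deg m1 m2 hdeg
  have hne : ∀ M ∈ Ty K F G k u v, ∀ x y : K[X], dd F G M x y = 0 → x = 0 ∧ y = 0 := by
    intro M hM x y h
    obtain ⟨m1, m2, m3, m4, m5⟩ := hTy M hM
    obtain ⟨b1, b2, b3, b4, b5, b6, b7, b8, b9⟩ := hLB M m1 m3
    exact dd_zero b1 b2 (by omega) h
  constructor
  · intro M hM
    obtain ⟨m1, m2, m3, m4, m5⟩ := hTy M hM
    rw [← card_V (K := K) L]
    have hex : ∀ e : K[X] × K[X], e ∈ (V K α ×ˢ V K β).filter (fun e => M ∣ dd F G M e.1 e.2) →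
        ∃ t ∈ V K L, dd F G M e.1 e.2 = M ^ 2 * t := by
      intro e he
      rw [Finset.mem_filter, Finset.mem_product] at he
      exact hfac M hM e.1 he.1.1 e.2 he.1.2 he.2
    choose! t ht ht' using hex
    refine Finset.card_le_card_of_injOn t (fun e he => ht e he) ?_
    intro e he e' he' hee
    rw [Finset.mem_coe] at he he'
    have q1 := ht' e he
    have q2 := ht' e' he'
    rw [← hee, ← q1] at q2
    have q3 : dd F G M (e'.1 - e.1) (e'.2 - e.2) = 0 := by
      rw [← dd_sub, q2, sub_self]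
    obtain ⟨q4, q5⟩ := hne M hM _ _ q3
    exact Prod.ext (sub_eq_zero.1 q4).symm (sub_eq_zero.1 q5).symm
  · intro x hx y hy hxy
    have hex : ∀ M : K[X], M ∈ (Ty K F G k u v).filter (fun M => M ∣ dd F G M x y) →
        ∃ t ∈ V K L, dd F G M x y = M ^ 2 * t := by
      intro M hM
      rw [Finset.mem_filter] at hM
      exact hfac M hM.1 x hx y hy hM.2
    choose! t ht ht' using hex
    have ht0 : ∀ M ∈ (Ty K F G k u v).filter (fun M => M ∣ dd F G M x y), t M ≠ 0 := by
      intro M hM h0
      have q1 := ht' M hM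
      rw [h0, mul_zero] at q1
      obtain ⟨q2, q3⟩ := hne M (Finset.mem_filter.1 hM).1 _ _ q1
      rcases hxy with h | h
      · exact h q2
      · exact h q3
    have hM1 : ∀ M ∈ (Ty K F G k u v).filter (fun M => M ∣ dd F G M x y),
        M.Monic ∧ M.natDegree = k := by
      intro M hM
      obtain ⟨m1, m2, m3, m4, m5⟩ := hTy M (Finset.mem_filter.1 hM).1
      exact ⟨m1, m2⟩
    have hq : 1 ≤ Fintype.card K := Fintype.card_pos
    have hG : ((Ty K F G k u v).filter (fun M => M ∣ dd F G M x y)).card ≤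
        Fintype.card K ^ (v + L + (k / 3 + 1)) := by
      refine gen_bound G t (x ^ 3) _ k v L hM1 ?_ (fun M hM => ⟨ht0 M hM, ht M hM⟩) ?_
      · intro M hM
        obtain ⟨m1, m2, m3, m4, m5⟩ := hTy M (Finset.mem_filter.1 hM).1
        obtain ⟨b1, b2, b3, b4, b5, b6, b7, b8, b9⟩ := hLB M m1 m3
        exact ⟨b2, m5⟩
      · intro M hM
        obtain ⟨m1, m2, m3, m4, m5⟩ := hTy M (Finset.mem_filter.1 hM).1
        obtain ⟨b1, b2, b3, b4, b5, b6, b7, b8, b9⟩ := hLB M m1 m3
        refine eq_M m1.ne_zero ?_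
        rw [← ht' M hM]
        unfold dd
        rw [derivative_add, derivative_mul, derivative_mul, der_cube, der_cube]
        linear_combination x ^ 3 * b6
    refine hG.trans (Nat.pow_le_pow_right hq ?_)
    have := le_max_right u v
    omega

end Pool.Agent.H6.W
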