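import Pool.Agent.H6.W.Stm
import Pool.Agent.H6.W.G.BAS1
import Pool.Agent.H6.W.G.BAS2
import Pool.Agent.H6.W.G.SWAP
import Pool.Agent.H6.W.G.PELB
import Pool.Agent.H6.W.G.PELIRR
import Pool.Agent.H6.W.G.FROBSPLIT

/-!
# MUF. The Moebius function on the lattice

All symbols are computed in the algebraic closure `L` of `K`: `S g f` is the value of the product of
`f` over the roots of `g`, to the power `(q - 1) / 2`.
-/

set_option autoImplicit false
set_option linter.unusedSectionVars false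

namespace Pool.Agent.H6.W

open Polynomial
open scoped Classical
open Pool.Agent.H985.Chow (mob)
open Pool.Agent.H694.Typ (Mn PU Irn mem_Mn)
open Pool.Agent.H6.W.G (R hq Om)

namespace Muf

noncomputable section

variable {K : Type} [Field K] [Fintype K]

/-- the symbol -/
def S (g f : K[X]) : AlgebraicClosure K := R g f ^ hq K

/-- the character -/
def ch (c : K) : AlgebraicClosure K := (algebraMap K (AlgebraicClosure K) c) ^ hq K

/-- the sign -/
def e0 (K : Type) [Fintype K] : ℤ := (-1) ^ hq K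

theorem odd_card [CharP K 3] : Odd (Fintype.card K) := by
  have h3 : Fact (Nat.Prime 3) := ⟨Nat.prime_three⟩
  obtain ⟨n, -, hn⟩ := FiniteField.card K 3
  rw [hn]
  exact (by decide : Odd 3).pow

theorem hq_two (ho : Odd (Fintype.card K)) : 2 * hq K = Fintype.card K - 1 := by
  unfold hq
  obtain ⟨k, hk⟩ := ho
  omega

theorem hq_pos (ho : Odd (Fintype.card K)) : 0 < hq K := by
  have h1 := hq_two ho
  have h2 : 1 < Fintype.card K := Fintype.one_lt_card
  omega

theorem S_mulR (g f h : K[X]) : S g (f * h) = S g f * S g h := by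
  rw [S, S, S, Pool.Agent.H6.W.G.NBAS1.t_RmulR K g f h, mul_pow]

theorem S_mulL {g g' : K[X]} (h : K[X]) (hg : g ≠ 0) (hg' : g' ≠ 0) :
    S (g * g') h = S g h * S g' h := by
  rw [S, S, S, ← mul_pow]
  congr 1
  unfold R
  rw [aroots_mul (mul_ne_zero hg hg'), Multiset.map_add, Multiset.prod_add]

theorem S_congr {g f h : K[X]} (H : g ∣ f - h) : S g f = S g h := by
  rw [S, S, Pool.Agent.H6.W.G.NBAS1.t_Rcongr K g f h H]

theorem S_C (g : K[X]) (c : K) : S g (C c) = ch c ^ g.natDegree := by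
  rw [S, Pool.Agent.H6.W.G.NBAS1.t_RC K g c, ch, ← pow_mul, ← pow_mul, mul_comm]

theorem ch_one : ch (1 : K) = 1 := by rw [ch, map_one, one_pow]

theorem ch_mul (c d : K) : ch (c * d) = ch c * ch d := by rw [ch, ch, ch, map_mul, mul_pow]

theorem ch_neg_one : ch (-1 : K) = ((e0 K : ℤ) : AlgebraicClosure K) := by
  rw [ch, map_neg, map_one, e0]
  push_cast
  rfl

theorem ch_sq (ho : Odd (Fintype.card K)) {c : K} (hc : c ≠ 0) : ch c ^ 2 = 1 := by
  rw [ch, ← pow_mul, mul_comm, hq_two ho, ← map_pow, FiniteField.pow_card_sub_one_eq_one c hc,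
    map_one]

theorem e0_sq : (e0 K) ^ 2 = 1 := by
  rw [e0, ← pow_mul, mul_comm, pow_mul]
  norm_num

theorem S_swap {g f : K[X]} (hg : g.Monic) (hf : f.Monic) :
    S g f = ((e0 K : ℤ) : AlgebraicClosure K) ^ (g.natDegree * f.natDegree) * S f g := by
  rw [S, Pool.Agent.H6.W.G.NSWAP.t_Rswap K g f hg hf, mul_pow, S, ← pow_mul, mul_comm _ (hq K),
    pow_mul, e0]
  push_cast
  rfl

theorem S_zero (ho : Odd (Fintype.card K)) {g f : K[X]} (hg : g ≠ 0) (h : ¬ IsCoprime g f) :
    S g f = 0 := by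
  have h1 : R g f = 0 := by
    by_contra h2
    exact h ((Pool.Agent.H6.W.G.NBAS2.t_Rne K g f hg).1 h2)
  rw [S, h1, zero_pow (hq_pos ho).ne']

theorem S_sq (ho : Odd (Fintype.card K)) {g f : K[X]} (hg : g ≠ 0) (h : IsCoprime g f) :
    S g f ^ 2 = 1 := by
  have h1 := (Pool.Agent.H6.W.G.NBAS2.t_Rne K g f hg).2 h
  rw [S, ← pow_mul, mul_comm, hq_two ho]
  have h2 := Pool.Agent.H6.W.G.NBAS2.t_Rfrob K g f
  have hcard : 1 < Fintype.card K := Fintype.one_lt_card
  have h4 : R g f ^ (Fintype.card K - 1) * R g f = R g f := by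
    rw [← pow_succ]
    have : Fintype.card K - 1 + 1 = Fintype.card K := by omega
    rw [this]; exact h2
  exact mul_right_cancel₀ h1 (by rw [h4, one_mul])

theorem S_cube (ho : Odd (Fintype.card K)) {g : K[X]} (f : K[X]) (hg : g ≠ 0) :
    S g f ^ 3 = S g f := by
  by_cases h : IsCoprime g f
  · rw [pow_succ, S_sq ho hg h, one_mul]
  · rw [S_zero ho hg h]; norm_num

theorem S_smul {c : K} (hc : c ≠ 0) (g f : K[X]) : S (C c * g) f = S g f := by
  rw [S, S]
  congr 1
  unfold R
  rw [aroots_C_mul _ hc]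

theorem S_norm {g : K[X]} (f : K[X]) (hg : g ≠ 0) : S (normalize g) f = S g f := by
  rw [normalize_apply, mul_comm, coe_normUnit_of_ne_zero hg]
  exact S_smul (inv_ne_zero (leadingCoeff_ne_zero.2 hg)) g f

/-- The general reciprocity law. -/
theorem S_rec (ho : Odd (Fintype.card K)) {g f : K[X]} (hg : g ≠ 0) (hf : f ≠ 0) :
    S g f = ch f.leadingCoeff ^ g.natDegree * ch g.leadingCoeff ^ f.natDegree *
      ((e0 K : ℤ) : AlgebraicClosure K) ^ (g.natDegree * f.natDegree) * S f g := by
  have hγ : g.leadingCoeff ≠ 0 := leadingCoeff_ne_zero.2 hg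
  have hφ : f.leadingCoeff ≠ 0 := leadingCoeff_ne_zero.2 hf
  set g1 : K[X] := C (g.leadingCoeff)⁻¹ * g with hg1
  set f1 : K[X] := C (f.leadingCoeff)⁻¹ * f with hf1
  have hg1m : g1.Monic := monic_C_mul_of_mul_leadingCoeff_eq_one (inv_mul_cancel₀ hγ)
  have hf1m : f1.Monic := monic_C_mul_of_mul_leadingCoeff_eq_one (inv_mul_cancel₀ hφ)
  have hg1d : g1.natDegree = g.natDegree := natDegree_C_mul (inv_ne_zero hγ)
  have hf1d : f1.natDegree = f.natDegree := natDegree_C_mul (inv_ne_zero hφ)
  have hgg : g = C g.leadingCoeff * g1 := by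
    rw [hg1, ← mul_assoc, ← C_mul, mul_inv_cancel₀ hγ, C_1, one_mul]
  have hff : f = C f.leadingCoeff * f1 := by
    rw [hf1, ← mul_assoc, ← C_mul, mul_inv_cancel₀ hφ, C_1, one_mul]
  have e1 : S g f = S g1 f := (S_smul (inv_ne_zero hγ) g f).symm
  have e2 : S g1 f = ch f.leadingCoeff ^ g.natDegree * S g1 f1 := by
    conv_lhs => rw [hff]
    rw [S_mulR, S_C, hg1d]
  have e3 : S f g = ch g.leadingCoeff ^ f.natDegree * S f1 g1 := by
    rw [← S_smul (inv_ne_zero hφ) f g, ← hf1]
    conv_lhs => rw [hgg]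
    rw [S_mulR, S_C, hf1d]
  have e4 := S_swap hg1m hf1m
  rw [hg1d, hf1d] at e4
  have e5 : (ch g.leadingCoeff ^ f.natDegree) * (ch g.leadingCoeff ^ f.natDegree) = 1 := by
    rw [← mul_pow, ← pow_two, ch_sq ho hγ, one_pow]
  rw [e1, e2, e4, e3]
  calc ch f.leadingCoeff ^ g.natDegree *
        (((e0 K : ℤ) : AlgebraicClosure K) ^ (g.natDegree * f.natDegree) * S f1 g1)
      = ch f.leadingCoeff ^ g.natDegree *
        (((e0 K : ℤ) : AlgebraicClosure K) ^ (g.natDegree * f.natDegree) * S f1 g1) *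
        ((ch g.leadingCoeff ^ f.natDegree) * (ch g.leadingCoeff ^ f.natDegree)) := by
        rw [e5, mul_one]
    _ = _ := by ring

/-! ### The identity -/

theorem S_cubeR (ho : Odd (Fintype.card K)) {g : K[X]} (f : K[X]) (hg : g ≠ 0) :
    S g (f ^ 3) = S g f := by
  have h1 : f ^ 3 = f * (f * f) := by ring
  rw [h1, S_mulR, S_mulR]
  have h2 := S_cube ho f hg
  calc S g f * (S g f * S g f) = S g f ^ 3 := by ring
    _ = _ := h2

theorem pw {L : Type*} [Monoid L] {x : L} (hx : x ^ 2 = 1) {i j : ℕ} (h : i % 2 = j % 2) :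
    x ^ i = x ^ j := by
  rw [← Nat.div_add_mod i 2, ← Nat.div_add_mod j 2, pow_add, pow_add, pow_mul, pow_mul, hx,
    one_pow, one_pow, h]

theorem eL_sq : ((e0 K : ℤ) : AlgebraicClosure K) ^ 2 = 1 := by
  have h := e0_sq (K := K)
  exact_mod_cast congrArg (fun z : ℤ => (z : AlgebraicClosure K)) h

/-- the determinant -/
def Wr (F G : K[X]) : K[X] := F * derivative G - derivative F * G

theorem three_zero [CharP K 3] : (3 : K[X]) = 0 := by
  have h : ((3 : ℕ) : K) = 0 := CharP.cast_eq_zero K 3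
  have h2 : (C ((3 : ℕ) : K)) = ((3 : ℕ) : K[X]) := C_eq_natCast 3
  rw [h, C_0] at h2
  exact_mod_cast h2.symm

theorem der_cube [CharP K 3] (a : K[X]) : derivative (a ^ 3) = 0 := by
  have h : derivative (a ^ 3) = 3 * a ^ 2 * derivative a := by
    rw [pow_succ, pow_two, derivative_mul, derivative_mul]
    ring
  rw [h, three_zero, zero_mul, zero_mul]

theorem der_dd [CharP K 3] (F G a b : K[X]) : derivative (a ^ 3 * F + b ^ 3 * G) =
    a ^ 3 * derivative F + b ^ 3 * derivative G := by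
  rw [derivative_add, derivative_mul, derivative_mul, der_cube, der_cube]
  ring

theorem coprime_case [CharP K 3] {F G a b D : K[X]} (hDe : D = a ^ 3 * F + b ^ 3 * G)
    (hF : F.Monic) (hb : b ≠ 0) (hD : D.Monic) (hFG : IsCoprime F G) (hFb : IsCoprime F b) :
    S D (derivative D) = ch b.leadingCoeff ^ (D.natDegree + F.natDegree) *
      ((e0 K : ℤ) : AlgebraicClosure K) ^ (D.natDegree * F.natDegree +
        (D.natDegree + F.natDegree) * b.natDegree) * S b a * S F G * S D (Wr F G) := by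
  have ho : Odd (Fintype.card K) := odd_card
  have h1 : S D F * S D (derivative D) = S D b * S D (Wr F G) := by
    rw [← S_mulR, ← S_cubeR ho b hD.ne_zero, ← S_mulR]
    apply S_congr
    refine ⟨derivative F, ?_⟩
    rw [hDe, der_dd, Wr]
    ring
  have h2 : S D F = ((e0 K : ℤ) : AlgebraicClosure K) ^ (D.natDegree * F.natDegree) *
      (S F b * S F G) := by
    rw [S_swap hD hF, ← S_cubeR ho b hF.ne_zero, ← S_mulR]
    congr 1
    apply S_congr
    exact ⟨a ^ 3, by rw [hDe]; ring⟩
  have h3 : S D b = ch b.leadingCoeff ^ D.natDegree *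
      ((e0 K : ℤ) : AlgebraicClosure K) ^ (D.natDegree * b.natDegree) *
      (S b a * (ch b.leadingCoeff ^ F.natDegree *
        ((e0 K : ℤ) : AlgebraicClosure K) ^ (b.natDegree * F.natDegree) * S F b)) := by
    have h4 := S_rec ho hD.ne_zero hb
    rw [hD.leadingCoeff, ch_one, one_pow, mul_one] at h4
    have h5 : S b D = S b a * S b F := by
      rw [← S_cubeR ho a hb, ← S_mulR]
      apply S_congr
      exact ⟨b ^ 2 * G, by rw [hDe]; ring⟩
    have h6 := S_rec ho hb hF.ne_zero
    rw [hF.leadingCoeff, ch_one, one_pow, one_mul] at h6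
    rw [h4, h5, h6]
  rw [h2, h3] at h1
  have hx : S F b * S F b = 1 := by rw [← pow_two]; exact S_sq ho hF.ne_zero hFb
  have hy : S F G * S F G = 1 := by rw [← pow_two]; exact S_sq ho hF.ne_zero hFG
  have hE : ((e0 K : ℤ) : AlgebraicClosure K) ^ (D.natDegree * F.natDegree) *
      ((e0 K : ℤ) : AlgebraicClosure K) ^ (D.natDegree * F.natDegree) = 1 := by
    rw [← mul_pow, ← pow_two, eL_sq, one_pow]
  calc S D (derivative D) = (((e0 K : ℤ) : AlgebraicClosure K) ^ (D.natDegree * F.natDegree) *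
      ((e0 K : ℤ) : AlgebraicClosure K) ^ (D.natDegree * F.natDegree)) * (S F b * S F b) *
      (S F G * S F G) * S D (derivative D) := by rw [hx, hy, hE]; ring
    _ = (((e0 K : ℤ) : AlgebraicClosure K) ^ (D.natDegree * F.natDegree) * S F b * S F G) *
      (((e0 K : ℤ) : AlgebraicClosure K) ^ (D.natDegree * F.natDegree) *
      (S F b * S F G) * S D (derivative D)) := by ring
    _ = (S F b * S F b) * (ch b.leadingCoeff ^ (D.natDegree + F.natDegree) *
      ((e0 K : ℤ) : AlgebraicClosure K) ^ (D.natDegree * F.natDegree +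
        (D.natDegree + F.natDegree) * b.natDegree) * S b a * S F G * S D (Wr F G)) := by
        rw [h1]; ring
    _ = _ := by rw [hx, one_mul]

theorem par1 : ∀ d u v m j l u1 m1 : ZMod 2, l = 3 * d + u → u1 = 3 * (2 * j) + v → m1 = 2 * j + d →
    (l + u1) + (l * u1 + (l + u1) * m1) + (d + m1 * d + d * m) + (u1 * v + v * u) =
      l * u + (l + u) * m := by
  decide

theorem par2 : ∀ d u v m j l u1 m1 : ZMod 2, l = 3 * m + v → u1 = 3 * (2 * j) + v → m1 = 2 * j + d →
    (l + u1) + (l * u1 + (l + u1) * m1) + (d + m1 * d + d * m) + (u1 * v + v * u) =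
      l * u + (l + u) * m := by
  decide

theorem exists_c {a b D : K[X]} (hb : b ≠ 0) (hab : IsCoprime a b) (hD : D.Monic) (B : ℕ) :
    ∃ (c : K[X]) (j : ℕ), c.Monic ∧ c.natDegree = 2 * j ∧ B ≤ j ∧ IsCoprime (b - c * a) D := by
  obtain ⟨m, a1, h1, h2, h3, k, h4⟩ :=
    Pool.Agent.H6.W.G.NFROBSPLIT.t_Split K D b hD.ne_zero hb
  have h5 : IsCoprime (b - a1 * a) D := by
    rw [h1]
    apply IsCoprime.mul_right
    · have h6 : IsCoprime (b - a1 * a) b := by
        have h7 : IsCoprime (a1 * a) b := h3.mul_left hab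
        have h8 : b - a1 * a = -(a1 * a) + b * 1 := by ring
        rw [h8]
        exact IsCoprime.add_mul_left_left h7.neg_left 1
      exact (h6.pow_right (n := k)).of_isCoprime_of_dvd_right h4
    · have h8 : b - a1 * a = b + a1 * (-a) := by ring
      rw [h8]
      exact IsCoprime.add_mul_left_left h3.symm (-a)
  have hd2 : ∀ j : ℕ, (D ^ 2 * X ^ (2 * j) : K[X]).Monic := fun j => (hD.pow 2).mul (monic_X_pow _)
  have hdd : ∀ j : ℕ, (D ^ 2 * X ^ (2 * j) : K[X]).natDegree = 2 * (D.natDegree + j) := fun j => by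
    rw [(hD.pow 2).natDegree_mul (monic_X_pow _), hD.natDegree_pow, natDegree_X_pow]
    ring
  have hlt : (a1).degree < (D ^ 2 * X ^ (2 * (B + a1.natDegree + 1)) : K[X]).degree := by
    rw [degree_eq_natDegree (hd2 _).ne_zero, hdd]
    refine lt_of_le_of_lt degree_le_natDegree ?_
    exact_mod_cast (by omega : a1.natDegree < 2 * (D.natDegree + (B + a1.natDegree + 1)))
  refine ⟨a1 + D ^ 2 * X ^ (2 * (B + a1.natDegree + 1)), D.natDegree + (B + a1.natDegree + 1),
    (hd2 _).add_of_right hlt, ?_, by omega, ?_⟩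
  · rw [natDegree_add_eq_right_of_degree_lt hlt, hdd]
  · have h8 : b - (a1 + D ^ 2 * X ^ (2 * (B + a1.natDegree + 1))) * a =
        (b - a1 * a) + D * (-(D * X ^ (2 * (B + a1.natDegree + 1)) * a)) := by ring
    rw [h8]
    exact IsCoprime.add_mul_left_left h5 _

theorem gen_case [CharP K 3] {F G a b D : K[X]} (hDe : D = a ^ 3 * F + b ^ 3 * G)
    (hF : F.Monic) (hG : G.Monic) (hb : b ≠ 0) (hab : IsCoprime a b) (hD : D.Monic)
    (hFG : IsCoprime F G)
    (hdeg : 3 * a.natDegree + F.natDegree ≠ 3 * b.natDegree + G.natDegree) :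
    S D (derivative D) = ch b.leadingCoeff ^ (D.natDegree + F.natDegree) *
      ((e0 K : ℤ) : AlgebraicClosure K) ^ (D.natDegree * F.natDegree +
        (D.natDegree + F.natDegree) * b.natDegree) * S b a * S F G * S D (Wr F G) := by
  have ho : Odd (Fintype.card K) := odd_card
  by_cases hFb : IsCoprime F b
  · exact coprime_case hDe hF hb hD hFG hFb
  have ha : a ≠ 0 := by
    rintro rfl
    apply hFb
    have h1 : IsUnit b := isCoprime_zero_left.1 hab
    obtain ⟨c, hc⟩ := h1.exists_left_inv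
    exact ⟨0, c, by rw [zero_mul, zero_add, hc]⟩
  obtain ⟨c, j, hc, hcd, hj, hcD⟩ := exists_c hb hab hD (F.natDegree + b.natDegree + 1)
  set F1 : K[X] := F + c ^ 3 * G with hF1
  set b1 : K[X] := b - c * a with hb1
  have hcG : (c ^ 3 * G).Monic := (hc.pow 3).mul hG
  have hcGd : (c ^ 3 * G).natDegree = 3 * (2 * j) + G.natDegree := by
    rw [(hc.pow 3).natDegree_mul hG, hc.natDegree_pow, hcd]
  have hlt1 : F.degree < (c ^ 3 * G).degree := by
    rw [degree_eq_natDegree hF.ne_zero, degree_eq_natDegree hcG.ne_zero, hcGd]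
    exact_mod_cast (by omega : F.natDegree < 3 * (2 * j) + G.natDegree)
  have hF1m : F1.Monic := hcG.add_of_right hlt1
  have hF1d : F1.natDegree = 3 * (2 * j) + G.natDegree := by
    rw [hF1, natDegree_add_eq_right_of_degree_lt hlt1, hcGd]
  have hca : c * a ≠ 0 := mul_ne_zero hc.ne_zero ha
  have hcad : (c * a).natDegree = 2 * j + a.natDegree := by
    rw [hc.natDegree_mul' ha, hcd]
  have hlt2 : b.degree < (c * a).degree := by
    rw [degree_eq_natDegree hb, degree_eq_natDegree hca, hcad]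
    exact_mod_cast (by omega : b.natDegree < 2 * j + a.natDegree)
  have hb1n : b1 = b + -(c * a) := by rw [hb1]; ring
  have hlt3 : b.degree < (-(c * a)).degree := by rw [degree_neg]; exact hlt2
  have hb1d : b1.natDegree = 2 * j + a.natDegree := by
    rw [hb1n, natDegree_add_eq_right_of_degree_lt hlt3, natDegree_neg, hcad]
  have hb1l : b1.leadingCoeff = -1 * a.leadingCoeff := by
    rw [hb1n, leadingCoeff_add_of_degree_lt hlt3, leadingCoeff_neg, leadingCoeff_mul,
      hc.leadingCoeff, one_mul, neg_one_mul]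
  have hb10 : b1 ≠ 0 := by
    intro h
    rw [h, natDegree_zero] at hb1d
    omega
  have hDe1 : D = a ^ 3 * F1 + b1 ^ 3 * G := by
    have h3 := three_zero (K := K)
    rw [hDe, hF1, hb1]
    linear_combination (G * (b ^ 2 * c * a - b * c ^ 2 * a ^ 2)) * h3
  have hF1G : IsCoprime F1 G := by
    have h1 : F1 = F + G * c ^ 3 := by rw [hF1]; ring
    rw [h1]
    exact IsCoprime.add_mul_left_left hFG _
  have hF1b1 : IsCoprime F1 b1 := by
    have h1 : IsCoprime b1 (a ^ 3 * F1) := by
      have h2 : a ^ 3 * F1 = D + b1 * (-(b1 ^ 2 * G)) := by rw [hDe1]; ring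
      rw [h2]
      exact IsCoprime.add_mul_left_right hcD _
    exact (IsCoprime.of_mul_right_right h1).symm
  have hW : Wr F1 G = Wr F G := by
    have h1 : derivative (F + c ^ 3 * G) = derivative F + c ^ 3 * derivative G := by
      have h2 := der_dd G F c 1
      have h3 : c ^ 3 * G + 1 ^ 3 * F = F + c ^ 3 * G := by ring
      rw [h3] at h2
      rw [h2]
      ring
    rw [Wr, Wr, hF1, h1]
    ring
  have key := coprime_case hDe1 hF1m hb10 hD hF1G hF1b1
  have k1 : S F1 G = ((e0 K : ℤ) : AlgebraicClosure K) ^ (F1.natDegree * G.natDegree) *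
      (((e0 K : ℤ) : AlgebraicClosure K) ^ (G.natDegree * F.natDegree) * S F G) := by
    rw [S_swap hF1m hG, ← S_swap hG hF]
    congr 1
    apply S_congr
    exact ⟨c ^ 3, by rw [hF1]; ring⟩
  have k2 : S b1 a = ch a.leadingCoeff ^ b1.natDegree *
      (ch (-1 : K) * ch a.leadingCoeff) ^ a.natDegree *
      ((e0 K : ℤ) : AlgebraicClosure K) ^ (b1.natDegree * a.natDegree) *
      (ch b.leadingCoeff ^ a.natDegree * ch a.leadingCoeff ^ b.natDegree *
        ((e0 K : ℤ) : AlgebraicClosure K) ^ (a.natDegree * b.natDegree) * S b a) := by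
    rw [S_rec ho hb10 ha, hb1l, ch_mul, ← S_rec ho ha hb]
    congr 1
    apply S_congr
    exact ⟨-c, by rw [hb1]; ring⟩
  rw [k1, k2, hW, hb1l, ch_mul, ch_neg_one] at key
  have hA : ch a.leadingCoeff ^ 2 = 1 := ch_sq ho (leadingCoeff_ne_zero.2 ha)
  have hB : ch b.leadingCoeff ^ 2 = 1 := ch_sq ho (leadingCoeff_ne_zero.2 hb)
  have hE : ((e0 K : ℤ) : AlgebraicClosure K) ^ 2 = 1 := eL_sq
  have hcube : ∀ x : K, x ^ 3 = 1 → ch x = 1 := by
    intro x hx
    have hx0 : x ≠ 0 := by
      rintro rfl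
      norm_num at hx
    have h1 := ch_sq ho hx0
    have h2 : ch x ^ 3 = 1 := by
      have h3 : ch (x ^ 3) = ch x ^ 3 := by
        rw [pow_succ, pow_two, ch_mul, ch_mul]; ring
      rw [← h3, hx, ch_one]
    calc ch x = ch x ^ 2 * ch x := by rw [h1, one_mul]
      _ = ch x ^ 3 := by ring
      _ = 1 := h2
  have haF : (a ^ 3 * F) ≠ 0 := mul_ne_zero (pow_ne_zero 3 ha) hF.ne_zero
  have hbG : (b ^ 3 * G) ≠ 0 := mul_ne_zero (pow_ne_zero 3 hb) hG.ne_zero
  have haFd : (a ^ 3 * F).natDegree = 3 * a.natDegree + F.natDegree := by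
    rw [natDegree_mul (pow_ne_zero 3 ha) hF.ne_zero, natDegree_pow]
  have hbGd : (b ^ 3 * G).natDegree = 3 * b.natDegree + G.natDegree := by
    rw [natDegree_mul (pow_ne_zero 3 hb) hG.ne_zero, natDegree_pow]
  have haFl : (a ^ 3 * F).leadingCoeff = a.leadingCoeff ^ 3 := by
    rw [leadingCoeff_mul, leadingCoeff_pow, hF.leadingCoeff, mul_one]
  have hbGl : (b ^ 3 * G).leadingCoeff = b.leadingCoeff ^ 3 := by
    rw [leadingCoeff_mul, leadingCoeff_pow, hG.leadingCoeff, mul_one]
  rw [key]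
  have pz : ∀ x y : ℕ, (x : ZMod 2) = (y : ZMod 2) → x % 2 = y % 2 := fun x y h =>
    (ZMod.natCast_eq_natCast_iff' x y 2).1 h
  rcases lt_or_gt_of_ne hdeg with hlt | hlt
  · -- `deg D = 3 deg b + deg G`
    have hlt4 : (a ^ 3 * F).degree < (b ^ 3 * G).degree := by
      rw [degree_eq_natDegree haF, degree_eq_natDegree hbG, haFd, hbGd]
      exact_mod_cast hlt
    have hl : D.natDegree = 3 * b.natDegree + G.natDegree := by
      rw [hDe, natDegree_add_eq_right_of_degree_lt hlt4, hbGd]
    have hB1 : ch b.leadingCoeff = 1 := by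
      apply hcube
      rw [← hbGl, ← leadingCoeff_add_of_degree_lt hlt4, ← hDe]
      exact hD.leadingCoeff
    rw [hB1, one_pow, one_pow]
    have e1 := par2 (a.natDegree : ZMod 2) F.natDegree G.natDegree b.natDegree j D.natDegree
      F1.natDegree b1.natDegree (by rw [hl]; push_cast; ring) (by rw [hF1d]; push_cast; ring)
      (by rw [hb1d]; push_cast; ring)
    have e2 := pz ((D.natDegree + F1.natDegree) + (D.natDegree * F1.natDegree +
      (D.natDegree + F1.natDegree) * b1.natDegree) + (a.natDegree + b1.natDegree * a.natDegree +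
      a.natDegree * b.natDegree) + (F1.natDegree * G.natDegree + G.natDegree * F.natDegree))
      (D.natDegree * F.natDegree + (D.natDegree + F.natDegree) * b.natDegree)
      (by push_cast; exact e1)
    have e3 := pw hE e2
    have e4 : ch a.leadingCoeff ^ (D.natDegree + F1.natDegree + b1.natDegree + a.natDegree +
        b.natDegree) = 1 := by
      rw [pw hA (j := 0), pow_zero]
      rw [hl, hF1d, hb1d]
      omega
    rw [← e3]
    calc _ = ch a.leadingCoeff ^ (D.natDegree + F1.natDegree + b1.natDegree + a.natDegree +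
        b.natDegree) * (((e0 K : ℤ) : AlgebraicClosure K) ^
          ((D.natDegree + F1.natDegree) + (D.natDegree * F1.natDegree +
      (D.natDegree + F1.natDegree) * b1.natDegree) + (a.natDegree + b1.natDegree * a.natDegree +
      a.natDegree * b.natDegree) + (F1.natDegree * G.natDegree + G.natDegree * F.natDegree)) *
          S b a * S F G * S D (Wr F G)) := by ring
      _ = _ := by rw [e4]; ring
  · -- `deg D = 3 deg a + deg F`
    have hlt4 : (b ^ 3 * G).degree < (a ^ 3 * F).degree := by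
      rw [degree_eq_natDegree haF, degree_eq_natDegree hbG, haFd, hbGd]
      exact_mod_cast hlt
    have hl : D.natDegree = 3 * a.natDegree + F.natDegree := by
      rw [hDe, natDegree_add_eq_left_of_degree_lt hlt4, haFd]
    have hA1 : ch a.leadingCoeff = 1 := by
      apply hcube
      rw [← haFl, ← leadingCoeff_add_of_degree_lt' hlt4, ← hDe]
      exact hD.leadingCoeff
    rw [hA1, one_pow, one_pow, mul_one]
    have e1 := par1 (a.natDegree : ZMod 2) F.natDegree G.natDegree b.natDegree j D.natDegree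
      F1.natDegree b1.natDegree (by rw [hl]; push_cast; ring) (by rw [hF1d]; push_cast; ring)
      (by rw [hb1d]; push_cast; ring)
    have e2 := pz ((D.natDegree + F1.natDegree) + (D.natDegree * F1.natDegree +
      (D.natDegree + F1.natDegree) * b1.natDegree) + (a.natDegree + b1.natDegree * a.natDegree +
      a.natDegree * b.natDegree) + (F1.natDegree * G.natDegree + G.natDegree * F.natDegree))
      (D.natDegree * F.natDegree + (D.natDegree + F.natDegree) * b.natDegree)
      (by push_cast; exact e1)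
    have e3 := pw hE e2
    have e4 : ch b.leadingCoeff ^ (D.natDegree + F.natDegree) =
        ch b.leadingCoeff ^ a.natDegree := by
      apply pw hB
      rw [hl]
      omega
    rw [← e3, e4]
    ring

/-! ### Pellet -/

/-- the sign in the formula of Pellet -/
def sg (K : Type) [Fintype K] (l : ℕ) : ℤ := ((-1) ^ (l * (l - 1) / 2)) ^ hq K * (-1) ^ l

theorem mob_S [CharP K 3] {D : K[X]} (hD : D.Monic) :
    ((mob D : ℤ) : AlgebraicClosure K) =
      ((sg K D.natDegree : ℤ) : AlgebraicClosure K) * S D (derivative D) := by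
  have ho : Odd (Fintype.card K) := odd_card
  by_cases hs : Squarefree D
  · have h1 : S D (derivative D) = ((-1) ^ (D.natDegree * (D.natDegree - 1) / 2)) ^ hq K *
        (-1) ^ (D.natDegree + Om D) :=
      Pool.Agent.H6.W.G.NPELB.t_Pel Pool.Agent.H6.W.G.NBAS1.t_RmulL
        Pool.Agent.H6.W.G.NBAS1.t_RmulR Pool.Agent.H6.W.G.NBAS1.t_Rcongr
        Pool.Agent.H6.W.G.NSWAP.t_Rswap Pool.Agent.H6.W.G.NBAS2.t_Rne
        Pool.Agent.H6.W.G.NBAS2.t_Rfrob Pool.Agent.H6.W.G.NBAS1.t_RC
        Pool.Agent.H6.W.G.NPELIRR.t_PelIrr K ho D hD hs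
    have h2 : mob D = (-1) ^ Om D := by
      rw [mob, if_pos hs]
      rfl
    rw [h1, h2, sg]
    push_cast
    have h3 : (((-1 : AlgebraicClosure K) ^ (D.natDegree * (D.natDegree - 1) / 2)) ^ hq K) *
        ((-1 : AlgebraicClosure K) ^ (D.natDegree * (D.natDegree - 1) / 2)) ^ hq K = 1 := by
      rw [← mul_pow, ← mul_pow]
      norm_num
    have h4 : (-1 : AlgebraicClosure K) ^ D.natDegree * (-1) ^ D.natDegree = 1 := by
      rw [← mul_pow]
      norm_num
    rw [pow_add]
    generalize ((-1 : AlgebraicClosure K) ^ (D.natDegree * (D.natDegree - 1) / 2)) ^ hq K = x at *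
    generalize (-1 : AlgebraicClosure K) ^ D.natDegree = y at *
    calc (-1 : AlgebraicClosure K) ^ Om D = (x * x) * (y * y) * (-1) ^ Om D := by
          rw [h3, h4]; ring
      _ = _ := by ring
  · have h1 : S D (derivative D) = 0 := by
      apply S_zero ho hD.ne_zero
      intro h
      exact hs (PerfectField.separable_iff_squarefree.1 h)
    have h2 : mob D = 0 := by rw [mob, if_neg hs]
    rw [h1, h2]
    simp

/-! ### Euler -/

theorem leg_S (ho : Odd (Fintype.card K)) {P : K[X]} (hP : P.Monic) (hirr : Irreducible P)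
    (f : K[X]) : ((leg f P : ℤ) : AlgebraicClosure K) = S P f := by
  obtain ⟨n, hn⟩ : ∃ n, P.natDegree = n + 1 := ⟨P.natDegree - 1, by
    have := hirr.natDegree_pos; omega⟩
  obtain ⟨θ, hθ, hvinj, hroot⟩ := Pool.Agent.H6.W.G.NPELIRR.exists_orbit P hP hirr n hn
  have hθ0 : aeval θ P = 0 := by
    have h := hroot 0
    simpa using h
  have hroots : P.aroots (AlgebraicClosure K) =
      (Finset.univ : Finset (Fin (n + 1))).val.map
        (fun i : Fin (n + 1) => θ ^ (Fintype.card K ^ (i : ℕ))) := by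
    symm
    apply Multiset.eq_of_le_of_card_le
    · rw [Multiset.le_iff_subset ((Finset.univ : Finset (Fin (n + 1))).nodup.map hvinj)]
      intro x hx
      rw [Multiset.mem_map] at hx
      obtain ⟨i, _, rfl⟩ := hx
      rw [mem_aroots]
      exact ⟨hP.ne_zero, hroot i⟩
    · rw [Multiset.card_map, Pool.Agent.H6.W.G.NSWAP.cardR, hn]
      simp
  have hpow : ∀ (k : ℕ) (x : AlgebraicClosure K),
      (FiniteField.frobeniusAlgHom K (AlgebraicClosure K) ^ k) x = x ^ (Fintype.card K ^ k) := by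
    intro k x
    rw [AlgHom.coe_pow, FiniteField.coe_frobeniusAlgHom, pow_iterate]
  have hval : ∀ i : ℕ, aeval (θ ^ (Fintype.card K ^ i)) f = (aeval θ f) ^ (Fintype.card K ^ i) := by
    intro i
    rw [← hpow, ← hpow, aeval_algHom_apply]
  have hS : S P f = (aeval θ f) ^ (Fintype.card K ^ (n + 1) / 2) := by
    have h1 : R P f = (aeval θ f) ^ (∑ i ∈ Finset.range (n + 1), Fintype.card K ^ i) := by
      unfold R
      rw [hroots, Multiset.map_map]
      change ∏ i : Fin (n + 1), aeval (θ ^ (Fintype.card K ^ (i : ℕ))) f = _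
      rw [Finset.prod_congr rfl (fun (i : Fin (n + 1)) _ => hval (i : ℕ)),
        Finset.prod_pow_eq_pow_sum, Finset.sum_range]
    rw [S, h1, ← pow_mul]
    congr 1
    have h2 := geom_sum_mul_add (2 * hq K) (n + 1)
    have h3 : 2 * hq K + 1 = Fintype.card K := by
      have := hq_two ho
      have := Fintype.card_pos (α := K)
      omega
    rw [h3] at h2
    rw [← h2]
    generalize (∑ i ∈ Finset.range (n + 1), Fintype.card K ^ i) = s
    have h4 : s * (2 * hq K) + 1 = 2 * (s * hq K) + 1 := by ring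
    rw [h4]
    omega
  have hfact : Fact (Irreducible P) := ⟨hirr⟩
  have hfin : Module.Finite K (AdjoinRoot P) := (AdjoinRoot.powerBasis hP.ne_zero).finite
  have hfin2 : Finite (AdjoinRoot P) := Module.finite_of_finite K
  have hfin3 : Fintype (AdjoinRoot P) := Fintype.ofFinite _
  have hcard : Fintype.card (AdjoinRoot P) = Fintype.card K ^ (n + 1) := by
    rw [Module.card_eq_pow_finrank (K := K), (AdjoinRoot.powerBasis hP.ne_zero).finrank,
      AdjoinRoot.powerBasis_dim, hn]
  have hchar : ringChar (AdjoinRoot P) ≠ 2 := by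
    intro h
    have h1 := (FiniteField.even_card_iff_char_two (F := AdjoinRoot P)).1 h
    rw [hcard] at h1
    have h2 := Nat.odd_iff.1 (ho.pow (n := n + 1))
    omega
  let σ : AdjoinRoot P →ₐ[K] AlgebraicClosure K :=
    AdjoinRoot.liftAlgHom P (Algebra.ofId K (AlgebraicClosure K)) θ hθ0
  have hσ : ∀ g : K[X], σ (AdjoinRoot.mk P g) = aeval θ g := fun g => rfl
  rw [hS, ← hσ, ← map_pow, ← hcard]
  by_cases hPf : P ∣ f
  · have h1 : AdjoinRoot.mk P f = 0 := AdjoinRoot.mk_eq_zero.2 hPf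
    have h2 : Fintype.card (AdjoinRoot P) / 2 ≠ 0 := by
      have h3 : 1 < Fintype.card (AdjoinRoot P) := Fintype.one_lt_card
      omega
    rw [h1, zero_pow h2, map_zero, leg, if_pos hPf]
    simp
  · have h1 : AdjoinRoot.mk P f ≠ 0 := fun h => hPf (AdjoinRoot.mk_eq_zero.1 h)
    have h2 : IsSquare (AdjoinRoot.mk P f) ↔ ∃ y : K[X], P ∣ y ^ 2 - f := by
      constructor
      · rintro ⟨w, hw⟩
        obtain ⟨y, rfl⟩ := AdjoinRoot.mk_surjective w
        refine ⟨y, ?_⟩
        rw [← AdjoinRoot.mk_eq_zero, map_sub, map_pow, hw, pow_two, sub_self]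
      · rintro ⟨y, hy⟩
        rw [← AdjoinRoot.mk_eq_zero, map_sub, map_pow, sub_eq_zero] at hy
        exact ⟨AdjoinRoot.mk P y, by rw [← hy, pow_two]⟩
    by_cases h3 : ∃ y : K[X], P ∣ y ^ 2 - f
    · rw [leg, if_neg hPf, if_pos h3, (FiniteField.isSquare_iff hchar h1).1 (h2.2 h3), map_one]
      norm_num
    · have h4 : AdjoinRoot.mk P f ^ (Fintype.card (AdjoinRoot P) / 2) = -1 := by
        rcases FiniteField.pow_dichotomy hchar h1 with h5 | h5
        · exact absurd (h2.1 ((FiniteField.isSquare_iff hchar h1).2 h5)) h3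
        · exact h5
      rw [leg, if_neg hPf, if_neg h3, h4, map_neg, map_one]
      norm_num

theorem jac_one (f : K[X]) {g : K[X]} (hg : IsUnit g) : jac f g = 1 := by
  rw [jac, UniqueFactorizationMonoid.normalizedFactors_of_isUnit hg]
  simp

theorem jac_S (ho : Odd (Fintype.card K)) (f : K[X]) {g : K[X]} (hg : g ≠ 0) :
    ((jac f g : ℤ) : AlgebraicClosure K) = S g f := by
  induction g using UniqueFactorizationMonoid.induction_on_prime with
  | h₁ => exact absurd rfl hg
  | h₂ x hx =>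
    rw [jac_one f hx]
    obtain ⟨c, hc, rfl⟩ := isUnit_iff.1 hx
    have h1 := S_smul (c := c) hc.ne_zero 1 f
    rw [mul_one] at h1
    rw [h1, S, R]
    simp
  | h₃ a p ha hp ih =>
    have h1 := UniqueFactorizationMonoid.normalizedFactors_mul hp.ne_zero ha
    have h2 := UniqueFactorizationMonoid.normalizedFactors_irreducible hp.irreducible
    rw [jac, h1, h2, Multiset.map_add, Multiset.prod_add, Multiset.map_singleton,
      Multiset.prod_singleton, S_mulL f hp.ne_zero ha, ← ih ha, ← S_norm f hp.ne_zero]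
    have h3 : (normalize p).Monic := monic_normalize hp.ne_zero
    have h4 : Irreducible (normalize p) := (normalize_associated p).symm.irreducible hp.irreducible
    rw [← leg_S ho h3 h4, jac]
    push_cast
    rfl

theorem leg_abs (f P : K[X]) : |leg f P| ≤ 1 := by
  unfold leg
  split_ifs <;> norm_num

theorem jac_abs (f g : K[X]) : |jac f g| ≤ 1 := by
  unfold jac
  induction UniqueFactorizationMonoid.normalizedFactors g using Multiset.induction_on with
  | empty => simp
  | cons P s ih =>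
    rw [Multiset.map_cons, Multiset.prod_cons, abs_mul]
    exact mul_le_one₀ (leg_abs f P) (abs_nonneg _) ih

theorem jac_zero {f g P : K[X]} (hg : g ≠ 0) (hP : Irreducible P) (hf : P ∣ f) (hPg : P ∣ g) :
    jac f g = 0 := by
  obtain ⟨Q, hQ, hPQ⟩ := UniqueFactorizationMonoid.exists_mem_normalizedFactors_of_dvd hg hP hPg
  rw [jac, Multiset.prod_eq_zero_iff, Multiset.mem_map]
  refine ⟨Q, hQ, ?_⟩
  rw [leg, if_pos (hPQ.symm.dvd.trans hf)]

/-! ### Assembly -/

/-- integer version of the character -/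
def cz (x : K) : ℤ := quadraticChar K x

theorem cz_abs (x : K) : |cz x| ≤ 1 := by
  unfold cz
  by_cases hx : x = 0
  · rw [hx, MulChar.map_zero]; norm_num
  · rcases quadraticChar_dichotomy hx with h | h <;> rw [h] <;> norm_num

theorem cz_ch (ho : Odd (Fintype.card K)) (x : K) : ((cz x : ℤ) : AlgebraicClosure K) = ch x := by
  have hchar : ringChar K ≠ 2 := by
    intro h
    have h1 := (FiniteField.even_card_iff_char_two (F := K)).1 h
    have h2 := Nat.odd_iff.1 ho
    omega
  have h1 := quadraticChar_eq_pow_of_char_ne_two' hchar x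
  have h2 : Fintype.card K / 2 = hq K := by
    have := hq_two ho
    have := Nat.odd_iff.1 ho
    omega
  rw [ch, ← map_pow, ← h2, ← h1, map_intCast]
  rfl

theorem pow_abs {x : ℤ} (hx : |x| ≤ 1) (n : ℕ) : |x ^ n| ≤ 1 := by
  rw [abs_pow]
  exact pow_le_one₀ (abs_nonneg _) hx

theorem mul_abs {x y : ℤ} (hx : |x| ≤ 1) (hy : |y| ≤ 1) : |x * y| ≤ 1 := by
  rw [abs_mul]
  exact mul_le_one₀ hx (abs_nonneg _) hy

theorem e0_abs : |e0 K| ≤ 1 := pow_abs (by norm_num) _

theorem sg_abs (l : ℕ) : |sg K l| ≤ 1 :=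
  mul_abs (pow_abs (pow_abs (by norm_num) _) _) (pow_abs (by norm_num) _)

theorem mob_abs (D : K[X]) : |mob D| ≤ 1 := by
  unfold mob
  split_ifs
  · exact pow_abs (by norm_num) _
  · norm_num

theorem int_eq [CharP K 3] {x y : ℤ} (hx : |x| ≤ 1) (hy : |y| ≤ 1)
    (h : ((x : ℤ) : AlgebraicClosure K) = ((y : ℤ) : AlgebraicClosure K)) : x = y := by
  have hL : CharP (AlgebraicClosure K) 3 :=
    charP_of_injective_algebraMap (algebraMap K (AlgebraicClosure K)).injective 3
  have h1 : (((x - y : ℤ)) : AlgebraicClosure K) = 0 := by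
    push_cast
    rw [h, sub_self]
  rw [CharP.intCast_eq_zero_iff (AlgebraicClosure K) 3] at h1
  rw [abs_le] at hx hy
  obtain ⟨c, hc⟩ := h1
  push_cast at hc
  omega

/-- `ξ` -/
def xiz (l u : ℕ) (b : K[X]) : ℤ := cz b.leadingCoeff ^ (l + u) * e0 K ^ ((l + u) * b.natDegree)

/-- `θ` -/
def thz (l u : ℕ) (a b : K[X]) : ℤ :=
  if b = 0 then (if IsUnit a then 1 else 0) else xiz l u b * jac a b

/-- `κ` -/
def kaz (F G : K[X] → K[X]) (k l u : ℕ) (M : K[X]) : ℤ :=
  sg K l * e0 K ^ (l * u + k * l) * jac (G M) (F M)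

theorem xiz_abs (l u : ℕ) (b : K[X]) : |xiz l u b| ≤ 1 :=
  mul_abs (pow_abs (cz_abs _) _) (pow_abs e0_abs _)

theorem thz_abs (l u : ℕ) (a b : K[X]) : |thz l u a b| ≤ 1 := by
  unfold thz
  split_ifs
  · norm_num
  · norm_num
  · exact mul_abs (xiz_abs _ _ _) (jac_abs _ _)

theorem kaz_abs (F G : K[X] → K[X]) (k l u : ℕ) (M : K[X]) : |kaz F G k l u M| ≤ 1 :=
  mul_abs (mul_abs (sg_abs _) (pow_abs e0_abs _)) (jac_abs _ _)

theorem thz_zero (l u : ℕ) {a b P : K[X]} (hP : Irreducible P) (ha : P ∣ a) (hb : P ∣ b) :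
    thz l u a b = 0 := by
  unfold thz
  split_ifs with h1 h2
  · exact absurd (isUnit_of_dvd_unit ha h2) hP.not_isUnit
  · rfl
  · rw [jac_zero h1 hP ha hb, mul_zero]

theorem exists_irr {a b : K[X]} (h : ¬ IsCoprime a b) (h0 : a ≠ 0 ∨ b ≠ 0) :
    ∃ P : K[X], Irreducible P ∧ P ∣ a ∧ P ∣ b := by
  have hg : ¬ IsUnit (EuclideanDomain.gcd a b) := fun hu =>
    h (EuclideanDomain.gcd_isUnit_iff.1 hu)
  have hg0 : EuclideanDomain.gcd a b ≠ 0 := fun h1 => by
    have h2 := EuclideanDomain.gcd_eq_zero_iff.1 h1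
    rcases h0 with h0 | h0
    · exact h0 h2.1
    · exact h0 h2.2
  obtain ⟨p, hp, hpd⟩ := WfDvdMonoid.exists_irreducible_factor hg hg0
  exact ⟨p, hp, hpd.trans (EuclideanDomain.gcd_dvd_left a b),
    hpd.trans (EuclideanDomain.gcd_dvd_right a b)⟩

theorem main_eq [CharP K 3] {F G : K[X] → K[X]} (hLB : LB K F G) {k l u v : ℕ} {M : K[X]}
    (hM : M ∈ Ty K F G k u v) {a b : K[X]} (hD : (dd F G M a b).Monic)
    (hl : (dd F G M a b).natDegree = l) :
    mob (dd F G M a b) = kaz F G k l u M * thz l u a b * jac (dd F G M a b) M := by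
  have ho : Odd (Fintype.card K) := odd_card
  rw [Ty, Finset.mem_filter, mem_Mn] at hM
  obtain ⟨⟨hMm, hMk⟩, hMs, hFu, hGv⟩ := hM
  obtain ⟨hF, hG, hFm, hGm, -, hW, -, -, -⟩ := hLB M hMm hMs
  rw [hMk, hFu] at hFm
  rw [hMk, hGv] at hGm
  generalize hDe : dd F G M a b = D at *
  have hDe' : D = a ^ 3 * F M + b ^ 3 * G M := hDe.symm
  have hFG : IsCoprime (F M) (G M) := by
    by_contra hc
    obtain ⟨P, hP, ⟨f, hf⟩, ⟨g, hg⟩⟩ := exists_irr hc (Or.inl hF.ne_zero)
    apply hP.not_isUnit
    apply hMs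
    rw [← hW, hf, hg]
    refine ⟨f * derivative g - derivative f * g, ?_⟩
    rw [derivative_mul, derivative_mul]
    ring
  by_cases hab : IsCoprime a b
  · apply int_eq (K := K) (mob_abs D)
      (mul_abs (mul_abs (kaz_abs _ _ _ _ _ _) (thz_abs _ _ _ _)) (jac_abs _ _))
    have hDM : S D M = ((e0 K : ℤ) : AlgebraicClosure K) ^ (l * k) * S M D := by
      rw [S_swap hD hMm, hl, hMk]
    by_cases hb : b = 0
    · subst hb
      have ha : IsUnit a := isCoprime_zero_right.1 hab
      obtain ⟨α, hα, rfl⟩ := isUnit_iff.1 ha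
      have h1 : D = C (α ^ 3) * F M := by
        rw [hDe']
        rw [C_pow]
        ring
      have h2 : α ^ 3 = 1 := by
        have h3 := hD.leadingCoeff
        rw [h1, leadingCoeff_mul, leadingCoeff_C, hF.leadingCoeff, mul_one] at h3
        exact h3
      rw [h2, C_1, one_mul] at h1
      have hlu : l = u := by rw [← hl, h1, hFu]
      rw [mob_S hD, hl, kaz, thz, if_pos rfl, if_pos ha, mul_one]
      push_cast
      rw [jac_S ho (G M) hF.ne_zero, jac_S ho D hMm.ne_zero]
      have hFG1 : S (F M) (G M) * S (F M) (G M) = 1 := by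
        rw [← pow_two]; exact S_sq ho hF.ne_zero hFG
      have h4 : S D M = ((e0 K : ℤ) : AlgebraicClosure K) ^ u * (S D (derivative D) *
          S (F M) (G M)) := by
        rw [← ch_neg_one, ← hFu, ← S_C, h1, ← S_mulR, ← S_mulR]
        apply S_congr
        refine ⟨derivative (G M), ?_⟩
        have h5 : (C (-1 : K)) = -1 := by rw [C_neg, C_1]
        rw [h5]
        nth_rewrite 1 [← hW]
        ring
      have hE : ((e0 K : ℤ) : AlgebraicClosure K) ^ 2 = 1 := eL_sq
      have hE1 : ((e0 K : ℤ) : AlgebraicClosure K) ^ u * ((e0 K : ℤ) : AlgebraicClosure K) ^ u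
          = 1 := by
        rw [← mul_pow, ← pow_two, hE, one_pow]
      have h6 : S D (derivative D) = ((e0 K : ℤ) : AlgebraicClosure K) ^ u * S (F M) (G M) *
          S D M := by
        calc S D (derivative D) = (((e0 K : ℤ) : AlgebraicClosure K) ^ u *
              ((e0 K : ℤ) : AlgebraicClosure K) ^ u) * (S (F M) (G M) * S (F M) (G M)) *
                S D (derivative D) := by rw [hE1, hFG1]; ring
          _ = ((e0 K : ℤ) : AlgebraicClosure K) ^ u * S (F M) (G M) *
              (((e0 K : ℤ) : AlgebraicClosure K) ^ u * (S D (derivative D) *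
                S (F M) (G M))) := by ring
          _ = _ := by rw [← h4]
      rw [h6, hDM, hlu]
      have h7 : ((e0 K : ℤ) : AlgebraicClosure K) ^ (u * u + k * u) =
          ((e0 K : ℤ) : AlgebraicClosure K) ^ (u + u * k) := by
        apply pw hE
        rcases Nat.even_or_odd u with h | h
        · obtain ⟨t, rfl⟩ := h
          ring_nf
          omega
        · obtain ⟨t, rfl⟩ := h
          ring_nf
          omega
      rw [h7]
      ring
    · have key := gen_case hDe' hF hG hb hab hD hFG (by rw [hFu, hGv]; omega)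
      rw [hl, hFu] at key
      have hW' : Wr (F M) (G M) = M := hW
      rw [hW', hDM] at key
      rw [mob_S hD, hl, key, kaz, thz, if_neg hb, xiz]
      push_cast
      rw [cz_ch ho, jac_S ho (G M) hF.ne_zero, jac_S ho D hMm.ne_zero, jac_S ho a hb]
      ring
  · have h0 : a ≠ 0 ∨ b ≠ 0 := by
      by_contra hc
      rw [not_or, not_not, not_not] at hc
      apply hD.ne_zero
      rw [hDe', hc.1, hc.2]
      ring
    obtain ⟨P, hP, hPa, hPb⟩ := exists_irr hab h0
    rw [thz_zero l u hP hPa hPb, mul_zero, zero_mul, mob, if_neg]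
    intro hs
    apply hP.not_isUnit
    apply hs
    obtain ⟨a', rfl⟩ := hPa
    obtain ⟨b', rfl⟩ := hPb
    rw [hDe']
    exact ⟨P * (a' ^ 3 * F M + b' ^ 3 * G M), by ring⟩

end

end Muf

theorem muf : S_muf := by
  intro K _ _ _ F G hLB n k u v hn hk
  have cst : ∀ x : ℤ, |x| ≤ 1 → |(x : ℝ)| ≤ 1 := fun x hx => by exact_mod_cast hx
  refine ⟨fun a b => (Muf.thz (n - k) u a b : ℝ), fun b => (Muf.xiz (n - k) u b : ℝ),
    fun M => (Muf.kaz F G k (n - k) u M : ℝ), fun a b => cst _ (Muf.thz_abs _ _ _ _),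
    fun b => cst _ (Muf.xiz_abs _ _ _), fun M => cst _ (Muf.kaz_abs _ _ _ _ _ _), ?_, ?_, ?_⟩
  · intro a b hb
    have h : Muf.thz (n - k) u a b = Muf.xiz (n - k) u b * jac a b := by
      rw [Muf.thz, if_neg hb]
    change (Muf.thz (n - k) u a b : ℝ) = (Muf.xiz (n - k) u b : ℝ) * (jac a b : ℝ)
    exact_mod_cast h
  · intro a b P hP ha hb
    have h := Muf.thz_zero (n - k) u hP ha hb
    change (Muf.thz (n - k) u a b : ℝ) = 0
    exact_mod_cast h
  · intro M hM a b hD hl
    have h := Muf.main_eq hLB hM hD hl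
    change (mob (dd F G M a b) : ℝ) = (Muf.kaz F G k (n - k) u M : ℝ) *
      (Muf.thz (n - k) u a b : ℝ) * (jac (dd F G M a b) M : ℝ)
    exact_mod_cast h

end Pool.Agent.H6.W
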