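import Pool.Agent.H6.W.Stm
import Pool.Agent.H985.Chow.Typ

/-!
# Wilson primes of `F_q[t]` (helper6): the near sums from GOOD and BAD (task NEAR)
-/

set_option autoImplicit false

namespace Pool.Agent.H6.W

open Polynomial
open scoped Classical
open Pool.Agent.H985.Chow (mob)
open Pool.Agent.H694.Typ (Mn PU Irn mem_Irn irn_wt_ge q_ge wt)
open Pool.Agent.H604.LD (BHW bw Pz S_bhw)
open Pool.Agent.H290.CT (V)

namespace NearW

/-- The harmonic sum. -/
theorem harm (a b : ℕ) (ha : 1 ≤ a) (hab : a ≤ b) :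
    Real.log (((b : ℝ) + 1) / a) ≤ ∑ r ∈ Finset.Icc a b, 1 / (r : ℝ) := by
  have ha0 : (0 : ℝ) < a := by exact_mod_cast ha
  induction b, hab using Nat.le_induction with
  | base =>
    rw [Finset.Icc_self, Finset.sum_singleton]
    have h1 : ((a : ℝ) + 1) / a = 1 + 1 / a := by
      field_simp
    rw [h1]
    have h2 : (0 : ℝ) < 1 + 1 / a := by positivity
    have := Real.log_le_sub_one_of_pos h2
    linarith
  | succ b hb ih =>
    rw [Finset.sum_Icc_succ_top (by omega)]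
    have hb0 : (0 : ℝ) < (b : ℝ) + 1 := by positivity
    have h1 : (((b + 1 : ℕ) : ℝ) + 1) / a = (((b : ℝ) + 1) / a) * (1 + 1 / ((b : ℝ) + 1)) := by
      push_cast
      field_simp
    rw [h1, Real.log_mul (by positivity) (by positivity)]
    have h2 : (0 : ℝ) < 1 + 1 / ((b : ℝ) + 1) := by positivity
    have h3 := Real.log_le_sub_one_of_pos h2
    push_cast
    linarith

/-- The sum over the primes is large. -/
theorem lam_ge (K : Type) [Field K] [Fintype K] (a b : ℕ) (ha : 4 ≤ a) (hab : a ≤ b) :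
    Real.log (((b : ℝ) + 1) / a) / 2 ≤
      ∑ P ∈ PP K a b, 1 / (Fintype.card K : ℝ) ^ P.natDegree := by
  have h1 : ∑ P ∈ PP K a b, 1 / (Fintype.card K : ℝ) ^ P.natDegree =
      ∑ r ∈ Finset.Icc a b, ∑ P ∈ Irn K r, 1 / (Fintype.card K : ℝ) ^ P.natDegree := by
    unfold PP
    refine Finset.sum_biUnion ?_
    intro r _ s _ hrs
    rw [Function.onFun, Finset.disjoint_left]
    intro P hP hP'
    exact hrs ((mem_Irn.1 hP).2.1.symm.trans (mem_Irn.1 hP').2.1)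
  have h2 : ∀ r ∈ Finset.Icc a b, 1 / (2 * (r : ℝ)) ≤
      ∑ P ∈ Irn K r, 1 / (Fintype.card K : ℝ) ^ P.natDegree := by
    intro r hr
    rw [Finset.mem_Icc] at hr
    have h3 := irn_wt_ge (k := K) (j := r) (by omega)
    refine h3.trans (le_of_eq ?_)
    refine Finset.sum_congr rfl fun P _ => ?_
    unfold wt
    rw [one_div]
  have h4 : ∑ r ∈ Finset.Icc a b, 1 / (2 * (r : ℝ)) =
      (∑ r ∈ Finset.Icc a b, 1 / (r : ℝ)) / 2 := by
    rw [Finset.sum_div]
    refine Finset.sum_congr rfl fun r _ => ?_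
    rw [div_div, mul_comm]
  have h5 := harm a b (by omega) hab
  rw [h1]
  refine le_trans ?_ (Finset.sum_le_sum h2)
  rw [h4]
  linarith

/-- The decay. -/
theorem decay (q θ ε : ℝ) (hq : 2 ≤ q) (hθ : 0 < θ) (hε : 0 < ε) :
    ∃ n₀ : ℕ, ∀ n : ℕ, n₀ ≤ n → (n : ℝ) ^ 2 * q ^ (-(θ * n)) ≤ ε := by
  have hq0 : (0 : ℝ) < q := by linarith
  have h1 : |q ^ (-θ)| < 1 := by
    rw [abs_of_pos (Real.rpow_pos_of_pos hq0 _)]
    exact Real.rpow_lt_one_of_one_lt_of_neg (by linarith) (by linarith)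
  have h2 := tendsto_pow_const_mul_const_pow_of_abs_lt_one 2 h1
  have h3 := h2.eventually (eventually_le_nhds hε)
  obtain ⟨n₀, hn₀⟩ := Filter.eventually_atTop.1 h3
  refine ⟨n₀, fun n hn => ?_⟩
  have h4 := hn₀ n hn
  have h5 : q ^ (-(θ * n)) = (q ^ (-θ)) ^ n := by
    rw [← Real.rpow_natCast, ← Real.rpow_mul hq0.le]
    congr 1
    ring
  rw [h5]
  exact h4

end NearW

open NearW in
/-- **NEAR.** -/
theorem near (hg : S_good) (hb : S_bad) (hsw : S_swap) : S_near := by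
  intro K _ _ _ A C ε hC hε
  have hq := q_ge (k := K)
  have hq0 : (0 : ℝ) < (Fintype.card K : ℝ) := by linarith
  -- the choice of δ
  obtain ⟨δ, hδ0, hδ1, hδ2⟩ : ∃ δ : ℝ, 0 < δ ∧ δ ≤ 1 / 1000 ∧
      4 * C / ε ≤ Real.log (1 / (400 * δ)) := by
    refine ⟨Real.exp (-(4 * C / ε)) / 1000, by positivity, ?_, ?_⟩
    · have h1 : Real.exp (-(4 * C / ε)) ≤ 1 := by
        rw [Real.exp_le_one_iff]
        have : 0 ≤ 4 * C / ε := by positivity
        linarith
      linarith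
    · rw [Real.le_log_iff_exp_le (by positivity)]
      have h1 : 1 / (400 * (Real.exp (-(4 * C / ε)) / 1000)) = 5 / 2 * Real.exp (4 * C / ε) := by
        rw [Real.exp_neg]
        have := Real.exp_pos (4 * C / ε)
        field_simp
        norm_num
      rw [h1]
      have := Real.exp_pos (4 * C / ε)
      linarith
  obtain ⟨θ, hθ, n₁, hgood⟩ := hg K A C δ hδ0
  obtain ⟨n₂, hdec⟩ := decay (Fintype.card K : ℝ) θ (ε / 2) hq hθ (by positivity)
  refine ⟨min θ (min (δ / 2) (1 / 1000)), by positivity, n₁ + n₂ + 1000 + ⌈4 / δ⌉₊, ?_⟩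
  intro n l z w hn hn3 hz hU hAz hzn hl
  have k1 : min θ (min (δ / 2) (1 / 1000)) ≤ θ := min_le_left _ _
  have k2 : min θ (min (δ / 2) (1 / 1000)) ≤ δ / 2 :=
    (min_le_right _ _).trans (min_le_left _ _)
  have k3 : min θ (min (δ / 2) (1 / 1000)) ≤ 1 / 1000 :=
    (min_le_right _ _).trans (min_le_right _ _)
  generalize min θ (min (δ / 2) (1 / 1000)) = κ at *
  have hnR : (1000 : ℝ) ≤ n := by exact_mod_cast (show 1000 ≤ n by omega)
  have hn0 : (0 : ℝ) < n := by linarith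
  have hnδ : 4 / δ ≤ n := by
    have h1 : 4 / δ ≤ (⌈4 / δ⌉₊ : ℝ) := Nat.le_ceil _
    have h2 : ((⌈4 / δ⌉₊ : ℕ) : ℝ) ≤ n := by exact_mod_cast (show ⌈4 / δ⌉₊ ≤ n by omega)
    linarith
  have hnδ' : 4 ≤ δ * n := by
    rw [div_le_iff₀ hδ0] at hnδ
    linarith
  have m1 : κ * n ≤ θ * n := mul_le_mul_of_nonneg_right k1 hn0.le
  have m2 : κ * n ≤ δ / 2 * n := mul_le_mul_of_nonneg_right k2 hn0.le
  have m3 : κ * n ≤ 1 / 1000 * n := mul_le_mul_of_nonneg_right k3 hn0.le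
  have m4 : δ * n ≤ 1 / 1000 * n := mul_le_mul_of_nonneg_right hδ1 hn0.le
  have hln : l ≤ n := by
    have h1 := (abs_le.1 hl).2
    have h2 : (l : ℝ) ≤ n := by linarith
    exact_mod_cast h2
  obtain ⟨k, hk⟩ : ∃ k, k = n - l := ⟨_, rfl⟩
  have hnk : n - k = l := by omega
  have hkR : (k : ℝ) = n - l := by
    have h1 : k + l = n := by omega
    have h2 : (k : ℝ) + l = n := by exact_mod_cast h1
    linarith
  have hk' : |(k : ℝ) - n / 3| ≤ κ * n := by
    rw [hkR]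
    have h1 : (n : ℝ) - l - n / 3 = -((l : ℝ) - 2 * n / 3) := by ring
    rw [h1, abs_neg]
    exact hl
  have hk1 := (abs_le.1 hk').1
  have hk2 := (abs_le.1 hk').2
  -- the range of the degrees
  obtain ⟨r₀, hr₀⟩ : ∃ r₀, r₀ = ⌈δ * n⌉₊ := ⟨_, rfl⟩
  obtain ⟨r₁, hr₁⟩ : ∃ r₁, r₁ = n / 200 := ⟨_, rfl⟩
  have a1 : δ * n ≤ r₀ := by
    rw [hr₀]
    exact Nat.le_ceil _
  have a2 : (r₀ : ℝ) ≤ 2 * (δ * n) := by
    have h1 : (r₀ : ℝ) < δ * n + 1 := by
      rw [hr₀]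
      exact Nat.ceil_lt_add_one (by positivity)
    linarith
  have a3 : (4 : ℕ) ≤ r₀ := by
    have h1 : (4 : ℝ) ≤ r₀ := by linarith
    exact_mod_cast h1
  have a4 : 200 * r₁ ≤ n := by omega
  have a5 : n < 200 * (r₁ + 1) := by omega
  have a5' : (n : ℝ) < 200 * ((r₁ : ℝ) + 1) := by exact_mod_cast a5
  have a4' : 200 * (r₁ : ℝ) ≤ n := by exact_mod_cast a4
  have a6 : r₀ ≤ r₁ := by
    have h1 : (r₀ : ℝ) ≤ r₁ := by linarith
    exact_mod_cast h1
  have a7 : z < r₀ := by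
    have h1 : (z : ℝ) < r₀ := by linarith
    exact_mod_cast h1
  have hG := hgood n k z r₀ r₁ w (by omega) hn3 hU (hAz.trans m1) (hk'.trans m1) a1 a6 a4 a7
  have hB := hb K A C hC n k z r₀ r₁ w hn3 hU a7 hz
    (by
      have h1 : 2 * (k : ℝ) + 2 * ((A * z : ℕ) : ℝ) + 1 ≤ n := by linarith
      exact_mod_cast h1)
    (by
      have h1 : ((A * z : ℕ) : ℝ) + 2 * (r₁ : ℝ) ≤ k := by linarith
      exact_mod_cast h1)
  have hL : 2 * C / ε ≤ ∑ P ∈ PP K r₀ r₁, 1 / (Fintype.card K : ℝ) ^ P.natDegree := by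
    refine le_trans ?_ (lam_ge K r₀ r₁ a3 a6)
    have h1 : 1 / (400 * δ) ≤ ((r₁ : ℝ) + 1) / r₀ := by
      have hr0 : (0 : ℝ) < r₀ := by linarith
      rw [div_le_div_iff₀ (by positivity) hr0]
      nlinarith
    have h2 : Real.log (1 / (400 * δ)) ≤ Real.log (((r₁ : ℝ) + 1) / r₀) :=
      Real.log_le_log (by positivity) h1
    have h3 : 2 * C / ε = (4 * C / ε) / 2 := by ring
    linarith
  have hz0 : (0 : ℝ) < z := by exact_mod_cast hz
  have hzn' : (z : ℝ) ≤ n := by linarith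
  -- the identity
  have hsplit : Nn K n l z w =
      (∑ M ∈ (Mn K k).filter (fun M => Squarefree M ∧ ∃ P ∈ PP K r₀ r₁, P ∣ M),
        ∑ D ∈ (Mn K (n - k)).filter (fun D => derivative (derivative (M * D)) = 0),
          (mob D : ℝ) * bw z w (M * D)) +
      ∑ M ∈ (Mn K k).filter (fun M => Squarefree M ∧ ¬ ∃ P ∈ PP K r₀ r₁, P ∣ M),
        ∑ D ∈ (Mn K (n - k)).filter (fun D => derivative (derivative (M * D)) = 0),
          (mob D : ℝ) * bw z w (M * D) := by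
    rw [hsw K n l z w hln, ← hk, hnk, ← Finset.filter_filter, ← Finset.filter_filter]
    exact (Finset.sum_filter_add_sum_filter_not _ _ _).symm
  have hqν : (0 : ℝ) < (Fintype.card K : ℝ) ^ nu n := by positivity
  -- the good part
  have hG2 : (Fintype.card K : ℝ) ^ ((nu n : ℝ) - θ * n) ≤
      ε / 2 * (Fintype.card K : ℝ) ^ nu n / (z : ℝ) ^ 2 := by
    have h1 : (Fintype.card K : ℝ) ^ ((nu n : ℝ) - θ * n) =
        (Fintype.card K : ℝ) ^ nu n * (Fintype.card K : ℝ) ^ (-(θ * n)) := by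
      rw [← Real.rpow_natCast, ← Real.rpow_add hq0]
      congr 1
    have h2 := hdec n (by omega)
    have h3 : (0 : ℝ) < (Fintype.card K : ℝ) ^ (-(θ * n)) := Real.rpow_pos_of_pos hq0 _
    have h4 : (z : ℝ) ^ 2 * (Fintype.card K : ℝ) ^ (-(θ * n)) ≤ ε / 2 :=
      le_trans (mul_le_mul_of_nonneg_right (pow_le_pow_left₀ hz0.le hzn' 2) h3.le) h2
    rw [h1, le_div_iff₀ (by positivity)]
    calc (Fintype.card K : ℝ) ^ nu n * (Fintype.card K : ℝ) ^ (-(θ * n)) * (z : ℝ) ^ 2 =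
        (z : ℝ) ^ 2 * (Fintype.card K : ℝ) ^ (-(θ * n)) * (Fintype.card K : ℝ) ^ nu n := by ring
      _ ≤ ε / 2 * (Fintype.card K : ℝ) ^ nu n := mul_le_mul_of_nonneg_right h4 hqν.le
  -- the bad part
  have hB2 : ∑ M ∈ (Mn K k).filter (fun M => Squarefree M ∧ ¬ ∃ P ∈ PP K r₀ r₁, P ∣ M),
        ∑ D ∈ (Mn K (n - k)).filter (fun D => derivative (derivative (M * D)) = 0),
          |(mob D : ℝ) * bw z w (M * D)| ≤
      ε / 2 * (Fintype.card K : ℝ) ^ nu n / (z : ℝ) ^ 2 := by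
    have h0 : 0 ≤ ∑ M ∈ (Mn K k).filter (fun M => Squarefree M ∧ ¬ ∃ P ∈ PP K r₀ r₁, P ∣ M),
        ∑ D ∈ (Mn K (n - k)).filter (fun D => derivative (derivative (M * D)) = 0),
          |(mob D : ℝ) * bw z w (M * D)| :=
      Finset.sum_nonneg fun _ _ => Finset.sum_nonneg fun _ _ => abs_nonneg _
    generalize (∑ M ∈ (Mn K k).filter (fun M => Squarefree M ∧ ¬ ∃ P ∈ PP K r₀ r₁, P ∣ M),
        ∑ D ∈ (Mn K (n - k)).filter (fun D => derivative (derivative (M * D)) = 0),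
          |(mob D : ℝ) * bw z w (M * D)|) = B at hB h0 ⊢
    have h1 : 2 * C / ε * B ≤ C / (z : ℝ) ^ 2 * (Fintype.card K : ℝ) ^ nu n :=
      (mul_le_mul_of_nonneg_right hL h0).trans hB
    have h2 : B = ε / (2 * C) * (2 * C / ε * B) := by
      field_simp
    have h3 : ε / 2 * (Fintype.card K : ℝ) ^ nu n / (z : ℝ) ^ 2 =
        ε / (2 * C) * (C / (z : ℝ) ^ 2 * (Fintype.card K : ℝ) ^ nu n) := by
      field_simp
    rw [h2, h3]
    exact mul_le_mul_of_nonneg_left h1 (by positivity)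
  have hB3 : |∑ M ∈ (Mn K k).filter (fun M => Squarefree M ∧ ¬ ∃ P ∈ PP K r₀ r₁, P ∣ M),
        ∑ D ∈ (Mn K (n - k)).filter (fun D => derivative (derivative (M * D)) = 0),
          (mob D : ℝ) * bw z w (M * D)| ≤
      ε / 2 * (Fintype.card K : ℝ) ^ nu n / (z : ℝ) ^ 2 := by
    refine le_trans ?_ hB2
    refine (Finset.abs_sum_le_sum_abs _ _).trans ?_
    exact Finset.sum_le_sum fun M _ => Finset.abs_sum_le_sum_abs _ _
  rw [hsplit]
  refine (abs_add_le _ _).trans ?_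
  have h5 := add_le_add (hG.trans hG2) hB3
  refine h5.trans (le_of_eq ?_)
  ring

end Pool.Agent.H6.W
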