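import Pool.Agent.H6.W.Stm

/-!
# PV: the Polya-Vinogradov inequality for additive subgroups (helper178 for helper6)

`Good R χ C`: the convolution with `χ` on the finite group `R` has norm at most `√C`.
`exists_model`: the symbol `f ↦ jac f b`, `b ≠ 0`, is induced from a finite group `R`, by a function
which is good with the constant `|K| ^ deg b`.
-/

set_option autoImplicit false

namespace Pool.Agent.H6.W

open Polynomial Finset
open scoped Classical

namespace Pv

/-- The convolution with `χ` has norm at most `√C`. -/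
def Good (R : Type) [AddCommGroup R] [Fintype R] (χ : R → ℝ) (C : ℝ) : Prop :=
  ∀ f : R → ℝ, ∑ x, (∑ y, χ (x - y) * f y) ^ 2 ≤ C * ∑ y, f y ^ 2

theorem Good.mono {R : Type} [AddCommGroup R] [Fintype R] {χ : R → ℝ} {C D : ℝ}
    (h : Good R χ C) (hCD : C ≤ D) : Good R χ D := fun f =>
  (h f).trans (mul_le_mul_of_nonneg_right hCD (Finset.sum_nonneg fun _ _ => sq_nonneg _))

theorem Good.prod {R S : Type} [AddCommGroup R] [Fintype R] [AddCommGroup S] [Fintype S]
    {χ : R → ℝ} {ξ : S → ℝ} {C D : ℝ} (h : Good R χ C) (h' : Good S ξ D) (hC : 0 ≤ C) :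
    Good (R × S) (fun x => χ x.1 * ξ x.2) (C * D) := by
  intro f
  have e1 : ∀ x : R × S, ∑ y : R × S, χ (x - y).1 * ξ (x - y).2 * f y =
      ∑ y : R, χ (x.1 - y) * ∑ t : S, ξ (x.2 - t) * f (y, t) := by
    intro x
    rw [Fintype.sum_prod_type]
    refine Finset.sum_congr rfl fun y _ => ?_
    rw [Finset.mul_sum]
    refine Finset.sum_congr rfl fun t _ => ?_
    simp only [Prod.fst_sub, Prod.snd_sub]
    ring
  calc ∑ x : R × S, (∑ y : R × S, χ (x - y).1 * ξ (x - y).2 * f y) ^ 2
      = ∑ x : R × S, (∑ y : R, χ (x.1 - y) * ∑ t : S, ξ (x.2 - t) * f (y, t)) ^ 2 := by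
        refine Finset.sum_congr rfl fun x _ => ?_
        rw [e1]
    _ = ∑ s : S, ∑ x : R, (∑ y : R, χ (x - y) * ∑ t : S, ξ (s - t) * f (y, t)) ^ 2 := by
        rw [Fintype.sum_prod_type, Finset.sum_comm]
    _ ≤ ∑ s : S, C * ∑ y : R, (∑ t : S, ξ (s - t) * f (y, t)) ^ 2 :=
        Finset.sum_le_sum fun s _ => h (fun y => ∑ t : S, ξ (s - t) * f (y, t))
    _ = C * ∑ y : R, ∑ s : S, (∑ t : S, ξ (s - t) * f (y, t)) ^ 2 := by
        rw [← Finset.mul_sum, Finset.sum_comm]
    _ ≤ C * ∑ y : R, D * ∑ t : S, f (y, t) ^ 2 :=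
        mul_le_mul_of_nonneg_left
          (Finset.sum_le_sum fun y _ => h' (fun t => f (y, t))) hC
    _ = C * D * ∑ y : R × S, f y ^ 2 := by
        rw [Fintype.sum_prod_type, ← Finset.mul_sum, mul_assoc]

/-- The sum over a coset of the image of a homomorphism. -/
theorem Good.bound {R : Type} [AddCommGroup R] [Fintype R] {χ : R → ℝ} {C : ℝ}
    (h : Good R χ C) (hC : 0 ≤ C) {H : Type} [AddCommGroup H] [Fintype H] (ψ : H →+ R) (e : R)
    (Z : Finset H) (hZ : ∀ x, x ∈ Z ↔ ψ x = 0) :
    |∑ x : H, χ (e + ψ x)| ≤ (Z.card : ℝ) * √C := by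
  have hZ' : Z = (Finset.univ : Finset H).filter (fun x => ψ x = 0) := by
    ext x
    simp [hZ]
  set N : ℝ := (Z.card : ℝ) with hN
  have hN0 : 0 ≤ N := Nat.cast_nonneg _
  set F : R → ℝ := fun r => ∑ x : H, if ψ x = r then (1 : ℝ) else 0 with hF
  have hsum : ∀ g : R → ℝ, ∑ r, F r * g r = ∑ x : H, g (ψ x) := by
    intro g
    simp only [hF, Finset.sum_mul]
    rw [Finset.sum_comm]
    refine Finset.sum_congr rfl fun x _ => ?_
    rw [Finset.sum_eq_single (ψ x)]
    · rw [if_pos rfl, one_mul]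
    · intro r _ hr
      rw [if_neg (fun h => hr h.symm), zero_mul]
    · intro h
      exact absurd (Finset.mem_univ _) h
  have hFψ : ∀ x : H, F (ψ x) = N := by
    intro x
    simp only [hF]
    rw [← Equiv.sum_comp (Equiv.addRight x)]
    simp only [Equiv.coe_addRight, map_add, add_eq_right]
    rw [Finset.sum_boole, hN, hZ']
  have hFF : ∑ r, F r ^ 2 = Fintype.card H * N := by
    have h1 : ∑ r, F r ^ 2 = ∑ r, F r * F r := Finset.sum_congr rfl fun r _ => sq _
    rw [h1, hsum]
    rw [Finset.sum_congr rfl fun x _ => hFψ x, Finset.sum_const, Finset.card_univ, nsmul_eq_mul]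
  set S : ℝ := ∑ x : H, χ (e + ψ x) with hS
  have hHS : (Fintype.card H : ℝ) * S = ∑ r, F (r - e) * ∑ y, χ (r - y) * F y := by
    rw [← Equiv.sum_comp (Equiv.addRight e)]
    simp only [Equiv.coe_addRight, add_sub_cancel_right]
    rw [hsum]
    have h1 : ∀ x : H, ∑ y, χ (ψ x + e - y) * F y = S := by
      intro x
      have h2 : ∑ y, χ (ψ x + e - y) * F y = ∑ y, F y * χ (ψ x + e - y) :=
        Finset.sum_congr rfl fun y _ => mul_comm _ _
      rw [h2, hsum, hS, ← Equiv.sum_comp (Equiv.subLeft x)]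
      refine Finset.sum_congr rfl fun y _ => ?_
      congr 1
      simp only [Equiv.subLeft_apply, map_sub]
      abel
    rw [Finset.sum_congr rfl fun x _ => h1 x, Finset.sum_const, Finset.card_univ, nsmul_eq_mul]
  have hCS : ((Fintype.card H : ℝ) * S) ^ 2 ≤ ((Fintype.card H : ℝ) * N * √C) ^ 2 := by
    rw [hHS]
    refine (Finset.sum_mul_sq_le_sq_mul_sq _ _ _).trans ?_
    have h3 : ∑ r, F (r - e) ^ 2 = Fintype.card H * N := by
      rw [← hFF]
      exact Equiv.sum_comp (Equiv.subRight e) (fun r => F r ^ 2)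
    rw [h3]
    have h4 := h F
    rw [hFF] at h4
    refine (mul_le_mul_of_nonneg_left h4 (by positivity)).trans (le_of_eq ?_)
    rw [mul_pow ((Fintype.card H : ℝ) * N), Real.sq_sqrt hC]
    ring
  have hH : (0 : ℝ) < Fintype.card H := by exact_mod_cast Fintype.card_pos
  have h5 := abs_le_of_sq_le_sq hCS (by positivity)
  rw [abs_mul, abs_of_pos hH, mul_assoc] at h5
  exact le_of_mul_le_mul_left h5 hH

/-- The product of shifted quadratic characters. -/
theorem sum_quad {F : Type} [Field F] [Fintype F] [DecidableEq F] (hF : ringChar F ≠ 2) (c : F)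
    (hc : c ≠ 0) : ∑ x : F, ((quadraticChar F x : ℤ) : ℝ) * ((quadraticChar F (x + c) : ℤ) : ℝ) =
      -1 := by
  have h1 : ∀ x : F, quadraticChar F x * quadraticChar F (x + c) =
      quadraticChar F (1 + c * x⁻¹) - if x = 0 then 1 else 0 := by
    intro x
    by_cases hx : x = 0
    · subst hx
      simp
    · rw [if_neg hx, sub_zero]
      have h2 : x + c = x * (1 + c * x⁻¹) := by
        field_simp
      have h3 : quadraticChar F x * quadraticChar F x = 1 := by
        rw [← sq]
        exact quadraticChar_sq_one hx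
      rw [h2, map_mul, ← mul_assoc, h3, one_mul]
  have h4 : ∑ x : F, quadraticChar F x * quadraticChar F (x + c) = -1 := by
    rw [Finset.sum_congr rfl fun x _ => h1 x, Finset.sum_sub_distrib]
    have h5 : ∑ x : F, quadraticChar F (1 + c * x⁻¹) = 0 := by
      have h6 := Equiv.sum_comp (((Equiv.inv F).trans (Equiv.mulLeft₀ c hc)).trans
        (Equiv.addLeft 1)) (fun x => quadraticChar F x)
      rw [quadraticChar_sum_zero hF] at h6
      exact h6
    rw [h5]
    simp
  exact_mod_cast h4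

/-- The quadratic character. -/
theorem good_quad {F : Type} [Field F] [Fintype F] [DecidableEq F] (hF : ringChar F ≠ 2) :
    Good F (fun x => ((quadraticChar F x : ℤ) : ℝ)) (Fintype.card F) := by
  intro f
  set χ : F → ℝ := fun x => ((quadraticChar F x : ℤ) : ℝ) with hχ
  have hJ : ∀ y z : F, ∑ x : F, χ (x - y) * χ (x - z) =
      (if y = z then (Fintype.card F : ℝ) else 0) - 1 := by
    intro y z
    by_cases hyz : y = z
    · subst hyz
      have h0 : ∑ x : F, χ (x - y) * χ (x - y) = ∑ x : F, χ x * χ x :=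
        Equiv.sum_comp (Equiv.subRight y) (fun x => χ x * χ x)
      rw [if_pos rfl, h0]
      have h1 : ∀ x : F, χ x * χ x = 1 - if x = 0 then 1 else 0 := by
        intro x
        by_cases hx : x = 0
        · subst hx
          simp [hχ]
        · rw [if_neg hx, sub_zero, ← sq]
          simp only [hχ]
          have := quadraticChar_sq_one hx
          exact_mod_cast this
      rw [Finset.sum_congr rfl fun x _ => h1 x, Finset.sum_sub_distrib]
      simp
    · rw [if_neg hyz, zero_sub, ← sum_quad hF (z - y) (sub_ne_zero.mpr (fun h => hyz h.symm))]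
      rw [← Equiv.sum_comp (Equiv.addRight z)]
      refine Finset.sum_congr rfl fun x _ => ?_
      simp only [Equiv.coe_addRight, add_sub_cancel_right]
      rw [mul_comm]
      simp only [hχ]
      have : x + z - y = x + (z - y) := by ring
      rw [this]
  have hexp : ∑ x : F, (∑ y : F, χ (x - y) * f y) ^ 2 =
      Fintype.card F * ∑ y, f y ^ 2 - (∑ y, f y) ^ 2 := by
    calc ∑ x : F, (∑ y : F, χ (x - y) * f y) ^ 2
        = ∑ x : F, ∑ y : F, ∑ z : F, f y * f z * (χ (x - y) * χ (x - z)) := by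
          refine Finset.sum_congr rfl fun x _ => ?_
          rw [sq, Finset.sum_mul_sum]
          refine Finset.sum_congr rfl fun y _ => Finset.sum_congr rfl fun z _ => ?_
          ring
      _ = ∑ y : F, ∑ z : F, f y * f z * ∑ x : F, χ (x - y) * χ (x - z) := by
          rw [Finset.sum_comm]
          refine Finset.sum_congr rfl fun y _ => ?_
          rw [Finset.sum_comm]
          refine Finset.sum_congr rfl fun z _ => ?_
          rw [Finset.mul_sum]
      _ = ∑ y : F, ∑ z : F, ((if y = z then f y * f z * (Fintype.card F : ℝ) else 0) -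
            f y * f z) := by
          refine Finset.sum_congr rfl fun y _ => Finset.sum_congr rfl fun z _ => ?_
          rw [hJ]
          split_ifs <;> ring
      _ = Fintype.card F * ∑ y, f y ^ 2 - (∑ y, f y) ^ 2 := by
          simp only [Finset.sum_sub_distrib, Finset.sum_ite_eq, Finset.mem_univ, if_true]
          congr 1
          · rw [Finset.mul_sum]
            refine Finset.sum_congr rfl fun y _ => ?_
            ring
          · rw [sq, Finset.sum_mul_sum]
  change ∑ x : F, (∑ y : F, χ (x - y) * f y) ^ 2 ≤ _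
  rw [hexp]
  have := sq_nonneg (∑ y, f y)
  linarith

/-- The indicator of the nonzero elements. -/
theorem good_ne_zero {F : Type} [AddCommGroup F] [Fintype F] [DecidableEq F] :
    Good F (fun x => if x = 0 then 0 else 1) ((Fintype.card F : ℝ) ^ 2) := by
  intro f
  set T : ℝ := ∑ y, f y with hT
  have h1 : ∀ x : F, ∑ y : F, (if x - y = 0 then (0 : ℝ) else 1) * f y = T - f x := by
    intro x
    have h2 : ∀ y : F, (if x - y = 0 then (0 : ℝ) else 1) * f y = f y - if y = x then f x else 0 := by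
      intro y
      by_cases h : y = x
      · subst h
        simp
      · rw [if_neg h, if_neg (fun h' => h (sub_eq_zero.mp h').symm)]
        ring
    rw [Finset.sum_congr rfl fun y _ => h2 y, Finset.sum_sub_distrib]
    simp [hT]
  have h3 : ∑ x : F, (T - f x) ^ 2 =
      Fintype.card F * T ^ 2 - 2 * T ^ 2 + ∑ x, f x ^ 2 := by
    have h4 : ∀ x : F, (T - f x) ^ 2 = T ^ 2 - 2 * T * f x + f x ^ 2 := fun x => by ring
    rw [Finset.sum_congr rfl fun x _ => h4 x, Finset.sum_add_distrib, Finset.sum_sub_distrib,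
      ← Finset.mul_sum, ← hT]
    simp
    ring
  have h5 : T ^ 2 ≤ Fintype.card F * ∑ x, f x ^ 2 := by
    have := sq_sum_le_card_mul_sum_sq (s := (Finset.univ : Finset F)) (f := f)
    rw [Finset.card_univ] at this
    exact this
  have hc : (1 : ℝ) ≤ Fintype.card F := by exact_mod_cast Fintype.card_pos
  have h6 : 0 ≤ ∑ x, f x ^ 2 := Finset.sum_nonneg fun _ _ => sq_nonneg _
  change ∑ x : F, (∑ y : F, (if x - y = 0 then (0 : ℝ) else 1) * f y) ^ 2 ≤ _
  rw [Finset.sum_congr rfl fun x _ => by rw [h1 x], h3]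
  rcases le_or_gt 2 (Fintype.card F : ℝ) with h2 | h2
  · have h7 : ((Fintype.card F : ℝ) - 2) * T ^ 2 ≤
        ((Fintype.card F : ℝ) - 2) * (Fintype.card F * ∑ x, f x ^ 2) :=
      mul_le_mul_of_nonneg_left h5 (by linarith)
    nlinarith
  · have h8 : (Fintype.card F : ℝ) * T ^ 2 ≤ 2 * T ^ 2 :=
      mul_le_mul_of_nonneg_right h2.le (sq_nonneg _)
    nlinarith [mul_nonneg (by nlinarith : (0 : ℝ) ≤ (Fintype.card F : ℝ) ^ 2 - 1) h6]

/-- A finite group which induces the symbol modulo `P`. -/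
theorem exists_leg {K : Type} [Field K] [Fintype K] (h2 : (2 : K) ≠ 0) {P : K[X]}
    (hP : Irreducible P) : ∃ (R : Type) (_ : AddCommGroup R) (_ : Fintype R) (π : K[X] →+ R)
      (χ : R → ℝ), Good R χ ((Fintype.card K : ℝ) ^ P.natDegree) ∧
        Good R (fun x => χ x ^ 2) (((Fintype.card K : ℝ) ^ P.natDegree) ^ 2) ∧
        (∀ x, χ x ^ 3 = χ x) ∧ (∀ f, (leg f P : ℝ) = χ (π f)) ∧ ∀ f, π f = 0 ↔ P ∣ f := by
  set I : Ideal K[X] := Ideal.span {P} with hI
  have hmax : I.IsMaximal := PrincipalIdealRing.isMaximal_of_irreducible hP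
  let _ : Field (K[X] ⧸ I) := Ideal.Quotient.field I
  have hfr : Module.finrank K (K[X] ⧸ I) = P.natDegree := finrank_quotient_span_eq_natDegree
  have hfin : Module.Finite K (K[X] ⧸ I) := by
    refine Module.finite_of_finrank_pos ?_
    rw [hfr]
    exact hP.natDegree_pos
  have hfin2 : Finite (K[X] ⧸ I) := Module.finite_of_finite K
  let _ : Fintype (K[X] ⧸ I) := Fintype.ofFinite _
  have hcard : Fintype.card (K[X] ⧸ I) = Fintype.card K ^ P.natDegree := by
    rw [Module.card_eq_pow_finrank (K := K) (V := K[X] ⧸ I), hfr]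
  have hzero : ∀ f : K[X], Ideal.Quotient.mk I f = 0 ↔ P ∣ f := by
    intro f
    rw [Ideal.Quotient.eq_zero_iff_mem, hI, Ideal.mem_span_singleton]
  have hchar : ringChar (K[X] ⧸ I) ≠ 2 := by
    intro h
    have h3 : ((2 : ℕ) : K[X] ⧸ I) = 0 := by
      rw [← h]
      exact ringChar.Nat.cast_ringChar
    have h4 : Ideal.Quotient.mk I (C (2 : K)) = 0 := by
      have : (C (2 : K) : K[X]) = ((2 : ℕ) : K[X]) := by
        rw [← map_natCast (C : K →+* K[X]) 2, Nat.cast_ofNat]
      rw [this, map_natCast]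
      exact h3
    rw [hzero] at h4
    have h5 : IsUnit (C (2 : K)) := Polynomial.isUnit_C.mpr (isUnit_iff_ne_zero.mpr h2)
    exact hP.not_isUnit (isUnit_of_dvd_unit h4 h5)
  have hleg : ∀ f : K[X], leg f P = quadraticChar (K[X] ⧸ I) (Ideal.Quotient.mk I f) := by
    intro f
    unfold leg
    rw [quadraticChar_apply, quadraticCharFun]
    by_cases hf : P ∣ f
    · rw [if_pos hf, if_pos ((hzero f).mpr hf)]
    · rw [if_neg hf, if_neg (fun h => hf ((hzero f).mp h))]
      have hiff : (∃ y : K[X], P ∣ y ^ 2 - f) ↔ IsSquare (Ideal.Quotient.mk I f) := by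
        constructor
        · rintro ⟨y, hy⟩
          refine ⟨Ideal.Quotient.mk I y, ?_⟩
          have h6 := (hzero (y ^ 2 - f)).mpr hy
          rw [map_sub, map_pow, sub_eq_zero] at h6
          rw [← h6, sq]
        · rintro ⟨r, hr⟩
          obtain ⟨y, rfl⟩ := Ideal.Quotient.mk_surjective r
          refine ⟨y, ?_⟩
          rw [← hzero, map_sub, map_pow, hr, sq, sub_self]
      by_cases hs : ∃ y : K[X], P ∣ y ^ 2 - f
      · rw [if_pos hs, if_pos (hiff.mp hs)]
      · rw [if_neg hs, if_neg (fun h => hs (hiff.mpr h))]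
  refine ⟨K[X] ⧸ I, inferInstance, inferInstance, (Ideal.Quotient.mk I).toAddMonoidHom,
    fun x => ((quadraticChar (K[X] ⧸ I) x : ℤ) : ℝ), ?_, ?_, ?_, ?_, hzero⟩
  · have := good_quad hchar
    rw [hcard] at this
    push_cast at this
    exact this
  · have h7 := good_ne_zero (F := K[X] ⧸ I)
    rw [hcard] at h7
    push_cast at h7
    have h8 : (fun x : K[X] ⧸ I => ((quadraticChar (K[X] ⧸ I) x : ℤ) : ℝ) ^ 2) =
        (fun x => if x = 0 then 0 else 1) := by
      funext x
      by_cases hx : x = 0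
      · subst hx
        simp
      · rw [if_neg hx]
        have := quadraticChar_sq_one hx
        exact_mod_cast this
    rw [h8]
    exact h7
  · intro x
    by_cases hx : x = 0
    · subst hx
      simp
    · have := quadraticChar_sq_one hx
      have h9 : ((quadraticChar (K[X] ⧸ I) x : ℤ) : ℝ) ^ 2 = 1 := by exact_mod_cast this
      calc ((quadraticChar (K[X] ⧸ I) x : ℤ) : ℝ) ^ 3
          = ((quadraticChar (K[X] ⧸ I) x : ℤ) : ℝ) ^ 2 *
            ((quadraticChar (K[X] ⧸ I) x : ℤ) : ℝ) := by ring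
        _ = _ := by rw [h9, one_mul]
  · intro f
    rw [hleg f]
    rfl

/-- Powers of the symbol modulo `P`. -/
theorem good_pow {R : Type} [AddCommGroup R] [Fintype R] {χ : R → ℝ} {q : ℝ} (hq : 1 ≤ q)
    (h1 : Good R χ q) (h2 : Good R (fun x => χ x ^ 2) (q ^ 2)) (h3 : ∀ x, χ x ^ 3 = χ x) {n : ℕ}
    (hn : 1 ≤ n) : Good R (fun x => χ x ^ n) (q ^ n) := by
  have hodd : ∀ k : ℕ, ∀ x, χ x ^ (2 * k + 1) = χ x := by
    intro k
    induction k with
    | zero => intro x; simp
    | succ k ih =>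
      intro x
      calc χ x ^ (2 * (k + 1) + 1) = χ x ^ (2 * k + 1) * χ x ^ 2 := by ring
        _ = χ x ^ 3 := by rw [ih]; ring
        _ = χ x := h3 x
  rcases Nat.even_or_odd' n with ⟨k, hk | hk⟩
  · have hk1 : 1 ≤ k := by omega
    have h4 : (fun x => χ x ^ n) = (fun x => χ x ^ 2) := by
      funext x
      obtain ⟨j, rfl⟩ : ∃ j, k = j + 1 := ⟨k - 1, by omega⟩
      calc χ x ^ n = χ x ^ (2 * j + 1) * χ x := by rw [hk]; ring
        _ = χ x ^ 2 := by rw [hodd]; ring
    rw [h4]
    exact h2.mono (pow_le_pow_right₀ hq (by omega))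
  · have h4 : (fun x => χ x ^ n) = χ := by
      funext x
      rw [hk, hodd]
    rw [h4]
    exact h1.mono (by simpa using pow_le_pow_right₀ hq hn)

theorem jac_mul {K : Type} [Field K] (f : K[X]) {a b : K[X]} (ha : a ≠ 0) (hb : b ≠ 0) :
    jac f (a * b) = jac f a * jac f b := by
  unfold jac
  rw [UniqueFactorizationMonoid.normalizedFactors_mul ha hb, Multiset.map_add, Multiset.prod_add]

theorem jac_pow {K : Type} [Field K] (f : K[X]) {P : K[X]} (hP : Irreducible P)
    (hm : P.Monic) (n : ℕ) : jac f (P ^ n) = leg f P ^ n := by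
  unfold jac
  rw [UniqueFactorizationMonoid.normalizedFactors_pow,
    UniqueFactorizationMonoid.normalizedFactors_irreducible hP, hm.normalize_eq_self,
    Multiset.map_nsmul, Multiset.map_singleton, Multiset.prod_nsmul, Multiset.prod_singleton]

theorem jac_unit {K : Type} [Field K] (f : K[X]) {b : K[X]} (hb : IsUnit b) : jac f b = 1 := by
  unfold jac
  rw [UniqueFactorizationMonoid.normalizedFactors_of_isUnit hb]
  simp

/-- A finite group which induces the symbol modulo `b`. -/
theorem exists_model {K : Type} [Field K] [Fintype K] (h2 : (2 : K) ≠ 0) : ∀ (d : ℕ) (b : K[X]),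
    b ≠ 0 → b.natDegree = d → ∃ (R : Type) (_ : AddCommGroup R) (_ : Fintype R) (π : K[X] →+ R)
      (χ : R → ℝ), Good R χ ((Fintype.card K : ℝ) ^ b.natDegree) ∧
        (∀ f, (jac f b : ℝ) = χ (π f)) ∧
        ∀ f, π f = 0 ↔ ∀ P : K[X], Irreducible P → P ∣ b → P ∣ f := by
  intro d
  induction d using Nat.strong_induction_on with
  | _ d ih =>
  intro b hb hd
  have hK : (1 : ℝ) ≤ Fintype.card K := by exact_mod_cast Fintype.card_pos
  by_cases hu : IsUnit b
  · refine ⟨PUnit, inferInstance, inferInstance, 0, fun _ => 1, ?_, ?_, ?_⟩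
    · intro f
      have : (1 : ℝ) ≤ (Fintype.card K : ℝ) ^ b.natDegree := one_le_pow₀ hK
      simp only [Finset.univ_unique, Finset.sum_singleton, one_mul]
      nlinarith [sq_nonneg (f default)]
    · intro f
      rw [jac_unit f hu]
      simp
    · intro f
      refine ⟨fun _ P hP hPb => absurd (isUnit_of_dvd_unit hPb hu) hP.not_isUnit, fun _ => rfl⟩
  · obtain ⟨P, hPm, hP, hPb⟩ := Polynomial.exists_monic_irreducible_factor b hu
    have hfm : FiniteMultiplicity P b :=
      FiniteMultiplicity.of_prime_left hP.prime hb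
    obtain ⟨c, hc, hPc⟩ := hfm.exists_eq_pow_mul_and_not_dvd
    set n : ℕ := multiplicity P b with hn
    have hn1 : 1 ≤ n := by
      by_contra h
      have h0 : n = 0 := by omega
      rw [h0, pow_zero, one_mul] at hc
      rw [hc] at hPb
      exact hPc hPb
    have hc0 : c ≠ 0 := by
      rintro rfl
      exact hPc (dvd_zero P)
    have hPn0 : P ^ n ≠ 0 := pow_ne_zero _ hP.ne_zero
    have hdeg : b.natDegree = n * P.natDegree + c.natDegree := by
      rw [hc, natDegree_mul hPn0 hc0, natDegree_pow]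
    have hPpos : 0 < P.natDegree := hP.natDegree_pos
    have hlt : c.natDegree < d := by
      have : 0 < n * P.natDegree := Nat.mul_pos (by omega) hPpos
      omega
    obtain ⟨R', i1, i2, π', χ', hg', hj', hz'⟩ := ih c.natDegree hlt c hc0 rfl
    obtain ⟨R, i3, i4, π, χ, hg1, hg2, hg3, hj, hz⟩ := exists_leg h2 hP
    refine ⟨R × R', inferInstance, inferInstance, π.prod π',
      fun x => χ x.1 ^ n * χ' x.2, ?_, ?_, ?_⟩
    · have h4 := (good_pow (one_le_pow₀ hK) hg1 hg2 hg3 hn1).prod hg' (by positivity)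
      have h5 : ((Fintype.card K : ℝ) ^ P.natDegree) ^ n * (Fintype.card K : ℝ) ^ c.natDegree =
          (Fintype.card K : ℝ) ^ b.natDegree := by
        rw [hdeg, pow_add, ← pow_mul]
        congr 2
        ring
      rw [h5] at h4
      exact h4
    · intro f
      rw [hc, jac_mul f hPn0 hc0, jac_pow f hP hPm]
      push_cast
      rw [hj f, hj' f]
      rfl
    · intro f
      have h6 : (π.prod π') f = 0 ↔ π f = 0 ∧ π' f = 0 := by
        rw [AddMonoidHom.prod_apply, Prod.mk_eq_zero]
      rw [h6, hz, hz']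
      constructor
      · rintro ⟨h7, h8⟩ Q hQ hQb
        rw [hc] at hQb
        rcases hQ.prime.dvd_or_dvd hQb with h9 | h9
        · have h10 := hQ.prime.dvd_of_dvd_pow h9
          exact ((hQ.associated_of_dvd hP h10).dvd_iff_dvd_left).mpr h7
        · exact h8 Q hQ h9
      · intro h7
        refine ⟨h7 P hP hPb, fun Q hQ hQc => h7 Q hQ ?_⟩
        rw [hc]
        exact dvd_mul_of_dvd_right hQc _

theorem dvd_iff_of_squarefree {K : Type} [Field K] {M f : K[X]} (hM : M ≠ 0)
    (hs : Squarefree M) : (∀ P : K[X], Irreducible P → P ∣ M → P ∣ f) ↔ M ∣ f := by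
  constructor
  · intro h
    by_cases hf : f = 0
    · subst hf
      exact dvd_zero M
    rw [UniqueFactorizationMonoid.dvd_iff_normalizedFactors_le_normalizedFactors hM hf,
      Multiset.le_iff_subset
        ((UniqueFactorizationMonoid.squarefree_iff_nodup_normalizedFactors hM).mp hs)]
    intro P hP
    have hPi := UniqueFactorizationMonoid.irreducible_of_normalized_factor P hP
    have hPd := h P hPi (UniqueFactorizationMonoid.dvd_of_mem_normalizedFactors hP)
    obtain ⟨Q, hQ, hPQ⟩ := UniqueFactorizationMonoid.exists_mem_normalizedFactors_of_dvd hf hPi hPd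
    have e1 := UniqueFactorizationMonoid.normalize_normalized_factor P hP
    have e2 := UniqueFactorizationMonoid.normalize_normalized_factor Q hQ
    have e3 : P = Q := by
      rw [← e1, ← e2]
      exact normalize_eq_normalize hPQ.dvd hPQ.symm.dvd
    rw [e3]
    exact hQ
  · intro h P _ hP
    exact hP.trans h

end Pv

theorem pv : S_pv := by
  intro K _ _ h2 M₁ M₂ hM₁ hs₁ hM₂ hs₂ H _ _ φ₁ φ₂ c₁ c₂
  obtain ⟨R₁, i1, i2, π₁, χ₁, hg₁, hj₁, hz₁⟩ := Pv.exists_model h2 _ M₁ hM₁.ne_zero rfl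
  obtain ⟨R₂, i3, i4, π₂, χ₂, hg₂, hj₂, hz₂⟩ := Pv.exists_model h2 _ M₂ hM₂.ne_zero rfl
  have hiff : ∀ x : H, x ∈ (Finset.univ : Finset H).filter (fun h => M₁ ∣ φ₁ h ∧ M₂ ∣ φ₂ h) ↔
      ((π₁.comp φ₁).prod (π₂.comp φ₂)) x = 0 := by
    intro x
    rw [Finset.mem_filter, AddMonoidHom.prod_apply, Prod.mk_eq_zero,
      AddMonoidHom.comp_apply, AddMonoidHom.comp_apply, hz₁, hz₂,
      Pv.dvd_iff_of_squarefree hM₁.ne_zero hs₁, Pv.dvd_iff_of_squarefree hM₂.ne_zero hs₂]
    simp
  have h := (hg₁.prod hg₂ (by positivity)).bound (by positivity)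
    ((π₁.comp φ₁).prod (π₂.comp φ₂)) (π₁ c₁, π₂ c₂) _ hiff
  have e1 : ∀ x : H, ((jac (c₁ + φ₁ x) M₁ : ℤ) : ℝ) * ((jac (c₂ + φ₂ x) M₂ : ℤ) : ℝ) =
      χ₁ (((π₁ c₁, π₂ c₂) : R₁ × R₂) + ((π₁.comp φ₁).prod (π₂.comp φ₂)) x).1 *
        χ₂ (((π₁ c₁, π₂ c₂) : R₁ × R₂) + ((π₁.comp φ₁).prod (π₂.comp φ₂)) x).2 := by
    intro x
    rw [hj₁, hj₂, map_add, map_add]
    rfl
  rw [Finset.sum_congr rfl fun x _ => e1 x]
  refine h.trans (le_of_eq ?_)
  congr 1
  rw [← pow_add, Real.sqrt_eq_rpow, ← Real.rpow_natCast, ← Real.rpow_mul (by positivity)]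
  congr 1
  push_cast
  ring

theorem pv1 : S_pv1 := by
  intro K _ _ h2 b hb H _ _ φ c
  obtain ⟨R, i1, i2, π, χ, hg, hj, hz⟩ := Pv.exists_model h2 _ b hb rfl
  have hiff : ∀ x : H, x ∈ (Finset.univ : Finset H).filter (fun h => ∀ P : K[X], Irreducible P →
      P ∣ b → P ∣ φ h) ↔ (π.comp φ) x = 0 := by
    intro x
    rw [Finset.mem_filter, AddMonoidHom.comp_apply, hz]
    simp
  have h := hg.bound (by positivity) (π.comp φ) (π c) _ hiff
  have e1 : ∀ x : H, ((jac (c + φ x) b : ℤ) : ℝ) = χ (π c + (π.comp φ) x) := by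
    intro x
    rw [hj, map_add]
    rfl
  rw [Finset.sum_congr rfl fun x _ => e1 x]
  refine h.trans (le_of_eq ?_)
  congr 1
  rw [Real.sqrt_eq_rpow, ← Real.rpow_natCast, ← Real.rpow_mul (by positivity)]
  congr 1
  ring

end Pool.Agent.H6.W
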