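import Pool.Agent.H6.W.Stm

/-!
# Project WILSON (helper6), part SWAP: the sum over the cofactor (by helper747)
-/

set_option autoImplicit false
set_option linter.all false

namespace Pool.Agent.H6.W

open Polynomial
open scoped Classical
open Pool.Agent.H985.Chow (mob)
open Pool.Agent.H694.Typ (Mn PU Irn mem_Mn)
open Pool.Agent.H604.LD (BHW bw Pz S_bhw)
open Pool.Agent.H290.CT (V)

theorem swap_mob {K : Type} [Field K] {D : K[X]} (h : ¬ Squarefree D) : mob D = 0 := by
  unfold mob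
  rw [if_neg h]

/-- The key lemma: if `(M D)'' = 0`, the product of the squarefree `M`, `D` is squarefree. -/
theorem swap_sqf {K : Type} [Field K] [Fintype K] [CharP K 3] {M D : K[X]} (hM : Squarefree M)
    (hD : Squarefree D) (h : derivative (derivative (M * D)) = 0) : Squarefree (M * D) := by
  have h2 : (2 : K) ≠ 0 := by
    intro h1
    have h3 : ((2 : ℕ) : K) = 0 := by exact_mod_cast h1
    rw [CharP.cast_eq_zero_iff K 3] at h3
    omega
  rw [squarefree_iff_irreducible_sq_not_dvd_of_ne_zero (mul_ne_zero hM.ne_zero hD.ne_zero)]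
  intro P hP hPP
  have hcop : ∀ A : K[X], ¬ P ∣ A → IsCoprime (P * P) A := fun A hA => by
    have h1 := (hP.coprime_iff_not_dvd).2 hA
    exact h1.mul_left h1
  have hPM : P ∣ M := by
    by_contra h1
    exact hP.not_isUnit (hD P ((hcop M h1).dvd_of_dvd_mul_left hPP))
  have hPD : P ∣ D := by
    by_contra h1
    exact hP.not_isUnit (hM P ((hcop D h1).dvd_of_dvd_mul_right hPP))
  obtain ⟨M1, hM1⟩ := hPM
  obtain ⟨D1, hD1⟩ := hPD
  have h3 : P ∣ derivative P ^ 2 * (M1 * D1) := by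
    have h4 : derivative (derivative (M * D)) = 2 * (derivative P ^ 2 * (M1 * D1)) +
        P * (2 * derivative (derivative P) * (M1 * D1) +
          4 * derivative P * derivative (M1 * D1) + P * derivative (derivative (M1 * D1))) := by
      rw [hM1, hD1]
      simp only [derivative_mul, derivative_add]
      ring
    rw [h] at h4
    have h5 : P ∣ 2 * (derivative P ^ 2 * (M1 * D1)) := by
      refine ⟨-(2 * derivative (derivative P) * (M1 * D1) +
          4 * derivative P * derivative (M1 * D1) + P * derivative (derivative (M1 * D1))), ?_⟩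
      linear_combination -h4
    have h6 : IsUnit (2 : K[X]) := by
      have h7 : (2 : K[X]) = C 2 := (map_ofNat (C : K →+* K[X]) 2).symm
      rw [h7, isUnit_C]
      exact h2.isUnit
    exact (h6.dvd_mul_left).1 h5
  have hsep : IsCoprime P (derivative P) := PerfectField.separable_of_irreducible hP
  have h4 : P ∣ M1 * D1 := (hsep.pow_right (n := 2)).dvd_of_dvd_mul_left h3
  rcases hP.prime.dvd_or_dvd h4 with ⟨A, hA⟩ | ⟨A, hA⟩
  · refine hP.not_isUnit (hM P ⟨A, ?_⟩)
    rw [hM1, hA]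
    ring
  · refine hP.not_isUnit (hD P ⟨A, ?_⟩)
    rw [hD1, hA]
    ring

/-- **SWAP.** -/
theorem swap : S_swap := by
  intro K _ _ _ n l z w hl
  unfold Nn
  have hR : ∀ M ∈ (Mn K (n - l)).filter (fun M => Squarefree M),
      ∑ D ∈ (Mn K l).filter (fun D => derivative (derivative (M * D)) = 0),
        (mob D : ℝ) * bw z w (M * D) =
      ∑ D ∈ (Mn K l).filter (fun D => derivative (derivative (M * D)) = 0 ∧ Squarefree D),
        (mob D : ℝ) * bw z w (M * D) := by
    intro M _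
    symm
    refine Finset.sum_subset (fun D hD => ?_) (fun D hD hD' => ?_)
    · rw [Finset.mem_filter] at hD ⊢
      exact ⟨hD.1, hD.2.1⟩
    · rw [Finset.mem_filter] at hD hD'
      have h1 : ¬ Squarefree D := fun h2 => hD' ⟨hD.1, hD.2, h2⟩
      rw [swap_mob h1, Int.cast_zero, zero_mul]
  rw [Finset.sum_congr rfl hR]
  simp only [Finset.mul_sum]
  rw [Finset.sum_sigma', Finset.sum_sigma']
  symm
  refine Finset.sum_bij (fun p _ => ⟨p.1 * p.2, p.2⟩) ?_ ?_ ?_ ?_
  · rintro ⟨M, D⟩ hp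
    rw [Finset.mem_sigma, Finset.mem_filter, Finset.mem_filter, mem_Mn, mem_Mn] at hp
    obtain ⟨⟨⟨hM1, hM2⟩, hM3⟩, ⟨hD1, hD2⟩, hD3, hD4⟩ := hp
    dsimp only at hM1 hM2 hM3 hD1 hD2 hD3 hD4 ⊢
    rw [Finset.mem_sigma, Finset.mem_filter, Finset.mem_filter, mem_Mn]
    unfold WA
    rw [Finset.mem_filter, mem_Mn]
    refine ⟨⟨⟨⟨hM1.mul hD1, ?_⟩, hD3⟩, swap_sqf hM3 hD4 hD3⟩, ⟨hD1, hD2⟩, Dvd.intro_left _ rfl⟩
    rw [hM1.natDegree_mul hD1, hM2, hD2]
    omega
  · rintro ⟨M, D⟩ hp ⟨M', D'⟩ hp' he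
    rw [Finset.mem_sigma, Finset.mem_filter, Finset.mem_filter, mem_Mn, mem_Mn] at hp
    obtain ⟨⟨⟨hM1, hM2⟩, hM3⟩, ⟨hD1, hD2⟩, hD3, hD4⟩ := hp
    dsimp only at hD1
    simp only [Sigma.mk.injEq, heq_eq_eq] at he
    obtain ⟨h1, h2⟩ := he
    subst h2
    rw [mul_right_cancel₀ hD1.ne_zero h1]
  · rintro ⟨N, D⟩ hp
    rw [Finset.mem_sigma, Finset.mem_filter, Finset.mem_filter, mem_Mn] at hp
    unfold WA at hp
    rw [Finset.mem_filter, mem_Mn] at hp
    obtain ⟨⟨⟨⟨hN1, hN2⟩, hN3⟩, hN4⟩, ⟨hD1, hD2⟩, M, hM⟩ := hp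
    dsimp only at hN1 hN2 hN3 hN4 hD1 hD2 hM
    have hM1 : M.Monic := hD1.of_mul_monic_left (by rw [← hM]; exact hN1)
    have hNM : N = M * D := by rw [hM, mul_comm]
    refine ⟨⟨M, D⟩, ?_, ?_⟩
    · rw [Finset.mem_sigma, Finset.mem_filter, Finset.mem_filter, mem_Mn, mem_Mn]
      refine ⟨⟨⟨hM1, ?_⟩, hN4.squarefree_of_dvd ⟨D, hNM⟩⟩, ⟨hD1, hD2⟩, ?_,
        hN4.squarefree_of_dvd ⟨M, hM⟩⟩
      · show M.natDegree = n - l
        rw [hNM, hM1.natDegree_mul hD1, hD2] at hN2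
        omega
      · show derivative (derivative (M * D)) = 0
        rw [← hNM]
        exact hN3
    · rw [hNM]
  · rintro ⟨M, D⟩ hp
    exact mul_comm _ _

end Pool.Agent.H6.W
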