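import Pool.Agent.H6.W.Stm

/-!
# WILSON UNB: the unbalanced types are rare
-/

set_option autoImplicit false

namespace Pool.Agent.H407.WU

open Polynomial
open scoped Classical
open Pool.Agent.H694.Typ (Mn)
open Pool.Agent.H290.CT (V)
open Pool.Agent.H6.W

variable {K : Type} [Field K]

theorem der_cube [CharP K 3] (c : K[X]) : derivative (c ^ 3) = 0 := by
  rw [derivative_pow]
  have h3 : ((3 : ℕ) : K) = 0 := CharP.cast_eq_zero K 3
  rw [h3]
  simp

theorem cube_inj [CharP K 3] {c d : K[X]} (h : c ^ 3 = d ^ 3) : c = d := by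
  have h3 : ((3 : ℕ) : K[X]) = 0 := CharP.cast_eq_zero K[X] 3
  have h3' : (3 : K[X]) = 0 := by exact_mod_cast h3
  have h1 : (c - d) ^ 3 = 0 := by
    linear_combination h + (c * d ^ 2 - c ^ 2 * d) * h3'
  exact sub_eq_zero.1 (pow_eq_zero_iff (by norm_num) |>.1 h1)

/-- the degree of the perturbation -/
theorem deg_lt [Fintype K] {A B c : K[X]} {u v r : ℕ} (hA : A.natDegree = u) (hB : B.Monic)
    (hBv : B.natDegree = v) (hr : 3 * r + u ≤ v) (hc : c ∈ V K r) :
    (c ^ 3 * A).degree < B.degree := by
  rw [Pool.Agent.H290.CT.mem_V] at hc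
  rw [degree_eq_natDegree hB.ne_zero, hBv]
  by_cases h0 : c ^ 3 * A = 0
  · rw [h0, degree_zero]
    exact WithBot.bot_lt_coe _
  · have hc0 : c ≠ 0 := by
      rintro rfl
      apply h0
      simp
    have h1 : c.natDegree < r := (natDegree_lt_iff_degree_lt hc0).2 hc
    refine (natDegree_lt_iff_degree_lt h0).1 ?_
    have h2 : (c ^ 3 * A).natDegree ≤ 3 * c.natDegree + u := by
      refine natDegree_mul_le.trans ?_
      rw [hA]
      have := natDegree_pow_le (p := c) (n := 3)
      omega
    omega

theorem mem_pert [Fintype K] {A B c : K[X]} {u v r : ℕ} (hA : A.natDegree = u) (hB : B.Monic)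
    (hBv : B.natDegree = v) (hr : 3 * r + u ≤ v) (hc : c ∈ V K r) :
    B + c ^ 3 * A ∈ Mn K v := by
  have h1 := deg_lt hA hB hBv hr hc
  rw [Pool.Agent.H694.Typ.mem_Mn]
  exact ⟨hB.add_of_left h1, by rw [natDegree_add_eq_left_of_degree_lt h1, hBv]⟩

theorem unb : S_unb := by
  intro K _ _ _ F G hLB k u v
  rcases (Ty K F G k u v).eq_empty_or_nonempty with he | ⟨M0, hM0⟩
  · rw [he]
    simp
  have hT : ∀ M ∈ Ty K F G k u v, M.Monic ∧ M.natDegree = k ∧ Squarefree M ∧
      (F M).natDegree = u ∧ (G M).natDegree = v := by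
    intro M hM
    unfold Ty at hM
    rw [Finset.mem_filter, Pool.Agent.H694.Typ.mem_Mn] at hM
    exact ⟨hM.1.1, hM.1.2, hM.2.1, hM.2.2.1, hM.2.2.2⟩
  have huv : u + v = k + 1 := by
    obtain ⟨a1, a2, a3, a4, a5⟩ := hT M0 hM0
    obtain ⟨-, -, -, -, b, -⟩ := hLB M0 a1 a3
    rw [a4, a5, a2] at b
    exact b
  have hcard : (Mn K u ×ˢ Mn K v).card = Fintype.card K ^ (k + 1) := by
    rw [Finset.card_product, Pool.Agent.H694.Typ.card_Mn, Pool.Agent.H694.Typ.card_Mn, ← pow_add,
      huv]
  rw [← hcard, ← Pool.Agent.H290.CT.card_V, ← Finset.card_product]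
  rcases le_total u v with huv' | huv'
  · rw [max_eq_right huv', min_eq_left huv']
    refine Finset.card_le_card_of_injOn (fun e => (F e.1, G e.1 + e.2 ^ 3 * F e.1)) ?_ ?_
    · rintro ⟨M, c⟩ hMc
      have hMc' := Finset.mem_product.1 (Finset.mem_coe.1 hMc)
      obtain ⟨a1, a2, a3, a4, a5⟩ := hT M hMc'.1
      obtain ⟨b1, b2, -⟩ := hLB M a1 a3
      refine Finset.mem_coe.2 (Finset.mem_product.2 ⟨?_, ?_⟩)
      · exact Pool.Agent.H694.Typ.mem_Mn.2 ⟨b1, a4⟩
      · exact mem_pert a4 b2 a5 (by omega) hMc'.2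
    · rintro ⟨M, c⟩ hMc ⟨M', c'⟩ hMc' heq
      have g1 := Finset.mem_product.1 (Finset.mem_coe.1 hMc)
      have g2 := Finset.mem_product.1 (Finset.mem_coe.1 hMc')
      obtain ⟨a1, a2, a3, a4, a5⟩ := hT M g1.1
      obtain ⟨a1', a2', a3', a4', a5'⟩ := hT M' g2.1
      obtain ⟨b1, b2, -, -, -, b6, -⟩ := hLB M a1 a3
      obtain ⟨b1', b2', -, -, -, b6', -⟩ := hLB M' a1' a3'
      have e1 : F M = F M' := (Prod.mk.inj heq).1
      have e2 : G M + c ^ 3 * F M = G M' + c' ^ 3 * F M' := (Prod.mk.inj heq).2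
      have e3 : derivative (G M) + c ^ 3 * derivative (F M) =
          derivative (G M') + c' ^ 3 * derivative (F M') := by
        have := congrArg derivative e2
        rw [derivative_add, derivative_add, derivative_mul, derivative_mul, der_cube, der_cube,
          zero_mul, zero_mul, zero_add, zero_add] at this
        exact this
      have e1' : derivative (F M) = derivative (F M') := by rw [e1]
      have hMM : M = M' := by
        rw [← b6, ← b6']
        have hW : F M * derivative (G M) - derivative (F M) * G M =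
            F M * (derivative (G M) + c ^ 3 * derivative (F M)) -
              derivative (F M) * (G M + c ^ 3 * F M) := by ring
        have hW' : F M' * derivative (G M') - derivative (F M') * G M' =
            F M' * (derivative (G M') + c' ^ 3 * derivative (F M')) -
              derivative (F M') * (G M' + c' ^ 3 * F M') := by ring
        rw [hW, hW', e2, e3, e1]
      subst hMM
      have e4 : c ^ 3 = c' ^ 3 := mul_right_cancel₀ b1.ne_zero (add_left_cancel e2)
      rw [cube_inj e4]
  · rw [max_eq_left huv', min_eq_right huv']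
    refine Finset.card_le_card_of_injOn (fun e => (F e.1 + e.2 ^ 3 * G e.1, G e.1)) ?_ ?_
    · rintro ⟨M, c⟩ hMc
      have hMc' := Finset.mem_product.1 (Finset.mem_coe.1 hMc)
      obtain ⟨a1, a2, a3, a4, a5⟩ := hT M hMc'.1
      obtain ⟨b1, b2, -⟩ := hLB M a1 a3
      refine Finset.mem_coe.2 (Finset.mem_product.2 ⟨?_, ?_⟩)
      · exact mem_pert a5 b1 a4 (by omega) hMc'.2
      · exact Pool.Agent.H694.Typ.mem_Mn.2 ⟨b2, a5⟩
    · rintro ⟨M, c⟩ hMc ⟨M', c'⟩ hMc' heq
      have g1 := Finset.mem_product.1 (Finset.mem_coe.1 hMc)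
      have g2 := Finset.mem_product.1 (Finset.mem_coe.1 hMc')
      obtain ⟨a1, a2, a3, a4, a5⟩ := hT M g1.1
      obtain ⟨a1', a2', a3', a4', a5'⟩ := hT M' g2.1
      obtain ⟨b1, b2, -, -, -, b6, -⟩ := hLB M a1 a3
      obtain ⟨b1', b2', -, -, -, b6', -⟩ := hLB M' a1' a3'
      have e1 : G M = G M' := (Prod.mk.inj heq).2
      have e2 : F M + c ^ 3 * G M = F M' + c' ^ 3 * G M' := (Prod.mk.inj heq).1
      have e3 : derivative (F M) + c ^ 3 * derivative (G M) =
          derivative (F M') + c' ^ 3 * derivative (G M') := by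
        have := congrArg derivative e2
        rw [derivative_add, derivative_add, derivative_mul, derivative_mul, der_cube, der_cube,
          zero_mul, zero_mul, zero_add, zero_add] at this
        exact this
      have hMM : M = M' := by
        rw [← b6, ← b6']
        have hW : F M * derivative (G M) - derivative (F M) * G M =
            (F M + c ^ 3 * G M) * derivative (G M) -
              (derivative (F M) + c ^ 3 * derivative (G M)) * G M := by ring
        have hW' : F M' * derivative (G M') - derivative (F M') * G M' =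
            (F M' + c' ^ 3 * G M') * derivative (G M') -
              (derivative (F M') + c' ^ 3 * derivative (G M')) * G M' := by ring
        rw [hW, hW', e2, e3, e1]
      subst hMM
      have e4 : c ^ 3 = c' ^ 3 := mul_right_cancel₀ b2.ne_zero (add_left_cancel e2)
      rw [cube_inj e4]

end Pool.Agent.H407.WU

/-- **UNB** -/
theorem Pool.Agent.H6.W.unb : Pool.Agent.H6.W.S_unb := Pool.Agent.H407.WU.unb
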