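import Pool.Agent.H6.W.Stm

/-!
# The criterion of Thakur for the Wilson primes of `K[X]`
-/

set_option autoImplicit false

namespace Pool.Agent.H6.W

open Polynomial
open scoped Classical
open Pool.Agent.H290.CT (V mem_V)

namespace WilAux

noncomputable section

variable {K : Type} [Field K] [Fintype K]

/-- The data of the residue field. -/
theorem core (h2 : (2 : K) ≠ 0) (P : K[X]) (hP : P.Monic) (hI : Irreducible P) :
    (P ^ 2 ∣ 1 + ∏ a ∈ (V K P.natDegree).filter (fun a => a ≠ 0), a ↔
      derivative (derivative P) = 0) := by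
  have hfact : Fact (Irreducible P) := ⟨hI⟩
  set n := P.natDegree with hn
  have hn1 : 1 ≤ n := hI.natDegree_pos
  set R : AdjoinRoot P →ₗ[K] K[X] := AdjoinRoot.modByMonicHom hP with hR
  have hRmk : ∀ x : AdjoinRoot P, AdjoinRoot.mk P (R x) = x := AdjoinRoot.mk_leftInverse hP
  have hRV : ∀ x : AdjoinRoot P, R x ∈ V K n := by
    intro x
    obtain ⟨f, rfl⟩ := AdjoinRoot.mk_surjective x
    rw [hR, AdjoinRoot.modByMonicHom_mk, mem_V, hn, ← degree_eq_natDegree hP.ne_zero]
    exact degree_modByMonic_lt f hP
  have hRu : ∀ a ∈ V K n, R (AdjoinRoot.mk P a) = a := by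
    intro a ha
    rw [hR, AdjoinRoot.modByMonicHom_mk, modByMonic_eq_self_iff hP, degree_eq_natDegree hP.ne_zero]
    exact mem_V.mp ha
  have hRinj : Function.Injective R := fun x y h => by rw [← hRmk x, ← hRmk y, h]
  have hfin : Finite (AdjoinRoot P) := by
    refine Finite.of_injective (fun x => (⟨R x, hRV x⟩ : {a // a ∈ V K n})) ?_
    intro x y h
    exact hRinj (congrArg Subtype.val h)
  have hft : Fintype (AdjoinRoot P) := Fintype.ofFinite _
  set θ : AdjoinRoot P := AdjoinRoot.root P with hθ
  set S : Finset (AdjoinRoot P) := Finset.univ.filter (fun x => x ≠ 0) with hS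
  have hSm : ∀ x, x ∈ S ↔ x ≠ 0 := by intro x; simp [hS]
  set W := ∏ a ∈ (V K n).filter (fun a => a ≠ 0), a with hW
  have hWR : W = ∏ x ∈ S, R x := by
    rw [hW]
    symm
    refine Finset.prod_bij (fun x _ => R x) ?_ ?_ ?_ ?_
    · intro x hx
      rw [Finset.mem_filter]
      refine ⟨hRV x, ?_⟩
      intro h
      rw [hSm] at hx
      exact hx (by rw [← hRmk x, h, map_zero])
    · intro x _ y _ h
      exact hRinj h
    · intro a ha
      rw [Finset.mem_filter] at ha
      refine ⟨AdjoinRoot.mk P a, ?_, hRu a ha.1⟩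
      rw [hSm]
      intro h
      apply ha.2
      rw [← hRu a ha.1, h, map_zero]
    · intro x _
      rfl
  have hwil : ∏ x ∈ S, x = -1 := by
    have h1 := FiniteField.prod_univ_units_id_eq_neg_one (K := AdjoinRoot P)
    have h2 := congrArg (Units.val) h1
    rw [Units.val_neg, Units.val_one, Units.coe_prod] at h2
    rw [← h2]
    symm
    refine Finset.prod_bij (fun x _ => (x : AdjoinRoot P)) ?_ ?_ ?_ ?_
    · intro x _
      rw [hSm]
      exact x.ne_zero
    · intro x _ y _ h
      exact Units.ext h
    · intro x hx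
      rw [hSm] at hx
      exact ⟨Units.mk0 x hx, Finset.mem_univ _, rfl⟩
    · intro x _
      rfl
  have hmkW : AdjoinRoot.mk P W = -1 := by
    rw [hWR, map_prod, ← hwil]
    exact Finset.prod_congr rfl (fun x _ => hRmk x)
  -- the multiplication by `θ`
  have hmul : ∀ x : AdjoinRoot P, ∃ c : K, X * R x = R (θ * x) + C c * P := by
    intro x
    have h1 : R (θ * x) = (X * R x) %ₘ P := by
      have : θ * x = AdjoinRoot.mk P (X * R x) := by
        rw [map_mul, hRmk, AdjoinRoot.mk_X]
      rw [this, hR, AdjoinRoot.modByMonicHom_mk]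
    have h2 : natDegree ((X * R x) /ₘ P) = 0 := by
      rw [natDegree_divByMonic _ hP]
      have h3 : natDegree (X * R x) ≤ n := by
        by_cases h0 : R x = 0
        · rw [h0, mul_zero, natDegree_zero]; exact Nat.zero_le _
        · rw [natDegree_mul X_ne_zero h0, natDegree_X]
          have := mem_V.mp (hRV x)
          rw [degree_eq_natDegree h0] at this
          have h4 : natDegree (R x) < n := by exact_mod_cast this
          omega
      omega
    refine ⟨((X * R x) /ₘ P).coeff 0, ?_⟩
    rw [h1, ← eq_C_of_natDegree_eq_zero h2, mul_comm _ P]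
    exact (modByMonic_add_div _ P).symm
  choose c hc using hmul
  set A : ℕ → AdjoinRoot P := fun k => ∑ x ∈ S, x⁻¹ * AdjoinRoot.mk P (derivative^[k] (R x)) with hA
  set γ : AdjoinRoot P := ∑ x ∈ S, x⁻¹ * AdjoinRoot.of P (c x) with hγ
  have hre : ∀ k, ∑ x ∈ S, x⁻¹ * AdjoinRoot.mk P (derivative^[k] (R (θ * x))) = θ * A k := by
    intro k
    by_cases h0 : θ = 0
    · rw [h0, zero_mul]
      refine Finset.sum_eq_zero ?_
      intro x _
      rw [zero_mul, map_zero, iterate_derivative_zero, map_zero, mul_zero]
    · rw [hA, Finset.mul_sum]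
      refine Finset.sum_bij (fun x _ => θ * x) ?_ ?_ ?_ ?_
      · intro x hx
        rw [hSm] at *
        exact mul_ne_zero h0 hx
      · intro x _ y _ h
        exact mul_left_cancel₀ h0 h
      · intro y hy
        rw [hSm] at hy
        refine ⟨θ⁻¹ * y, ?_, ?_⟩
        · rw [hSm]; exact mul_ne_zero (inv_ne_zero h0) hy
        · show θ * (θ⁻¹ * y) = y
          rw [← mul_assoc, mul_inv_cancel₀ h0, one_mul]
      · intro x hx
        rw [mul_inv, ← mul_assoc, ← mul_assoc, mul_inv_cancel₀ h0, one_mul]
  have hA0 : A 0 = -1 := by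
    have : A 0 = ∑ x ∈ S, (1 : AdjoinRoot P) := by
      rw [hA]
      refine Finset.sum_congr rfl ?_
      intro x hx
      rw [Function.iterate_zero, id, hRmk, inv_mul_cancel₀ ((hSm x).mp hx)]
    rw [this, Finset.sum_const, nsmul_eq_mul, mul_one]
    have hcard : S.card = Fintype.card (AdjoinRoot P) - 1 := by
      have : S = Finset.univ.erase (0 : AdjoinRoot P) := by
        ext x; simp [hS]
      rw [this, Finset.card_erase_of_mem (Finset.mem_univ _), Finset.card_univ]
    rw [hcard, Nat.cast_sub Fintype.card_pos, Nat.cast_one, FiniteField.cast_card_eq_zero, zero_sub]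
  have hd1 : γ * AdjoinRoot.mk P (derivative P) = -1 := by
    have h1 : ∀ x ∈ S, x⁻¹ * AdjoinRoot.mk P (derivative^[0] (R x)) +
        θ * (x⁻¹ * AdjoinRoot.mk P (derivative^[1] (R x))) =
        x⁻¹ * AdjoinRoot.mk P (derivative^[1] (R (θ * x))) +
          x⁻¹ * AdjoinRoot.of P (c x) * AdjoinRoot.mk P (derivative P) := by
      intro x _
      have h2 := congrArg (fun f => AdjoinRoot.mk P (derivative f)) (hc x)
      simp only [derivative_add, derivative_mul, derivative_X, derivative_C, map_add, map_mul,
        AdjoinRoot.mk_X, AdjoinRoot.mk_C, map_one, map_zero, AdjoinRoot.mk_self, mul_zero, zero_mul,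
        one_mul, zero_add, add_zero] at h2
      simp only [Function.iterate_zero, id, Function.iterate_one]
      rw [← hθ] at h2
      linear_combination x⁻¹ * h2
    have h3 := Finset.sum_congr rfl h1
    rw [Finset.sum_add_distrib, Finset.sum_add_distrib, ← Finset.mul_sum, hre 1,
      ← Finset.sum_mul] at h3
    have h4 : A 0 + θ * A 1 = θ * A 1 + γ * AdjoinRoot.mk P (derivative P) := h3
    rw [← hA0]
    linear_combination -h4
  have hd2 : 2 * A 1 = γ * AdjoinRoot.mk P (derivative (derivative P)) := by
    have h1 : ∀ x ∈ S, 2 * (x⁻¹ * AdjoinRoot.mk P (derivative^[1] (R x))) +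
        θ * (x⁻¹ * AdjoinRoot.mk P (derivative^[2] (R x))) =
        x⁻¹ * AdjoinRoot.mk P (derivative^[2] (R (θ * x))) +
          x⁻¹ * AdjoinRoot.of P (c x) * AdjoinRoot.mk P (derivative (derivative P)) := by
      intro x _
      have h2 := congrArg (fun f => AdjoinRoot.mk P (derivative (derivative f))) (hc x)
      simp only [derivative_add, derivative_mul, derivative_X, derivative_C, map_add, map_mul,
        AdjoinRoot.mk_X, AdjoinRoot.mk_C, map_one, map_zero, AdjoinRoot.mk_self, mul_zero, zero_mul,
        one_mul, zero_add, add_zero, derivative_one, derivative_zero] at h2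
      simp only [Function.iterate_succ, Function.iterate_zero, id, Function.comp]
      rw [← hθ] at h2
      linear_combination x⁻¹ * h2
    have h3 := Finset.sum_congr rfl h1
    rw [Finset.sum_add_distrib, Finset.sum_add_distrib, ← Finset.mul_sum, ← Finset.mul_sum, hre 2,
      ← Finset.sum_mul] at h3
    have h4 : 2 * A 1 + θ * A 2 = θ * A 2 + γ * AdjoinRoot.mk P (derivative (derivative P)) := h3
    linear_combination h4
  have hγ0 : γ ≠ 0 := by
    intro h
    rw [h, zero_mul] at hd1
    exact one_ne_zero (by linear_combination hd1 : (1 : AdjoinRoot P) = 0)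
  have hP'0 : AdjoinRoot.mk P (derivative P) ≠ 0 := by
    intro h
    rw [h, mul_zero] at hd1
    exact one_ne_zero (by linear_combination hd1 : (1 : AdjoinRoot P) = 0)
  have h2' : (2 : AdjoinRoot P) ≠ 0 := by
    have : (2 : AdjoinRoot P) = AdjoinRoot.of P 2 := by rw [map_ofNat]
    rw [this]
    exact (_root_.map_ne_zero _).mpr h2
  -- the derivative of the product
  have hdW : AdjoinRoot.mk P (derivative W) = - A 1 := by
    rw [hWR, derivative_prod_finset, map_sum, hA, ← Finset.sum_neg_distrib]
    refine Finset.sum_congr rfl ?_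
    intro x hx
    rw [map_mul, map_prod]
    have h5 : ∏ y ∈ S.erase x, AdjoinRoot.mk P (R y) = - x⁻¹ := by
      have h6 : (∏ y ∈ S.erase x, y) * x = -1 := by
        rw [← hwil]; exact Finset.prod_erase_mul _ _ hx
      have h7 : ∏ y ∈ S.erase x, AdjoinRoot.mk P (R y) = ∏ y ∈ S.erase x, y :=
        Finset.prod_congr rfl (fun y _ => hRmk y)
      rw [h7]
      have hx0 := (hSm x).mp hx
      field_simp
      exact h6
    rw [h5, Function.iterate_one]
    ring
  -- first condition
  have hdiv : P ∣ 1 + W := by
    rw [← AdjoinRoot.mk_eq_zero, map_add, map_one, hmkW]; ring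
  obtain ⟨Q, hQ⟩ := hdiv
  have hdQ : derivative W = derivative P * Q + P * derivative Q := by
    have := congrArg derivative hQ
    rw [derivative_add, derivative_one, zero_add, derivative_mul] at this
    exact this
  have e1 : P ^ 2 ∣ 1 + W ↔ P ∣ Q := by
    rw [hQ, pow_two]
    exact mul_dvd_mul_iff_left hP.ne_zero
  have e2 : P ∣ Q ↔ A 1 = 0 := by
    rw [← AdjoinRoot.mk_eq_zero]
    have h8 : AdjoinRoot.mk P (derivative P) * AdjoinRoot.mk P Q = - A 1 := by
      rw [← hdW, hdQ, map_add, map_mul, map_mul, AdjoinRoot.mk_self, zero_mul, add_zero]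
    constructor
    · intro h
      rw [h, mul_zero] at h8
      exact neg_eq_zero.mp h8.symm
    · intro h
      rw [h, neg_zero] at h8
      rcases mul_eq_zero.mp h8 with h9 | h9
      · exact absurd h9 hP'0
      · exact h9
  have e3 : A 1 = 0 ↔ AdjoinRoot.mk P (derivative (derivative P)) = 0 := by
    constructor
    · intro h
      rw [h, mul_zero] at hd2
      rcases mul_eq_zero.mp hd2.symm with h9 | h9
      · exact absurd h9 hγ0
      · exact h9
    · intro h
      rw [h, mul_zero] at hd2
      rcases mul_eq_zero.mp hd2 with h9 | h9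
      · exact absurd h9 h2'
      · exact h9
  have e4 : AdjoinRoot.mk P (derivative (derivative P)) = 0 ↔ derivative (derivative P) = 0 := by
    rw [AdjoinRoot.mk_eq_zero]
    constructor
    · intro h
      refine eq_zero_of_dvd_of_natDegree_lt h ?_
      refine lt_of_le_of_lt (natDegree_derivative_le _) ?_
      have := natDegree_derivative_le P
      omega
    · intro h
      rw [h]; exact dvd_zero _
  rw [e1, e2, e3, e4]

end

end WilAux

/-- **WIL.** -/
theorem wil : S_wil := by
  intro K _ _ h2 n P hP hn hI
  subst hn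
  exact WilAux.core h2 P hP hI

end Pool.Agent.H6.W
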