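import Pool.Agent.H6.W.Lat
import Pool.Agent.H6.W.Box
import Pool.Agent.H6.W.Pv
import Pool.Agent.H6.W.Muf
import Pool.Agent.H6.W.Ker
import Pool.Agent.H6.W.Unb
import Pool.Agent.H6.W.Cls
import Pool.Agent.H6.W.Bil
import Pool.Agent.H6.W.Swap
import Pool.Agent.H6.W.Far2a
import Pool.Agent.H6.W.Far2b
import Pool.Agent.H6.W.Good
import Pool.Agent.H6.W.Bad
import Pool.Agent.H6.W.Near
import Pool.Agent.H6.W.Div
import Pool.Agent.H6.W.Irr
import Pool.Agent.H6.W.Gen
import Pool.Agent.H6.W.Far1
import Pool.Agent.H6.W.Hid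
import Pool.Agent.H6.W.Wil
import Pool.Agent.H6.W.Fin
import Pool.Agent.H604.LD.Bhw

/-!
# Wilson primes of `F_q[t]`, `q` a power of three: the theorem
-/

set_option autoImplicit false

namespace Pool.Agent.H6.W

open Polynomial
open scoped Classical
open Pool.Agent.H694.Typ (Mn mem_Mn)
open Pool.Agent.H290.CT (V mem_V)

theorem s_bil : S_bil := bil pv ker cls

theorem s_far1 : S_far1 := far1 div_ (irr Lat.lat box unb) gen

theorem s_far2a : S_far2a := far2a Lat.lat box muf pv1 swap

theorem s_far2b : S_far2b := far2b Lat.lat box muf s_bil unb swap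

theorem s_near : S_near := near (good Lat.lat box muf s_bil unb) (bad Lat.lat box) swap

theorem s_main : S_main :=
  fin wil s_far1 s_far2a s_far2b s_near hid Pool.Agent.H604.LD.bhw

end Pool.Agent.H6.W
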