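import Mathlib
import Pool.Agent.H6.W.Stm
import Pool.Agent.H604.LD.Hid

/-! # The identity for the primes (`S_hid`) -/

set_option autoImplicit false

namespace Pool.Agent.H6.W

open Polynomial
open scoped Classical
open Pool.Agent.H985.Chow (mob)
open Pool.Agent.H694.Typ (Mn mem_Mn)
open Pool.Agent.H604.LD.Hid

variable {K : Type} [Field K] [Fintype K]

/-- the total sum -/
theorem hid_total (c : ℝ) {f : K[X]} (hd : 1 ≤ f.natDegree) (hf : f.Monic) (hs : Squarefree f) :
    ∑ D ∈ Dv f, (mob D : ℝ) * (c - D.natDegree) =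
      if Irreducible f then (f.natDegree : ℝ) else 0 := by
  by_cases hi : Irreducible f
  · rw [if_pos hi]
    have h1 : Dv (1 : K[X]) = {1} := by
      ext D
      rw [mem_Dv one_ne_zero, Finset.mem_singleton]
      constructor
      · rintro ⟨h1, h2⟩
        exact (h1.isUnit_iff).1 (isUnit_of_dvd_one h2)
      · rintro rfl
        exact ⟨monic_one, dvd_rfl⟩
    have hf1 : ¬ f ∣ 1 := fun h => hi.not_isUnit (isUnit_of_dvd_one h)
    have h3 := sum_split hf hi monic_one hf1 (fun D => (mob D : ℝ) * (c - D.natDegree))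
    rw [mul_one] at h3
    rw [h3, h1, Finset.sum_singleton, mul_one, mob_one, mob_irr hi, natDegree_one]
    push_cast
    ring
  · rw [if_neg hi]
    have hnu : ¬ IsUnit f := fun h => by
      rw [hf.isUnit_iff] at h
      rw [h, natDegree_one] at hd
      omega
    obtain ⟨P, hPi, hP, g, hg⟩ := exists_monic_irreducible_factor f hnu
    have hgm : g.Monic := by
      rw [hg] at hf
      exact hPi.of_mul_monic_left hf
    have hg0 : 0 < g.natDegree := by
      rw [Nat.pos_iff_ne_zero]
      intro h0
      have h1 : g = 1 := hgm.natDegree_eq_zero.1 h0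
      rw [hg, h1, mul_one] at hi
      exact hi hP
    rw [hg] at hs ⊢
    have hPg := not_dvd_of_sqf hP hs
    have hgs : Squarefree g := (squarefree_mul_iff.1 hs).2.2
    rw [sum_split hPi hP hgm hPg]
    have h1 : ∑ D ∈ Dv g, ((mob D : ℝ) * (c - D.natDegree) +
        (mob (P * D) : ℝ) * (c - (P * D).natDegree)) =
        (P.natDegree : ℝ) * ∑ D ∈ Dv g, (mob D : ℝ) := by
      rw [Finset.mul_sum]
      refine Finset.sum_congr rfl fun D hD => ?_
      rw [mem_Dv hgm.ne_zero] at hD
      rw [mob_mul_cop (cop_of hP hPg hD.2), mob_irr hP, hPi.natDegree_mul hD.1]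
      push_cast
      ring
    rw [h1, sum_mob_zero hgm hgs hg0, mul_zero]

theorem hid : S_hid := by
  intro K _ _ n c f hn hf hs hdeg
  subst hdeg
  rw [← hid_total c hn hf hs]
  unfold Dv
  rw [Finset.sum_biUnion]
  · refine Finset.sum_congr rfl fun j _ => ?_
    rw [Finset.mul_sum]
    refine Finset.sum_congr rfl fun D hD => ?_
    rw [Finset.mem_filter, mem_Mn] at hD
    rw [hD.1.2, mul_comm]
  · intro i _ j _ hij
    rw [Function.onFun, Finset.disjoint_left]
    intro D hD hD'
    rw [Finset.mem_filter, mem_Mn] at hD hD'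
    exact hij (hD.1.2.symm.trans hD'.1.2)

end Pool.Agent.H6.W
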