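import Pool.Agent.H6.W.Stm

/-!
# LAT: reduced bases of the lattices `{D : (M D)'' = 0}`
-/

set_option autoImplicit false
set_option linter.unusedSectionVars false

namespace Pool.Agent.H6.W.Lat

open Polynomial
open Pool.Agent.H6.W

section

variable {K : Type} [Field K] [Fintype K] [CharP K 3]

theorem threeK : (3 : K) = 0 := by
  have : ((3 : ℕ) : K) = 0 := CharP.cast_eq_zero K 3
  exact_mod_cast this

theorem three : (3 : K[X]) = 0 := by
  have h : (3 : K[X]) = C (3 : K) := (map_ofNat (C : K →+* K[X]) 3).symm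
  rw [h, threeK, C_0]

theorem cube_add (a b : K[X]) : (a + b) ^ 3 = a ^ 3 + b ^ 3 := by
  linear_combination (a ^ 2 * b + a * b ^ 2) * (three (K := K))

theorem cube_sub (a b : K[X]) : (a - b) ^ 3 = a ^ 3 - b ^ 3 := by
  linear_combination (a * b ^ 2 - a ^ 2 * b) * (three (K := K))

theorem der_cube (a : K[X]) : derivative (a ^ 3) = 0 := by
  rw [derivative_pow]
  have h : C ((3 : ℕ) : K) = 0 := by
    rw [CharP.cast_eq_zero K 3, C_0]
  rw [h, zero_mul, zero_mul]

theorem der_cube_mul (a F : K[X]) : derivative (a ^ 3 * F) = a ^ 3 * derivative F := by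
  rw [derivative_mul, der_cube, zero_mul, zero_add]

theorem der2 (M a F : K[X]) : derivative (derivative (M * (a ^ 3 * F))) =
    a ^ 3 * derivative (derivative (M * F)) := by
  rw [show M * (a ^ 3 * F) = a ^ 3 * (M * F) by ring, der_cube_mul, der_cube_mul]

omit [Fintype K] in
theorem cubeK_inj {x y : K} (h : x ^ 3 = y ^ 3) : x = y := by
  have h1 : (x - y) ^ 3 = 0 := by
    have h3 : (3 : K) = 0 := by
      have : ((3 : ℕ) : K) = 0 := CharP.cast_eq_zero K 3
      exact_mod_cast this
    linear_combination h + (x * y ^ 2 - x ^ 2 * y) * h3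
  exact sub_eq_zero.1 (pow_eq_zero_iff (by norm_num) |>.1 h1)

theorem exists_cube (r : K) : ∃ s : K, s ^ 3 = r := by
  have h : Function.Injective fun x : K => x ^ 3 := fun x y h => cubeK_inj h
  exact Finite.surjective_of_injective h r

theorem coords (D : K[X]) : ∃ a b c : K[X], D = a ^ 3 + X * b ^ 3 + X ^ 2 * c ^ 3 := by
  induction D using Polynomial.induction_on' with
  | add p q hp hq =>
    obtain ⟨a, b, c, rfl⟩ := hp
    obtain ⟨a', b', c', rfl⟩ := hq
    exact ⟨a + a', b + b', c + c', by rw [cube_add, cube_add, cube_add]; ring⟩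
  | monomial n r =>
    obtain ⟨s, rfl⟩ := exists_cube r
    rw [← C_mul_X_pow_eq_monomial]
    have hn : n = 3 * (n / 3) + n % 3 := (Nat.div_add_mod n 3).symm
    have h3 : n % 3 < 3 := Nat.mod_lt _ (by norm_num)
    interval_cases h : n % 3
    · refine ⟨C s * X ^ (n / 3), 0, 0, ?_⟩
      conv_lhs => rw [hn]
      rw [C_pow]
      ring
    · refine ⟨0, C s * X ^ (n / 3), 0, ?_⟩
      conv_lhs => rw [hn]
      rw [C_pow]
      ring
    · refine ⟨0, 0, C s * X ^ (n / 3), ?_⟩
      conv_lhs => rw [hn]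
      rw [C_pow]
      ring

/-- the degree of a polynomial with vanishing second derivative -/
theorem deg_mod {N : K[X]} (h0 : N ≠ 0) (h : derivative (derivative N) = 0) :
    N.natDegree % 3 ≠ 2 := by
  intro h2
  obtain ⟨q, hq⟩ : ∃ q, N.natDegree = 3 * q + 2 := ⟨N.natDegree / 3, by omega⟩
  have h1 := congrArg (fun p : K[X] => p.coeff (3 * q)) h
  simp only [coeff_derivative, coeff_zero] at h1
  have e : 3 * q + 1 + 1 = N.natDegree := by omega
  rw [e, coeff_natDegree] at h1
  have h3 : (3 : K) = 0 := threeK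
  have h4 : N.leadingCoeff * 2 = 0 := by
    have h5 : N.leadingCoeff * (((3 * q + 1 : ℕ) : K) + 1) * (((3 * q : ℕ) : K) + 1) = 0 := h1
    push_cast at h5
    linear_combination h5 - N.leadingCoeff * (3 * (q : K) ^ 2 + 3 * q) * h3
  rcases mul_eq_zero.1 h4 with h5 | h5
  · exact h0 (leadingCoeff_eq_zero.1 h5)
  · have h6 : (1 : K) = 0 := by linear_combination h3 - h5
    exact one_ne_zero h6

/-- minimal elements of a class -/
theorem exists_min (M : K[X]) (hM : M.Monic) (c : ℕ) (hc : c < 2) :
    ∃ F : K[X], F.Monic ∧ (M.natDegree + F.natDegree) % 3 = c ∧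
      derivative (derivative (M * F)) = 0 ∧
      ∀ D : K[X], D ≠ 0 → derivative (derivative (M * D)) = 0 →
        (M.natDegree + D.natDegree) % 3 = c → F.natDegree ≤ D.natDegree := by
  classical
  have hex : ∃ d : ℕ, ∃ D : K[X], D.Monic ∧ D.natDegree = d ∧ (M.natDegree + d) % 3 = c ∧
      derivative (derivative (M * D)) = 0 := by
    refine ⟨2 * M.natDegree + c, M ^ 2 * X ^ c, (hM.pow 2).mul (monic_X_pow c), ?_, by omega, ?_⟩
    · rw [(hM.pow 2).natDegree_mul (monic_X_pow c), hM.natDegree_pow, natDegree_X_pow]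
    · have e : M * (M ^ 2 * X ^ c) = 1 * (M ^ 3 * X ^ c) := by ring
      rw [e, der2, one_mul]
      interval_cases c
      · simp
      · simp
  obtain ⟨F, hF1, hF2, hF3, hF4⟩ := Nat.find_spec hex
  refine ⟨F, hF1, by rw [hF2]; exact hF3, hF4, fun D hD hD2 hD3 => ?_⟩
  rw [hF2]
  refine Nat.find_min' hex ⟨C D.leadingCoeff⁻¹ * D, ?_, ?_, hD3, ?_⟩
  · rw [mul_comm]
    exact monic_mul_leadingCoeff_inv hD
  · exact natDegree_C_mul (inv_ne_zero (leadingCoeff_ne_zero.2 hD))
  · have e : M * (C D.leadingCoeff⁻¹ * D) = C D.leadingCoeff⁻¹ * (M * D) := by ring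
    rw [e, derivative_C_mul, derivative_C_mul, hD2, mul_zero]

/-- one step of the reduction -/
theorem step {M F D : K[X]} (hM : M.Monic) (hF : F.Monic)
    (hFD : F.natDegree ≤ D.natDegree) (hmod : D.natDegree % 3 = F.natDegree % 3) (hD : D ≠ 0)
    (h1 : derivative (derivative (M * F)) = 0) (h2 : derivative (derivative (M * D)) = 0) :
    ∃ a : K[X], (D - a ^ 3 * F).degree < D.degree ∧
      derivative (derivative (M * (D - a ^ 3 * F))) = 0 := by
  obtain ⟨s, hs⟩ := exists_cube D.leadingCoeff
  obtain ⟨j, hj⟩ : ∃ j, D.natDegree = 3 * j + F.natDegree :=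
    ⟨(D.natDegree - F.natDegree) / 3, by omega⟩
  have hs0 : s ≠ 0 := by
    rintro rfl
    exact hD (leadingCoeff_eq_zero.1 (by rw [← hs]; norm_num))
  have e1 : (C s * X ^ j) ^ 3 * F = C D.leadingCoeff * (X ^ (3 * j) * F) := by
    rw [← hs, C_pow]; ring
  have hm : (X ^ (3 * j) * F).Monic := (monic_X_pow _).mul hF
  have hd : (X ^ (3 * j) * F).natDegree = D.natDegree := by
    rw [(monic_X_pow (3 * j)).natDegree_mul hF, natDegree_X_pow, hj]
  refine ⟨C s * X ^ j, ?_, ?_⟩
  · rw [e1]
    have hlc0 : D.leadingCoeff ≠ 0 := leadingCoeff_ne_zero.2 hD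
    refine degree_sub_lt_left ?_ hD ?_
    · rw [degree_C_mul hlc0, degree_eq_natDegree hD, degree_eq_natDegree hm.ne_zero, hd]
    · rw [leadingCoeff_mul, leadingCoeff_C, hm.leadingCoeff, mul_one]
  · rw [mul_sub, derivative_sub, derivative_sub, h2, der2, h1, mul_zero, sub_zero]

theorem span {M F G : K[X]} (hM : M.Monic) (hF : F.Monic) (hG : G.Monic)
    (hF3 : (M.natDegree + F.natDegree) % 3 = 0) (hG3 : (M.natDegree + G.natDegree) % 3 = 1)
    (hF2 : derivative (derivative (M * F)) = 0) (hG2 : derivative (derivative (M * G)) = 0)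
    (hFm : ∀ D : K[X], D ≠ 0 → derivative (derivative (M * D)) = 0 →
        (M.natDegree + D.natDegree) % 3 = 0 → F.natDegree ≤ D.natDegree)
    (hGm : ∀ D : K[X], D ≠ 0 → derivative (derivative (M * D)) = 0 →
        (M.natDegree + D.natDegree) % 3 = 1 → G.natDegree ≤ D.natDegree)
    (n : ℕ) : ∀ D : K[X], D.degree < n → derivative (derivative (M * D)) = 0 →
      ∃ a b : K[X], D = a ^ 3 * F + b ^ 3 * G := by
  induction n with
  | zero =>
    intro D hD _
    have h0 : D = 0 := by
      rw [← degree_eq_bot]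
      exact Nat.WithBot.lt_zero_iff.1 (by simpa using hD)
    exact ⟨0, 0, by rw [h0]; ring⟩
  | succ n ih =>
    intro D hD h2
    by_cases h0 : D = 0
    · exact ⟨0, 0, by rw [h0]; ring⟩
    have hdn : ∀ E : K[X], E.degree < D.degree → E.degree < n := by
      intro E hE
      rw [degree_eq_natDegree h0] at hE hD
      have h3 : D.natDegree ≤ n := by
        have : D.natDegree < n + 1 := by exact_mod_cast hD
        omega
      exact lt_of_lt_of_le hE (by exact_mod_cast h3)
    have hMD : (M * D).natDegree = M.natDegree + D.natDegree := natDegree_mul hM.ne_zero h0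
    have h3 := deg_mod (mul_ne_zero hM.ne_zero h0) h2
    rw [hMD] at h3
    have h4 : (M.natDegree + D.natDegree) % 3 = 0 ∨ (M.natDegree + D.natDegree) % 3 = 1 := by omega
    rcases h4 with h4 | h4
    · obtain ⟨a, ha1, ha2⟩ := step hM hF (hFm D h0 h2 h4) (by omega) h0 hF2 h2
      obtain ⟨a', b', he⟩ := ih _ (hdn _ ha1) ha2
      refine ⟨a' + a, b', ?_⟩
      rw [cube_add]
      linear_combination he
    · obtain ⟨a, ha1, ha2⟩ := step hM hG (hGm D h0 h2 h4) (by omega) h0 hG2 h2
      obtain ⟨a', b', he⟩ := ih _ (hdn _ ha1) ha2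
      refine ⟨a', b' + a, ?_⟩
      rw [cube_add]
      linear_combination he

theorem indep {M F G : K[X]} (hF : F.Monic) (hG : G.Monic)
    (hF3 : (M.natDegree + F.natDegree) % 3 = 0) (hG3 : (M.natDegree + G.natDegree) % 3 = 1)
    {a b : K[X]} (h : a ^ 3 * F + b ^ 3 * G = 0) : a = 0 ∧ b = 0 := by
  have hkey : ∀ a b : K[X], a ≠ 0 → b ≠ 0 → a ^ 3 * F + b ^ 3 * G ≠ 0 := by
    intro a b ha hb h
    have h1 : a ^ 3 * F = - (b ^ 3 * G) := eq_neg_of_add_eq_zero_left h
    have h2 := congrArg natDegree h1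
    rw [natDegree_neg, natDegree_mul (pow_ne_zero 3 ha) hF.ne_zero,
      natDegree_mul (pow_ne_zero 3 hb) hG.ne_zero, natDegree_pow, natDegree_pow] at h2
    omega
  by_cases ha : a = 0
  · subst ha
    refine ⟨rfl, ?_⟩
    have h1 : b ^ 3 * G = 0 := by rw [← h]; ring
    exact pow_eq_zero_iff (by norm_num) |>.1 ((mul_eq_zero.1 h1).resolve_right hG.ne_zero)
  · by_cases hb : b = 0
    · subst hb
      have h1 : a ^ 3 * F = 0 := by rw [← h]; ring
      exact absurd (pow_eq_zero_iff (by norm_num) |>.1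
        ((mul_eq_zero.1 h1).resolve_right hF.ne_zero)) ha
    · exact absurd h (hkey a b ha hb)

theorem unique_rep {M F G : K[X]} (hF : F.Monic) (hG : G.Monic)
    (hF3 : (M.natDegree + F.natDegree) % 3 = 0) (hG3 : (M.natDegree + G.natDegree) % 3 = 1)
    {a b a' b' : K[X]} (h : a ^ 3 * F + b ^ 3 * G = a' ^ 3 * F + b' ^ 3 * G) :
    a = a' ∧ b = b' := by
  have h1 : (a - a') ^ 3 * F + (b - b') ^ 3 * G = 0 := by
    rw [cube_sub, cube_sub]
    linear_combination h
  obtain ⟨h2, h3⟩ := indep hF hG hF3 hG3 h1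
  exact ⟨sub_eq_zero.1 h2, sub_eq_zero.1 h3⟩

/-- the coefficient of the Wronskian -/
theorem wron_coeff {F G : K[X]} (hF : F.Monic) (hG : G.Monic)
    (hFG : G.natDegree % 3 = (F.natDegree + 1) % 3) :
    (F * derivative G - derivative F * G).Monic ∧
      (F * derivative G - derivative F * G).natDegree + 1 = F.natDegree + G.natDegree := by
  have hpos : 0 < F.natDegree + G.natDegree := by omega
  -- the degrees
  have hd1 : (F * derivative G).natDegree ≤ F.natDegree + G.natDegree - 1 := by
    by_cases hG0 : G.natDegree = 0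
    · have h1 : G = 1 := hG.natDegree_eq_zero.1 hG0
      rw [h1]; simp
    · have h1 := natDegree_derivative_le G
      have h2 := natDegree_mul_le (p := F) (q := derivative G)
      omega
  have hd2 : (derivative F * G).natDegree ≤ F.natDegree + G.natDegree - 1 := by
    by_cases hF0 : F.natDegree = 0
    · have h1 : F = 1 := hF.natDegree_eq_zero.1 hF0
      rw [h1]; simp
    · have h1 := natDegree_derivative_le F
      have h2 := natDegree_mul_le (p := derivative F) (q := G)
      omega
  have hd : (F * derivative G - derivative F * G).natDegree ≤ F.natDegree + G.natDegree - 1 :=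
    (natDegree_sub_le _ _).trans (max_le hd1 hd2)
  -- the coefficients
  have hc1 : (F * derivative G).coeff (F.natDegree + G.natDegree - 1) = (G.natDegree : K) := by
    by_cases hG0 : G.natDegree = 0
    · have h1 : G = 1 := hG.natDegree_eq_zero.1 hG0
      rw [h1]; simp
    · have e : F.natDegree + G.natDegree - 1 = F.natDegree + (G.natDegree - 1) := by omega
      rw [e, coeff_mul_add_eq_of_natDegree_le le_rfl (natDegree_derivative_le G), coeff_natDegree,
        hF.leadingCoeff, one_mul, coeff_derivative]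
      have e2 : G.natDegree - 1 + 1 = G.natDegree := by omega
      rw [e2, coeff_natDegree, hG.leadingCoeff, one_mul]
      have e3 : ((G.natDegree - 1 : ℕ) : K) + 1 = ((G.natDegree - 1 + 1 : ℕ) : K) := by push_cast; ring
      rw [e3, e2]
  have hc2 : (derivative F * G).coeff (F.natDegree + G.natDegree - 1) = (F.natDegree : K) := by
    by_cases hF0 : F.natDegree = 0
    · have h1 : F = 1 := hF.natDegree_eq_zero.1 hF0
      rw [h1]; simp
    · have e : F.natDegree + G.natDegree - 1 = (F.natDegree - 1) + G.natDegree := by omega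
      rw [e, coeff_mul_add_eq_of_natDegree_le (natDegree_derivative_le F) le_rfl, coeff_natDegree,
        hG.leadingCoeff, mul_one, coeff_derivative]
      have e2 : F.natDegree - 1 + 1 = F.natDegree := by omega
      rw [e2, coeff_natDegree, hF.leadingCoeff, one_mul]
      have e3 : ((F.natDegree - 1 : ℕ) : K) + 1 = ((F.natDegree - 1 + 1 : ℕ) : K) := by push_cast; ring
      rw [e3, e2]
  have hcast : (G.natDegree : K) - (F.natDegree : K) = 1 := by
    have h3 : (3 : K) = 0 := threeK
    obtain ⟨i, hi⟩ : ∃ i, G.natDegree = 3 * i + (F.natDegree + 1) % 3 :=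
      ⟨G.natDegree / 3, by omega⟩
    obtain ⟨j, hj⟩ : ∃ j, F.natDegree + 1 = 3 * j + (F.natDegree + 1) % 3 :=
      ⟨(F.natDegree + 1) / 3, by omega⟩
    have h1 : (G.natDegree : K) = 3 * (i : K) + (((F.natDegree + 1) % 3 : ℕ) : K) := by
      conv_lhs => rw [hi]
      push_cast; ring
    have h2 : (F.natDegree : K) + 1 = 3 * (j : K) + (((F.natDegree + 1) % 3 : ℕ) : K) := by
      have : ((F.natDegree + 1 : ℕ) : K) = ((3 * j + (F.natDegree + 1) % 3 : ℕ) : K) := by rw [← hj]
      push_cast at this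
      push_cast
      linear_combination this
    linear_combination h1 - h2 + (i - j : K) * h3
  have hc : (F * derivative G - derivative F * G).coeff (F.natDegree + G.natDegree - 1) = 1 := by
    rw [coeff_sub, hc1, hc2, hcast]
  have hmon : (F * derivative G - derivative F * G).Monic := monic_of_natDegree_le_of_coeff_eq_one _ hd hc
  refine ⟨hmon, ?_⟩
  have h1 : F.natDegree + G.natDegree - 1 ≤ (F * derivative G - derivative F * G).natDegree := by
    refine le_natDegree_of_ne_zero ?_
    rw [hc]; exact one_ne_zero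
  omega

theorem main_M (M : K[X]) (hM : M.Monic) (hsq : Squarefree M) : ∃ F G : K[X],
    F.Monic ∧ G.Monic ∧ (M.natDegree + F.natDegree) % 3 = 0 ∧
    (M.natDegree + G.natDegree) % 3 = 1 ∧
    F.natDegree + G.natDegree = M.natDegree + 1 ∧
    F * derivative G - derivative F * G = M ∧
    derivative (derivative (M * F)) = 0 ∧ derivative (derivative (M * G)) = 0 ∧
    (∀ D : K[X], derivative (derivative (M * D)) = 0 → ∃ a b : K[X], D = a ^ 3 * F + b ^ 3 * G) := by
  obtain ⟨F, hF, hF3, hF2, hFm⟩ := exists_min M hM 0 (by norm_num)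
  obtain ⟨G, hG, hG3, hG2, hGm⟩ := exists_min M hM 1 (by norm_num)
  have hspan : ∀ D : K[X], derivative (derivative (M * D)) = 0 →
      ∃ a b : K[X], D = a ^ 3 * F + b ^ 3 * G := fun D hD =>
    span hM hF hG hF3 hG3 hF2 hG2 hFm hGm (D.natDegree + 1) D
      (lt_of_le_of_lt degree_le_natDegree (by exact_mod_cast Nat.lt_succ_self _)) hD
  obtain ⟨W, hW⟩ : ∃ W, W = F * derivative G - derivative F * G := ⟨_, rfl⟩
  obtain ⟨hWm, hWd⟩ := wron_coeff hF hG (by omega)
  rw [← hW] at hWm hWd
  -- the two equations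
  have h1 : derivative (derivative M) * F + 2 * derivative M * derivative F +
      M * derivative (derivative F) = 0 := by
    rw [← hF2]
    simp only [derivative_mul, derivative_add]
    ring
  have h2 : derivative (derivative M) * G + 2 * derivative M * derivative G +
      M * derivative (derivative G) = 0 := by
    rw [← hG2]
    simp only [derivative_mul, derivative_add]
    ring
  have J0 : derivative (derivative M) * W = M * (derivative F * derivative (derivative G) -
      derivative (derivative F) * derivative G) := by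
    rw [hW]
    linear_combination derivative G * h1 - derivative F * h2
  have J1 : 2 * derivative M * W = M * (derivative (derivative F) * G -
      F * derivative (derivative G)) := by
    rw [hW]
    linear_combination F * h2 - G * h1
  -- `M` divides `W`
  have hcop : IsCoprime M (derivative M) := PerfectField.separable_iff_squarefree.2 hsq
  have hMW : M ∣ W := by
    have h3 : M ∣ derivative M * W := by
      refine ⟨2 * (derivative (derivative F) * G - F * derivative (derivative G)), ?_⟩
      linear_combination 2 * J1 - derivative M * W * (three (K := K))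
    exact hcop.dvd_of_dvd_mul_left h3
  obtain ⟨h, hh⟩ := hMW
  have hM0 := hM.ne_zero
  have hh0 : h ≠ 0 := by
    rintro rfl
    rw [mul_zero] at hh
    exact hWm.ne_zero hh
  -- the minors are divisible by `h`
  have K0 : derivative (derivative M) * h = derivative F * derivative (derivative G) -
      derivative (derivative F) * derivative G := by
    apply mul_left_cancel₀ hM0
    rw [← J0, hh]; ring
  have K1 : 2 * derivative M * h = derivative (derivative F) * G - F * derivative (derivative G) := by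
    apply mul_left_cancel₀ hM0
    rw [← J1, hh]; ring
  obtain ⟨f0, f1, f2, hf⟩ := coords F
  obtain ⟨g0, g1, g2, hg⟩ := coords G
  have dF : derivative F = f1 ^ 3 + 2 * X * f2 ^ 3 := by
    rw [hf]
    simp only [derivative_add, derivative_mul, der_cube, derivative_X, derivative_X_pow]
    simp only [Nat.cast_ofNat, map_ofNat]
    ring
  have dG : derivative G = g1 ^ 3 + 2 * X * g2 ^ 3 := by
    rw [hg]
    simp only [derivative_add, derivative_mul, der_cube, derivative_X, derivative_X_pow]
    simp only [Nat.cast_ofNat, map_ofNat]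
    ring
  have ddF : derivative (derivative F) = 2 * f2 ^ 3 := by
    rw [dF]
    simp only [derivative_add, derivative_mul, der_cube, derivative_X, derivative_ofNat]
    ring
  have ddG : derivative (derivative G) = 2 * g2 ^ 3 := by
    rw [dG]
    simp only [derivative_add, derivative_mul, der_cube, derivative_X, derivative_ofNat]
    ring
  have h3 := three (K := K)
  have m12 : f1 ^ 3 * g2 ^ 3 - f2 ^ 3 * g1 ^ 3 = h * (2 * derivative (derivative M)) := by
    rw [ddF, ddG, dF, dG] at K0
    linear_combination (-2) * K0 - (f1 ^ 3 * g2 ^ 3 - f2 ^ 3 * g1 ^ 3) * h3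
  have m02 : f0 ^ 3 * g2 ^ 3 - f2 ^ 3 * g0 ^ 3 =
      h * (2 * derivative M + 4 * X * derivative (derivative M)) := by
    rw [ddF, ddG] at K1
    linear_combination (-1) * K1 + 2 * X * m12 + (f0 ^ 3 * g2 ^ 3 - f2 ^ 3 * g0 ^ 3) * h3 +
      (-2) * f2 ^ 3 * hg + 2 * g2 ^ 3 * hf
  have m01 : f0 ^ 3 * g1 ^ 3 - f1 ^ 3 * g0 ^ 3 =
      h * (M - 2 * X * (2 * derivative M + 4 * X * derivative (derivative M)) -
        X ^ 2 * (2 * derivative (derivative M))) := by
    rw [dF, dG, hh] at hW
    linear_combination (-1) * hW - 2 * X * m02 - X ^ 2 * m12 +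
      (f1 ^ 3 + 2 * X * f2 ^ 3) * hg - (g1 ^ 3 + 2 * X * g2 ^ 3) * hf
  -- saturation
  have sat : ∀ (P a b : K[X]), Irreducible P → P ∣ a * f0 + b * g0 → P ∣ a * f1 + b * g1 →
      P ∣ a * f2 + b * g2 → P ∣ a ∧ P ∣ b := by
    rintro P a b hP ⟨c0, q0⟩ ⟨c1, q1⟩ ⟨c2, q2⟩
    have e0 : a ^ 3 * f0 ^ 3 + b ^ 3 * g0 ^ 3 = P ^ 3 * c0 ^ 3 := by
      rw [← mul_pow, ← mul_pow, ← cube_add, q0, mul_pow]
    have e1 : a ^ 3 * f1 ^ 3 + b ^ 3 * g1 ^ 3 = P ^ 3 * c1 ^ 3 := by
      rw [← mul_pow, ← mul_pow, ← cube_add, q1, mul_pow]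
    have e2 : a ^ 3 * f2 ^ 3 + b ^ 3 * g2 ^ 3 = P ^ 3 * c2 ^ 3 := by
      rw [← mul_pow, ← mul_pow, ← cube_add, q2, mul_pow]
    have e : a ^ 3 * F + b ^ 3 * G = P ^ 3 * (c0 ^ 3 + X * c1 ^ 3 + X ^ 2 * c2 ^ 3) := by
      linear_combination e0 + X * e1 + X ^ 2 * e2 + a ^ 3 * hf + b ^ 3 * hg
    obtain ⟨a1, b1, hab⟩ := hspan (c0 ^ 3 + X * c1 ^ 3 + X ^ 2 * c2 ^ 3) (by
      have h5 : P ^ 3 * derivative (derivative (M * (c0 ^ 3 + X * c1 ^ 3 + X ^ 2 * c2 ^ 3))) = 0 := by
        rw [← der2, ← e, mul_add, derivative_add, derivative_add, der2, der2, hF2, hG2]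
        ring
      exact (mul_eq_zero.1 h5).resolve_left (pow_ne_zero 3 hP.ne_zero))
    have h6 := unique_rep (M := M) hF hG hF3 hG3 (a := a) (b := b) (a' := P * a1) (b' := P * b1)
      (by rw [e, hab]; ring)
    exact ⟨⟨a1, h6.1⟩, ⟨b1, h6.2⟩⟩
  -- `h` is a unit
  have hu : IsUnit h := by
    by_contra hnu
    obtain ⟨P, hP, hPh⟩ := WfDvdMonoid.exists_irreducible_factor hnu hh0
    have d12 : P ∣ f1 * g2 - f2 * g1 := by
      refine hP.prime.dvd_of_dvd_pow (n := 3) ?_
      rw [cube_sub, mul_pow, mul_pow, m12]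
      exact hPh.mul_right _
    have d02 : P ∣ f0 * g2 - f2 * g0 := by
      refine hP.prime.dvd_of_dvd_pow (n := 3) ?_
      rw [cube_sub, mul_pow, mul_pow, m02]
      exact hPh.mul_right _
    have d01 : P ∣ f0 * g1 - f1 * g0 := by
      refine hP.prime.dvd_of_dvd_pow (n := 3) ?_
      rw [cube_sub, mul_pow, mul_pow, m01]
      exact hPh.mul_right _
    by_cases q0 : P ∣ f0
    · by_cases q1 : P ∣ f1
      · by_cases q2 : P ∣ f2
        · have h5 := (sat P 1 0 hP (by simpa using q0) (by simpa using q1) (by simpa using q2)).1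
          exact hP.not_dvd_one h5
        · have h5 := (sat P g2 (-f2) hP (by
            have : g2 * f0 + -f2 * g0 = f0 * g2 - f2 * g0 := by ring
            rw [this]; exact d02) (by
            have : g2 * f1 + -f2 * g1 = f1 * g2 - f2 * g1 := by ring
            rw [this]; exact d12) (by
            have : g2 * f2 + -f2 * g2 = 0 := by ring
            rw [this]; exact dvd_zero _)).2
          exact q2 ((dvd_neg).1 h5)
      · have h5 := (sat P g1 (-f1) hP (by
            have : g1 * f0 + -f1 * g0 = f0 * g1 - f1 * g0 := by ring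
            rw [this]; exact d01) (by
            have : g1 * f1 + -f1 * g1 = 0 := by ring
            rw [this]; exact dvd_zero _) (by
            have : g1 * f2 + -f1 * g2 = -(f1 * g2 - f2 * g1) := by ring
            rw [this]; exact (dvd_neg).2 d12)).2
        exact q1 ((dvd_neg).1 h5)
    · have h5 := (sat P g0 (-f0) hP (by
            have : g0 * f0 + -f0 * g0 = 0 := by ring
            rw [this]; exact dvd_zero _) (by
            have : g0 * f1 + -f0 * g1 = -(f0 * g1 - f1 * g0) := by ring
            rw [this]; exact (dvd_neg).2 d01) (by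
            have : g0 * f2 + -f0 * g2 = -(f0 * g2 - f2 * g0) := by ring
            rw [this]; exact (dvd_neg).2 d02)).2
      exact q0 ((dvd_neg).1 h5)
  have hhm : h.Monic := by
    rw [hh] at hWm
    exact hM.of_mul_monic_left hWm
  have hh1 : h = 1 := hhm.eq_one_of_isUnit hu
  have hWM : W = M := by rw [hh, hh1, mul_one]
  refine ⟨F, G, hF, hG, hF3, hG3, ?_, ?_, hF2, hG2, hspan⟩
  · rw [← hWd, hWM]
  · rw [← hW, hWM]

end

theorem lat : S_lat := by
  intro K _ _ _
  classical
  have h : ∀ M : K[X], ∃ FG : K[X] × K[X], M.Monic → Squarefree M →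
      FG.1.Monic ∧ FG.2.Monic ∧ (M.natDegree + FG.1.natDegree) % 3 = 0 ∧
      (M.natDegree + FG.2.natDegree) % 3 = 1 ∧
      FG.1.natDegree + FG.2.natDegree = M.natDegree + 1 ∧
      FG.1 * derivative FG.2 - derivative FG.1 * FG.2 = M ∧
      derivative (derivative (M * FG.1)) = 0 ∧ derivative (derivative (M * FG.2)) = 0 ∧
      (∀ D : K[X], derivative (derivative (M * D)) = 0 →
        ∃ a b : K[X], D = a ^ 3 * FG.1 + b ^ 3 * FG.2) := by
    intro M
    by_cases h1 : M.Monic ∧ Squarefree M
    · obtain ⟨F, G, h2⟩ := main_M M h1.1 h1.2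
      exact ⟨(F, G), fun _ _ => h2⟩
    · exact ⟨(0, 0), fun h2 h3 => absurd ⟨h2, h3⟩ h1⟩
  choose FG hFG using h
  exact ⟨fun M => (FG M).1, fun M => (FG M).2, fun M hM hsq => hFG M hM hsq⟩

end Pool.Agent.H6.W.Lat
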